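import Pool.Agent.Helper75.Zss.Deg

/-!
# Fermat hypersurfaces of degree 10: the finite check
-/

namespace Pool.Agent.Helper75.Poly

def t10_0 : Simp :=
⟨11, [⟨⟨.ofNat 2, .negSucc 1, .ofNat 6, .ofNat 0, .ofNat 0⟩, ⟨2, 2, 2, 0, 0⟩, ⟨1, 2, 1, 0, 0⟩⟩,
    ⟨⟨.ofNat 4, .ofNat 2, .negSucc 7, .ofNat 0, .ofNat 0⟩, ⟨0, 2, 0, 0, 0⟩, ⟨1, 4, 1, 0, 0⟩⟩,
    ⟨⟨.negSucc 1, .ofNat 0, .ofNat 2, .ofNat 0, .ofNat 0⟩, ⟨2, 0, 2, 0, 0⟩, ⟨1, 10, 3, 0, 0⟩⟩],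
    4, ⟨.ofNat 1, .ofNat 0, .ofNat 1, .ofNat 0, .ofNat 0⟩, ⟨.ofNat 0, .ofNat 2, .ofNat 0,
    .ofNat 0, .ofNat 0⟩, ⟨.ofNat 0, .ofNat 0, .ofNat 2, .ofNat 0, .ofNat 0⟩, ⟨.ofNat 0, .ofNat
    0, .ofNat 0, .ofNat 1, .ofNat 0⟩, ⟨.ofNat 0, .ofNat 0, .ofNat 0, .ofNat 0, .ofNat 1⟩, [0,
    8, 5, 6]⟩

def t10_1 : Simp :=
⟨13, [⟨⟨.ofNat 18, .ofNat 0, .negSucc 5, .ofNat 0, .ofNat 0⟩, ⟨6, 0, 6, 0, 0⟩, ⟨1, 2, 1, 0,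
    0⟩⟩, ⟨⟨.negSucc 3, .negSucc 1, .ofNat 8, .ofNat 0, .ofNat 0⟩, ⟨8, 10, 8, 0, 0⟩, ⟨1, 4, 3,
    0, 0⟩⟩, ⟨⟨.negSucc 1, .ofNat 2, .negSucc 1, .ofNat 0, .ofNat 0⟩, ⟨10, 2, 10, 0, 0⟩, ⟨1, 10,
    3, 0, 0⟩⟩], 12, ⟨.ofNat 1, .ofNat 0, .ofNat 5, .ofNat 0, .ofNat 0⟩, ⟨.ofNat 0, .ofNat 2,
    .ofNat 2, .ofNat 0, .ofNat 0⟩, ⟨.ofNat 0, .ofNat 0, .ofNat 6, .ofNat 0, .ofNat 0⟩, ⟨.ofNat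
    0, .ofNat 0, .ofNat 0, .ofNat 1, .ofNat 0⟩, ⟨.ofNat 0, .ofNat 0, .ofNat 0, .ofNat 0, .ofNat
    1⟩, [0, 12294, 11, 8, 13, 10, 12, 7, 14, 6148, 15, 9]⟩

/-- The cone, its triangulation and the certificates for `m = 10`. -/
def f10 : Fan where
F := [⟨.ofNat 1, .negSucc 0, .ofNat 3, .ofNat 0, .ofNat 0⟩, ⟨.negSucc 0, .ofNat 0, .ofNat 1,
    .ofNat 0, .ofNat 0⟩, ⟨.ofNat 3, .ofNat 0, .negSucc 0, .ofNat 0, .ofNat 0⟩, ⟨.negSucc 0,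
    .ofNat 1, .negSucc 0, .ofNat 0, .ofNat 0⟩, ⟨.ofNat 0, .ofNat 0, .ofNat 0, .ofNat 1, .ofNat
    0⟩, ⟨.ofNat 0, .ofNat 0, .ofNat 0, .negSucc 0, .ofNat 0⟩, ⟨.ofNat 0, .ofNat 0, .ofNat 0,
    .ofNat 0, .ofNat 1⟩, ⟨.ofNat 0, .ofNat 0, .ofNat 0, .ofNat 0, .negSucc 0⟩]
V := [(⟨.ofNat 1, .ofNat 2, .ofNat 1, .ofNat 0, .ofNat 0⟩, 250), (⟨.ofNat 1, .ofNat 4, .ofNat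
    1, .ofNat 0, .ofNat 0⟩, 243), (⟨.ofNat 1, .ofNat 4, .ofNat 3, .ofNat 0, .ofNat 0⟩, 252),
    (⟨.ofNat 1, .ofNat 10, .ofNat 3, .ofNat 0, .ofNat 0⟩, 245)]
C := [⟨6, [(.ofNat 1, 1), (.ofNat 1, 2)], [], .ofNat 2⟩, ⟨9, [(.ofNat 1, 0), (.ofNat 1, 3)],
    [(.ofNat 2, 1)], .ofNat 2⟩]
T := [t10_0, t10_1]
UN := [⟨1, 4, 1, 0, 0⟩, ⟨1, 2, 1, 0, 0⟩, ⟨1, 10, 3, 0, 0⟩, ⟨1, 4, 3, 0, 0⟩, ⟨1, 3, 1, 0, 0⟩,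
    ⟨1, 7, 2, 0, 0⟩, ⟨1, 3, 2, 0, 0⟩, ⟨1, 6, 2, 0, 0⟩, ⟨1, 5, 2, 0, 0⟩, ⟨1, 4, 2, 0, 0⟩, ⟨1, 8,
    3, 0, 0⟩, ⟨1, 5, 3, 0, 0⟩, ⟨1, 6, 3, 0, 0⟩, ⟨1, 9, 3, 0, 0⟩, ⟨1, 7, 3, 0, 0⟩]
hx := 3
hy := 0
hz := 0
hl := 10
bx := (.ofNat 2, [(.ofNat 1, ⟨.ofNat 1, .negSucc 0, .ofNat 3, .ofNat 0, .ofNat 0⟩), (.ofNat 1,
    ⟨.negSucc 0, .ofNat 1, .negSucc 0, .ofNat 0, .ofNat 0⟩)])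
bx' := (.ofNat 1, [(.ofNat 1, ⟨.ofNat 3, .ofNat 0, .negSucc 0, .ofNat 0, .ofNat 0⟩)])
bY := (.ofNat 1, [(.ofNat 1, ⟨.ofNat 0, .ofNat 0, .ofNat 0, .ofNat 1, .ofNat 0⟩)])
bY' := (.ofNat 1, [(.ofNat 1, ⟨.ofNat 0, .ofNat 0, .ofNat 0, .negSucc 0, .ofNat 0⟩)])
bz := (.ofNat 1, [(.ofNat 1, ⟨.ofNat 0, .ofNat 0, .ofNat 0, .ofNat 0, .ofNat 1⟩)])
bz' := (.ofNat 1, [(.ofNat 1, ⟨.ofNat 0, .ofNat 0, .ofNat 0, .ofNat 0, .negSucc 0⟩)])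
bl := (.ofNat 3, [(.ofNat 2, ⟨.ofNat 1, .negSucc 0, .ofNat 3, .ofNat 0, .ofNat 0⟩), (.ofNat 1,
    ⟨.ofNat 3, .ofNat 0, .negSucc 0, .ofNat 0, .ofNat 0⟩), (.ofNat 5, ⟨.negSucc 0, .ofNat 1,
    .negSucc 0, .ofNat 0, .ofNat 0⟩)])
bl' := (.ofNat 1, [(.ofNat 1, ⟨.ofNat 1, .negSucc 0, .ofNat 3, .ofNat 0, .ofNat 0⟩), (.ofNat 3,
    ⟨.ofNat 3, .ofNat 0, .negSucc 0, .ofNat 0, .ofNat 0⟩)])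
r := 3

/-- Partitions of `10` that realize the lattice points of level one. -/
def r10 : List (List ℕ) :=
[[1, 1, 4, 4], [5, 5], [1, 1, 1, 1, 1, 1, 1, 1, 1, 1], [2, 2, 3, 3], [2, 4, 4], [1, 1, 1, 1, 1,
    1, 4], [3, 3, 4], [1, 1, 1, 1, 2, 4], [1, 1, 2, 2, 4], [2, 2, 2, 4], [1, 1, 1, 1, 1, 1, 2,
    2], [2, 2, 2, 2, 2], [1, 1, 2, 2, 2, 2], [1, 1, 1, 1, 1, 1, 1, 1, 2], [1, 1, 1, 1, 2, 2,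
    2]]

theorem f10_A : f10.okA = true := by decide +kernel

theorem f10_B : f10.okB = true := by decide +kernel

theorem f10_good : good f10.F f10.UN 10 3 0 0 r10 = true := by
  decide +kernel

end Pool.Agent.Helper75.Poly
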