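import Pool.Agent.Helper75.Zss.Deg

/-!
# Fermat hypersurfaces of degree 12: the finite check
-/

namespace Pool.Agent.Helper75.Poly

def t12_0 : Simp :=
⟨13, [⟨⟨.ofNat 30, .ofNat 0, .negSucc 5, .ofNat 0, .ofNat 0⟩, ⟨6, 0, 18, 0, 0⟩, ⟨1, 2, 1, 0,
    0⟩⟩, ⟨⟨.negSucc 1, .negSucc 3, .ofNat 10, .ofNat 0, .ofNat 0⟩, ⟨22, 20, 10, 0, 0⟩, ⟨1, 6,
    5, 0, 0⟩⟩, ⟨⟨.negSucc 3, .ofNat 4, .negSucc 3, .ofNat 0, .ofNat 0⟩, ⟨20, 4, 20, 0, 0⟩, ⟨1,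
    12, 5, 0, 0⟩⟩], 24, ⟨.ofNat 1, .ofNat 0, .ofNat 5, .ofNat 0, .ofNat 0⟩, ⟨.ofNat 0, .ofNat
    2, .ofNat 8, .ofNat 0, .ofNat 0⟩, ⟨.ofNat 0, .ofNat 0, .ofNat 12, .ofNat 0, .ofNat 0⟩,
    ⟨.ofNat 0, .ofNat 0, .ofNat 0, .ofNat 1, .ofNat 0⟩, ⟨.ofNat 0, .ofNat 0, .ofNat 0, .ofNat
    0, .ofNat 1⟩, [0, 23558, 12291, 17, 23, 7, 11, 18435, 24, 6147, 10, 16, 25, 8, 21514, 15,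
    21, 9219, 13, 19, 22, 25606, 14, 20]⟩

def t12_1 : Simp :=
⟨11, [⟨⟨.ofNat 8, .negSucc 3, .ofNat 8, .ofNat 0, .ofNat 0⟩, ⟨0, 4, 0, 0, 0⟩, ⟨1, 2, 1, 0, 0⟩⟩,
    ⟨⟨.ofNat 2, .ofNat 4, .negSucc 9, .ofNat 0, .ofNat 0⟩, ⟨2, 4, 6, 0, 0⟩, ⟨1, 4, 1, 0, 0⟩⟩,
    ⟨⟨.negSucc 1, .ofNat 0, .ofNat 2, .ofNat 0, .ofNat 0⟩, ⟨6, 0, 2, 0, 0⟩, ⟨1, 12, 5, 0, 0⟩⟩],
    8, ⟨.ofNat 1, .ofNat 0, .ofNat 1, .ofNat 0, .ofNat 0⟩, ⟨.ofNat 0, .ofNat 2, .ofNat 0,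
    .ofNat 0, .ofNat 0⟩, ⟨.ofNat 0, .ofNat 0, .ofNat 4, .ofNat 0, .ofNat 0⟩, ⟨.ofNat 0, .ofNat
    0, .ofNat 0, .ofNat 1, .ofNat 0⟩, ⟨.ofNat 0, .ofNat 0, .ofNat 0, .ofNat 0, .ofNat 1⟩, [0,
    6, 12, 18, 5, 9, 14, 15361]⟩

/-- The cone, its triangulation and the certificates for `m = 12`. -/
def f12 : Fan where
F := [⟨.ofNat 5, .ofNat 0, .negSucc 0, .ofNat 0, .ofNat 0⟩, ⟨.ofNat 2, .negSucc 0, .ofNat 2,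
    .ofNat 0, .ofNat 0⟩, ⟨.negSucc 0, .ofNat 0, .ofNat 1, .ofNat 0, .ofNat 0⟩, ⟨.negSucc 0,
    .ofNat 1, .negSucc 0, .ofNat 0, .ofNat 0⟩, ⟨.ofNat 0, .ofNat 0, .ofNat 0, .ofNat 1, .ofNat
    0⟩, ⟨.ofNat 0, .ofNat 0, .ofNat 0, .negSucc 0, .ofNat 0⟩, ⟨.ofNat 0, .ofNat 0, .ofNat 0,
    .ofNat 0, .ofNat 1⟩, ⟨.ofNat 0, .ofNat 0, .ofNat 0, .ofNat 0, .negSucc 0⟩]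
V := [(⟨.ofNat 1, .ofNat 2, .ofNat 1, .ofNat 0, .ofNat 0⟩, 252), (⟨.ofNat 1, .ofNat 4, .ofNat
    1, .ofNat 0, .ofNat 0⟩, 246), (⟨.ofNat 1, .ofNat 6, .ofNat 5, .ofNat 0, .ofNat 0⟩, 249),
    (⟨.ofNat 1, .ofNat 12, .ofNat 5, .ofNat 0, .ofNat 0⟩, 243)]
C := [⟨5, [(.ofNat 1, 0), (.ofNat 1, 2)], [], .ofNat 4⟩, ⟨10, [(.ofNat 1, 1), (.ofNat 1, 3)],
    [(.ofNat 1, 2)], .ofNat 2⟩]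
T := [t12_0, t12_1]
UN := [⟨1, 4, 1, 0, 0⟩, ⟨1, 2, 1, 0, 0⟩, ⟨1, 6, 5, 0, 0⟩, ⟨1, 12, 5, 0, 0⟩, ⟨1, 3, 1, 0, 0⟩,
    ⟨1, 6, 2, 0, 0⟩, ⟨1, 4, 2, 0, 0⟩, ⟨1, 3, 2, 0, 0⟩, ⟨1, 5, 2, 0, 0⟩, ⟨1, 6, 3, 0, 0⟩, ⟨1, 4,
    3, 0, 0⟩, ⟨1, 8, 3, 0, 0⟩, ⟨1, 5, 3, 0, 0⟩, ⟨1, 7, 3, 0, 0⟩, ⟨1, 9, 4, 0, 0⟩, ⟨1, 6, 4, 0,
    0⟩, ⟨1, 8, 4, 0, 0⟩, ⟨1, 10, 4, 0, 0⟩, ⟨1, 5, 4, 0, 0⟩, ⟨1, 7, 4, 0, 0⟩, ⟨1, 9, 5, 0, 0⟩,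
    ⟨1, 11, 5, 0, 0⟩, ⟨1, 8, 5, 0, 0⟩, ⟨1, 10, 5, 0, 0⟩, ⟨1, 7, 5, 0, 0⟩]
hx := 5
hy := 0
hz := 0
hl := 12
bx := (.ofNat 4, [(.ofNat 1, ⟨.ofNat 5, .ofNat 0, .negSucc 0, .ofNat 0, .ofNat 0⟩), (.ofNat 5,
    ⟨.negSucc 0, .ofNat 0, .ofNat 1, .ofNat 0, .ofNat 0⟩)])
bx' := (.ofNat 1, [(.ofNat 1, ⟨.ofNat 5, .ofNat 0, .negSucc 0, .ofNat 0, .ofNat 0⟩)])
bY := (.ofNat 1, [(.ofNat 1, ⟨.ofNat 0, .ofNat 0, .ofNat 0, .ofNat 1, .ofNat 0⟩)])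
bY' := (.ofNat 1, [(.ofNat 1, ⟨.ofNat 0, .ofNat 0, .ofNat 0, .negSucc 0, .ofNat 0⟩)])
bz := (.ofNat 1, [(.ofNat 1, ⟨.ofNat 0, .ofNat 0, .ofNat 0, .ofNat 0, .ofNat 1⟩)])
bz' := (.ofNat 1, [(.ofNat 1, ⟨.ofNat 0, .ofNat 0, .ofNat 0, .ofNat 0, .negSucc 0⟩)])
bl := (.ofNat 1, [(.ofNat 1, ⟨.ofNat 2, .negSucc 0, .ofNat 2, .ofNat 0, .ofNat 0⟩), (.ofNat 2,
    ⟨.negSucc 0, .ofNat 1, .negSucc 0, .ofNat 0, .ofNat 0⟩)])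
bl' := (.ofNat 1, [(.ofNat 2, ⟨.ofNat 5, .ofNat 0, .negSucc 0, .ofNat 0, .ofNat 0⟩), (.ofNat 1,
    ⟨.ofNat 2, .negSucc 0, .ofNat 2, .ofNat 0, .ofNat 0⟩)])
r := 3

/-- Partitions of `12` that realize the lattice points of level one. -/
def r12 : List (List ℕ) :=
[[3, 3, 3, 3], [6, 6], [2, 2, 2, 2, 2, 2], [1, 1, 1, 1, 1, 1, 1, 1, 1, 1, 1, 1], [3, 4, 5], [1,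
    1, 1, 3, 3, 3], [2, 3, 3, 4], [4, 4, 4], [1, 2, 3, 3, 3], [1, 1, 2, 2, 3, 3], [2, 2, 4, 4],
    [1, 1, 1, 1, 1, 1, 3, 3], [2, 2, 2, 3, 3], [1, 1, 1, 1, 2, 3, 3], [1, 1, 1, 1, 1, 1, 1, 2,
    3], [1, 2, 2, 2, 2, 3], [1, 1, 1, 1, 1, 2, 2, 3], [1, 1, 1, 1, 1, 1, 1, 1, 1, 3], [2, 2, 2,
    2, 4], [1, 1, 1, 2, 2, 2, 3], [1, 1, 1, 1, 1, 1, 2, 2, 2], [1, 1, 1, 1, 1, 1, 1, 1, 1, 1,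
    2], [1, 1, 1, 1, 2, 2, 2, 2], [1, 1, 1, 1, 1, 1, 1, 1, 2, 2], [1, 1, 2, 2, 2, 2, 2]]

theorem f12_A : f12.okA = true := by decide +kernel

theorem f12_B : f12.okB = true := by decide +kernel

theorem f12_good : good f12.F f12.UN 12 5 0 0 r12 = true := by
  decide +kernel

end Pool.Agent.Helper75.Poly
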