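import Pool.Agent.Helper75.Zss.Deg

/-!
# Fermat hypersurfaces of degree 15: the finite check
-/

namespace Pool.Agent.Helper75.Poly

def t15_0 : Simp :=
⟨136449, [⟨⟨.ofNat 3, .ofNat 0, .ofNat 3, .ofNat 3, .negSucc 2⟩, ⟨3, 0, 3, 3, 3⟩, ⟨1, 2, 1, 1,
    1⟩⟩, ⟨⟨.negSucc 5, .ofNat 0, .ofNat 6, .ofNat 0, .ofNat 0⟩, ⟨0, 0, 0, 0, 0⟩, ⟨1, 15, 2, 4,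
    7⟩⟩, ⟨⟨.negSucc 2, .ofNat 0, .ofNat 9, .negSucc 8, .ofNat 3⟩, ⟨3, 0, 3, 3, 3⟩, ⟨1, 4, 1, 1,
    3⟩⟩, ⟨⟨.ofNat 0, .negSucc 1, .negSucc 3, .ofNat 6, .ofNat 2⟩, ⟨0, 4, 2, 0, 2⟩, ⟨1, 5, 1, 2,
    4⟩⟩, ⟨⟨.ofNat 12, .ofNat 2, .negSucc 13, .ofNat 0, .negSucc 1⟩, ⟨0, 2, 4, 0, 4⟩, ⟨1, 8, 1,
    2, 4⟩⟩], 6, ⟨.ofNat 1, .ofNat 0, .ofNat 0, .ofNat 0, .ofNat 3⟩, ⟨.ofNat 0, .ofNat 1, .ofNat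
    0, .ofNat 0, .ofNat 4⟩, ⟨.ofNat 0, .ofNat 0, .ofNat 1, .ofNat 0, .ofNat 5⟩, ⟨.ofNat 0,
    .ofNat 0, .ofNat 0, .ofNat 1, .ofNat 3⟩, ⟨.ofNat 0, .ofNat 0, .ofNat 0, .ofNat 0, .ofNat
    6⟩, [0, 38921, 39, 20, 46, 30729]⟩

def t15_1 : Simp :=
⟨134401, [⟨⟨.ofNat 1, .ofNat 0, .ofNat 1, .ofNat 1, .negSucc 0⟩, ⟨1, 0, 1, 1, 1⟩, ⟨1, 2, 1, 1,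
    1⟩⟩, ⟨⟨.negSucc 1, .ofNat 0, .ofNat 2, .ofNat 0, .ofNat 0⟩, ⟨0, 0, 0, 0, 0⟩, ⟨1, 15, 2, 4,
    7⟩⟩, ⟨⟨.negSucc 0, .negSucc 1, .negSucc 0, .ofNat 3, .ofNat 3⟩, ⟨1, 0, 1, 1, 1⟩, ⟨1, 4, 1,
    1, 3⟩⟩, ⟨⟨.ofNat 0, .ofNat 2, .ofNat 4, .negSucc 5, .negSucc 1⟩, ⟨0, 0, 0, 0, 0⟩, ⟨1, 5, 1,
    1, 3⟩⟩, ⟨⟨.ofNat 4, .ofNat 0, .negSucc 5, .ofNat 2, .ofNat 0⟩, ⟨0, 0, 0, 0, 0⟩, ⟨1, 8, 1,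
    2, 4⟩⟩], 2, ⟨.ofNat 1, .ofNat 0, .ofNat 0, .ofNat 0, .ofNat 1⟩, ⟨.ofNat 0, .ofNat 1, .ofNat
    0, .ofNat 0, .ofNat 0⟩, ⟨.ofNat 0, .ofNat 0, .ofNat 1, .ofNat 0, .ofNat 1⟩, ⟨.ofNat 0,
    .ofNat 0, .ofNat 0, .ofNat 1, .ofNat 1⟩, ⟨.ofNat 0, .ofNat 0, .ofNat 0, .ofNat 0, .ofNat
    2⟩, [0, 20]⟩

def t15_2 : Simp :=
⟨19713, [⟨⟨.ofNat 3, .ofNat 0, .ofNat 3, .ofNat 3, .negSucc 2⟩, ⟨3, 0, 3, 3, 3⟩, ⟨1, 2, 1, 1,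
    1⟩⟩, ⟨⟨.negSucc 1, .ofNat 0, .ofNat 0, .ofNat 2, .ofNat 0⟩, ⟨4, 0, 0, 2, 0⟩, ⟨1, 15, 2, 4,
    7⟩⟩, ⟨⟨.negSucc 2, .negSucc 5, .negSucc 2, .ofNat 9, .ofNat 9⟩, ⟨3, 0, 3, 3, 3⟩, ⟨1, 4, 1,
    1, 3⟩⟩, ⟨⟨.ofNat 12, .ofNat 6, .negSucc 5, .negSucc 11, .negSucc 5⟩, ⟨0, 0, 0, 0, 0⟩, ⟨1,
    5, 1, 1, 3⟩⟩, ⟨⟨.negSucc 3, .ofNat 0, .ofNat 6, .negSucc 1, .ofNat 0⟩, ⟨2, 0, 0, 4, 0⟩, ⟨1,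
    6, 2, 1, 4⟩⟩], 6, ⟨.ofNat 1, .ofNat 0, .ofNat 0, .ofNat 1, .ofNat 0⟩, ⟨.ofNat 0, .ofNat 1,
    .ofNat 0, .ofNat 0, .ofNat 0⟩, ⟨.ofNat 0, .ofNat 0, .ofNat 1, .ofNat 0, .ofNat 1⟩, ⟨.ofNat
    0, .ofNat 0, .ofNat 0, .ofNat 3, .ofNat 1⟩, ⟨.ofNat 0, .ofNat 0, .ofNat 0, .ofNat 0, .ofNat
    2⟩, [0, 20, 60425, 69, 85, 82953]⟩

def t15_3 : Simp :=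
⟨25857, [⟨⟨.ofNat 3, .ofNat 0, .ofNat 3, .ofNat 3, .negSucc 2⟩, ⟨3, 0, 3, 3, 3⟩, ⟨1, 2, 1, 1,
    1⟩⟩, ⟨⟨.negSucc 1, .ofNat 0, .ofNat 0, .ofNat 2, .ofNat 0⟩, ⟨4, 0, 0, 2, 0⟩, ⟨1, 15, 2, 4,
    7⟩⟩, ⟨⟨.ofNat 9, .ofNat 0, .negSucc 8, .negSucc 2, .ofNat 3⟩, ⟨3, 0, 3, 3, 3⟩, ⟨1, 4, 1, 1,
    3⟩⟩, ⟨⟨.negSucc 11, .negSucc 5, .ofNat 6, .ofNat 12, .ofNat 6⟩, ⟨0, 0, 0, 0, 0⟩, ⟨1, 5, 2,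
    1, 4⟩⟩, ⟨⟨.ofNat 8, .ofNat 6, .ofNat 0, .negSucc 13, .negSucc 5⟩, ⟨2, 0, 0, 4, 0⟩, ⟨1, 6,
    2, 1, 4⟩⟩], 6, ⟨.ofNat 1, .ofNat 0, .ofNat 0, .ofNat 1, .ofNat 0⟩, ⟨.ofNat 0, .ofNat 1,
    .ofNat 0, .ofNat 0, .ofNat 0⟩, ⟨.ofNat 0, .ofNat 0, .ofNat 1, .ofNat 0, .ofNat 1⟩, ⟨.ofNat
    0, .ofNat 0, .ofNat 0, .ofNat 3, .ofNat 1⟩, ⟨.ofNat 0, .ofNat 0, .ofNat 0, .ofNat 0, .ofNat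
    2⟩, [0, 20, 60425, 69, 85, 82953]⟩

def t15_4 : Simp :=
⟨267521, [⟨⟨.ofNat 7, .ofNat 0, .ofNat 7, .ofNat 7, .negSucc 6⟩, ⟨7, 0, 7, 7, 7⟩, ⟨1, 2, 1, 1,
    1⟩⟩, ⟨⟨.negSucc 1, .ofNat 2, .ofNat 0, .ofNat 0, .negSucc 1⟩, ⟨12, 2, 0, 0, 12⟩, ⟨1, 15, 2,
    4, 7⟩⟩, ⟨⟨.negSucc 6, .ofNat 0, .ofNat 21, .negSucc 20, .ofNat 7⟩, ⟨7, 0, 7, 7, 7⟩, ⟨1, 4,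
    1, 1, 3⟩⟩, ⟨⟨.ofNat 28, .ofNat 0, .negSucc 41, .ofNat 14, .ofNat 0⟩, ⟨0, 0, 0, 0, 0⟩, ⟨1,
    5, 1, 2, 4⟩⟩, ⟨⟨.negSucc 11, .negSucc 1, .ofNat 14, .ofNat 0, .ofNat 2⟩, ⟨2, 12, 0, 0, 2⟩,
    ⟨1, 8, 2, 4, 7⟩⟩], 14, ⟨.ofNat 1, .ofNat 0, .ofNat 0, .ofNat 0, .ofNat 13⟩, ⟨.ofNat 0,
    .ofNat 1, .ofNat 0, .ofNat 0, .ofNat 8⟩, ⟨.ofNat 0, .ofNat 0, .ofNat 1, .ofNat 0, .ofNat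
    7⟩, ⟨.ofNat 0, .ofNat 0, .ofNat 0, .ofNat 1, .ofNat 7⟩, ⟨.ofNat 0, .ofNat 0, .ofNat 0,
    .ofNat 0, .ofNat 14⟩, [0, 90121, 89, 83977, 84, 74761, 74, 20, 90, 88073, 87, 79881, 79,
    66569]⟩

def t15_5 : Simp :=
⟨271617, [⟨⟨.ofNat 21, .ofNat 0, .ofNat 21, .ofNat 21, .negSucc 20⟩, ⟨21, 0, 21, 21, 21⟩, ⟨1,
    2, 1, 1, 1⟩⟩, ⟨⟨.negSucc 5, .ofNat 6, .ofNat 0, .ofNat 0, .negSucc 5⟩, ⟨36, 6, 0, 0, 36⟩,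
    ⟨1, 15, 2, 4, 7⟩⟩, ⟨⟨.ofNat 63, .ofNat 0, .negSucc 62, .negSucc 20, .ofNat 21⟩, ⟨21, 0, 21,
    21, 21⟩, ⟨1, 4, 1, 1, 3⟩⟩, ⟨⟨.negSucc 27, .ofNat 0, .ofNat 42, .negSucc 13, .ofNat 0⟩, ⟨14,
    0, 0, 28, 0⟩, ⟨1, 5, 2, 1, 4⟩⟩, ⟨⟨.negSucc 7, .negSucc 5, .ofNat 0, .ofNat 14, .ofNat 6⟩,
    ⟨34, 36, 0, 14, 6⟩, ⟨1, 8, 2, 4, 7⟩⟩], 42, ⟨.ofNat 1, .ofNat 0, .ofNat 0, .ofNat 1, .ofNat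
    6⟩, ⟨.ofNat 0, .ofNat 1, .ofNat 0, .ofNat 0, .ofNat 8⟩, ⟨.ofNat 0, .ofNat 0, .ofNat 1,
    .ofNat 0, .ofNat 7⟩, ⟨.ofNat 0, .ofNat 0, .ofNat 0, .ofNat 3, .ofNat 7⟩, ⟨.ofNat 0, .ofNat
    0, .ofNat 0, .ofNat 0, .ofNat 14⟩, [0, 90121, 89, 83977, 84, 74761, 74, 20, 90, 88073, 87,
    79881, 79, 66569, 36873, 92207, 93360137, 89135, 72369161, 62, 45065, 47, 94408713, 91183,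
    91262985, 70674, 53257, 56, 58, 94421001, 87058, 76809, 77, 65545, 66, 49161, 92218,
    89146377, 83, 71689, 72, 56329]⟩

def t15_6 : Simp :=
⟨135433, [⟨⟨.ofNat 0, .ofNat 0, .ofNat 18, .negSucc 8, .ofNat 0⟩, ⟨0, 0, 0, 0, 0⟩, ⟨1, 2, 1, 1,
    1⟩⟩, ⟨⟨.ofNat 3, .ofNat 0, .negSucc 8, .ofNat 9, .negSucc 2⟩, ⟨3, 0, 0, 0, 6⟩, ⟨1, 3, 1, 2,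
    1⟩⟩, ⟨⟨.negSucc 8, .ofNat 0, .ofNat 9, .ofNat 0, .ofNat 0⟩, ⟨0, 0, 0, 0, 0⟩, ⟨1, 15, 2, 4,
    7⟩⟩, ⟨⟨.negSucc 1, .negSucc 2, .ofNat 0, .ofNat 3, .ofNat 5⟩, ⟨7, 6, 0, 3, 5⟩, ⟨1, 5, 1, 2,
    4⟩⟩, ⟨⟨.ofNat 17, .ofNat 3, .negSucc 17, .negSucc 2, .negSucc 1⟩, ⟨8, 3, 0, 6, 7⟩, ⟨1, 8,
    1, 2, 4⟩⟩], 9, ⟨.ofNat 1, .ofNat 0, .ofNat 0, .ofNat 0, .ofNat 4⟩, ⟨.ofNat 0, .ofNat 1,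
    .ofNat 0, .ofNat 0, .ofNat 6⟩, ⟨.ofNat 0, .ofNat 0, .ofNat 1, .ofNat 0, .ofNat 0⟩, ⟨.ofNat
    0, .ofNat 0, .ofNat 0, .ofNat 1, .ofNat 3⟩, ⟨.ofNat 0, .ofNat 0, .ofNat 0, .ofNat 0, .ofNat
    9⟩, [0, 16388, 38, 39, 22, 15371, 46, 47108, 30]⟩

def t15_7 : Simp :=
⟨266505, [⟨⟨.ofNat 0, .ofNat 0, .ofNat 42, .negSucc 20, .ofNat 0⟩, ⟨0, 0, 0, 0, 0⟩, ⟨1, 2, 1,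
    1, 1⟩⟩, ⟨⟨.ofNat 7, .ofNat 0, .negSucc 20, .ofNat 21, .negSucc 6⟩, ⟨7, 0, 0, 0, 14⟩, ⟨1, 3,
    1, 2, 1⟩⟩, ⟨⟨.negSucc 3, .ofNat 3, .ofNat 3, .negSucc 2, .negSucc 1⟩, ⟨17, 3, 3, 18, 19⟩,
    ⟨1, 15, 2, 4, 7⟩⟩, ⟨⟨.ofNat 35, .ofNat 0, .negSucc 41, .ofNat 0, .ofNat 7⟩, ⟨14, 0, 0, 0,
    7⟩, ⟨1, 5, 1, 2, 4⟩⟩, ⟨⟨.negSucc 16, .negSucc 2, .ofNat 18, .ofNat 3, .ofNat 2⟩, ⟨4, 18,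
    18, 3, 2⟩, ⟨1, 8, 2, 4, 7⟩⟩], 21, ⟨.ofNat 1, .ofNat 0, .ofNat 0, .ofNat 0, .ofNat 19⟩,
    ⟨.ofNat 0, .ofNat 1, .ofNat 0, .ofNat 0, .ofNat 12⟩, ⟨.ofNat 0, .ofNat 0, .ofNat 1, .ofNat
    0, .ofNat 12⟩, ⟨.ofNat 0, .ofNat 0, .ofNat 0, .ofNat 1, .ofNat 9⟩, ⟨.ofNat 0, .ofNat 0,
    .ofNat 0, .ofNat 0, .ofNat 21⟩, [0, 19460, 90123, 89, 91140, 83979, 84, 86020, 74763, 74,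
    75780, 89103, 90, 92164, 88075, 87, 89092, 79883, 79, 80900, 66571]⟩

def t15_8 : Simp :=
⟨164105, [⟨⟨.ofNat 0, .ofNat 0, .ofNat 4, .negSucc 1, .ofNat 0⟩, ⟨0, 0, 0, 0, 0⟩, ⟨1, 2, 1, 1,
    1⟩⟩, ⟨⟨.ofNat 0, .negSucc 0, .negSucc 1, .ofNat 3, .ofNat 1⟩, ⟨0, 1, 0, 1, 1⟩, ⟨1, 3, 1, 2,
    1⟩⟩, ⟨⟨.negSucc 1, .ofNat 0, .ofNat 2, .ofNat 0, .ofNat 0⟩, ⟨0, 0, 0, 0, 0⟩, ⟨1, 15, 2, 4,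
    7⟩⟩, ⟨⟨.ofNat 2, .ofNat 3, .ofNat 0, .negSucc 2, .negSucc 4⟩, ⟨0, 1, 0, 1, 1⟩, ⟨1, 7, 1, 2,
    3⟩⟩, ⟨⟨.ofNat 2, .negSucc 1, .negSucc 3, .ofNat 2, .ofNat 4⟩, ⟨0, 0, 0, 0, 0⟩, ⟨1, 8, 1, 2,
    4⟩⟩], 2, ⟨.ofNat 1, .ofNat 0, .ofNat 0, .ofNat 0, .ofNat 0⟩, ⟨.ofNat 0, .ofNat 1, .ofNat 0,
    .ofNat 0, .ofNat 1⟩, ⟨.ofNat 0, .ofNat 0, .ofNat 1, .ofNat 0, .ofNat 0⟩, ⟨.ofNat 0, .ofNat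
    0, .ofNat 0, .ofNat 1, .ofNat 1⟩, ⟨.ofNat 0, .ofNat 0, .ofNat 0, .ofNat 0, .ofNat 2⟩, [0,
    27]⟩

def t15_9 : Simp :=
⟨65689, [⟨⟨.ofNat 0, .ofNat 0, .ofNat 4, .negSucc 1, .ofNat 0⟩, ⟨0, 0, 0, 0, 0⟩, ⟨1, 2, 1, 1,
    1⟩⟩, ⟨⟨.ofNat 0, .ofNat 4, .negSucc 3, .negSucc 1, .negSucc 1⟩, ⟨0, 0, 0, 0, 0⟩, ⟨1, 3, 1,
    2, 1⟩⟩, ⟨⟨.ofNat 4, .negSucc 3, .negSucc 1, .ofNat 4, .ofNat 2⟩, ⟨0, 0, 0, 0, 0⟩, ⟨1, 3, 1,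
    2, 2⟩⟩, ⟨⟨.negSucc 0, .negSucc 0, .ofNat 2, .ofNat 1, .ofNat 0⟩, ⟨1, 1, 0, 1, 0⟩, ⟨1, 5, 2,
    4, 2⟩⟩, ⟨⟨.negSucc 0, .ofNat 1, .ofNat 0, .negSucc 0, .ofNat 0⟩, ⟨1, 1, 0, 1, 0⟩, ⟨1, 7, 2,
    4, 6⟩⟩], 2, ⟨.ofNat 1, .ofNat 0, .ofNat 0, .ofNat 1, .ofNat 0⟩, ⟨.ofNat 0, .ofNat 1, .ofNat
    0, .ofNat 1, .ofNat 0⟩, ⟨.ofNat 0, .ofNat 0, .ofNat 1, .ofNat 0, .ofNat 0⟩, ⟨.ofNat 0,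
    .ofNat 0, .ofNat 0, .ofNat 2, .ofNat 0⟩, ⟨.ofNat 0, .ofNat 0, .ofNat 0, .ofNat 0, .ofNat
    1⟩, [0, 43]⟩

def t15_10 : Simp :=
⟨266265, [⟨⟨.ofNat 0, .ofNat 0, .ofNat 4, .negSucc 1, .ofNat 0⟩, ⟨0, 0, 0, 0, 0⟩, ⟨1, 2, 1, 1,
    1⟩⟩, ⟨⟨.negSucc 1, .ofNat 2, .ofNat 0, .ofNat 0, .negSucc 1⟩, ⟨0, 0, 0, 0, 0⟩, ⟨1, 3, 1, 2,
    1⟩⟩, ⟨⟨.ofNat 4, .negSucc 2, .negSucc 2, .ofNat 3, .ofNat 2⟩, ⟨0, 1, 1, 1, 0⟩, ⟨1, 3, 1, 2,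
    2⟩⟩, ⟨⟨.ofNat 2, .ofNat 1, .negSucc 2, .negSucc 0, .ofNat 0⟩, ⟨0, 1, 1, 1, 0⟩, ⟨1, 5, 1, 2,
    4⟩⟩, ⟨⟨.negSucc 1, .ofNat 0, .ofNat 2, .ofNat 0, .ofNat 0⟩, ⟨0, 0, 0, 0, 0⟩, ⟨1, 8, 2, 4,
    7⟩⟩], 2, ⟨.ofNat 1, .ofNat 0, .ofNat 0, .ofNat 0, .ofNat 0⟩, ⟨.ofNat 0, .ofNat 1, .ofNat 0,
    .ofNat 1, .ofNat 0⟩, ⟨.ofNat 0, .ofNat 0, .ofNat 1, .ofNat 1, .ofNat 0⟩, ⟨.ofNat 0, .ofNat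
    0, .ofNat 0, .ofNat 2, .ofNat 0⟩, ⟨.ofNat 0, .ofNat 0, .ofNat 0, .ofNat 0, .ofNat 1⟩, [0,
    23]⟩

def t15_11 : Simp :=
⟨327705, [⟨⟨.ofNat 0, .ofNat 0, .ofNat 2, .negSucc 0, .ofNat 0⟩, ⟨0, 0, 0, 0, 0⟩, ⟨1, 2, 1, 1,
    1⟩⟩, ⟨⟨.negSucc 0, .ofNat 1, .ofNat 0, .ofNat 0, .negSucc 0⟩, ⟨0, 0, 0, 0, 0⟩, ⟨1, 3, 1, 2,
    1⟩⟩, ⟨⟨.ofNat 3, .negSucc 0, .negSucc 2, .ofNat 1, .ofNat 1⟩, ⟨0, 0, 0, 0, 0⟩, ⟨1, 3, 1, 2,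
    2⟩⟩, ⟨⟨.negSucc 1, .negSucc 0, .ofNat 3, .ofNat 1, .ofNat 0⟩, ⟨0, 0, 0, 0, 0⟩, ⟨1, 7, 2, 4,
    6⟩⟩, ⟨⟨.ofNat 1, .ofNat 1, .negSucc 1, .negSucc 0, .ofNat 0⟩, ⟨0, 0, 0, 0, 0⟩, ⟨1, 8, 2, 4,
    7⟩⟩], 1, ⟨.ofNat 1, .ofNat 0, .ofNat 0, .ofNat 0, .ofNat 0⟩, ⟨.ofNat 0, .ofNat 1, .ofNat 0,
    .ofNat 0, .ofNat 0⟩, ⟨.ofNat 0, .ofNat 0, .ofNat 1, .ofNat 0, .ofNat 0⟩, ⟨.ofNat 0, .ofNat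
    0, .ofNat 0, .ofNat 1, .ofNat 0⟩, ⟨.ofNat 0, .ofNat 0, .ofNat 0, .ofNat 0, .ofNat 1⟩, [0]⟩

def t15_12 : Simp :=
⟨262537, [⟨⟨.ofNat 0, .ofNat 0, .ofNat 70, .negSucc 34, .ofNat 0⟩, ⟨0, 0, 0, 0, 0⟩, ⟨1, 2, 1,
    1, 1⟩⟩, ⟨⟨.ofNat 70, .ofNat 0, .negSucc 104, .ofNat 35, .ofNat 0⟩, ⟨0, 0, 0, 0, 0⟩, ⟨1, 3,
    1, 2, 1⟩⟩, ⟨⟨.negSucc 34, .ofNat 0, .ofNat 42, .ofNat 0, .negSucc 6⟩, ⟨0, 0, 7, 0, 28⟩, ⟨1,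
    5, 2, 4, 2⟩⟩, ⟨⟨.negSucc 4, .ofNat 5, .ofNat 3, .negSucc 4, .negSucc 2⟩, ⟨30, 5, 3, 30,
    32⟩, ⟨1, 15, 2, 4, 7⟩⟩, ⟨⟨.ofNat 5, .negSucc 4, .negSucc 9, .ofNat 5, .ofNat 10⟩, ⟨5, 30,
    25, 5, 10⟩, ⟨1, 8, 2, 4, 7⟩⟩], 35, ⟨.ofNat 1, .ofNat 0, .ofNat 0, .ofNat 0, .ofNat 10⟩,
    ⟨.ofNat 0, .ofNat 1, .ofNat 0, .ofNat 0, .ofNat 25⟩, ⟨.ofNat 0, .ofNat 0, .ofNat 1, .ofNat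
    0, .ofNat 1⟩, ⟨.ofNat 0, .ofNat 0, .ofNat 0, .ofNat 1, .ofNat 10⟩, ⟨.ofNat 0, .ofNat 0,
    .ofNat 0, .ofNat 0, .ofNat 35⟩, [0, 92202, 92203, 90129, 86, 87, 86058, 68, 71, 73, 74, 42,
    44051, 92217, 88, 89, 89130, 81937, 76, 78, 79, 49, 54, 57, 19473, 90, 91178, 91179, 80,
    82, 84, 69649, 60, 63, 65]⟩

def t15_13 : Simp :=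
⟨327817, [⟨⟨.ofNat 0, .ofNat 0, .ofNat 4, .negSucc 1, .ofNat 0⟩, ⟨0, 0, 0, 0, 0⟩, ⟨1, 2, 1, 1,
    1⟩⟩, ⟨⟨.ofNat 4, .ofNat 0, .negSucc 5, .ofNat 2, .ofNat 0⟩, ⟨0, 0, 0, 0, 0⟩, ⟨1, 3, 1, 2,
    1⟩⟩, ⟨⟨.negSucc 2, .ofNat 1, .ofNat 3, .negSucc 0, .negSucc 0⟩, ⟨1, 1, 1, 1, 1⟩, ⟨1, 5, 2,
    4, 2⟩⟩, ⟨⟨.ofNat 5, .negSucc 4, .negSucc 2, .ofNat 5, .ofNat 3⟩, ⟨1, 1, 1, 1, 1⟩, ⟨1, 7, 2,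
    4, 6⟩⟩, ⟨⟨.negSucc 3, .ofNat 4, .ofNat 2, .negSucc 3, .negSucc 1⟩, ⟨0, 0, 0, 0, 0⟩, ⟨1, 8,
    2, 4, 7⟩⟩], 2, ⟨.ofNat 1, .ofNat 0, .ofNat 0, .ofNat 0, .ofNat 1⟩, ⟨.ofNat 0, .ofNat 1,
    .ofNat 0, .ofNat 0, .ofNat 1⟩, ⟨.ofNat 0, .ofNat 0, .ofNat 1, .ofNat 0, .ofNat 1⟩, ⟨.ofNat
    0, .ofNat 0, .ofNat 0, .ofNat 1, .ofNat 1⟩, ⟨.ofNat 0, .ofNat 0, .ofNat 0, .ofNat 0, .ofNat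
    2⟩, [0, 43]⟩

def t15_14 : Simp :=
⟨32783, [⟨⟨.ofNat 2, .negSucc 1, .ofNat 0, .ofNat 0, .ofNat 4⟩, ⟨0, 0, 0, 0, 0⟩, ⟨1, 2, 1, 1,
    1⟩⟩, ⟨⟨.negSucc 1, .ofNat 0, .ofNat 2, .ofNat 0, .ofNat 0⟩, ⟨0, 0, 0, 0, 0⟩, ⟨1, 3, 2, 1,
    1⟩⟩, ⟨⟨.ofNat 4, .ofNat 2, .negSucc 1, .negSucc 1, .negSucc 3⟩, ⟨0, 0, 0, 0, 0⟩, ⟨1, 3, 1,
    1, 1⟩⟩, ⟨⟨.negSucc 0, .ofNat 0, .ofNat 0, .ofNat 2, .negSucc 0⟩, ⟨1, 0, 0, 0, 1⟩, ⟨1, 3, 1,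
    2, 1⟩⟩, ⟨⟨.negSucc 0, .ofNat 0, .ofNat 0, .ofNat 0, .ofNat 1⟩, ⟨1, 0, 0, 0, 1⟩, ⟨1, 7, 1,
    2, 3⟩⟩], 2, ⟨.ofNat 1, .ofNat 0, .ofNat 0, .ofNat 0, .ofNat 1⟩, ⟨.ofNat 0, .ofNat 1, .ofNat
    0, .ofNat 0, .ofNat 0⟩, ⟨.ofNat 0, .ofNat 0, .ofNat 1, .ofNat 0, .ofNat 0⟩, ⟨.ofNat 0,
    .ofNat 0, .ofNat 0, .ofNat 1, .ofNat 0⟩, ⟨.ofNat 0, .ofNat 0, .ofNat 0, .ofNat 0, .ofNat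
    2⟩, [0, 27]⟩

def t15_15 : Simp :=
⟨33035, [⟨⟨.ofNat 6, .negSucc 5, .ofNat 0, .ofNat 0, .ofNat 12⟩, ⟨0, 0, 0, 0, 0⟩, ⟨1, 2, 1, 1,
    1⟩⟩, ⟨⟨.negSucc 1, .ofNat 2, .ofNat 4, .negSucc 1, .negSucc 3⟩, ⟨4, 2, 4, 4, 2⟩, ⟨1, 3, 2,
    1, 1⟩⟩, ⟨⟨.negSucc 2, .ofNat 0, .ofNat 0, .ofNat 6, .negSucc 2⟩, ⟨3, 0, 0, 0, 3⟩, ⟨1, 3, 1,
    2, 1⟩⟩, ⟨⟨.negSucc 3, .negSucc 1, .ofNat 2, .ofNat 2, .ofNat 4⟩, ⟨2, 4, 2, 2, 4⟩, ⟨1, 15,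
    2, 4, 7⟩⟩, ⟨⟨.ofNat 9, .ofNat 6, .negSucc 5, .negSucc 5, .negSucc 8⟩, ⟨3, 0, 0, 0, 3⟩, ⟨1,
    7, 1, 2, 3⟩⟩], 6, ⟨.ofNat 1, .ofNat 0, .ofNat 0, .ofNat 0, .ofNat 1⟩, ⟨.ofNat 0, .ofNat 1,
    .ofNat 0, .ofNat 0, .ofNat 2⟩, ⟨.ofNat 0, .ofNat 0, .ofNat 1, .ofNat 0, .ofNat 4⟩, ⟨.ofNat
    0, .ofNat 0, .ofNat 0, .ofNat 1, .ofNat 4⟩, ⟨.ofNat 0, .ofNat 0, .ofNat 0, .ofNat 0, .ofNat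
    6⟩, [0, 90115, 50, 27, 81, 68611]⟩

def t15_16 : Simp :=
⟨395, [⟨⟨.ofNat 15, .negSucc 14, .ofNat 0, .ofNat 0, .ofNat 30⟩, ⟨0, 0, 0, 0, 0⟩, ⟨1, 2, 1, 1,
    1⟩⟩, ⟨⟨.negSucc 4, .ofNat 5, .ofNat 10, .negSucc 4, .negSucc 9⟩, ⟨10, 5, 10, 10, 5⟩, ⟨1, 3,
    2, 1, 1⟩⟩, ⟨⟨.ofNat 15, .ofNat 15, .negSucc 14, .ofNat 0, .negSucc 29⟩, ⟨0, 0, 0, 0, 0⟩,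
    ⟨1, 3, 1, 2, 1⟩⟩, ⟨⟨.negSucc 8, .negSucc 5, .ofNat 6, .ofNat 6, .ofNat 9⟩, ⟨6, 9, 6, 6, 9⟩,
    ⟨1, 5, 2, 4, 2⟩⟩, ⟨⟨.negSucc 0, .ofNat 1, .negSucc 0, .negSucc 0, .ofNat 1⟩, ⟨14, 1, 14,
    14, 1⟩, ⟨1, 15, 2, 4, 7⟩⟩], 15, ⟨.ofNat 1, .ofNat 0, .ofNat 0, .ofNat 0, .ofNat 1⟩, ⟨.ofNat
    0, .ofNat 1, .ofNat 0, .ofNat 0, .ofNat 14⟩, ⟨.ofNat 0, .ofNat 0, .ofNat 1, .ofNat 0,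
    .ofNat 1⟩, ⟨.ofNat 0, .ofNat 0, .ofNat 0, .ofNat 1, .ofNat 1⟩, ⟨.ofNat 0, .ofNat 0, .ofNat
    0, .ofNat 0, .ofNat 15⟩, [0, 31, 32, 49, 51, 50, 68, 67, 81925, 80, 81, 90117, 88, 90143,
    19461]⟩

def t15_17 : Simp :=
⟨171, [⟨⟨.ofNat 1, .negSucc 0, .ofNat 0, .ofNat 0, .ofNat 2⟩, ⟨0, 0, 0, 0, 0⟩, ⟨1, 2, 1, 1,
    1⟩⟩, ⟨⟨.negSucc 0, .ofNat 1, .ofNat 0, .negSucc 0, .ofNat 0⟩, ⟨0, 0, 0, 0, 0⟩, ⟨1, 3, 2, 1,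
    1⟩⟩, ⟨⟨.ofNat 1, .ofNat 1, .negSucc 0, .ofNat 0, .negSucc 1⟩, ⟨0, 0, 0, 0, 0⟩, ⟨1, 3, 1, 2,
    1⟩⟩, ⟨⟨.ofNat 1, .negSucc 0, .ofNat 1, .ofNat 1, .negSucc 0⟩, ⟨0, 0, 0, 0, 0⟩, ⟨1, 3, 2, 2,
    1⟩⟩, ⟨⟨.negSucc 0, .ofNat 0, .ofNat 0, .ofNat 0, .ofNat 1⟩, ⟨0, 0, 0, 0, 0⟩, ⟨1, 5, 2, 4,
    2⟩⟩], 1, ⟨.ofNat 1, .ofNat 0, .ofNat 0, .ofNat 0, .ofNat 0⟩, ⟨.ofNat 0, .ofNat 1, .ofNat 0,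
    .ofNat 0, .ofNat 0⟩, ⟨.ofNat 0, .ofNat 0, .ofNat 1, .ofNat 0, .ofNat 0⟩, ⟨.ofNat 0, .ofNat
    0, .ofNat 0, .ofNat 1, .ofNat 0⟩, ⟨.ofNat 0, .ofNat 0, .ofNat 0, .ofNat 0, .ofNat 1⟩, [0]⟩

def t15_18 : Simp :=
⟨133127, [⟨⟨.ofNat 0, .negSucc 1, .ofNat 0, .ofNat 4, .ofNat 2⟩, ⟨0, 0, 0, 0, 0⟩, ⟨1, 2, 1, 1,
    1⟩⟩, ⟨⟨.negSucc 1, .ofNat 0, .ofNat 2, .ofNat 0, .ofNat 0⟩, ⟨0, 0, 0, 0, 0⟩, ⟨1, 3, 2, 1,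
    1⟩⟩, ⟨⟨.ofNat 4, .ofNat 2, .negSucc 1, .negSucc 2, .negSucc 2⟩, ⟨0, 0, 0, 1, 1⟩, ⟨1, 3, 1,
    1, 1⟩⟩, ⟨⟨.ofNat 2, .ofNat 0, .ofNat 0, .negSucc 2, .ofNat 1⟩, ⟨0, 0, 0, 1, 1⟩, ⟨1, 5, 1,
    1, 3⟩⟩, ⟨⟨.negSucc 1, .ofNat 0, .ofNat 0, .ofNat 2, .ofNat 0⟩, ⟨0, 0, 0, 0, 0⟩, ⟨1, 8, 1,
    2, 4⟩⟩], 2, ⟨.ofNat 1, .ofNat 0, .ofNat 0, .ofNat 0, .ofNat 0⟩, ⟨.ofNat 0, .ofNat 1, .ofNat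
    0, .ofNat 0, .ofNat 0⟩, ⟨.ofNat 0, .ofNat 0, .ofNat 1, .ofNat 0, .ofNat 0⟩, ⟨.ofNat 0,
    .ofNat 0, .ofNat 0, .ofNat 1, .ofNat 1⟩, ⟨.ofNat 0, .ofNat 0, .ofNat 0, .ofNat 0, .ofNat
    2⟩, [0, 21]⟩

def t15_19 : Simp :=
⟨163847, [⟨⟨.ofNat 0, .negSucc 0, .ofNat 0, .ofNat 2, .ofNat 1⟩, ⟨0, 0, 0, 0, 0⟩, ⟨1, 2, 1, 1,
    1⟩⟩, ⟨⟨.negSucc 0, .ofNat 0, .ofNat 1, .ofNat 0, .ofNat 0⟩, ⟨0, 0, 0, 0, 0⟩, ⟨1, 3, 2, 1,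
    1⟩⟩, ⟨⟨.ofNat 3, .ofNat 1, .negSucc 0, .negSucc 2, .negSucc 0⟩, ⟨0, 0, 0, 0, 0⟩, ⟨1, 3, 1,
    1, 1⟩⟩, ⟨⟨.negSucc 1, .ofNat 0, .ofNat 0, .ofNat 3, .negSucc 0⟩, ⟨0, 0, 0, 0, 0⟩, ⟨1, 7, 1,
    2, 3⟩⟩, ⟨⟨.ofNat 1, .ofNat 0, .ofNat 0, .negSucc 1, .ofNat 1⟩, ⟨0, 0, 0, 0, 0⟩, ⟨1, 8, 1,
    2, 4⟩⟩], 1, ⟨.ofNat 1, .ofNat 0, .ofNat 0, .ofNat 0, .ofNat 0⟩, ⟨.ofNat 0, .ofNat 1, .ofNat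
    0, .ofNat 0, .ofNat 0⟩, ⟨.ofNat 0, .ofNat 0, .ofNat 1, .ofNat 0, .ofNat 0⟩, ⟨.ofNat 0,
    .ofNat 0, .ofNat 0, .ofNat 1, .ofNat 0⟩, ⟨.ofNat 0, .ofNat 0, .ofNat 0, .ofNat 0, .ofNat
    1⟩, [0]⟩

def t15_20 : Simp :=
⟨133379, [⟨⟨.ofNat 0, .negSucc 2, .ofNat 0, .ofNat 6, .ofNat 3⟩, ⟨0, 0, 0, 0, 0⟩, ⟨1, 2, 1, 1,
    1⟩⟩, ⟨⟨.ofNat 1, .ofNat 2, .ofNat 1, .negSucc 2, .negSucc 2⟩, ⟨1, 2, 1, 0, 0⟩, ⟨1, 3, 2, 1,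
    1⟩⟩, ⟨⟨.negSucc 3, .negSucc 1, .ofNat 2, .ofNat 3, .ofNat 3⟩, ⟨2, 1, 2, 0, 0⟩, ⟨1, 15, 2,
    4, 7⟩⟩, ⟨⟨.negSucc 2, .negSucc 2, .ofNat 3, .ofNat 0, .ofNat 6⟩, ⟨0, 0, 0, 0, 0⟩, ⟨1, 5, 1,
    1, 3⟩⟩, ⟨⟨.ofNat 9, .ofNat 6, .negSucc 5, .negSucc 5, .negSucc 8⟩, ⟨0, 0, 0, 0, 0⟩, ⟨1, 8,
    1, 2, 4⟩⟩], 3, ⟨.ofNat 1, .ofNat 0, .ofNat 2, .ofNat 0, .ofNat 0⟩, ⟨.ofNat 0, .ofNat 1,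
    .ofNat 1, .ofNat 0, .ofNat 0⟩, ⟨.ofNat 0, .ofNat 0, .ofNat 3, .ofNat 0, .ofNat 0⟩, ⟨.ofNat
    0, .ofNat 0, .ofNat 0, .ofNat 1, .ofNat 0⟩, ⟨.ofNat 0, .ofNat 0, .ofNat 0, .ofNat 0, .ofNat
    1⟩, [0, 81, 50]⟩

def t15_21 : Simp :=
⟨18691, [⟨⟨.ofNat 0, .negSucc 8, .ofNat 0, .ofNat 18, .ofNat 9⟩, ⟨0, 0, 0, 0, 0⟩, ⟨1, 2, 1, 1,
    1⟩⟩, ⟨⟨.ofNat 3, .ofNat 6, .ofNat 3, .negSucc 8, .negSucc 8⟩, ⟨3, 6, 3, 0, 0⟩, ⟨1, 3, 2, 1,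
    1⟩⟩, ⟨⟨.negSucc 2, .ofNat 0, .ofNat 0, .ofNat 3, .ofNat 0⟩, ⟨6, 0, 0, 3, 0⟩, ⟨1, 15, 2, 4,
    7⟩⟩, ⟨⟨.ofNat 18, .ofNat 9, .negSucc 8, .negSucc 17, .negSucc 8⟩, ⟨0, 0, 0, 0, 0⟩, ⟨1, 5,
    1, 1, 3⟩⟩, ⟨⟨.negSucc 8, .negSucc 5, .ofNat 6, .ofNat 6, .ofNat 9⟩, ⟨0, 3, 6, 6, 0⟩, ⟨1, 6,
    2, 1, 4⟩⟩], 9, ⟨.ofNat 1, .ofNat 0, .ofNat 2, .ofNat 1, .ofNat 0⟩, ⟨.ofNat 0, .ofNat 1,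
    .ofNat 1, .ofNat 0, .ofNat 0⟩, ⟨.ofNat 0, .ofNat 0, .ofNat 3, .ofNat 0, .ofNat 0⟩, ⟨.ofNat
    0, .ofNat 0, .ofNat 0, .ofNat 3, .ofNat 0⟩, ⟨.ofNat 0, .ofNat 0, .ofNat 0, .ofNat 0, .ofNat
    1⟩, [0, 69, 85, 33, 59, 81, 24, 50, 87064]⟩

def t15_22 : Simp :=
⟨164099, [⟨⟨.ofNat 0, .negSucc 2, .ofNat 0, .ofNat 6, .ofNat 3⟩, ⟨0, 0, 0, 0, 0⟩, ⟨1, 2, 1, 1,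
    1⟩⟩, ⟨⟨.ofNat 0, .ofNat 1, .ofNat 2, .negSucc 2, .negSucc 0⟩, ⟨0, 1, 2, 0, 2⟩, ⟨1, 3, 2, 1,
    1⟩⟩, ⟨⟨.negSucc 2, .negSucc 0, .ofNat 1, .ofNat 3, .ofNat 1⟩, ⟨0, 2, 1, 0, 1⟩, ⟨1, 15, 2,
    4, 7⟩⟩, ⟨⟨.ofNat 3, .ofNat 3, .negSucc 2, .ofNat 0, .negSucc 5⟩, ⟨0, 0, 0, 0, 0⟩, ⟨1, 7, 1,
    2, 3⟩⟩, ⟨⟨.ofNat 3, .ofNat 0, .ofNat 0, .negSucc 5, .ofNat 3⟩, ⟨0, 0, 0, 0, 0⟩, ⟨1, 8, 1,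
    2, 4⟩⟩], 3, ⟨.ofNat 1, .ofNat 0, .ofNat 0, .ofNat 0, .ofNat 0⟩, ⟨.ofNat 0, .ofNat 1, .ofNat
    0, .ofNat 0, .ofNat 1⟩, ⟨.ofNat 0, .ofNat 0, .ofNat 1, .ofNat 0, .ofNat 2⟩, ⟨.ofNat 0,
    .ofNat 0, .ofNat 0, .ofNat 1, .ofNat 0⟩, ⟨.ofNat 0, .ofNat 0, .ofNat 0, .ofNat 0, .ofNat
    3⟩, [0, 50, 81]⟩

def t15_23 : Simp :=
⟨65745, [⟨⟨.ofNat 0, .ofNat 8, .ofNat 0, .negSucc 7, .negSucc 3⟩, ⟨0, 0, 0, 0, 0⟩, ⟨1, 2, 1, 1,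
    1⟩⟩, ⟨⟨.ofNat 8, .negSucc 7, .negSucc 3, .ofNat 8, .ofNat 4⟩, ⟨0, 0, 0, 0, 0⟩, ⟨1, 3, 1, 2,
    2⟩⟩, ⟨⟨.ofNat 0, .negSucc 3, .ofNat 4, .ofNat 2, .ofNat 2⟩, ⟨0, 0, 0, 2, 2⟩, ⟨1, 3, 2, 2,
    2⟩⟩, ⟨⟨.negSucc 1, .ofNat 2, .ofNat 0, .ofNat 0, .negSucc 1⟩, ⟨2, 2, 0, 0, 2⟩, ⟨1, 5, 2, 4,
    2⟩⟩, ⟨⟨.negSucc 1, .ofNat 2, .ofNat 0, .negSucc 1, .ofNat 0⟩, ⟨2, 2, 0, 2, 0⟩, ⟨1, 7, 2, 4,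
    6⟩⟩], 4, ⟨.ofNat 1, .ofNat 0, .ofNat 0, .ofNat 1, .ofNat 1⟩, ⟨.ofNat 0, .ofNat 1, .ofNat 0,
    .ofNat 1, .ofNat 1⟩, ⟨.ofNat 0, .ofNat 0, .ofNat 1, .ofNat 0, .ofNat 0⟩, ⟨.ofNat 0, .ofNat
    0, .ofNat 0, .ofNat 2, .ofNat 0⟩, ⟨.ofNat 0, .ofNat 0, .ofNat 0, .ofNat 0, .ofNat 2⟩, [0,
    25, 37, 43]⟩

def t15_24 : Simp :=
⟨24835, [⟨⟨.ofNat 18, .ofNat 0, .negSucc 8, .ofNat 0, .ofNat 0⟩, ⟨0, 0, 0, 0, 0⟩, ⟨1, 2, 1, 1,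
    1⟩⟩, ⟨⟨.negSucc 8, .ofNat 0, .ofNat 9, .ofNat 3, .negSucc 2⟩, ⟨0, 0, 0, 3, 6⟩, ⟨1, 3, 2, 1,
    1⟩⟩, ⟨⟨.negSucc 2, .ofNat 0, .ofNat 0, .ofNat 3, .ofNat 0⟩, ⟨6, 0, 0, 3, 0⟩, ⟨1, 15, 2, 4,
    7⟩⟩, ⟨⟨.negSucc 17, .negSucc 8, .ofNat 9, .ofNat 18, .ofNat 9⟩, ⟨0, 0, 0, 0, 0⟩, ⟨1, 5, 2,
    1, 4⟩⟩, ⟨⟨.ofNat 21, .ofNat 9, .negSucc 8, .negSucc 23, .negSucc 5⟩, ⟨3, 0, 0, 3, 3⟩, ⟨1,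
    6, 2, 1, 4⟩⟩], 9, ⟨.ofNat 1, .ofNat 0, .ofNat 0, .ofNat 1, .ofNat 1⟩, ⟨.ofNat 0, .ofNat 1,
    .ofNat 0, .ofNat 0, .ofNat 0⟩, ⟨.ofNat 0, .ofNat 0, .ofNat 1, .ofNat 0, .ofNat 0⟩, ⟨.ofNat
    0, .ofNat 0, .ofNat 0, .ofNat 3, .ofNat 0⟩, ⟨.ofNat 0, .ofNat 0, .ofNat 0, .ofNat 0, .ofNat
    3⟩, [0, 24, 33, 59, 69, 50, 87064, 81, 85]⟩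

def t15_25 : Simp :=
⟨270595, [⟨⟨.ofNat 126, .ofNat 0, .negSucc 62, .ofNat 0, .ofNat 0⟩, ⟨0, 0, 0, 0, 0⟩, ⟨1, 2, 1,
    1, 1⟩⟩, ⟨⟨.negSucc 62, .ofNat 0, .ofNat 63, .ofNat 21, .negSucc 20⟩, ⟨0, 0, 0, 21, 42⟩, ⟨1,
    3, 2, 1, 1⟩⟩, ⟨⟨.ofNat 0, .ofNat 9, .negSucc 8, .negSucc 2, .negSucc 5⟩, ⟨0, 9, 54, 60,
    57⟩, ⟨1, 15, 2, 4, 7⟩⟩, ⟨⟨.ofNat 21, .ofNat 0, .ofNat 0, .negSucc 41, .ofNat 21⟩, ⟨21, 0,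
    0, 21, 21⟩, ⟨1, 5, 2, 1, 4⟩⟩, ⟨⟨.negSucc 20, .negSucc 8, .ofNat 9, .ofNat 24, .ofNat 6⟩,
    ⟨42, 54, 9, 24, 6⟩, ⟨1, 8, 2, 4, 7⟩⟩], 63, ⟨.ofNat 1, .ofNat 0, .ofNat 0, .ofNat 1, .ofNat
    10⟩, ⟨.ofNat 0, .ofNat 1, .ofNat 0, .ofNat 0, .ofNat 12⟩, ⟨.ofNat 0, .ofNat 0, .ofNat 1,
    .ofNat 0, .ofNat 9⟩, ⟨.ofNat 0, .ofNat 0, .ofNat 0, .ofNat 3, .ofNat 9⟩, ⟨.ofNat 0, .ofNat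
    0, .ofNat 0, .ofNat 0, .ofNat 21⟩, [0, 19463, 90125, 89, 91143, 83981, 84, 86023, 74765,
    74, 75783, 90126, 90, 92167, 88077, 87, 89095, 79885, 79, 80903, 66573, 36883, 92207,
    92188, 91172, 89135, 89116, 70673, 62, 41, 44, 47, 28691, 92196, 91183, 91164, 89124,
    70674, 50, 52, 56, 35, 60836871, 92208, 87058, 87047, 75, 77, 78855, 64, 66, 67591, 49171,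
    92218, 94431239, 81, 83, 84999, 70, 72, 73735, 55, 58]⟩

def t15_26 : Simp :=
⟨262531, [⟨⟨.ofNat 210, .ofNat 0, .negSucc 104, .ofNat 0, .ofNat 0⟩, ⟨0, 0, 0, 0, 0⟩, ⟨1, 2, 1,
    1, 1⟩⟩, ⟨⟨.negSucc 69, .ofNat 0, .ofNat 105, .negSucc 34, .ofNat 0⟩, ⟨35, 0, 0, 70, 0⟩, ⟨1,
    3, 2, 1, 1⟩⟩, ⟨⟨.negSucc 20, .ofNat 0, .ofNat 0, .ofNat 42, .negSucc 20⟩, ⟨84, 0, 0, 42,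
    84⟩, ⟨1, 5, 2, 4, 2⟩⟩, ⟨⟨.ofNat 1, .ofNat 15, .negSucc 14, .negSucc 6, .negSucc 8⟩, ⟨1, 15,
    90, 98, 96⟩, ⟨1, 15, 2, 4, 7⟩⟩, ⟨⟨.negSucc 14, .negSucc 14, .ofNat 15, .ofNat 0, .ofNat
    30⟩, ⟨90, 90, 15, 0, 30⟩, ⟨1, 8, 2, 4, 7⟩⟩], 105, ⟨.ofNat 1, .ofNat 0, .ofNat 0, .ofNat 1,
    .ofNat 11⟩, ⟨.ofNat 0, .ofNat 1, .ofNat 0, .ofNat 0, .ofNat 25⟩, ⟨.ofNat 0, .ofNat 0,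
    .ofNat 1, .ofNat 0, .ofNat 10⟩, ⟨.ofNat 0, .ofNat 0, .ofNat 0, .ofNat 3, .ofNat 21⟩,
    ⟨.ofNat 0, .ofNat 0, .ofNat 0, .ofNat 0, .ofNat 35⟩, [0, 92202, 92203, 90129, 86, 87,
    86058, 68, 71, 73, 74, 42, 44051, 92217, 88, 89, 89130, 81937, 76, 78, 79, 49, 54, 57,
    19473, 90, 91178, 91179, 80, 82, 84, 69649, 60, 63, 65, 19461, 19464, 92188, 92292101,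
    88069, 89093, 89096, 50, 72709, 74757, 75781, 26643, 28691, 94430213, 90117, 91141, 91144,
    89116, 77829, 79877, 80901, 32, 35, 59788293, 19940357, 92165, 92168, 91164, 81925, 83973,
    86021, 86024, 41, 64517, 66565, 90143, 92185, 91170, 82961, 75, 78860, 86041, 51, 53, 55,
    59404, 25619, 92194, 92197, 81, 85004, 89113, 68625, 61, 64, 67596, 31, 34835, 37907,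
    92208, 87052, 91161, 89122, 67, 70, 73740, 52241, 40, 45, 49171]⟩

def t15_27 : Simp :=
⟨327811, [⟨⟨.ofNat 12, .ofNat 0, .negSucc 5, .ofNat 0, .ofNat 0⟩, ⟨0, 0, 0, 0, 0⟩, ⟨1, 2, 1, 1,
    1⟩⟩, ⟨⟨.negSucc 3, .ofNat 0, .ofNat 6, .negSucc 1, .ofNat 0⟩, ⟨2, 0, 0, 4, 0⟩, ⟨1, 3, 2, 1,
    1⟩⟩, ⟨⟨.negSucc 0, .ofNat 3, .negSucc 2, .ofNat 1, .negSucc 2⟩, ⟨5, 3, 3, 1, 3⟩, ⟨1, 5, 2,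
    4, 2⟩⟩, ⟨⟨.negSucc 0, .negSucc 14, .ofNat 15, .ofNat 7, .ofNat 9⟩, ⟨5, 3, 3, 1, 3⟩, ⟨1, 7,
    2, 4, 6⟩⟩, ⟨⟨.ofNat 0, .ofNat 12, .negSucc 11, .negSucc 5, .negSucc 5⟩, ⟨0, 0, 0, 0, 0⟩,
    ⟨1, 8, 2, 4, 7⟩⟩], 6, ⟨.ofNat 1, .ofNat 0, .ofNat 0, .ofNat 1, .ofNat 0⟩, ⟨.ofNat 0, .ofNat
    1, .ofNat 0, .ofNat 0, .ofNat 1⟩, ⟨.ofNat 0, .ofNat 0, .ofNat 1, .ofNat 0, .ofNat 1⟩,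
    ⟨.ofNat 0, .ofNat 0, .ofNat 0, .ofNat 3, .ofNat 1⟩, ⟨.ofNat 0, .ofNat 0, .ofNat 0, .ofNat
    0, .ofNat 2⟩, [0, 43, 26, 58373, 34, 49164]⟩

def t15_28 : Simp :=
⟨227, [⟨⟨.ofNat 4, .ofNat 0, .negSucc 1, .ofNat 0, .ofNat 0⟩, ⟨0, 0, 0, 0, 0⟩, ⟨1, 2, 1, 1,
    1⟩⟩, ⟨⟨.negSucc 1, .ofNat 2, .ofNat 0, .negSucc 1, .ofNat 0⟩, ⟨0, 0, 0, 0, 0⟩, ⟨1, 3, 2, 1,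
    1⟩⟩, ⟨⟨.ofNat 2, .negSucc 1, .ofNat 2, .ofNat 2, .negSucc 1⟩, ⟨0, 0, 0, 0, 0⟩, ⟨1, 3, 2, 2,
    1⟩⟩, ⟨⟨.negSucc 0, .negSucc 0, .ofNat 1, .ofNat 0, .ofNat 2⟩, ⟨1, 1, 1, 0, 0⟩, ⟨1, 3, 2, 2,
    2⟩⟩, ⟨⟨.negSucc 0, .ofNat 1, .negSucc 0, .ofNat 0, .ofNat 0⟩, ⟨1, 1, 1, 0, 0⟩, ⟨1, 5, 2, 4,
    2⟩⟩], 2, ⟨.ofNat 1, .ofNat 0, .ofNat 1, .ofNat 0, .ofNat 0⟩, ⟨.ofNat 0, .ofNat 1, .ofNat 1,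
    .ofNat 0, .ofNat 0⟩, ⟨.ofNat 0, .ofNat 0, .ofNat 2, .ofNat 0, .ofNat 0⟩, ⟨.ofNat 0, .ofNat
    0, .ofNat 0, .ofNat 1, .ofNat 0⟩, ⟨.ofNat 0, .ofNat 0, .ofNat 0, .ofNat 0, .ofNat 1⟩, [0,
    25]⟩

def t15_29 : Simp :=
⟨65731, [⟨⟨.ofNat 24, .ofNat 0, .negSucc 11, .ofNat 0, .ofNat 0⟩, ⟨0, 0, 0, 0, 0⟩, ⟨1, 2, 1, 1,
    1⟩⟩, ⟨⟨.negSucc 7, .ofNat 8, .ofNat 4, .negSucc 7, .negSucc 3⟩, ⟨4, 8, 4, 4, 8⟩, ⟨1, 3, 2,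
    1, 1⟩⟩, ⟨⟨.ofNat 0, .negSucc 11, .ofNat 12, .ofNat 6, .ofNat 6⟩, ⟨0, 0, 0, 6, 6⟩, ⟨1, 3, 2,
    2, 2⟩⟩, ⟨⟨.negSucc 1, .ofNat 2, .negSucc 1, .ofNat 4, .negSucc 3⟩, ⟨10, 2, 10, 4, 8⟩, ⟨1,
    5, 2, 4, 2⟩⟩, ⟨⟨.negSucc 1, .ofNat 2, .negSucc 1, .negSucc 1, .ofNat 2⟩, ⟨10, 2, 10, 10,
    2⟩, ⟨1, 7, 2, 4, 6⟩⟩], 12, ⟨.ofNat 1, .ofNat 0, .ofNat 1, .ofNat 0, .ofNat 2⟩, ⟨.ofNat 0,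
    .ofNat 1, .ofNat 1, .ofNat 0, .ofNat 0⟩, ⟨.ofNat 0, .ofNat 0, .ofNat 2, .ofNat 0, .ofNat
    2⟩, ⟨.ofNat 0, .ofNat 0, .ofNat 0, .ofNat 1, .ofNat 1⟩, ⟨.ofNat 0, .ofNat 0, .ofNat 0,
    .ofNat 0, .ofNat 6⟩, [0, 34821, 34, 37, 58373, 17413, 49164, 25, 26, 44037, 43, 49157]⟩

def t15_30 : Simp :=
⟨270403, [⟨⟨.ofNat 18, .ofNat 0, .negSucc 8, .ofNat 0, .ofNat 0⟩, ⟨0, 0, 0, 0, 0⟩, ⟨1, 2, 1, 1,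
    1⟩⟩, ⟨⟨.negSucc 8, .ofNat 9, .ofNat 0, .ofNat 0, .negSucc 8⟩, ⟨0, 0, 0, 0, 0⟩, ⟨1, 3, 2, 1,
    1⟩⟩, ⟨⟨.ofNat 0, .negSucc 8, .ofNat 9, .ofNat 3, .ofNat 6⟩, ⟨0, 0, 0, 3, 6⟩, ⟨1, 3, 2, 2,
    2⟩⟩, ⟨⟨.ofNat 3, .negSucc 2, .ofNat 3, .negSucc 4, .ofNat 5⟩, ⟨3, 6, 3, 4, 5⟩, ⟨1, 5, 2, 1,
    4⟩⟩, ⟨⟨.negSucc 2, .ofNat 3, .negSucc 2, .ofNat 2, .negSucc 1⟩, ⟨6, 3, 6, 2, 7⟩, ⟨1, 8, 2,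
    4, 7⟩⟩], 9, ⟨.ofNat 1, .ofNat 0, .ofNat 0, .ofNat 0, .ofNat 3⟩, ⟨.ofNat 0, .ofNat 1, .ofNat
    0, .ofNat 0, .ofNat 6⟩, ⟨.ofNat 0, .ofNat 0, .ofNat 1, .ofNat 0, .ofNat 3⟩, ⟨.ofNat 0,
    .ofNat 0, .ofNat 0, .ofNat 1, .ofNat 1⟩, ⟨.ofNat 0, .ofNat 0, .ofNat 0, .ofNat 0, .ofNat
    9⟩, [0, 18439, 48, 47, 28, 17421, 58, 59399, 36]⟩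

def t15_31 : Simp :=
⟨327747, [⟨⟨.ofNat 4, .ofNat 0, .negSucc 1, .ofNat 0, .ofNat 0⟩, ⟨0, 0, 0, 0, 0⟩, ⟨1, 2, 1, 1,
    1⟩⟩, ⟨⟨.negSucc 1, .ofNat 2, .ofNat 0, .ofNat 0, .negSucc 1⟩, ⟨0, 0, 0, 0, 0⟩, ⟨1, 3, 2, 1,
    1⟩⟩, ⟨⟨.ofNat 1, .negSucc 2, .ofNat 3, .negSucc 0, .ofNat 3⟩, ⟨1, 1, 1, 1, 1⟩, ⟨1, 3, 2, 2,
    2⟩⟩, ⟨⟨.negSucc 2, .ofNat 3, .negSucc 2, .ofNat 5, .negSucc 4⟩, ⟨1, 1, 1, 1, 1⟩, ⟨1, 7, 2,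
    4, 6⟩⟩, ⟨⟨.ofNat 2, .negSucc 1, .ofNat 2, .negSucc 3, .ofNat 4⟩, ⟨0, 0, 0, 0, 0⟩, ⟨1, 8, 2,
    4, 7⟩⟩], 2, ⟨.ofNat 1, .ofNat 0, .ofNat 0, .ofNat 0, .ofNat 1⟩, ⟨.ofNat 0, .ofNat 1, .ofNat
    0, .ofNat 0, .ofNat 1⟩, ⟨.ofNat 0, .ofNat 0, .ofNat 1, .ofNat 0, .ofNat 1⟩, ⟨.ofNat 0,
    .ofNat 0, .ofNat 0, .ofNat 1, .ofNat 1⟩, ⟨.ofNat 0, .ofNat 0, .ofNat 0, .ofNat 0, .ofNat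
    2⟩, [0, 37]⟩

def t15_32 : Simp :=
⟨8771, [⟨⟨.ofNat 4, .ofNat 0, .negSucc 1, .ofNat 0, .ofNat 0⟩, ⟨0, 0, 0, 0, 0⟩, ⟨1, 2, 1, 1,
    1⟩⟩, ⟨⟨.negSucc 1, .ofNat 2, .ofNat 0, .ofNat 0, .negSucc 1⟩, ⟨0, 0, 0, 0, 0⟩, ⟨1, 3, 2, 1,
    1⟩⟩, ⟨⟨.negSucc 1, .ofNat 0, .ofNat 0, .ofNat 2, .ofNat 0⟩, ⟨0, 0, 0, 0, 0⟩, ⟨1, 3, 2, 2,
    2⟩⟩, ⟨⟨.ofNat 3, .negSucc 2, .ofNat 3, .negSucc 1, .ofNat 2⟩, ⟨1, 1, 1, 0, 0⟩, ⟨1, 3, 2, 1,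
    2⟩⟩, ⟨⟨.negSucc 0, .ofNat 1, .negSucc 0, .ofNat 0, .ofNat 0⟩, ⟨1, 1, 1, 0, 0⟩, ⟨1, 5, 2, 1,
    4⟩⟩], 2, ⟨.ofNat 1, .ofNat 0, .ofNat 1, .ofNat 0, .ofNat 0⟩, ⟨.ofNat 0, .ofNat 1, .ofNat 1,
    .ofNat 0, .ofNat 0⟩, ⟨.ofNat 0, .ofNat 0, .ofNat 2, .ofNat 0, .ofNat 0⟩, ⟨.ofNat 0, .ofNat
    0, .ofNat 0, .ofNat 1, .ofNat 0⟩, ⟨.ofNat 0, .ofNat 0, .ofNat 0, .ofNat 0, .ofNat 1⟩, [0,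
    29]⟩

/-- The cone, its triangulation and the certificates for `m = 15`. -/
def f15 : Fan where
F := [⟨.negSucc 0, .ofNat 0, .ofNat 0, .ofNat 0, .ofNat 1⟩, ⟨.negSucc 0, .ofNat 0, .ofNat 1,
    .ofNat 0, .ofNat 0⟩, ⟨.ofNat 1, .ofNat 0, .ofNat 1, .ofNat 1, .negSucc 0⟩, ⟨.ofNat 0,
    .ofNat 0, .ofNat 2, .negSucc 0, .ofNat 0⟩, ⟨.ofNat 1, .negSucc 0, .ofNat 0, .ofNat 0,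
    .ofNat 2⟩, ⟨.ofNat 0, .negSucc 0, .ofNat 0, .ofNat 2, .ofNat 1⟩, ⟨.negSucc 0, .ofNat 0,
    .ofNat 0, .ofNat 1, .ofNat 0⟩, ⟨.negSucc 0, .ofNat 1, .ofNat 0, .negSucc 0, .ofNat 0⟩,
    ⟨.ofNat 0, .ofNat 2, .ofNat 0, .negSucc 1, .negSucc 0⟩, ⟨.negSucc 0, .ofNat 1, .ofNat 0,
    .ofNat 0, .negSucc 0⟩, ⟨.ofNat 2, .ofNat 0, .negSucc 0, .ofNat 0, .ofNat 0⟩, ⟨.negSucc 0,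
    .ofNat 1, .negSucc 0, .ofNat 0, .ofNat 0⟩]
V := [(⟨.ofNat 1, .ofNat 2, .ofNat 1, .ofNat 1, .ofNat 1⟩, 2755), (⟨.ofNat 1, .ofNat 3, .ofNat
    2, .ofNat 1, .ofNat 1⟩, 3185), (⟨.ofNat 1, .ofNat 3, .ofNat 1, .ofNat 1, .ofNat 1⟩, 115),
    (⟨.ofNat 1, .ofNat 3, .ofNat 1, .ofNat 2, .ofNat 1⟩, 155), (⟨.ofNat 1, .ofNat 3, .ofNat 1,
    .ofNat 2, .ofNat 2⟩, 906), (⟨.ofNat 1, .ofNat 3, .ofNat 2, .ofNat 2, .ofNat 1⟩, 3217),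
    (⟨.ofNat 1, .ofNat 3, .ofNat 2, .ofNat 2, .ofNat 2⟩, 3968), (⟨.ofNat 1, .ofNat 5, .ofNat 2,
    .ofNat 4, .ofNat 2⟩, 1432), (⟨.ofNat 1, .ofNat 15, .ofNat 2, .ofNat 4, .ofNat 7⟩, 1084),
    (⟨.ofNat 1, .ofNat 3, .ofNat 2, .ofNat 1, .ofNat 2⟩, 3648), (⟨.ofNat 1, .ofNat 4, .ofNat 1,
    .ofNat 1, .ofNat 3⟩, 582), (⟨.ofNat 1, .ofNat 5, .ofNat 1, .ofNat 1, .ofNat 3⟩, 102),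
    (⟨.ofNat 1, .ofNat 5, .ofNat 1, .ofNat 2, .ofNat 4⟩, 526), (⟨.ofNat 1, .ofNat 5, .ofNat 2,
    .ofNat 1, .ofNat 4⟩, 1604), (⟨.ofNat 1, .ofNat 6, .ofNat 2, .ofNat 1, .ofNat 4⟩, 1124),
    (⟨.ofNat 1, .ofNat 7, .ofNat 1, .ofNat 2, .ofNat 3⟩, 58), (⟨.ofNat 1, .ofNat 7, .ofNat 2,
    .ofNat 4, .ofNat 6⟩, 1800), (⟨.ofNat 1, .ofNat 8, .ofNat 1, .ofNat 2, .ofNat 4⟩, 46),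
    (⟨.ofNat 1, .ofNat 8, .ofNat 2, .ofNat 4, .ofNat 7⟩, 1548)]
C := [⟨5, [(.ofNat 1, 0), (.ofNat 1, 2)], [(.ofNat 1, 1), (.ofNat 1, 6)], .ofNat 2⟩, ⟨22,
    [(.ofNat 1, 1), (.ofNat 1, 2), (.ofNat 1, 4)], [(.ofNat 1, 3), (.ofNat 1, 5)], .ofNat 1⟩,
    ⟨72, [(.ofNat 1, 3), (.ofNat 1, 6)], [(.ofNat 2, 1)], .ofNat 1⟩, ⟨160, [(.ofNat 1, 5),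
    (.ofNat 1, 7)], [(.ofNat 1, 0), (.ofNat 1, 6)], .ofNat 1⟩, ⟨288, [(.ofNat 2, 5), (.ofNat 1,
    8)], [(.ofNat 1, 0), (.ofNat 2, 6)], .ofNat 3⟩, ⟨544, [(.ofNat 1, 5), (.ofNat 1, 9)],
    [(.ofNat 2, 6)], .ofNat 1⟩, ⟨1026, [(.ofNat 1, 1), (.ofNat 1, 10)], [], .ofNat 1⟩, ⟨2056,
    [(.ofNat 1, 3), (.ofNat 1, 11)], [(.ofNat 1, 1), (.ofNat 1, 7)], .ofNat 1⟩, ⟨132, [(.ofNat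
    1, 2), (.ofNat 1, 7)], [(.ofNat 1, 1), (.ofNat 1, 9)], .ofNat 2⟩, ⟨260, [(.ofNat 1, 2),
    (.ofNat 1, 8)], [(.ofNat 1, 3), (.ofNat 2, 9), (.ofNat 1, 10)], .ofNat 1⟩, ⟨2052, [(.ofNat
    2, 2), (.ofNat 2, 11)], [(.ofNat 1, 5), (.ofNat 3, 9)], .ofNat 3⟩, ⟨84, [(.ofNat 1, 2),
    (.ofNat 1, 4), (.ofNat 1, 6)], [(.ofNat 1, 1), (.ofNat 1, 5)], .ofNat 2⟩, ⟨528, [(.ofNat 1,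
    4), (.ofNat 1, 9)], [(.ofNat 1, 0)], .ofNat 1⟩, ⟨41, [(.ofNat 1, 0), (.ofNat 2, 3), (.ofNat
    1, 5)], [(.ofNat 4, 1), (.ofNat 1, 4)], .ofNat 2⟩, ⟨257, [(.ofNat 1, 0), (.ofNat 1, 8)],
    [(.ofNat 2, 7)], .ofNat 1⟩, ⟨274, [(.ofNat 4, 1), (.ofNat 2, 4), (.ofNat 1, 8)], [(.ofNat
    3, 0), (.ofNat 2, 3)], .ofNat 1⟩, ⟨1672, [(.ofNat 1, 3), (.ofNat 1, 7), (.ofNat 1, 9),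
    (.ofNat 2, 10)], [(.ofNat 1, 8)], .ofNat 2⟩, ⟨521, [(.ofNat 1, 0), (.ofNat 1, 3), (.ofNat
    1, 9)], [(.ofNat 2, 1), (.ofNat 1, 7)], .ofNat 1⟩, ⟨1033, [(.ofNat 2, 0), (.ofNat 1, 3),
    (.ofNat 2, 10)], [(.ofNat 1, 4), (.ofNat 1, 7)], .ofNat 2⟩, ⟨208, [(.ofNat 1, 4), (.ofNat
    1, 6), (.ofNat 1, 7)], [(.ofNat 2, 0)], .ofNat 1⟩, ⟨2066, [(.ofNat 1, 1), (.ofNat 1, 4),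
    (.ofNat 1, 11)], [(.ofNat 2, 0)], .ofNat 1⟩, ⟨2320, [(.ofNat 1, 4), (.ofNat 2, 8), (.ofNat
    1, 11)], [(.ofNat 4, 7), (.ofNat 1, 10)], .ofNat 2⟩, ⟨320, [(.ofNat 2, 6), (.ofNat 1, 8)],
    [(.ofNat 1, 0), (.ofNat 2, 9)], .ofNat 1⟩, ⟨2082, [(.ofNat 1, 1), (.ofNat 1, 5), (.ofNat 1,
    11)], [(.ofNat 1, 0), (.ofNat 2, 6)], .ofNat 1⟩, ⟨2306, [(.ofNat 1, 1), (.ofNat 1, 8),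
    (.ofNat 1, 11)], [(.ofNat 2, 7), (.ofNat 1, 9)], .ofNat 1⟩, ⟨1216, [(.ofNat 1, 6), (.ofNat
    1, 7), (.ofNat 1, 10)], [(.ofNat 1, 11)], .ofNat 1⟩, ⟨1537, [(.ofNat 1, 0), (.ofNat 1, 9),
    (.ofNat 1, 10)], [(.ofNat 1, 11)], .ofNat 1⟩]
T := [t15_0, t15_1, t15_2, t15_3, t15_4, t15_5, t15_6, t15_7, t15_8, t15_9, t15_10, t15_11,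
    t15_12, t15_13, t15_14, t15_15, t15_16, t15_17, t15_18, t15_19, t15_20, t15_21, t15_22,
    t15_23, t15_24, t15_25, t15_26, t15_27, t15_28, t15_29, t15_30, t15_31, t15_32]
UN := [⟨1, 2, 1, 1, 1⟩, ⟨1, 3, 1, 2, 1⟩, ⟨1, 3, 1, 1, 1⟩, ⟨1, 3, 1, 2, 2⟩, ⟨1, 3, 2, 2, 1⟩, ⟨1,
    3, 2, 1, 1⟩, ⟨1, 3, 2, 1, 2⟩, ⟨1, 3, 2, 2, 2⟩, ⟨1, 4, 1, 1, 3⟩, ⟨1, 5, 1, 1, 3⟩, ⟨1, 5, 1,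
    2, 4⟩, ⟨1, 5, 2, 4, 2⟩, ⟨1, 5, 2, 1, 4⟩, ⟨1, 6, 2, 1, 4⟩, ⟨1, 7, 1, 2, 3⟩, ⟨1, 8, 1, 2, 4⟩,
    ⟨1, 7, 2, 4, 6⟩, ⟨1, 8, 2, 4, 7⟩, ⟨1, 15, 2, 4, 7⟩, ⟨1, 3, 1, 1, 2⟩, ⟨1, 4, 1, 1, 2⟩, ⟨1,
    4, 1, 2, 2⟩, ⟨1, 4, 1, 2, 3⟩, ⟨1, 4, 2, 1, 2⟩, ⟨1, 4, 2, 3, 2⟩, ⟨1, 4, 2, 2, 2⟩, ⟨1, 5, 1,
    2, 2⟩, ⟨1, 4, 2, 2, 3⟩, ⟨1, 4, 2, 1, 3⟩, ⟨1, 5, 1, 2, 3⟩, ⟨1, 5, 2, 3, 2⟩, ⟨1, 5, 2, 2, 2⟩,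
    ⟨1, 5, 2, 1, 3⟩, ⟨1, 5, 2, 3, 3⟩, ⟨1, 5, 2, 2, 3⟩, ⟨1, 5, 2, 2, 4⟩, ⟨1, 5, 2, 3, 4⟩, ⟨1, 6,
    1, 2, 3⟩, ⟨1, 6, 1, 2, 4⟩, ⟨1, 6, 2, 3, 3⟩, ⟨1, 6, 2, 2, 3⟩, ⟨1, 6, 2, 4, 3⟩, ⟨1, 6, 2, 4,
    4⟩, ⟨1, 6, 2, 2, 4⟩, ⟨1, 6, 2, 3, 4⟩, ⟨1, 7, 1, 2, 4⟩, ⟨1, 6, 2, 2, 5⟩, ⟨1, 6, 2, 3, 5⟩,
    ⟨1, 7, 2, 4, 3⟩, ⟨1, 7, 2, 2, 3⟩, ⟨1, 7, 2, 3, 3⟩, ⟨1, 7, 2, 2, 4⟩, ⟨1, 7, 2, 3, 4⟩, ⟨1, 7,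
    2, 4, 4⟩, ⟨1, 7, 2, 3, 5⟩, ⟨1, 7, 2, 2, 5⟩, ⟨1, 7, 2, 4, 5⟩, ⟨1, 7, 2, 3, 6⟩, ⟨1, 8, 2, 2,
    4⟩, ⟨1, 8, 2, 4, 4⟩, ⟨1, 8, 2, 3, 4⟩, ⟨1, 8, 2, 2, 5⟩, ⟨1, 8, 2, 4, 5⟩, ⟨1, 8, 2, 3, 5⟩,
    ⟨1, 8, 2, 4, 6⟩, ⟨1, 8, 2, 3, 6⟩, ⟨1, 9, 2, 3, 4⟩, ⟨1, 9, 2, 4, 4⟩, ⟨1, 9, 2, 2, 5⟩, ⟨1, 9,
    2, 3, 5⟩, ⟨1, 9, 2, 4, 5⟩, ⟨1, 9, 2, 3, 6⟩, ⟨1, 9, 2, 4, 6⟩, ⟨1, 9, 2, 4, 7⟩, ⟨1, 10, 2, 3,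
    5⟩, ⟨1, 10, 2, 4, 5⟩, ⟨1, 10, 2, 3, 6⟩, ⟨1, 10, 2, 4, 6⟩, ⟨1, 10, 2, 4, 7⟩, ⟨1, 11, 2, 4,
    5⟩, ⟨1, 11, 2, 3, 5⟩, ⟨1, 11, 2, 4, 6⟩, ⟨1, 11, 2, 3, 6⟩, ⟨1, 11, 2, 4, 7⟩, ⟨1, 12, 2, 3,
    6⟩, ⟨1, 12, 2, 4, 6⟩, ⟨1, 12, 2, 4, 7⟩, ⟨1, 13, 2, 4, 6⟩, ⟨1, 13, 2, 4, 7⟩, ⟨1, 14, 2, 4,
    7⟩]
hx := 2
hy := 4
hz := 7
hl := 15
bx := (.ofNat 1, [(.ofNat 2, ⟨.negSucc 0, .ofNat 0, .ofNat 1, .ofNat 0, .ofNat 0⟩), (.ofNat 1,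
    ⟨.ofNat 2, .ofNat 0, .negSucc 0, .ofNat 0, .ofNat 0⟩)])
bx' := (.ofNat 1, [(.ofNat 1, ⟨.ofNat 2, .ofNat 0, .negSucc 0, .ofNat 0, .ofNat 0⟩)])
bY := (.ofNat 1, [(.ofNat 1, ⟨.negSucc 0, .ofNat 0, .ofNat 1, .ofNat 0, .ofNat 0⟩), (.ofNat 1,
    ⟨.negSucc 0, .ofNat 0, .ofNat 0, .ofNat 1, .ofNat 0⟩), (.ofNat 1, ⟨.ofNat 2, .ofNat 0,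
    .negSucc 0, .ofNat 0, .ofNat 0⟩)])
bY' := (.ofNat 1, [(.ofNat 1, ⟨.ofNat 0, .ofNat 0, .ofNat 2, .negSucc 0, .ofNat 0⟩), (.ofNat 2,
    ⟨.ofNat 2, .ofNat 0, .negSucc 0, .ofNat 0, .ofNat 0⟩)])
bz := (.ofNat 1, [(.ofNat 1, ⟨.ofNat 1, .negSucc 0, .ofNat 0, .ofNat 0, .ofNat 2⟩), (.ofNat 1,
    ⟨.negSucc 0, .ofNat 1, .ofNat 0, .ofNat 0, .negSucc 0⟩)])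
bz' := (.ofNat 1, [(.ofNat 1, ⟨.ofNat 1, .ofNat 0, .ofNat 1, .ofNat 1, .negSucc 0⟩), (.ofNat 1,
    ⟨.ofNat 0, .ofNat 0, .ofNat 2, .negSucc 0, .ofNat 0⟩), (.ofNat 3, ⟨.ofNat 2, .ofNat 0,
    .negSucc 0, .ofNat 0, .ofNat 0⟩)])
bl := (.ofNat 1, [(.ofNat 1, ⟨.ofNat 0, .negSucc 0, .ofNat 0, .ofNat 2, .ofNat 1⟩), (.ofNat 1,
    ⟨.ofNat 0, .ofNat 2, .ofNat 0, .negSucc 1, .negSucc 0⟩)])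
bl' := (.ofNat 1, [(.ofNat 2, ⟨.ofNat 1, .ofNat 0, .ofNat 1, .ofNat 1, .negSucc 0⟩), (.ofNat 2,
    ⟨.ofNat 0, .ofNat 0, .ofNat 2, .negSucc 0, .ofNat 0⟩), (.ofNat 1, ⟨.ofNat 1, .negSucc 0,
    .ofNat 0, .ofNat 0, .ofNat 2⟩), (.ofNat 6, ⟨.ofNat 2, .ofNat 0, .negSucc 0, .ofNat 0,
    .ofNat 0⟩)])
r := 5

/-- Partitions of `15` that realize the lattice points of level one. -/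
def r15 : List (List ℕ) :=
[[7, 8], [3, 3, 9], [1, 5, 9], [2, 3, 10], [3, 5, 7], [5, 5, 5], [4, 5, 6], [3, 6, 6], [1, 2,
    4, 8], [1, 1, 1, 4, 8], [1, 2, 2, 2, 8], [3, 3, 3, 3, 3], [1, 2, 4, 4, 4], [1, 1, 1, 4, 4,
    4], [1, 1, 1, 1, 1, 1, 9], [1, 1, 1, 1, 1, 1, 1, 8], [2, 2, 2, 2, 2, 2, 3], [1, 2, 2, 2, 2,
    2, 2, 2], [1, 1, 1, 1, 1, 1, 1, 1, 1, 1, 1, 1, 1, 1, 1], [3, 4, 8], [1, 1, 5, 8], [1, 3, 3,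
    8], [2, 2, 3, 8], [1, 4, 5, 5], [3, 3, 3, 6], [3, 3, 4, 5], [1, 1, 1, 3, 9], [2, 3, 4, 6],
    [3, 4, 4, 4], [1, 1, 2, 3, 8], [1, 3, 3, 3, 5], [1, 1, 3, 5, 5], [1, 1, 4, 4, 5], [2, 3, 3,
    3, 4], [1, 3, 3, 4, 4], [2, 2, 3, 4, 4], [2, 2, 2, 3, 6], [1, 1, 1, 1, 3, 8], [1, 1, 1, 2,
    2, 8], [1, 1, 3, 3, 3, 4], [1, 1, 1, 3, 4, 5], [1, 2, 3, 3, 3, 3], [2, 2, 2, 3, 3, 3], [1,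
    1, 2, 3, 4, 4], [1, 2, 2, 3, 3, 4], [1, 1, 1, 1, 1, 2, 8], [1, 2, 2, 2, 4, 4], [2, 2, 2, 2,
    3, 4], [1, 1, 1, 3, 3, 3, 3], [1, 1, 1, 1, 1, 5, 5], [1, 1, 1, 1, 3, 3, 5], [1, 1, 1, 1, 3,
    4, 4], [1, 1, 1, 2, 3, 3, 4], [1, 1, 2, 2, 3, 3, 3], [1, 1, 2, 2, 2, 3, 4], [1, 1, 1, 2, 2,
    4, 4], [1, 2, 2, 2, 2, 3, 3], [1, 2, 2, 2, 2, 2, 4], [1, 1, 1, 1, 1, 1, 4, 5], [1, 1, 1, 1,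
    2, 3, 3, 3], [1, 1, 1, 1, 1, 3, 3, 4], [1, 1, 1, 1, 1, 2, 4, 4], [1, 1, 1, 2, 2, 2, 3, 3],
    [1, 1, 1, 1, 2, 2, 3, 4], [1, 1, 2, 2, 2, 2, 2, 3], [1, 1, 1, 2, 2, 2, 2, 4], [1, 1, 1, 1,
    1, 1, 1, 3, 5], [1, 1, 1, 1, 1, 1, 3, 3, 3], [1, 1, 1, 1, 1, 1, 1, 4, 4], [1, 1, 1, 1, 1,
    1, 2, 3, 4], [1, 1, 1, 1, 1, 2, 2, 3, 3], [1, 1, 1, 1, 1, 2, 2, 2, 4], [1, 1, 1, 1, 2, 2,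
    2, 2, 3], [1, 1, 1, 2, 2, 2, 2, 2, 2], [1, 1, 1, 1, 1, 1, 1, 1, 3, 4], [1, 1, 1, 1, 1, 1,
    1, 2, 3, 3], [1, 1, 1, 1, 1, 1, 1, 2, 2, 4], [1, 1, 1, 1, 1, 1, 2, 2, 2, 3], [1, 1, 1, 1,
    1, 2, 2, 2, 2, 2], [1, 1, 1, 1, 1, 1, 1, 1, 1, 3, 3], [1, 1, 1, 1, 1, 1, 1, 1, 1, 1, 5],
    [1, 1, 1, 1, 1, 1, 1, 1, 2, 2, 3], [1, 1, 1, 1, 1, 1, 1, 1, 1, 2, 4], [1, 1, 1, 1, 1, 1, 1,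
    2, 2, 2, 2], [1, 1, 1, 1, 1, 1, 1, 1, 1, 1, 1, 4], [1, 1, 1, 1, 1, 1, 1, 1, 1, 1, 2, 3],
    [1, 1, 1, 1, 1, 1, 1, 1, 1, 2, 2, 2], [1, 1, 1, 1, 1, 1, 1, 1, 1, 1, 1, 1, 3], [1, 1, 1, 1,
    1, 1, 1, 1, 1, 1, 1, 2, 2], [1, 1, 1, 1, 1, 1, 1, 1, 1, 1, 1, 1, 1, 2]]

theorem f15_A : f15.okA = true := by decide +kernel

theorem f15_B : f15.okB = true := by decide +kernel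

theorem f15_good : good f15.F f15.UN 15 2 4 7 r15 = true := by
  decide +kernel

end Pool.Agent.Helper75.Poly
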