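import Pool.Agent.Helper75.Zss.Deg

/-!
# Fermat hypersurfaces of degree 16: the finite check
-/

namespace Pool.Agent.Helper75.Poly

def t16_0 : Simp :=
⟨339, [⟨⟨.negSucc 3, .ofNat 0, .ofNat 0, .ofNat 0, .ofNat 4⟩, ⟨20, 0, 0, 0, 4⟩, ⟨1, 16, 3, 5,
    7⟩⟩, ⟨⟨.ofNat 12, .ofNat 12, .negSucc 11, .ofNat 0, .negSucc 23⟩, ⟨12, 12, 12, 0, 0⟩, ⟨1,
    4, 1, 1, 1⟩⟩, ⟨⟨.ofNat 24, .negSucc 11, .ofNat 0, .ofNat 0, .ofNat 24⟩, ⟨0, 12, 0, 0, 0⟩,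
    ⟨1, 2, 1, 1, 1⟩⟩, ⟨⟨.ofNat 0, .ofNat 0, .negSucc 11, .ofNat 24, .negSucc 11⟩, ⟨0, 0, 12, 0,
    12⟩, ⟨1, 4, 3, 3, 1⟩⟩, ⟨⟨.negSucc 7, .ofNat 0, .ofNat 24, .negSucc 23, .ofNat 8⟩, ⟨16, 0,
    0, 0, 8⟩, ⟨1, 4, 3, 2, 1⟩⟩], 24, ⟨.ofNat 1, .ofNat 0, .ofNat 1, .ofNat 0, .ofNat 1⟩,
    ⟨.ofNat 0, .ofNat 2, .ofNat 0, .ofNat 0, .ofNat 0⟩, ⟨.ofNat 0, .ofNat 0, .ofNat 2, .ofNat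
    0, .ofNat 0⟩, ⟨.ofNat 0, .ofNat 0, .ofNat 0, .ofNat 1, .ofNat 0⟩, ⟨.ofNat 0, .ofNat 0,
    .ofNat 0, .ofNat 0, .ofNat 6⟩, [0, 67, 77, 100, 115, 136208, 31, 36, 50192, 64, 117791,
    117796, 22, 63490, 76802, 101378, 110594, 138428418, 29, 34, 95238, 58, 130054, 136198]⟩

def t16_1 : Simp :=
⟨33043, [⟨⟨.negSucc 1, .ofNat 0, .ofNat 0, .ofNat 0, .ofNat 2⟩, ⟨10, 0, 0, 0, 2⟩, ⟨1, 16, 3, 5,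
    7⟩⟩, ⟨⟨.ofNat 6, .ofNat 6, .negSucc 5, .ofNat 0, .negSucc 11⟩, ⟨6, 6, 6, 0, 0⟩, ⟨1, 4, 1,
    1, 1⟩⟩, ⟨⟨.ofNat 12, .negSucc 5, .negSucc 5, .ofNat 12, .ofNat 6⟩, ⟨0, 6, 6, 0, 6⟩, ⟨1, 2,
    1, 1, 1⟩⟩, ⟨⟨.negSucc 3, .ofNat 0, .ofNat 0, .ofNat 12, .negSucc 7⟩, ⟨8, 0, 0, 0, 4⟩, ⟨1,
    4, 3, 2, 1⟩⟩, ⟨⟨.ofNat 0, .ofNat 0, .ofNat 12, .negSucc 23, .ofNat 12⟩, ⟨0, 0, 0, 0, 0⟩,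
    ⟨1, 3, 2, 1, 1⟩⟩], 12, ⟨.ofNat 1, .ofNat 0, .ofNat 1, .ofNat 0, .ofNat 1⟩, ⟨.ofNat 0,
    .ofNat 1, .ofNat 1, .ofNat 0, .ofNat 0⟩, ⟨.ofNat 0, .ofNat 0, .ofNat 2, .ofNat 0, .ofNat
    0⟩, ⟨.ofNat 0, .ofNat 0, .ofNat 0, .ofNat 1, .ofNat 0⟩, ⟨.ofNat 0, .ofNat 0, .ofNat 0,
    .ofNat 0, .ofNat 6⟩, [0, 34, 77, 58, 115, 136198, 22, 36, 76802, 64, 110594, 117796]⟩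

def t16_2 : Simp :=
⟨524371, [⟨⟨.negSucc 3, .ofNat 0, .ofNat 0, .ofNat 0, .ofNat 4⟩, ⟨20, 0, 0, 0, 4⟩, ⟨1, 16, 3,
    5, 7⟩⟩, ⟨⟨.ofNat 8, .ofNat 12, .ofNat 0, .negSucc 11, .negSucc 19⟩, ⟨8, 12, 0, 12, 4⟩, ⟨1,
    4, 1, 1, 1⟩⟩, ⟨⟨.ofNat 24, .negSucc 11, .ofNat 0, .ofNat 0, .ofNat 24⟩, ⟨0, 12, 0, 0, 0⟩,
    ⟨1, 2, 1, 1, 1⟩⟩, ⟨⟨.negSucc 11, .ofNat 0, .ofNat 24, .negSucc 11, .ofNat 0⟩, ⟨12, 0, 0,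
    12, 0⟩, ⟨1, 4, 3, 3, 1⟩⟩, ⟨⟨.ofNat 8, .ofNat 0, .negSucc 23, .ofNat 24, .negSucc 7⟩, ⟨8, 0,
    0, 0, 16⟩, ⟨1, 4, 2, 3, 1⟩⟩], 24, ⟨.ofNat 1, .ofNat 0, .ofNat 0, .ofNat 1, .ofNat 1⟩,
    ⟨.ofNat 0, .ofNat 2, .ofNat 0, .ofNat 0, .ofNat 0⟩, ⟨.ofNat 0, .ofNat 0, .ofNat 1, .ofNat
    0, .ofNat 0⟩, ⟨.ofNat 0, .ofNat 0, .ofNat 0, .ofNat 2, .ofNat 0⟩, ⟨.ofNat 0, .ofNat 0,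
    .ofNat 0, .ofNat 0, .ofNat 6⟩, [0, 42, 49, 64, 130050, 136194, 31, 86018, 95234, 100,
    117773, 136223, 22, 40962, 49154, 58, 128002, 135170, 29, 81922, 93186, 101378, 113259522,
    126891010]⟩

def t16_3 : Simp :=
⟨540691, [⟨⟨.negSucc 1, .ofNat 0, .ofNat 0, .ofNat 0, .ofNat 2⟩, ⟨10, 0, 0, 0, 2⟩, ⟨1, 16, 3,
    5, 7⟩⟩, ⟨⟨.ofNat 4, .ofNat 6, .ofNat 0, .negSucc 5, .negSucc 9⟩, ⟨4, 6, 0, 6, 2⟩, ⟨1, 4, 1,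
    1, 1⟩⟩, ⟨⟨.ofNat 6, .negSucc 5, .ofNat 12, .negSucc 5, .ofNat 12⟩, ⟨6, 6, 0, 6, 0⟩, ⟨1, 2,
    1, 1, 1⟩⟩, ⟨⟨.ofNat 12, .ofNat 0, .negSucc 23, .ofNat 12, .ofNat 0⟩, ⟨0, 0, 0, 0, 0⟩, ⟨1,
    3, 1, 2, 1⟩⟩, ⟨⟨.negSucc 7, .ofNat 0, .ofNat 12, .ofNat 0, .negSucc 3⟩, ⟨4, 0, 0, 0, 8⟩,
    ⟨1, 4, 2, 3, 1⟩⟩], 12, ⟨.ofNat 1, .ofNat 0, .ofNat 0, .ofNat 1, .ofNat 1⟩, ⟨.ofNat 0,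
    .ofNat 1, .ofNat 0, .ofNat 1, .ofNat 0⟩, ⟨.ofNat 0, .ofNat 0, .ofNat 1, .ofNat 0, .ofNat
    0⟩, ⟨.ofNat 0, .ofNat 0, .ofNat 0, .ofNat 2, .ofNat 0⟩, ⟨.ofNat 0, .ofNat 0, .ofNat 0,
    .ofNat 0, .ofNat 6⟩, [0, 42, 49, 64, 130050, 136194, 22, 40962, 49154, 58, 128002, 135170]⟩

def t16_4 : Simp :=
⟨341, [⟨⟨.negSucc 3, .ofNat 4, .negSucc 3, .ofNat 0, .ofNat 0⟩, ⟨44, 4, 44, 0, 0⟩, ⟨1, 16, 3,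
    5, 7⟩⟩, ⟨⟨.negSucc 11, .negSucc 11, .ofNat 12, .ofNat 0, .ofNat 24⟩, ⟨36, 36, 12, 0, 24⟩,
    ⟨1, 4, 3, 1, 3⟩⟩, ⟨⟨.ofNat 72, .ofNat 0, .negSucc 23, .ofNat 0, .ofNat 0⟩, ⟨24, 0, 24, 0,
    0⟩, ⟨1, 2, 1, 1, 1⟩⟩, ⟨⟨.negSucc 23, .negSucc 23, .ofNat 0, .ofNat 48, .ofNat 24⟩, ⟨24, 24,
    0, 0, 24⟩, ⟨1, 4, 3, 3, 1⟩⟩, ⟨⟨.ofNat 16, .ofNat 32, .ofNat 16, .negSucc 47, .negSucc 47⟩,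
    ⟨16, 32, 16, 0, 0⟩, ⟨1, 4, 3, 2, 1⟩⟩], 48, ⟨.ofNat 1, .ofNat 0, .ofNat 11, .ofNat 0, .ofNat
    1⟩, ⟨.ofNat 0, .ofNat 2, .ofNat 2, .ofNat 0, .ofNat 0⟩, ⟨.ofNat 0, .ofNat 0, .ofNat 12,
    .ofNat 0, .ofNat 0⟩, ⟨.ofNat 0, .ofNat 0, .ofNat 0, .ofNat 1, .ofNat 0⟩, ⟨.ofNat 0, .ofNat
    0, .ofNat 0, .ofNat 0, .ofNat 2⟩, [0, 45, 139270, 142652422, 123950, 136208, 123931,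
    135174, 115, 119824, 110598, 117456902, 92, 100, 92166, 101382, 77, 83984, 37, 80902, 56,
    67, 51206, 63494, 51216, 46, 29, 27, 139280, 123960, 141574150, 136198, 123949, 121,
    130054, 119814, 110608, 94254, 106502, 58, 92176, 86, 95238, 83974, 75, 61, 71686, 34]⟩

def t16_5 : Simp :=
⟨33045, [⟨⟨.negSucc 1, .ofNat 2, .negSucc 1, .ofNat 0, .ofNat 0⟩, ⟨22, 2, 22, 0, 0⟩, ⟨1, 16, 3,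
    5, 7⟩⟩, ⟨⟨.negSucc 5, .negSucc 5, .ofNat 6, .ofNat 0, .ofNat 12⟩, ⟨18, 18, 6, 0, 12⟩, ⟨1,
    4, 3, 1, 3⟩⟩, ⟨⟨.ofNat 24, .negSucc 11, .negSucc 11, .ofNat 24, .ofNat 12⟩, ⟨0, 12, 12, 0,
    12⟩, ⟨1, 2, 1, 1, 1⟩⟩, ⟨⟨.negSucc 15, .negSucc 7, .ofNat 8, .ofNat 24, .ofNat 0⟩, ⟨8, 16,
    8, 0, 0⟩, ⟨1, 4, 3, 2, 1⟩⟩, ⟨⟨.ofNat 24, .ofNat 24, .ofNat 0, .negSucc 47, .negSucc 23⟩,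
    ⟨0, 0, 0, 0, 0⟩, ⟨1, 3, 2, 1, 1⟩⟩], 24, ⟨.ofNat 1, .ofNat 0, .ofNat 11, .ofNat 0, .ofNat
    1⟩, ⟨.ofNat 0, .ofNat 1, .ofNat 1, .ofNat 0, .ofNat 0⟩, ⟨.ofNat 0, .ofNat 0, .ofNat 12,
    .ofNat 0, .ofNat 0⟩, ⟨.ofNat 0, .ofNat 0, .ofNat 0, .ofNat 1, .ofNat 0⟩, ⟨.ofNat 0, .ofNat
    0, .ofNat 0, .ofNat 0, .ofNat 2⟩, [0, 27, 139270, 123960, 123950, 136198, 123931, 121, 115,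
    119814, 110598, 94254, 92, 58, 92166, 86, 77, 83974, 37, 61, 56, 34, 51206, 46]⟩

def t16_6 : Simp :=
⟨65621, [⟨⟨.negSucc 3, .ofNat 4, .negSucc 3, .ofNat 0, .ofNat 0⟩, ⟨44, 4, 44, 0, 0⟩, ⟨1, 16, 3,
    5, 7⟩⟩, ⟨⟨.negSucc 3, .ofNat 4, .ofNat 20, .negSucc 23, .ofNat 0⟩, ⟨44, 4, 20, 24, 0⟩, ⟨1,
    4, 3, 1, 3⟩⟩, ⟨⟨.ofNat 80, .ofNat 16, .negSucc 15, .negSucc 23, .negSucc 23⟩, ⟨32, 16, 32,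
    24, 24⟩, ⟨1, 2, 1, 1, 1⟩⟩, ⟨⟨.negSucc 7, .ofNat 8, .ofNat 16, .ofNat 0, .negSucc 23⟩, ⟨40,
    8, 16, 0, 24⟩, ⟨1, 4, 3, 3, 1⟩⟩, ⟨⟨.negSucc 15, .negSucc 31, .negSucc 15, .ofNat 48, .ofNat
    48⟩, ⟨32, 16, 32, 0, 0⟩, ⟨1, 3, 2, 2, 2⟩⟩], 48, ⟨.ofNat 1, .ofNat 0, .ofNat 11, .ofNat 1,
    .ofNat 1⟩, ⟨.ofNat 0, .ofNat 1, .ofNat 1, .ofNat 1, .ofNat 1⟩, ⟨.ofNat 0, .ofNat 0, .ofNat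
    12, .ofNat 0, .ofNat 0⟩, ⟨.ofNat 0, .ofNat 0, .ofNat 0, .ofNat 2, .ofNat 0⟩, ⟨.ofNat 0,
    .ofNat 0, .ofNat 0, .ofNat 0, .ofNat 2⟩, [0, 29, 27, 45, 142652417, 141621254, 141608966,
    146046728193, 141603846, 139474945, 141574145, 138246, 121, 135174, 123931, 123949,
    133183489, 137379846, 133126, 136331265, 128006, 110593, 117456897, 114694, 92, 106502, 58,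
    100, 103823361, 118503430, 105478, 108019713, 97286, 83969, 97531905, 89094, 61, 80902, 37,
    75, 71681, 87046, 74758, 88094721, 66566, 51201, 63489, 32]⟩

def t16_7 : Simp :=
⟨1114181, [⟨⟨.ofNat 4, .ofNat 4, .negSucc 3, .negSucc 1, .negSucc 1⟩, ⟨4, 4, 28, 30, 30⟩, ⟨1,
    16, 3, 5, 7⟩⟩, ⟨⟨.negSucc 35, .negSucc 3, .ofNat 20, .negSucc 5, .ofNat 10⟩, ⟨28, 28, 20,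
    26, 10⟩, ⟨1, 4, 3, 1, 3⟩⟩, ⟨⟨.negSucc 31, .ofNat 0, .ofNat 16, .ofNat 8, .negSucc 7⟩, ⟨0,
    0, 16, 8, 24⟩, ⟨1, 4, 3, 3, 1⟩⟩, ⟨⟨.ofNat 176, .ofNat 16, .negSucc 47, .negSucc 23,
    .negSucc 23⟩, ⟨16, 16, 16, 8, 8⟩, ⟨1, 3, 2, 2, 2⟩⟩, ⟨⟨.negSucc 79, .negSucc 15, .ofNat 16,
    .ofNat 24, .ofNat 24⟩, ⟨16, 16, 16, 24, 24⟩, ⟨1, 4, 2, 3, 3⟩⟩], 32, ⟨.ofNat 1, .ofNat 0,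
    .ofNat 0, .ofNat 1, .ofNat 1⟩, ⟨.ofNat 0, .ofNat 1, .ofNat 0, .ofNat 1, .ofNat 1⟩, ⟨.ofNat
    0, .ofNat 0, .ofNat 1, .ofNat 0, .ofNat 14⟩, ⟨.ofNat 0, .ofNat 0, .ofNat 0, .ofNat 2,
    .ofNat 14⟩, ⟨.ofNat 0, .ofNat 0, .ofNat 0, .ofNat 0, .ofNat 16⟩, [0, 141644806, 141624326,
    140560390, 121, 137426950, 137409542, 131078, 92, 132136966, 118790, 99334, 61, 107526,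
    91142, 51211, 141632518, 139275, 140572678, 123949, 135179, 134150, 135282694, 100, 125958,
    109574, 115357702, 75, 98310, 77830, 63499, 45]⟩

def t16_8 : Simp :=
⟨1052741, [⟨⟨.ofNat 8, .ofNat 8, .negSucc 7, .negSucc 3, .negSucc 3⟩, ⟨8, 8, 56, 60, 60⟩, ⟨1,
    16, 3, 5, 7⟩⟩, ⟨⟨.negSucc 71, .negSucc 7, .ofNat 40, .negSucc 11, .ofNat 20⟩, ⟨56, 56, 40,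
    52, 20⟩, ⟨1, 4, 3, 1, 3⟩⟩, ⟨⟨.ofNat 112, .ofNat 16, .negSucc 15, .negSucc 7, .negSucc 39⟩,
    ⟨48, 16, 48, 56, 24⟩, ⟨1, 4, 3, 3, 1⟩⟩, ⟨⟨.negSucc 175, .negSucc 15, .ofNat 48, .ofNat 24,
    .ofNat 24⟩, ⟨16, 48, 48, 24, 24⟩, ⟨1, 6, 3, 5, 3⟩⟩, ⟨⟨.ofNat 192, .ofNat 0, .negSucc 63,
    .ofNat 0, .ofNat 0⟩, ⟨0, 0, 0, 0, 0⟩, ⟨1, 4, 2, 3, 3⟩⟩], 64, ⟨.ofNat 1, .ofNat 0, .ofNat 0,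
    .ofNat 1, .ofNat 1⟩, ⟨.ofNat 0, .ofNat 2, .ofNat 0, .ofNat 0, .ofNat 4⟩, ⟨.ofNat 0, .ofNat
    0, .ofNat 1, .ofNat 0, .ofNat 14⟩, ⟨.ofNat 0, .ofNat 0, .ofNat 0, .ofNat 2, .ofNat 14⟩,
    ⟨.ofNat 0, .ofNat 0, .ofNat 0, .ofNat 0, .ofNat 16⟩, [0, 139326, 139479054, 136206, 138257,
    133187598, 130062, 133137, 92, 121870, 124945, 82, 108558, 112657, 70, 18446, 139546638,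
    139344, 138256, 138285, 119826, 133136, 134160, 100, 124944, 125968, 95246, 95, 116752,
    86030, 85, 45, 104462, 62, 65, 142624782, 139281, 138302, 123949, 135185, 137233, 114704,
    125, 131089, 105488, 115726, 75, 96272, 50, 80, 142625808, 139309, 126896142, 121, 137232,
    113264654, 108, 131088, 103827470, 99, 118800, 61, 91, 107536]⟩

def t16_9 : Simp :=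
⟨1052685, [⟨⟨.ofNat 16, .ofNat 16, .negSucc 15, .negSucc 7, .negSucc 7⟩, ⟨16, 16, 112, 120,
    120⟩, ⟨1, 16, 3, 5, 7⟩⟩, ⟨⟨.negSucc 31, .ofNat 0, .ofNat 64, .negSucc 31, .ofNat 0⟩, ⟨96,
    0, 64, 96, 0⟩, ⟨1, 4, 3, 1, 3⟩⟩, ⟨⟨.negSucc 111, .negSucc 15, .ofNat 16, .ofNat 8, .ofNat
    40⟩, ⟨16, 112, 16, 8, 40⟩, ⟨1, 8, 3, 5, 7⟩⟩, ⟨⟨.negSucc 127, .ofNat 0, .ofNat 64, .ofNat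
    32, .negSucc 31⟩, ⟨0, 0, 64, 32, 96⟩, ⟨1, 6, 3, 5, 3⟩⟩, ⟨⟨.ofNat 384, .ofNat 0, .negSucc
    127, .ofNat 0, .ofNat 0⟩, ⟨0, 0, 0, 0, 0⟩, ⟨1, 4, 2, 3, 3⟩⟩], 128, ⟨.ofNat 1, .ofNat 0,
    .ofNat 0, .ofNat 3, .ofNat 15⟩, ⟨.ofNat 0, .ofNat 2, .ofNat 0, .ofNat 0, .ofNat 4⟩, ⟨.ofNat
    0, .ofNat 0, .ofNat 1, .ofNat 2, .ofNat 12⟩, ⟨.ofNat 0, .ofNat 0, .ofNat 0, .ofNat 4,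
    .ofNat 12⟩, ⟨.ofNat 0, .ofNat 0, .ofNat 0, .ofNat 0, .ofNat 16⟩, [0, 139369, 139375,
    136212, 135, 137321, 130068, 130, 131, 121876, 122, 123, 126, 110, 114, 118, 139314,
    139318, 141578256, 138285, 137266, 137270, 137383952, 134189, 132146, 132150, 129040,
    129069, 57364, 59, 20496, 46100, 139329, 138313, 138316, 137278, 137281, 134217, 92,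
    132158, 78868, 83988, 87, 68628, 71700, 73, 76, 142669844, 138325, 138329, 117780, 117,
    134229, 102420, 104, 109, 95252, 95, 97, 101, 87060, 89, 139360, 139362, 124, 105, 111,
    139382, 136, 138345, 138351, 132, 134, 134249, 125, 128, 129, 115732, 116, 120, 51220, 54,
    142626832, 142652436, 138290, 138294, 140529680, 137261, 134194, 134198, 132112, 132141,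
    129074, 61, 126992, 47124, 65, 139337, 139340, 141621268, 138305, 137289, 137292, 134206,
    134209, 88084, 90, 129086, 76820, 79, 81, 63508, 139349, 139353, 138336, 121, 137301,
    137305, 110612, 112, 132181, 101396, 103, 107, 93204, 94, 96, 98]⟩

def t16_10 : Simp :=
⟨32791, [⟨⟨.negSucc 3, .ofNat 0, .ofNat 0, .ofNat 4, .ofNat 0⟩, ⟨12, 0, 0, 4, 0⟩, ⟨1, 16, 3, 5,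
    7⟩⟩, ⟨⟨.ofNat 16, .ofNat 8, .negSucc 7, .negSucc 23, .ofNat 0⟩, ⟨0, 8, 8, 8, 0⟩, ⟨1, 4, 1,
    1, 1⟩⟩, ⟨⟨.ofNat 4, .ofNat 0, .ofNat 0, .negSucc 11, .ofNat 8⟩, ⟨4, 0, 0, 4, 8⟩, ⟨1, 4, 3,
    1, 3⟩⟩, ⟨⟨.ofNat 16, .negSucc 7, .negSucc 7, .ofNat 16, .ofNat 8⟩, ⟨0, 8, 8, 0, 8⟩, ⟨1, 2,
    1, 1, 1⟩⟩, ⟨⟨.negSucc 15, .ofNat 0, .ofNat 16, .ofNat 16, .negSucc 15⟩, ⟨0, 0, 0, 0, 0⟩,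
    ⟨1, 3, 2, 1, 1⟩⟩], 16, ⟨.ofNat 1, .ofNat 0, .ofNat 1, .ofNat 1, .ofNat 1⟩, ⟨.ofNat 0,
    .ofNat 1, .ofNat 1, .ofNat 0, .ofNat 0⟩, ⟨.ofNat 0, .ofNat 0, .ofNat 2, .ofNat 0, .ofNat
    0⟩, ⟨.ofNat 0, .ofNat 0, .ofNat 0, .ofNat 4, .ofNat 0⟩, ⟨.ofNat 0, .ofNat 0, .ofNat 0,
    .ofNat 0, .ofNat 2⟩, [0, 27, 38, 60418, 92, 58, 123932, 119810, 22, 28, 37, 61, 92162, 64,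
    123931, 121]⟩

def t16_11 : Simp :=
⟨8327, [⟨⟨.negSucc 1, .ofNat 0, .ofNat 0, .ofNat 2, .ofNat 0⟩, ⟨6, 0, 0, 2, 0⟩, ⟨1, 16, 3, 5,
    7⟩⟩, ⟨⟨.ofNat 4, .ofNat 0, .ofNat 4, .ofNat 8, .negSucc 7⟩, ⟨4, 0, 4, 0, 0⟩, ⟨1, 4, 1, 1,
    1⟩⟩, ⟨⟨.negSucc 1, .ofNat 0, .ofNat 4, .negSucc 1, .ofNat 0⟩, ⟨6, 0, 4, 6, 0⟩, ⟨1, 4, 3, 1,
    3⟩⟩, ⟨⟨.ofNat 0, .ofNat 8, .negSucc 7, .negSucc 31, .ofNat 8⟩, ⟨0, 0, 0, 0, 0⟩, ⟨1, 4, 1,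
    1, 2⟩⟩, ⟨⟨.ofNat 8, .negSucc 7, .ofNat 0, .ofNat 24, .ofNat 0⟩, ⟨0, 0, 0, 0, 0⟩, ⟨1, 3, 1,
    1, 2⟩⟩], 8, ⟨.ofNat 1, .ofNat 0, .ofNat 1, .ofNat 1, .ofNat 0⟩, ⟨.ofNat 0, .ofNat 1, .ofNat
    0, .ofNat 0, .ofNat 0⟩, ⟨.ofNat 0, .ofNat 0, .ofNat 2, .ofNat 0, .ofNat 0⟩, ⟨.ofNat 0,
    .ofNat 0, .ofNat 0, .ofNat 4, .ofNat 0⟩, ⟨.ofNat 0, .ofNat 0, .ofNat 0, .ofNat 0, .ofNat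
    1⟩, [0, 61, 92, 121, 28, 38, 64, 123932]⟩

def t16_12 : Simp :=
⟨8215, [⟨⟨.negSucc 3, .ofNat 0, .ofNat 0, .ofNat 4, .ofNat 0⟩, ⟨12, 0, 0, 4, 0⟩, ⟨1, 16, 3, 5,
    7⟩⟩, ⟨⟨.ofNat 8, .ofNat 8, .ofNat 0, .negSucc 15, .negSucc 7⟩, ⟨8, 8, 0, 0, 8⟩, ⟨1, 4, 1,
    1, 1⟩⟩, ⟨⟨.negSucc 3, .ofNat 0, .ofNat 8, .negSucc 3, .ofNat 0⟩, ⟨12, 0, 8, 12, 0⟩, ⟨1, 4,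
    3, 1, 3⟩⟩, ⟨⟨.ofNat 0, .negSucc 7, .ofNat 8, .ofNat 32, .negSucc 7⟩, ⟨0, 8, 8, 0, 8⟩, ⟨1,
    2, 1, 1, 1⟩⟩, ⟨⟨.ofNat 16, .ofNat 0, .negSucc 15, .negSucc 15, .ofNat 16⟩, ⟨0, 0, 0, 0, 0⟩,
    ⟨1, 3, 1, 1, 2⟩⟩], 16, ⟨.ofNat 1, .ofNat 0, .ofNat 1, .ofNat 1, .ofNat 1⟩, ⟨.ofNat 0,
    .ofNat 1, .ofNat 0, .ofNat 0, .ofNat 1⟩, ⟨.ofNat 0, .ofNat 0, .ofNat 2, .ofNat 0, .ofNat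
    0⟩, ⟨.ofNat 0, .ofNat 0, .ofNat 0, .ofNat 4, .ofNat 0⟩, ⟨.ofNat 0, .ofNat 0, .ofNat 0,
    .ofNat 0, .ofNat 2⟩, [0, 22, 61, 60418, 92, 92162, 121, 119810, 27, 28, 37, 38, 58, 64,
    123931, 123932]⟩

def t16_13 : Simp :=
⟨526417, [⟨⟨.negSucc 1, .ofNat 2, .ofNat 0, .negSucc 1, .ofNat 0⟩, ⟨18, 2, 0, 18, 0⟩, ⟨1, 16,
    3, 5, 7⟩⟩, ⟨⟨.ofNat 20, .negSucc 9, .ofNat 0, .ofNat 0, .ofNat 20⟩, ⟨0, 10, 0, 0, 0⟩, ⟨1,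
    2, 1, 1, 1⟩⟩, ⟨⟨.negSucc 9, .ofNat 0, .ofNat 20, .negSucc 9, .ofNat 0⟩, ⟨10, 0, 0, 10, 0⟩,
    ⟨1, 4, 3, 3, 1⟩⟩, ⟨⟨.negSucc 7, .negSucc 11, .ofNat 0, .ofNat 12, .ofNat 20⟩, ⟨12, 8, 0,
    12, 0⟩, ⟨1, 6, 3, 5, 2⟩⟩, ⟨⟨.ofNat 20, .ofNat 20, .negSucc 19, .ofNat 0, .negSucc 39⟩, ⟨0,
    0, 0, 0, 0⟩, ⟨1, 4, 2, 3, 1⟩⟩], 20, ⟨.ofNat 1, .ofNat 0, .ofNat 0, .ofNat 9, .ofNat 0⟩,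
    ⟨.ofNat 0, .ofNat 2, .ofNat 0, .ofNat 2, .ofNat 0⟩, ⟨.ofNat 0, .ofNat 0, .ofNat 1, .ofNat
    0, .ofNat 0⟩, ⟨.ofNat 0, .ofNat 0, .ofNat 0, .ofNat 10, .ofNat 0⟩, ⟨.ofNat 0, .ofNat 0,
    .ofNat 0, .ofNat 0, .ofNat 1⟩, [0, 136276, 133, 117778, 127, 100, 119, 93, 106, 84, 40, 29,
    139277, 123917, 135181, 110605, 58, 101389, 48, 93197]⟩

def t16_14 : Simp :=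
⟨542737, [⟨⟨.negSucc 0, .ofNat 1, .ofNat 0, .negSucc 0, .ofNat 0⟩, ⟨9, 1, 0, 9, 0⟩, ⟨1, 16, 3,
    5, 7⟩⟩, ⟨⟨.ofNat 5, .negSucc 4, .ofNat 10, .negSucc 4, .ofNat 10⟩, ⟨5, 5, 0, 5, 0⟩, ⟨1, 2,
    1, 1, 1⟩⟩, ⟨⟨.negSucc 3, .negSucc 5, .ofNat 0, .ofNat 6, .ofNat 10⟩, ⟨6, 4, 0, 6, 0⟩, ⟨1,
    6, 3, 5, 2⟩⟩, ⟨⟨.ofNat 10, .ofNat 0, .negSucc 19, .ofNat 10, .ofNat 0⟩, ⟨0, 0, 0, 0, 0⟩,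
    ⟨1, 3, 1, 2, 1⟩⟩, ⟨⟨.ofNat 0, .ofNat 10, .ofNat 10, .negSucc 9, .negSucc 19⟩, ⟨0, 0, 0, 0,
    0⟩, ⟨1, 4, 2, 3, 1⟩⟩], 10, ⟨.ofNat 1, .ofNat 0, .ofNat 0, .ofNat 9, .ofNat 0⟩, ⟨.ofNat 0,
    .ofNat 1, .ofNat 0, .ofNat 1, .ofNat 0⟩, ⟨.ofNat 0, .ofNat 0, .ofNat 1, .ofNat 0, .ofNat
    0⟩, ⟨.ofNat 0, .ofNat 0, .ofNat 0, .ofNat 10, .ofNat 0⟩, ⟨.ofNat 0, .ofNat 0, .ofNat 0,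
    .ofNat 0, .ofNat 1⟩, [0, 139277, 133, 135181, 127, 58, 119, 48, 106, 40]⟩

def t16_15 : Simp :=
⟨280593, [⟨⟨.negSucc 1, .ofNat 2, .ofNat 0, .negSucc 1, .ofNat 0⟩, ⟨18, 2, 0, 18, 0⟩, ⟨1, 16,
    3, 5, 7⟩⟩, ⟨⟨.ofNat 10, .negSucc 9, .ofNat 20, .negSucc 9, .ofNat 20⟩, ⟨10, 10, 0, 10, 0⟩,
    ⟨1, 2, 1, 1, 1⟩⟩, ⟨⟨.negSucc 7, .negSucc 1, .ofNat 10, .ofNat 2, .ofNat 0⟩, ⟨12, 18, 10, 2,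
    0⟩, ⟨1, 6, 3, 5, 2⟩⟩, ⟨⟨.ofNat 20, .ofNat 20, .negSucc 19, .ofNat 0, .negSucc 39⟩, ⟨0, 0,
    0, 0, 0⟩, ⟨1, 3, 1, 2, 1⟩⟩, ⟨⟨.ofNat 0, .negSucc 9, .negSucc 9, .ofNat 10, .ofNat 20⟩, ⟨0,
    10, 10, 10, 0⟩, ⟨1, 4, 1, 3, 2⟩⟩], 20, ⟨.ofNat 1, .ofNat 0, .ofNat 1, .ofNat 9, .ofNat 0⟩,
    ⟨.ofNat 0, .ofNat 1, .ofNat 0, .ofNat 1, .ofNat 0⟩, ⟨.ofNat 0, .ofNat 0, .ofNat 2, .ofNat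
    0, .ofNat 0⟩, ⟨.ofNat 0, .ofNat 0, .ofNat 0, .ofNat 10, .ofNat 0⟩, ⟨.ofNat 0, .ofNat 0,
    .ofNat 0, .ofNat 0, .ofNat 1⟩, [0, 139269, 133, 135173, 127, 128005, 119, 115717, 106,
    104453, 52, 139277, 136244, 135181, 90130, 58, 72, 48, 60, 40]⟩

def t16_16 : Simp :=
⟨6225, [⟨⟨.negSucc 3, .ofNat 4, .ofNat 0, .negSucc 3, .ofNat 0⟩, ⟨36, 4, 0, 36, 0⟩, ⟨1, 16, 3,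
    5, 7⟩⟩, ⟨⟨.ofNat 60, .ofNat 0, .negSucc 19, .ofNat 0, .ofNat 0⟩, ⟨20, 0, 20, 0, 0⟩, ⟨1, 2,
    1, 1, 1⟩⟩, ⟨⟨.negSucc 19, .ofNat 0, .ofNat 40, .negSucc 19, .ofNat 0⟩, ⟨20, 0, 0, 20, 0⟩,
    ⟨1, 4, 3, 3, 1⟩⟩, ⟨⟨.ofNat 24, .ofNat 16, .negSucc 39, .ofNat 24, .negSucc 39⟩, ⟨24, 16, 0,
    24, 0⟩, ⟨1, 6, 3, 5, 2⟩⟩, ⟨⟨.negSucc 19, .negSucc 19, .ofNat 20, .ofNat 0, .ofNat 40⟩, ⟨20,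
    20, 20, 0, 0⟩, ⟨1, 6, 3, 5, 3⟩⟩], 40, ⟨.ofNat 1, .ofNat 0, .ofNat 1, .ofNat 9, .ofNat 0⟩,
    ⟨.ofNat 0, .ofNat 2, .ofNat 0, .ofNat 2, .ofNat 0⟩, ⟨.ofNat 0, .ofNat 0, .ofNat 2, .ofNat
    0, .ofNat 0⟩, ⟨.ofNat 0, .ofNat 0, .ofNat 0, .ofNat 10, .ofNat 0⟩, ⟨.ofNat 0, .ofNat 0,
    .ofNat 0, .ofNat 0, .ofNat 1⟩, [0, 136276, 133, 117778, 127, 100, 119, 93, 106, 84, 39,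
    142688269, 138253, 122701837, 133133, 106509, 124941, 97293, 112653, 87053, 102, 80,
    139282, 123922, 135186, 110610, 125, 101394, 113, 93202, 40, 29, 139277, 123917, 135181,
    110605, 58, 101389, 48, 93197]⟩

def t16_17 : Simp :=
⟨1114193, [⟨⟨.negSucc 1, .ofNat 2, .ofNat 0, .negSucc 1, .ofNat 0⟩, ⟨18, 2, 0, 18, 0⟩, ⟨1, 16,
    3, 5, 7⟩⟩, ⟨⟨.ofNat 36, .ofNat 4, .negSucc 19, .ofNat 6, .negSucc 9⟩, ⟨16, 4, 0, 6, 10⟩,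
    ⟨1, 2, 1, 1, 1⟩⟩, ⟨⟨.negSucc 1, .ofNat 2, .ofNat 0, .ofNat 8, .negSucc 9⟩, ⟨18, 2, 0, 8,
    10⟩, ⟨1, 4, 3, 3, 1⟩⟩, ⟨⟨.negSucc 15, .negSucc 3, .ofNat 40, .negSucc 35, .ofNat 20⟩, ⟨4,
    16, 0, 4, 0⟩, ⟨1, 3, 2, 2, 2⟩⟩, ⟨⟨.ofNat 4, .negSucc 3, .negSucc 19, .ofNat 24, .ofNat 0⟩,
    ⟨4, 16, 0, 4, 0⟩, ⟨1, 4, 2, 3, 3⟩⟩], 20, ⟨.ofNat 1, .ofNat 0, .ofNat 0, .ofNat 9, .ofNat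
    1⟩, ⟨.ofNat 0, .ofNat 1, .ofNat 0, .ofNat 1, .ofNat 1⟩, ⟨.ofNat 0, .ofNat 0, .ofNat 1,
    .ofNat 0, .ofNat 0⟩, ⟨.ofNat 0, .ofNat 0, .ofNat 0, .ofNat 10, .ofNat 0⟩, ⟨.ofNat 0, .ofNat
    0, .ofNat 0, .ofNat 0, .ofNat 2⟩, [0, 29, 139293, 142623745, 141575169, 136203, 138423297,
    140526593, 137380865, 136326145, 58, 100, 101377, 115718, 112646, 97281, 96257, 110106625,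
    89140225, 91137]⟩

def t16_18 : Simp :=
⟨1052753, [⟨⟨.negSucc 3, .ofNat 4, .ofNat 0, .negSucc 3, .ofNat 0⟩, ⟨36, 4, 0, 36, 0⟩, ⟨1, 16,
    3, 5, 7⟩⟩, ⟨⟨.ofNat 72, .ofNat 8, .negSucc 39, .ofNat 12, .negSucc 19⟩, ⟨32, 8, 0, 12, 20⟩,
    ⟨1, 2, 1, 1, 1⟩⟩, ⟨⟨.negSucc 19, .ofNat 0, .ofNat 40, .negSucc 19, .ofNat 0⟩, ⟨20, 0, 0,
    20, 0⟩, ⟨1, 4, 3, 3, 1⟩⟩, ⟨⟨.ofNat 16, .ofNat 4, .negSucc 39, .ofNat 36, .negSucc 19⟩, ⟨16,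
    4, 0, 36, 20⟩, ⟨1, 6, 3, 5, 3⟩⟩, ⟨⟨.negSucc 23, .negSucc 15, .ofNat 40, .negSucc 23, .ofNat
    40⟩, ⟨16, 24, 0, 16, 0⟩, ⟨1, 4, 2, 3, 3⟩⟩], 40, ⟨.ofNat 1, .ofNat 0, .ofNat 0, .ofNat 9,
    .ofNat 1⟩, ⟨.ofNat 0, .ofNat 2, .ofNat 0, .ofNat 2, .ofNat 0⟩, ⟨.ofNat 0, .ofNat 0, .ofNat
    1, .ofNat 0, .ofNat 0⟩, ⟨.ofNat 0, .ofNat 0, .ofNat 0, .ofNat 10, .ofNat 0⟩, ⟨.ofNat 0,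
    .ofNat 0, .ofNat 0, .ofNat 0, .ofNat 2⟩, [0, 39, 142624779, 142688257, 141577217, 136207,
    122701825, 119821, 134157, 133121, 106509, 100, 124929, 125965, 115723, 101730305, 43,
    112641, 87041, 104459, 41, 107521, 29, 80, 142625793, 139303, 141576203, 126897153, 137229,
    135169, 117458945, 130059, 125, 58, 121867, 108021761, 118785, 122893, 93185, 108555]⟩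

def t16_19 : Simp :=
⟨264241, [⟨⟨.negSucc 3, .ofNat 4, .ofNat 0, .negSucc 3, .ofNat 0⟩, ⟨36, 4, 0, 36, 0⟩, ⟨1, 16,
    3, 5, 7⟩⟩, ⟨⟨.ofNat 40, .ofNat 0, .ofNat 20, .negSucc 19, .ofNat 0⟩, ⟨0, 0, 20, 20, 0⟩, ⟨1,
    2, 1, 1, 1⟩⟩, ⟨⟨.negSucc 19, .negSucc 19, .ofNat 20, .ofNat 0, .ofNat 40⟩, ⟨20, 20, 20, 0,
    0⟩, ⟨1, 4, 1, 3, 3⟩⟩, ⟨⟨.negSucc 15, .negSucc 3, .ofNat 20, .ofNat 4, .ofNat 0⟩, ⟨24, 36,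
    20, 4, 0⟩, ⟨1, 6, 3, 5, 2⟩⟩, ⟨⟨.ofNat 40, .ofNat 20, .negSucc 59, .ofNat 20, .negSucc 39⟩,
    ⟨0, 20, 20, 20, 0⟩, ⟨1, 4, 1, 3, 2⟩⟩], 40, ⟨.ofNat 1, .ofNat 0, .ofNat 1, .ofNat 9, .ofNat
    0⟩, ⟨.ofNat 0, .ofNat 2, .ofNat 0, .ofNat 2, .ofNat 0⟩, ⟨.ofNat 0, .ofNat 0, .ofNat 2,
    .ofNat 0, .ofNat 0⟩, ⟨.ofNat 0, .ofNat 0, .ofNat 0, .ofNat 10, .ofNat 0⟩, ⟨.ofNat 0, .ofNat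
    0, .ofNat 0, .ofNat 0, .ofNat 1⟩, [0, 139269, 133, 135173, 127, 128005, 119, 115717, 106,
    104453, 56325, 139316, 141611013, 135220, 92294149, 83, 79877, 71, 67589, 57, 104457, 23,
    139273, 138245, 135177, 133125, 128009, 124933, 115721, 112645, 40, 52, 139277, 136244,
    135181, 90130, 58, 72, 48, 60]⟩

def t16_20 : Simp :=
⟨6193, [⟨⟨.negSucc 3, .ofNat 4, .ofNat 0, .negSucc 3, .ofNat 0⟩, ⟨36, 4, 0, 36, 0⟩, ⟨1, 16, 3,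
    5, 7⟩⟩, ⟨⟨.ofNat 40, .ofNat 0, .ofNat 20, .negSucc 19, .ofNat 0⟩, ⟨0, 0, 20, 20, 0⟩, ⟨1, 2,
    1, 1, 1⟩⟩, ⟨⟨.ofNat 20, .ofNat 0, .negSucc 39, .ofNat 20, .ofNat 0⟩, ⟨20, 0, 0, 20, 0⟩, ⟨1,
    4, 1, 3, 3⟩⟩, ⟨⟨.ofNat 24, .ofNat 16, .negSucc 39, .ofNat 24, .negSucc 39⟩, ⟨24, 16, 0, 24,
    0⟩, ⟨1, 6, 3, 5, 2⟩⟩, ⟨⟨.negSucc 39, .negSucc 19, .ofNat 60, .negSucc 19, .ofNat 40⟩, ⟨0,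
    20, 20, 20, 0⟩, ⟨1, 6, 3, 5, 3⟩⟩], 40, ⟨.ofNat 1, .ofNat 0, .ofNat 1, .ofNat 9, .ofNat 0⟩,
    ⟨.ofNat 0, .ofNat 2, .ofNat 0, .ofNat 2, .ofNat 0⟩, ⟨.ofNat 0, .ofNat 0, .ofNat 2, .ofNat
    0, .ofNat 0⟩, ⟨.ofNat 0, .ofNat 0, .ofNat 0, .ofNat 10, .ofNat 0⟩, ⟨.ofNat 0, .ofNat 0,
    .ofNat 0, .ofNat 0, .ofNat 1⟩, [0, 142625797, 133, 140527621, 127, 131077, 119, 118789,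
    106, 107525, 39, 139316, 138253, 135220, 133133, 83, 124941, 71, 112653, 57, 102, 23,
    139282, 138245, 135186, 133125, 125, 124933, 113, 112645, 40, 55, 139277, 138292, 135181,
    90131, 58, 79890, 48, 67602]⟩

def t16_21 : Simp :=
⟨1052721, [⟨⟨.negSucc 3, .ofNat 4, .ofNat 0, .negSucc 3, .ofNat 0⟩, ⟨36, 4, 0, 36, 0⟩, ⟨1, 16,
    3, 5, 7⟩⟩, ⟨⟨.ofNat 52, .ofNat 8, .ofNat 0, .negSucc 7, .negSucc 19⟩, ⟨12, 8, 0, 32, 20⟩,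
    ⟨1, 2, 1, 1, 1⟩⟩, ⟨⟨.ofNat 20, .ofNat 0, .negSucc 39, .ofNat 20, .ofNat 0⟩, ⟨20, 0, 0, 20,
    0⟩, ⟨1, 4, 1, 3, 3⟩⟩, ⟨⟨.negSucc 3, .ofNat 4, .ofNat 0, .ofNat 16, .negSucc 19⟩, ⟨36, 4, 0,
    16, 20⟩, ⟨1, 6, 3, 5, 3⟩⟩, ⟨⟨.negSucc 23, .negSucc 15, .ofNat 40, .negSucc 23, .ofNat 40⟩,
    ⟨16, 24, 0, 16, 0⟩, ⟨1, 4, 2, 3, 3⟩⟩], 40, ⟨.ofNat 1, .ofNat 0, .ofNat 0, .ofNat 9, .ofNat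
    1⟩, ⟨.ofNat 0, .ofNat 2, .ofNat 0, .ofNat 2, .ofNat 0⟩, ⟨.ofNat 0, .ofNat 0, .ofNat 1,
    .ofNat 0, .ofNat 0⟩, ⟨.ofNat 0, .ofNat 0, .ofNat 0, .ofNat 10, .ofNat 0⟩, ⟨.ofNat 0, .ofNat
    0, .ofNat 0, .ofNat 0, .ofNat 2⟩, [0, 39, 142662657, 141665285, 141577217, 136207, 137221,
    140562433, 134157, 133121, 83, 131077, 124929, 125965, 77614081, 122885, 43, 112641,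
    113669, 64513, 41, 107521, 55, 23, 142625793, 139303, 141614081, 140616709, 137229, 135169,
    134149, 137416705, 125, 58, 81808385, 125957, 118785, 122893, 116741, 67585]⟩

def t16_22 : Simp :=
⟨1114133, [⟨⟨.negSucc 1, .ofNat 2, .ofNat 0, .ofNat 0, .negSucc 1⟩, ⟨14, 2, 0, 0, 14⟩, ⟨1, 16,
    3, 5, 7⟩⟩, ⟨⟨.ofNat 2, .negSucc 1, .ofNat 0, .negSucc 7, .ofNat 10⟩, ⟨2, 14, 0, 8, 10⟩, ⟨1,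
    4, 3, 1, 3⟩⟩, ⟨⟨.ofNat 32, .ofNat 0, .negSucc 15, .negSucc 7, .ofNat 8⟩, ⟨0, 0, 0, 8, 8⟩,
    ⟨1, 2, 1, 1, 1⟩⟩, ⟨⟨.negSucc 23, .ofNat 8, .ofNat 32, .ofNat 16, .negSucc 39⟩, ⟨8, 8, 0, 0,
    8⟩, ⟨1, 3, 2, 2, 2⟩⟩, ⟨⟨.ofNat 8, .negSucc 7, .negSucc 15, .ofNat 0, .ofNat 24⟩, ⟨8, 8, 0,
    0, 8⟩, ⟨1, 4, 2, 3, 3⟩⟩], 16, ⟨.ofNat 1, .ofNat 0, .ofNat 0, .ofNat 1, .ofNat 7⟩, ⟨.ofNat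
    0, .ofNat 1, .ofNat 0, .ofNat 1, .ofNat 1⟩, ⟨.ofNat 0, .ofNat 0, .ofNat 1, .ofNat 0, .ofNat
    0⟩, ⟨.ofNat 0, .ofNat 0, .ofNat 0, .ofNat 2, .ofNat 0⟩, ⟨.ofNat 0, .ofNat 0, .ofNat 0,
    .ofNat 0, .ofNat 8⟩, [0, 141608961, 121, 136329217, 92, 105473, 61, 74753, 27, 139275,
    123931, 134150, 58, 109574, 37, 77830]⟩

def t16_23 : Simp :=
⟨1048629, [⟨⟨.negSucc 3, .ofNat 4, .ofNat 0, .ofNat 0, .negSucc 3⟩, ⟨28, 4, 0, 0, 28⟩, ⟨1, 16,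
    3, 5, 7⟩⟩, ⟨⟨.ofNat 4, .negSucc 3, .ofNat 0, .negSucc 15, .ofNat 20⟩, ⟨4, 28, 0, 16, 20⟩,
    ⟨1, 4, 3, 1, 3⟩⟩, ⟨⟨.ofNat 40, .ofNat 8, .ofNat 0, .ofNat 0, .negSucc 23⟩, ⟨8, 8, 0, 0, 8⟩,
    ⟨1, 2, 1, 1, 1⟩⟩, ⟨⟨.ofNat 24, .negSucc 7, .negSucc 31, .negSucc 15, .ofNat 40⟩, ⟨24, 24,
    0, 16, 8⟩, ⟨1, 4, 1, 3, 3⟩⟩, ⟨⟨.negSucc 31, .ofNat 0, .ofNat 32, .ofNat 32, .negSucc 31⟩,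
    ⟨0, 0, 0, 0, 0⟩, ⟨1, 4, 2, 3, 3⟩⟩], 32, ⟨.ofNat 1, .ofNat 0, .ofNat 0, .ofNat 1, .ofNat 7⟩,
    ⟨.ofNat 0, .ofNat 2, .ofNat 0, .ofNat 0, .ofNat 2⟩, ⟨.ofNat 0, .ofNat 0, .ofNat 1, .ofNat
    0, .ofNat 0⟩, ⟨.ofNat 0, .ofNat 0, .ofNat 0, .ofNat 2, .ofNat 0⟩, ⟨.ofNat 0, .ofNat 0,
    .ofNat 0, .ofNat 0, .ofNat 8⟩, [0, 139291, 138241, 140536833, 92, 53, 89089, 48129, 33,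
    136199, 123931, 119809, 83, 111617, 37, 60417, 82945, 27, 139265, 138267, 137217, 58,
    92161, 51, 35, 23, 142640129, 121, 90126, 114689, 79873, 61]⟩

def t16_24 : Simp :=
⟨131117, [⟨⟨.negSucc 7, .ofNat 8, .ofNat 0, .ofNat 0, .negSucc 7⟩, ⟨56, 8, 0, 0, 56⟩, ⟨1, 16,
    3, 5, 7⟩⟩, ⟨⟨.ofNat 16, .ofNat 0, .ofNat 32, .ofNat 0, .negSucc 15⟩, ⟨16, 0, 32, 0, 48⟩,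
    ⟨1, 4, 3, 1, 3⟩⟩, ⟨⟨.negSucc 39, .negSucc 7, .ofNat 0, .ofNat 0, .ofNat 24⟩, ⟨24, 56, 0, 0,
    24⟩, ⟨1, 8, 3, 5, 7⟩⟩, ⟨⟨.ofNat 32, .ofNat 0, .ofNat 32, .ofNat 64, .negSucc 63⟩, ⟨32, 0,
    32, 0, 0⟩, ⟨1, 4, 1, 3, 3⟩⟩, ⟨⟨.ofNat 64, .ofNat 0, .negSucc 63, .negSucc 63, .ofNat 64⟩,
    ⟨0, 0, 0, 0, 0⟩, ⟨1, 4, 1, 2, 3⟩⟩], 64, ⟨.ofNat 1, .ofNat 0, .ofNat 1, .ofNat 0, .ofNat 7⟩,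
    ⟨.ofNat 0, .ofNat 4, .ofNat 0, .ofNat 0, .ofNat 4⟩, ⟨.ofNat 0, .ofNat 0, .ofNat 2, .ofNat
    0, .ofNat 0⟩, ⟨.ofNat 0, .ofNat 0, .ofNat 0, .ofNat 1, .ofNat 0⟩, ⟨.ofNat 0, .ofNat 0,
    .ofNat 0, .ofNat 0, .ofNat 8⟩, [0, 139318, 138316, 117, 131, 132150, 87, 101, 33, 139308,
    138308, 137243, 134177, 54292, 74, 28692, 124, 54, 139340, 121, 134, 134198, 90, 107,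
    35860, 44, 139332, 138267, 137249, 59412, 78, 129051, 126, 59, 76, 139362, 135, 137270, 92,
    109, 37908, 47, 68, 142634004, 138273, 65556, 83, 132123, 129, 61, 81, 98, 136, 138294,
    137292, 112, 38932, 51, 69, 27668, 139297, 138284, 90132, 134171]⟩

def t16_25 : Simp :=
⟨1048621, [⟨⟨.negSucc 7, .ofNat 8, .ofNat 0, .ofNat 0, .negSucc 7⟩, ⟨56, 8, 0, 0, 56⟩, ⟨1, 16,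
    3, 5, 7⟩⟩, ⟨⟨.ofNat 48, .ofNat 0, .ofNat 0, .negSucc 31, .ofNat 16⟩, ⟨48, 0, 0, 32, 16⟩,
    ⟨1, 4, 3, 1, 3⟩⟩, ⟨⟨.negSucc 39, .negSucc 7, .ofNat 0, .ofNat 0, .ofNat 24⟩, ⟨24, 56, 0, 0,
    24⟩, ⟨1, 8, 3, 5, 7⟩⟩, ⟨⟨.ofNat 128, .ofNat 0, .negSucc 63, .negSucc 31, .ofNat 32⟩, ⟨0, 0,
    0, 32, 32⟩, ⟨1, 4, 1, 3, 3⟩⟩, ⟨⟨.negSucc 63, .ofNat 0, .ofNat 64, .ofNat 64, .negSucc 63⟩,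
    ⟨0, 0, 0, 0, 0⟩, ⟨1, 4, 2, 3, 3⟩⟩], 64, ⟨.ofNat 1, .ofNat 0, .ofNat 0, .ofNat 1, .ofNat 7⟩,
    ⟨.ofNat 0, .ofNat 4, .ofNat 0, .ofNat 0, .ofNat 4⟩, ⟨.ofNat 0, .ofNat 0, .ofNat 1, .ofNat
    0, .ofNat 0⟩, ⟨.ofNat 0, .ofNat 0, .ofNat 0, .ofNat 2, .ofNat 0⟩, ⟨.ofNat 0, .ofNat 0,
    .ofNat 0, .ofNat 0, .ofNat 8⟩, [0, 139308, 138316, 137243, 131, 54292, 87, 28692, 33,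
    139318, 138308, 117, 134177, 132150, 74, 101, 124, 44, 139340, 138267, 134, 59412, 90,
    129051, 35860, 54, 139332, 121, 137249, 134198, 78, 107, 126, 47, 76, 142634004, 135,
    65556, 92, 132123, 37908, 59, 68, 139362, 138273, 137270, 83, 109, 129, 51, 81, 27668, 136,
    138284, 137292, 134171, 38932, 61, 69, 98, 139297, 138294, 90132, 112]⟩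

def t16_26 : Simp :=
⟨139285, [⟨⟨.negSucc 1, .ofNat 2, .ofNat 0, .ofNat 0, .negSucc 1⟩, ⟨14, 2, 0, 0, 14⟩, ⟨1, 16,
    3, 5, 7⟩⟩, ⟨⟨.negSucc 5, .negSucc 1, .ofNat 8, .ofNat 0, .ofNat 2⟩, ⟨10, 14, 8, 0, 2⟩, ⟨1,
    4, 3, 1, 3⟩⟩, ⟨⟨.ofNat 8, .ofNat 0, .ofNat 8, .ofNat 16, .negSucc 15⟩, ⟨8, 0, 8, 0, 0⟩, ⟨1,
    2, 1, 1, 1⟩⟩, ⟨⟨.ofNat 24, .ofNat 8, .negSucc 15, .negSucc 31, .ofNat 8⟩, ⟨8, 8, 0, 0, 8⟩,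
    ⟨1, 3, 1, 1, 2⟩⟩, ⟨⟨.negSucc 7, .negSucc 7, .ofNat 0, .ofNat 16, .ofNat 8⟩, ⟨8, 8, 0, 0,
    8⟩, ⟨1, 4, 1, 2, 3⟩⟩], 16, ⟨.ofNat 1, .ofNat 0, .ofNat 1, .ofNat 0, .ofNat 7⟩, ⟨.ofNat 0,
    .ofNat 1, .ofNat 0, .ofNat 0, .ofNat 1⟩, ⟨.ofNat 0, .ofNat 0, .ofNat 2, .ofNat 0, .ofNat
    0⟩, ⟨.ofNat 0, .ofNat 0, .ofNat 0, .ofNat 1, .ofNat 0⟩, ⟨.ofNat 0, .ofNat 0, .ofNat 0,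
    .ofNat 0, .ofNat 8⟩, [0, 139267, 121, 119811, 92, 92163, 61, 60419, 27, 142633987, 123931,
    92289027, 58, 54275, 37, 35843]⟩

def t16_27 : Simp :=
⟨131125, [⟨⟨.negSucc 3, .ofNat 4, .ofNat 0, .ofNat 0, .negSucc 3⟩, ⟨28, 4, 0, 0, 28⟩, ⟨1, 16,
    3, 5, 7⟩⟩, ⟨⟨.negSucc 11, .negSucc 3, .ofNat 16, .ofNat 0, .ofNat 4⟩, ⟨20, 28, 16, 0, 4⟩,
    ⟨1, 4, 3, 1, 3⟩⟩, ⟨⟨.ofNat 40, .ofNat 8, .ofNat 0, .ofNat 0, .negSucc 23⟩, ⟨8, 8, 0, 0, 8⟩,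
    ⟨1, 2, 1, 1, 1⟩⟩, ⟨⟨.negSucc 23, .negSucc 7, .ofNat 16, .ofNat 32, .negSucc 7⟩, ⟨8, 24, 16,
    0, 24⟩, ⟨1, 4, 1, 3, 3⟩⟩, ⟨⟨.ofNat 32, .ofNat 0, .negSucc 31, .negSucc 31, .ofNat 32⟩, ⟨0,
    0, 0, 0, 0⟩, ⟨1, 4, 1, 2, 3⟩⟩], 32, ⟨.ofNat 1, .ofNat 0, .ofNat 1, .ofNat 0, .ofNat 7⟩,
    ⟨.ofNat 0, .ofNat 2, .ofNat 0, .ofNat 0, .ofNat 2⟩, ⟨.ofNat 0, .ofNat 0, .ofNat 2, .ofNat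
    0, .ofNat 0⟩, ⟨.ofNat 0, .ofNat 0, .ofNat 0, .ofNat 1, .ofNat 0⟩, ⟨.ofNat 0, .ofNat 0,
    .ofNat 0, .ofNat 0, .ofNat 8⟩, [0, 136199, 138241, 119809, 92, 111617, 89089, 60417, 33,
    139291, 123931, 140536833, 83, 53, 37, 48129, 82945, 23, 139265, 121, 137217, 114689,
    92161, 61, 35, 27, 142640129, 138267, 90126, 58, 79873, 51]⟩

def t16_28 : Simp :=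
⟨1052713, [⟨⟨.ofNat 4, .ofNat 8, .ofNat 0, .negSucc 7, .negSucc 3⟩, ⟨4, 8, 0, 56, 60⟩, ⟨1, 16,
    3, 5, 7⟩⟩, ⟨⟨.negSucc 51, .negSucc 7, .ofNat 0, .ofNat 8, .ofNat 20⟩, ⟨12, 56, 0, 8, 20⟩,
    ⟨1, 8, 3, 5, 7⟩⟩, ⟨⟨.ofNat 32, .ofNat 0, .negSucc 63, .ofNat 32, .ofNat 0⟩, ⟨32, 0, 0, 32,
    0⟩, ⟨1, 4, 1, 3, 3⟩⟩, ⟨⟨.negSucc 47, .ofNat 0, .ofNat 0, .ofNat 32, .negSucc 15⟩, ⟨16, 0,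
    0, 32, 48⟩, ⟨1, 6, 3, 5, 3⟩⟩, ⟨⟨.ofNat 128, .ofNat 0, .ofNat 64, .negSucc 63, .ofNat 0⟩,
    ⟨0, 0, 0, 0, 0⟩, ⟨1, 4, 2, 3, 3⟩⟩], 64, ⟨.ofNat 1, .ofNat 0, .ofNat 0, .ofNat 1, .ofNat
    15⟩, ⟨.ofNat 0, .ofNat 2, .ofNat 0, .ofNat 0, .ofNat 4⟩, ⟨.ofNat 0, .ofNat 0, .ofNat 1,
    .ofNat 0, .ofNat 0⟩, ⟨.ofNat 0, .ofNat 0, .ofNat 0, .ofNat 2, .ofNat 12⟩, ⟨.ofNat 0, .ofNat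
    0, .ofNat 0, .ofNat 0, .ofNat 16⟩, [0, 139369, 139375, 136212, 135, 137321, 130068, 130,
    131, 121876, 122, 123, 126, 110, 114, 118, 139319, 138303, 138308, 137268, 137271, 134207,
    83, 132148, 132151, 72724, 74, 127028, 58388, 63, 68, 142659604, 124, 105, 111, 139382,
    136, 138345, 138351, 132, 134, 134249, 125, 128, 129, 115732, 116, 120, 55, 139327, 139332,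
    141611028, 138295, 137279, 90132, 134196, 134199, 73748, 78, 129076, 61460, 66, 69, 53268]⟩

def t16_29 : Simp :=
⟨131715, [⟨⟨.negSucc 1, .ofNat 0, .ofNat 2, .ofNat 0, .ofNat 0⟩, ⟨2, 0, 2, 0, 0⟩, ⟨1, 16, 3, 5,
    7⟩⟩, ⟨⟨.ofNat 2, .ofNat 0, .ofNat 2, .ofNat 4, .negSucc 3⟩, ⟨2, 0, 2, 0, 0⟩, ⟨1, 4, 1, 1,
    1⟩⟩, ⟨⟨.ofNat 0, .ofNat 0, .ofNat 4, .negSucc 7, .ofNat 4⟩, ⟨0, 0, 0, 0, 0⟩, ⟨1, 4, 1, 1,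
    2⟩⟩, ⟨⟨.ofNat 4, .ofNat 2, .negSucc 11, .ofNat 0, .ofNat 0⟩, ⟨0, 2, 0, 0, 0⟩, ⟨1, 6, 1, 2,
    3⟩⟩, ⟨⟨.ofNat 0, .negSucc 1, .ofNat 4, .ofNat 4, .ofNat 0⟩, ⟨0, 2, 0, 0, 0⟩, ⟨1, 4, 1, 2,
    3⟩⟩], 4, ⟨.ofNat 1, .ofNat 0, .ofNat 1, .ofNat 0, .ofNat 0⟩, ⟨.ofNat 0, .ofNat 2, .ofNat 0,
    .ofNat 0, .ofNat 0⟩, ⟨.ofNat 0, .ofNat 0, .ofNat 2, .ofNat 0, .ofNat 0⟩, ⟨.ofNat 0, .ofNat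
    0, .ofNat 0, .ofNat 1, .ofNat 0⟩, ⟨.ofNat 0, .ofNat 0, .ofNat 0, .ofNat 0, .ofNat 1⟩, [0,
    64, 26, 90116]⟩

def t16_30 : Simp :=
⟨139395, [⟨⟨.negSucc 0, .ofNat 0, .ofNat 1, .ofNat 0, .ofNat 0⟩, ⟨1, 0, 1, 0, 0⟩, ⟨1, 16, 3, 5,
    7⟩⟩, ⟨⟨.ofNat 1, .ofNat 0, .ofNat 1, .ofNat 2, .negSucc 1⟩, ⟨1, 0, 1, 0, 0⟩, ⟨1, 4, 1, 1,
    1⟩⟩, ⟨⟨.ofNat 4, .ofNat 2, .negSucc 9, .negSucc 3, .ofNat 2⟩, ⟨0, 0, 0, 0, 0⟩, ⟨1, 4, 1, 1,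
    2⟩⟩, ⟨⟨.negSucc 3, .negSucc 1, .ofNat 12, .ofNat 0, .ofNat 0⟩, ⟨0, 0, 0, 0, 0⟩, ⟨1, 3, 1,
    1, 2⟩⟩, ⟨⟨.ofNat 2, .ofNat 0, .negSucc 3, .ofNat 2, .ofNat 0⟩, ⟨0, 0, 0, 0, 0⟩, ⟨1, 4, 1,
    2, 3⟩⟩], 2, ⟨.ofNat 1, .ofNat 0, .ofNat 1, .ofNat 0, .ofNat 0⟩, ⟨.ofNat 0, .ofNat 1, .ofNat
    0, .ofNat 0, .ofNat 0⟩, ⟨.ofNat 0, .ofNat 0, .ofNat 2, .ofNat 0, .ofNat 0⟩, ⟨.ofNat 0,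
    .ofNat 0, .ofNat 0, .ofNat 1, .ofNat 0⟩, ⟨.ofNat 0, .ofNat 0, .ofNat 0, .ofNat 0, .ofNat
    1⟩, [0, 64]⟩

def t16_31 : Simp :=
⟨278547, [⟨⟨.negSucc 1, .ofNat 0, .ofNat 2, .ofNat 0, .ofNat 0⟩, ⟨2, 0, 2, 0, 0⟩, ⟨1, 16, 3, 5,
    7⟩⟩, ⟨⟨.ofNat 8, .ofNat 2, .negSucc 9, .negSucc 1, .ofNat 0⟩, ⟨0, 2, 2, 2, 0⟩, ⟨1, 4, 1, 1,
    1⟩⟩, ⟨⟨.ofNat 2, .negSucc 1, .ofNat 4, .negSucc 1, .ofNat 4⟩, ⟨2, 2, 0, 2, 0⟩, ⟨1, 2, 1, 1,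
    1⟩⟩, ⟨⟨.negSucc 11, .ofNat 0, .ofNat 16, .ofNat 4, .negSucc 7⟩, ⟨0, 0, 0, 0, 0⟩, ⟨1, 3, 1,
    2, 1⟩⟩, ⟨⟨.ofNat 8, .ofNat 0, .negSucc 11, .ofNat 0, .ofNat 4⟩, ⟨0, 0, 0, 0, 0⟩, ⟨1, 4, 1,
    3, 2⟩⟩], 4, ⟨.ofNat 1, .ofNat 0, .ofNat 1, .ofNat 1, .ofNat 0⟩, ⟨.ofNat 0, .ofNat 1, .ofNat
    0, .ofNat 1, .ofNat 0⟩, ⟨.ofNat 0, .ofNat 0, .ofNat 2, .ofNat 0, .ofNat 0⟩, ⟨.ofNat 0,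
    .ofNat 0, .ofNat 0, .ofNat 2, .ofNat 0⟩, ⟨.ofNat 0, .ofNat 0, .ofNat 0, .ofNat 0, .ofNat
    1⟩, [0, 22, 64, 58]⟩

def t16_32 : Simp :=
⟨262195, [⟨⟨.negSucc 3, .ofNat 0, .ofNat 4, .ofNat 0, .ofNat 0⟩, ⟨4, 0, 4, 0, 0⟩, ⟨1, 16, 3, 5,
    7⟩⟩, ⟨⟨.ofNat 16, .ofNat 4, .negSucc 19, .negSucc 3, .ofNat 0⟩, ⟨0, 4, 4, 4, 0⟩, ⟨1, 4, 1,
    1, 1⟩⟩, ⟨⟨.negSucc 7, .negSucc 3, .ofNat 24, .ofNat 0, .ofNat 0⟩, ⟨0, 4, 0, 0, 0⟩, ⟨1, 2,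
    1, 1, 1⟩⟩, ⟨⟨.ofNat 12, .ofNat 0, .negSucc 15, .negSucc 3, .ofNat 8⟩, ⟨4, 0, 0, 4, 0⟩, ⟨1,
    4, 1, 3, 3⟩⟩, ⟨⟨.negSucc 7, .ofNat 0, .ofNat 8, .ofNat 8, .negSucc 7⟩, ⟨0, 0, 0, 0, 0⟩, ⟨1,
    4, 1, 3, 2⟩⟩], 8, ⟨.ofNat 1, .ofNat 0, .ofNat 1, .ofNat 1, .ofNat 0⟩, ⟨.ofNat 0, .ofNat 2,
    .ofNat 0, .ofNat 0, .ofNat 0⟩, ⟨.ofNat 0, .ofNat 0, .ofNat 2, .ofNat 0, .ofNat 0⟩, ⟨.ofNat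
    0, .ofNat 0, .ofNat 0, .ofNat 2, .ofNat 0⟩, ⟨.ofNat 0, .ofNat 0, .ofNat 0, .ofNat 0, .ofNat
    1⟩, [0, 24, 64, 83, 22, 23, 58, 90113]⟩

def t16_33 : Simp :=
⟨263203, [⟨⟨.negSucc 3, .ofNat 0, .ofNat 4, .ofNat 0, .ofNat 0⟩, ⟨4, 0, 4, 0, 0⟩, ⟨1, 16, 3, 5,
    7⟩⟩, ⟨⟨.ofNat 8, .ofNat 0, .ofNat 4, .negSucc 3, .ofNat 0⟩, ⟨0, 0, 4, 4, 0⟩, ⟨1, 4, 1, 1,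
    1⟩⟩, ⟨⟨.ofNat 4, .negSucc 3, .ofNat 8, .negSucc 3, .ofNat 8⟩, ⟨4, 4, 0, 4, 0⟩, ⟨1, 4, 1, 3,
    3⟩⟩, ⟨⟨.ofNat 8, .ofNat 4, .negSucc 23, .ofNat 0, .ofNat 0⟩, ⟨0, 4, 0, 0, 0⟩, ⟨1, 6, 1, 3,
    3⟩⟩, ⟨⟨.negSucc 7, .ofNat 0, .ofNat 8, .ofNat 8, .negSucc 7⟩, ⟨0, 0, 0, 0, 0⟩, ⟨1, 4, 1, 3,
    2⟩⟩], 8, ⟨.ofNat 1, .ofNat 0, .ofNat 1, .ofNat 1, .ofNat 0⟩, ⟨.ofNat 0, .ofNat 2, .ofNat 0,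
    .ofNat 0, .ofNat 0⟩, ⟨.ofNat 0, .ofNat 0, .ofNat 2, .ofNat 0, .ofNat 0⟩, ⟨.ofNat 0, .ofNat
    0, .ofNat 0, .ofNat 2, .ofNat 0⟩, ⟨.ofNat 0, .ofNat 0, .ofNat 0, .ofNat 0, .ofNat 1⟩, [0,
    24, 64, 83, 30, 25, 73736, 88]⟩

def t16_34 : Simp :=
⟨1571, [⟨⟨.negSucc 3, .ofNat 0, .ofNat 4, .ofNat 0, .ofNat 0⟩, ⟨4, 0, 4, 0, 0⟩, ⟨1, 16, 3, 5,
    7⟩⟩, ⟨⟨.ofNat 4, .ofNat 0, .ofNat 8, .ofNat 0, .negSucc 3⟩, ⟨4, 0, 0, 0, 4⟩, ⟨1, 4, 1, 1,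
    1⟩⟩, ⟨⟨.ofNat 0, .negSucc 3, .ofNat 12, .ofNat 0, .ofNat 4⟩, ⟨0, 4, 4, 0, 4⟩, ⟨1, 4, 1, 3,
    3⟩⟩, ⟨⟨.ofNat 8, .ofNat 0, .negSucc 7, .negSucc 7, .ofNat 8⟩, ⟨0, 0, 0, 0, 0⟩, ⟨1, 6, 1, 2,
    3⟩⟩, ⟨⟨.ofNat 0, .ofNat 4, .negSucc 15, .ofNat 8, .negSucc 7⟩, ⟨0, 4, 0, 0, 0⟩, ⟨1, 6, 1,
    3, 3⟩⟩], 8, ⟨.ofNat 1, .ofNat 0, .ofNat 1, .ofNat 0, .ofNat 1⟩, ⟨.ofNat 0, .ofNat 2, .ofNat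
    0, .ofNat 0, .ofNat 0⟩, ⟨.ofNat 0, .ofNat 0, .ofNat 2, .ofNat 0, .ofNat 0⟩, ⟨.ofNat 0,
    .ofNat 0, .ofNat 0, .ofNat 1, .ofNat 0⟩, ⟨.ofNat 0, .ofNat 0, .ofNat 0, .ofNat 0, .ofNat
    2⟩, [0, 24, 83, 64, 30, 25, 88, 73736]⟩

def t16_35 : Simp :=
⟨131619, [⟨⟨.negSucc 3, .ofNat 0, .ofNat 4, .ofNat 0, .ofNat 0⟩, ⟨4, 0, 4, 0, 0⟩, ⟨1, 16, 3, 5,
    7⟩⟩, ⟨⟨.ofNat 4, .ofNat 0, .ofNat 8, .ofNat 0, .negSucc 3⟩, ⟨4, 0, 0, 0, 4⟩, ⟨1, 4, 1, 1,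
    1⟩⟩, ⟨⟨.ofNat 0, .ofNat 0, .negSucc 3, .ofNat 8, .negSucc 3⟩, ⟨0, 0, 4, 0, 4⟩, ⟨1, 4, 1, 3,
    3⟩⟩, ⟨⟨.ofNat 8, .ofNat 4, .negSucc 23, .ofNat 0, .ofNat 0⟩, ⟨0, 4, 0, 0, 0⟩, ⟨1, 6, 1, 2,
    3⟩⟩, ⟨⟨.ofNat 0, .negSucc 3, .ofNat 16, .negSucc 7, .ofNat 8⟩, ⟨0, 4, 0, 0, 0⟩, ⟨1, 4, 1,
    2, 3⟩⟩], 8, ⟨.ofNat 1, .ofNat 0, .ofNat 1, .ofNat 0, .ofNat 1⟩, ⟨.ofNat 0, .ofNat 2, .ofNat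
    0, .ofNat 0, .ofNat 0⟩, ⟨.ofNat 0, .ofNat 0, .ofNat 2, .ofNat 0, .ofNat 0⟩, ⟨.ofNat 0,
    .ofNat 0, .ofNat 0, .ofNat 1, .ofNat 0⟩, ⟨.ofNat 0, .ofNat 0, .ofNat 0, .ofNat 0, .ofNat
    2⟩, [0, 24, 83, 64, 26, 12291, 90119, 90116]⟩

def t16_36 : Simp :=
⟨139283, [⟨⟨.negSucc 1, .ofNat 0, .ofNat 2, .ofNat 0, .ofNat 0⟩, ⟨2, 0, 2, 0, 0⟩, ⟨1, 16, 3, 5,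
    7⟩⟩, ⟨⟨.ofNat 6, .ofNat 2, .negSucc 7, .ofNat 0, .negSucc 1⟩, ⟨2, 2, 0, 0, 2⟩, ⟨1, 4, 1, 1,
    1⟩⟩, ⟨⟨.negSucc 3, .negSucc 1, .ofNat 10, .ofNat 4, .negSucc 1⟩, ⟨0, 2, 2, 0, 2⟩, ⟨1, 2, 1,
    1, 1⟩⟩, ⟨⟨.ofNat 0, .ofNat 0, .ofNat 4, .negSucc 7, .ofNat 4⟩, ⟨0, 0, 0, 0, 0⟩, ⟨1, 3, 1,
    1, 2⟩⟩, ⟨⟨.ofNat 4, .ofNat 0, .negSucc 7, .ofNat 4, .ofNat 0⟩, ⟨0, 0, 0, 0, 0⟩, ⟨1, 4, 1,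
    2, 3⟩⟩], 4, ⟨.ofNat 1, .ofNat 0, .ofNat 1, .ofNat 0, .ofNat 1⟩, ⟨.ofNat 0, .ofNat 1, .ofNat
    0, .ofNat 0, .ofNat 1⟩, ⟨.ofNat 0, .ofNat 0, .ofNat 2, .ofNat 0, .ofNat 0⟩, ⟨.ofNat 0,
    .ofNat 0, .ofNat 0, .ofNat 1, .ofNat 0⟩, ⟨.ofNat 0, .ofNat 0, .ofNat 0, .ofNat 0, .ofNat
    2⟩, [0, 22, 58, 64]⟩

def t16_37 : Simp :=
⟨131123, [⟨⟨.negSucc 3, .ofNat 0, .ofNat 4, .ofNat 0, .ofNat 0⟩, ⟨4, 0, 4, 0, 0⟩, ⟨1, 16, 3, 5,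
    7⟩⟩, ⟨⟨.ofNat 12, .ofNat 4, .negSucc 15, .ofNat 0, .negSucc 3⟩, ⟨4, 4, 0, 0, 4⟩, ⟨1, 4, 1,
    1, 1⟩⟩, ⟨⟨.negSucc 7, .negSucc 3, .ofNat 24, .ofNat 0, .ofNat 0⟩, ⟨0, 4, 0, 0, 0⟩, ⟨1, 2,
    1, 1, 1⟩⟩, ⟨⟨.ofNat 0, .ofNat 0, .negSucc 3, .ofNat 8, .negSucc 3⟩, ⟨0, 0, 4, 0, 4⟩, ⟨1, 4,
    1, 3, 3⟩⟩, ⟨⟨.ofNat 8, .ofNat 0, .negSucc 7, .negSucc 7, .ofNat 8⟩, ⟨0, 0, 0, 0, 0⟩, ⟨1, 4,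
    1, 2, 3⟩⟩], 8, ⟨.ofNat 1, .ofNat 0, .ofNat 1, .ofNat 0, .ofNat 1⟩, ⟨.ofNat 0, .ofNat 2,
    .ofNat 0, .ofNat 0, .ofNat 0⟩, ⟨.ofNat 0, .ofNat 0, .ofNat 2, .ofNat 0, .ofNat 0⟩, ⟨.ofNat
    0, .ofNat 0, .ofNat 0, .ofNat 1, .ofNat 0⟩, ⟨.ofNat 0, .ofNat 0, .ofNat 0, .ofNat 0, .ofNat
    2⟩, [0, 24, 83, 64, 22, 23, 90113, 58]⟩

/-- The cone, its triangulation and the certificates for `m = 16`. -/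
def f16 : Fan where
F := [⟨.ofNat 2, .negSucc 0, .ofNat 0, .ofNat 0, .ofNat 2⟩, ⟨.ofNat 2, .negSucc 0, .negSucc 0,
    .ofNat 2, .ofNat 1⟩, ⟨.ofNat 1, .negSucc 0, .ofNat 2, .negSucc 0, .ofNat 2⟩, ⟨.negSucc 0,
    .ofNat 0, .ofNat 0, .ofNat 0, .ofNat 1⟩, ⟨.ofNat 3, .ofNat 0, .negSucc 0, .ofNat 0, .ofNat
    0⟩, ⟨.negSucc 0, .ofNat 1, .negSucc 0, .ofNat 0, .ofNat 0⟩, ⟨.ofNat 0, .negSucc 0, .ofNat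
    3, .ofNat 0, .ofNat 1⟩, ⟨.ofNat 2, .ofNat 2, .negSucc 1, .negSucc 0, .negSucc 0⟩, ⟨.negSucc
    0, .ofNat 0, .ofNat 0, .ofNat 1, .ofNat 0⟩, ⟨.ofNat 1, .ofNat 0, .ofNat 1, .ofNat 2,
    .negSucc 1⟩, ⟨.ofNat 1, .negSucc 0, .ofNat 0, .ofNat 3, .ofNat 0⟩, ⟨.ofNat 0, .negSucc 0,
    .ofNat 2, .ofNat 2, .ofNat 0⟩, ⟨.negSucc 0, .ofNat 1, .ofNat 0, .negSucc 0, .ofNat 0⟩,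
    ⟨.ofNat 2, .ofNat 0, .ofNat 1, .negSucc 0, .ofNat 0⟩, ⟨.ofNat 1, .ofNat 0, .ofNat 2, .ofNat
    0, .negSucc 0⟩, ⟨.negSucc 0, .ofNat 1, .ofNat 0, .ofNat 0, .negSucc 0⟩, ⟨.ofNat 1, .ofNat
    2, .ofNat 0, .negSucc 1, .negSucc 0⟩, ⟨.negSucc 0, .ofNat 0, .ofNat 1, .ofNat 0, .ofNat 0⟩]
V := [(⟨.ofNat 1, .ofNat 16, .ofNat 3, .ofNat 5, .ofNat 7⟩, 28247), (⟨.ofNat 1, .ofNat 4,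
    .ofNat 1, .ofNat 1, .ofNat 1⟩, 134479), (⟨.ofNat 1, .ofNat 4, .ofNat 3, .ofNat 1, .ofNat
    3⟩, 34738), (⟨.ofNat 1, .ofNat 8, .ofNat 3, .ofNat 5, .ofNat 7⟩, 123536), (⟨.ofNat 1,
    .ofNat 2, .ofNat 1, .ofNat 1, .ofNat 1⟩, 168232), (⟨.ofNat 1, .ofNat 4, .ofNat 1, .ofNat 3,
    .ofNat 3⟩, 258048), (⟨.ofNat 1, .ofNat 4, .ofNat 3, .ofNat 3, .ofNat 1⟩, 4281), (⟨.ofNat 1,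
    .ofNat 4, .ofNat 1, .ofNat 1, .ofNat 2⟩, 134912), (⟨.ofNat 1, .ofNat 4, .ofNat 3, .ofNat 2,
    .ofNat 1⟩, 59), (⟨.ofNat 1, .ofNat 6, .ofNat 1, .ofNat 2, .ofNat 3⟩, 150080), (⟨.ofNat 1,
    .ofNat 6, .ofNat 1, .ofNat 3, .ofNat 3⟩, 155716), (⟨.ofNat 1, .ofNat 6, .ofNat 3, .ofNat 5,
    .ofNat 2⟩, 12309), (⟨.ofNat 1, .ofNat 6, .ofNat 3, .ofNat 5, .ofNat 3⟩, 77968), (⟨.ofNat 1,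
    .ofNat 3, .ofNat 1, .ofNat 1, .ofNat 2⟩, 164608), (⟨.ofNat 1, .ofNat 3, .ofNat 1, .ofNat 2,
    .ofNat 1⟩, 135180), (⟨.ofNat 1, .ofNat 3, .ofNat 2, .ofNat 1, .ofNat 1⟩, 298), (⟨.ofNat 1,
    .ofNat 3, .ofNat 2, .ofNat 2, .ofNat 2⟩, 37024), (⟨.ofNat 1, .ofNat 4, .ofNat 1, .ofNat 2,
    .ofNat 3⟩, 180736), (⟨.ofNat 1, .ofNat 4, .ofNat 1, .ofNat 3, .ofNat 2⟩, 143364), (⟨.ofNat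
    1, .ofNat 4, .ofNat 2, .ofNat 3, .ofNat 1⟩, 4109), (⟨.ofNat 1, .ofNat 4, .ofNat 2, .ofNat
    3, .ofNat 3⟩, 102528)]
C := [⟨28, [(.ofNat 1, 2), (.ofNat 3, 3), (.ofNat 4, 4)], [(.ofNat 3, 0), (.ofNat 1, 7)],
    .ofNat 2⟩, ⟨88, [(.ofNat 1, 3), (.ofNat 3, 4), (.ofNat 1, 6)], [(.ofNat 1, 0)], .ofNat 6⟩,
    ⟨138, [(.ofNat 1, 1), (.ofNat 5, 3), (.ofNat 2, 7)], [(.ofNat 2, 0), (.ofNat 5, 5)], .ofNat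
    2⟩, ⟨280, [(.ofNat 1, 3), (.ofNat 2, 4), (.ofNat 2, 8)], [(.ofNat 1, 1), (.ofNat 1, 5)],
    .ofNat 2⟩, ⟨520, [(.ofNat 3, 3), (.ofNat 2, 9)], [(.ofNat 4, 8), (.ofNat 1, 14)], .ofNat
    2⟩, ⟨1048, [(.ofNat 3, 3), (.ofNat 4, 4), (.ofNat 2, 10)], [(.ofNat 3, 1), (.ofNat 1, 5)],
    .ofNat 6⟩, ⟨2072, [(.ofNat 1, 3), (.ofNat 3, 4), (.ofNat 1, 11)], [(.ofNat 1, 1)], .ofNat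
    6⟩, ⟨4098, [(.ofNat 2, 1), (.ofNat 5, 12)], [(.ofNat 1, 2), (.ofNat 4, 5)], .ofNat 2⟩,
    ⟨8200, [(.ofNat 2, 3), (.ofNat 2, 13)], [(.ofNat 1, 2), (.ofNat 1, 12)], .ofNat 2⟩, ⟨16392,
    [(.ofNat 1, 3), (.ofNat 1, 14)], [(.ofNat 2, 17)], .ofNat 2⟩, ⟨32792, [(.ofNat 1, 3),
    (.ofNat 1, 4), (.ofNat 1, 15)], [(.ofNat 1, 5)], .ofNat 2⟩, ⟨65544, [(.ofNat 1, 3), (.ofNat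
    1, 16)], [(.ofNat 2, 12)], .ofNat 2⟩, ⟨131088, [(.ofNat 1, 4), (.ofNat 1, 17)], [], .ofNat
    2⟩, ⟨36, [(.ofNat 1, 2), (.ofNat 2, 5)], [(.ofNat 2, 3), (.ofNat 1, 12)], .ofNat 2⟩, ⟨96,
    [(.ofNat 1, 5), (.ofNat 2, 6)], [(.ofNat 1, 0), (.ofNat 5, 17)], .ofNat 2⟩, ⟨289, [(.ofNat
    2, 0), (.ofNat 1, 5), (.ofNat 2, 8)], [(.ofNat 1, 1), (.ofNat 3, 3)], .ofNat 2⟩, ⟨1064,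
    [(.ofNat 1, 3), (.ofNat 1, 5), (.ofNat 2, 10)], [(.ofNat 1, 1), (.ofNat 4, 8)], .ofNat 2⟩,
    ⟨2080, [(.ofNat 2, 5), (.ofNat 1, 11)], [(.ofNat 3, 8), (.ofNat 1, 12)], .ofNat 2⟩, ⟨32778,
    [(.ofNat 1, 1), (.ofNat 1, 3), (.ofNat 2, 15)], [(.ofNat 1, 5), (.ofNat 2, 8)], .ofNat 2⟩,
    ⟨131106, [(.ofNat 2, 1), (.ofNat 1, 5), (.ofNat 3, 17)], [(.ofNat 1, 0), (.ofNat 4, 8)],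
    .ofNat 2⟩, ⟨32769, [(.ofNat 1, 0), (.ofNat 1, 15)], [(.ofNat 1, 3)], .ofNat 2⟩, ⟨131105,
    [(.ofNat 1, 0), (.ofNat 1, 5), (.ofNat 1, 17)], [(.ofNat 2, 3)], .ofNat 2⟩, ⟨392, [(.ofNat
    1, 3), (.ofNat 1, 7), (.ofNat 1, 8)], [(.ofNat 2, 5)], .ofNat 2⟩, ⟨32904, [(.ofNat 2, 3),
    (.ofNat 1, 7), (.ofNat 1, 15)], [(.ofNat 2, 5), (.ofNat 1, 12)], .ofNat 2⟩, ⟨131200,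
    [(.ofNat 2, 7), (.ofNat 5, 17)], [(.ofNat 1, 9), (.ofNat 4, 12)], .ofNat 2⟩, ⟨132, [(.ofNat
    1, 2), (.ofNat 2, 7)], [(.ofNat 2, 4), (.ofNat 3, 12)], .ofNat 2⟩, ⟨192, [(.ofNat 4, 6),
    (.ofNat 3, 7)], [(.ofNat 3, 2), (.ofNat 5, 15)], .ofNat 8⟩, ⟨1160, [(.ofNat 5, 3), (.ofNat
    3, 7), (.ofNat 1, 10)], [(.ofNat 1, 0), (.ofNat 6, 5)], .ofNat 6⟩, ⟨2176, [(.ofNat 1, 7),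
    (.ofNat 2, 11)], [(.ofNat 3, 8), (.ofNat 1, 14)], .ofNat 4⟩, ⟨4160, [(.ofNat 2, 6), (.ofNat
    1, 12)], [(.ofNat 1, 2), (.ofNat 4, 17)], .ofNat 2⟩, ⟨4356, [(.ofNat 3, 2), (.ofNat 4, 8),
    (.ofNat 1, 12)], [(.ofNat 4, 3), (.ofNat 2, 6)], .ofNat 2⟩, ⟨5120, [(.ofNat 1, 10), (.ofNat
    1, 12)], [(.ofNat 2, 8)], .ofNat 2⟩, ⟨6144, [(.ofNat 1, 11), (.ofNat 2, 12)], [(.ofNat 1,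
    5), (.ofNat 3, 17)], .ofNat 2⟩, ⟨135169, [(.ofNat 2, 0), (.ofNat 1, 12), (.ofNat 2, 17)],
    [(.ofNat 1, 2), (.ofNat 2, 3)], .ofNat 2⟩, ⟨4353, [(.ofNat 1, 0), (.ofNat 1, 8), (.ofNat 1,
    12)], [(.ofNat 2, 3)], .ofNat 2⟩, ⟨32772, [(.ofNat 3, 2), (.ofNat 4, 15)], [(.ofNat 2, 6),
    (.ofNat 3, 12)], .ofNat 2⟩, ⟨32832, [(.ofNat 1, 6), (.ofNat 1, 15)], [(.ofNat 3, 17)],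
    .ofNat 2⟩, ⟨33800, [(.ofNat 1, 3), (.ofNat 1, 10), (.ofNat 1, 15)], [(.ofNat 3, 8)], .ofNat
    2⟩, ⟨34816, [(.ofNat 2, 11), (.ofNat 2, 15)], [(.ofNat 2, 8), (.ofNat 1, 9), (.ofNat 3,
    17)], .ofNat 2⟩, ⟨131, [(.ofNat 3, 0), (.ofNat 1, 1), (.ofNat 2, 7)], [(.ofNat 5, 3),
    (.ofNat 5, 4)], .ofNat 2⟩, ⟨545, [(.ofNat 1, 0), (.ofNat 1, 5), (.ofNat 1, 9)], [(.ofNat 2,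
    8)], .ofNat 4⟩, ⟨1057, [(.ofNat 4, 0), (.ofNat 3, 5), (.ofNat 2, 10)], [(.ofNat 3, 1),
    (.ofNat 5, 3)], .ofNat 6⟩, ⟨8224, [(.ofNat 1, 5), (.ofNat 1, 13)], [(.ofNat 1, 12)], .ofNat
    2⟩, ⟨16416, [(.ofNat 2, 5), (.ofNat 1, 14)], [(.ofNat 1, 3), (.ofNat 2, 15)], .ofNat 2⟩,
    ⟨65568, [(.ofNat 5, 5), (.ofNat 5, 16)], [(.ofNat 3, 7), (.ofNat 1, 9), (.ofNat 9, 12)],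
    .ofNat 2⟩, ⟨4368, [(.ofNat 1, 4), (.ofNat 1, 8), (.ofNat 1, 12)], [(.ofNat 1, 5)], .ofNat
    2⟩, ⟨4608, [(.ofNat 2, 9), (.ofNat 5, 12)], [(.ofNat 1, 2), (.ofNat 6, 15)], .ofNat 2⟩,
    ⟨36880, [(.ofNat 2, 4), (.ofNat 1, 12), (.ofNat 1, 15)], [(.ofNat 1, 7)], .ofNat 2⟩, ⟨4480,
    [(.ofNat 2, 7), (.ofNat 5, 8), (.ofNat 1, 12)], [(.ofNat 5, 5), (.ofNat 1, 9)], .ofNat 2⟩,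
    ⟨131616, [(.ofNat 2, 5), (.ofNat 1, 9), (.ofNat 1, 17)], [(.ofNat 2, 8), (.ofNat 2, 15)],
    .ofNat 2⟩, ⟨132128, [(.ofNat 1, 5), (.ofNat 1, 10), (.ofNat 1, 17)], [(.ofNat 3, 8)],
    .ofNat 2⟩, ⟨385, [(.ofNat 4, 0), (.ofNat 1, 7), (.ofNat 5, 8)], [(.ofNat 2, 1), (.ofNat 5,
    3)], .ofNat 6⟩, ⟨641, [(.ofNat 14, 0), (.ofNat 1, 7), (.ofNat 5, 9)], [(.ofNat 7, 1),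
    (.ofNat 5, 2)], .ofNat 16⟩, ⟨1153, [(.ofNat 7, 0), (.ofNat 3, 7), (.ofNat 5, 10)], [(.ofNat
    6, 1), (.ofNat 5, 3)], .ofNat 18⟩, ⟨8321, [(.ofNat 1, 0), (.ofNat 2, 7), (.ofNat 1, 13)],
    [(.ofNat 3, 4), (.ofNat 3, 12)], .ofNat 2⟩, ⟨16513, [(.ofNat 1, 0), (.ofNat 1, 7), (.ofNat
    1, 14)], [(.ofNat 1, 12)], .ofNat 6⟩, ⟨65537, [(.ofNat 2, 0), (.ofNat 2, 16)], [(.ofNat 1,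
    2), (.ofNat 2, 4), (.ofNat 3, 12)], .ofNat 2⟩, ⟨20608, [(.ofNat 4, 7), (.ofNat 2, 12),
    (.ofNat 5, 14)], [(.ofNat 2, 9), (.ofNat 5, 16)], .ofNat 4⟩, ⟨45184, [(.ofNat 1, 7),
    (.ofNat 1, 12), (.ofNat 2, 13), (.ofNat 1, 15)], [(.ofNat 2, 16)], .ofNat 2⟩, ⟨8322,
    [(.ofNat 3, 1), (.ofNat 1, 7), (.ofNat 5, 13)], [(.ofNat 1, 0)], .ofNat 16⟩, ⟨8448,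
    [(.ofNat 1, 8), (.ofNat 1, 13)], [(.ofNat 1, 17)], .ofNat 2⟩, ⟨9344, [(.ofNat 1, 7),
    (.ofNat 1, 10), (.ofNat 2, 13)], [(.ofNat 1, 15)], .ofNat 8⟩, ⟨16514, [(.ofNat 8, 1),
    (.ofNat 1, 7), (.ofNat 5, 14)], [(.ofNat 1, 0), (.ofNat 5, 10)], .ofNat 16⟩, ⟨16640,
    [(.ofNat 2, 8), (.ofNat 2, 14)], [(.ofNat 1, 9), (.ofNat 3, 17)], .ofNat 2⟩, ⟨17536,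
    [(.ofNat 4, 7), (.ofNat 8, 10), (.ofNat 9, 14)], [(.ofNat 7, 3), (.ofNat 10, 9)], .ofNat
    22⟩, ⟨65538, [(.ofNat 1, 1), (.ofNat 1, 16)], [(.ofNat 1, 5)], .ofNat 4⟩, ⟨65792, [(.ofNat
    2, 8), (.ofNat 1, 16)], [(.ofNat 1, 3), (.ofNat 2, 15)], .ofNat 2⟩, ⟨66560, [(.ofNat 2,
    10), (.ofNat 3, 16)], [(.ofNat 1, 0), (.ofNat 5, 15)], .ofNat 8⟩, ⟨273, [(.ofNat 1, 0),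
    (.ofNat 1, 4), (.ofNat 2, 8)], [(.ofNat 1, 1), (.ofNat 1, 3)], .ofNat 2⟩, ⟨276, [(.ofNat 1,
    2), (.ofNat 2, 4), (.ofNat 1, 8)], [(.ofNat 1, 0)], .ofNat 4⟩, ⟨336, [(.ofNat 4, 4),
    (.ofNat 1, 6), (.ofNat 2, 8)], [(.ofNat 1, 1)], .ofNat 8⟩, ⟨2320, [(.ofNat 2, 4), (.ofNat
    1, 8), (.ofNat 1, 11)], [(.ofNat 1, 10)], .ofNat 4⟩, ⟨769, [(.ofNat 7, 0), (.ofNat 1, 8),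
    (.ofNat 2, 9)], [(.ofNat 4, 1), (.ofNat 3, 2)], .ofNat 4⟩, ⟨772, [(.ofNat 5, 2), (.ofNat 1,
    8), (.ofNat 2, 9)], [(.ofNat 1, 0), (.ofNat 4, 6)], .ofNat 4⟩, ⟨832, [(.ofNat 2, 6),
    (.ofNat 4, 8), (.ofNat 1, 9)], [(.ofNat 2, 10), (.ofNat 7, 17)], .ofNat 2⟩, ⟨2818, [(.ofNat
    4, 1), (.ofNat 1, 8), (.ofNat 2, 9), (.ofNat 1, 11)], [(.ofNat 5, 10)], .ofNat 4⟩, ⟨131586,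
    [(.ofNat 2, 1), (.ofNat 1, 9), (.ofNat 1, 17)], [(.ofNat 2, 10)], .ofNat 2⟩, ⟨164864,
    [(.ofNat 2, 10), (.ofNat 2, 15), (.ofNat 1, 17)], [(.ofNat 4, 8), (.ofNat 1, 9)], .ofNat
    2⟩, ⟨163842, [(.ofNat 1, 1), (.ofNat 1, 15), (.ofNat 1, 17)], [(.ofNat 2, 8)], .ofNat 2⟩,
    ⟨20484, [(.ofNat 1, 2), (.ofNat 1, 12), (.ofNat 2, 14)], [(.ofNat 2, 13), (.ofNat 4, 17)],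
    .ofNat 2⟩, ⟨20481, [(.ofNat 8, 0), (.ofNat 1, 12), (.ofNat 4, 14)], [(.ofNat 2, 1), (.ofNat
    5, 2)], .ofNat 10⟩, ⟨65540, [(.ofNat 1, 2), (.ofNat 2, 16)], [(.ofNat 3, 12), (.ofNat 2,
    13)], .ofNat 2⟩, ⟨20496, [(.ofNat 2, 4), (.ofNat 2, 12), (.ofNat 1, 14)], [(.ofNat 1, 16)],
    .ofNat 4⟩, ⟨40962, [(.ofNat 3, 1), (.ofNat 6, 13), (.ofNat 2, 15)], [(.ofNat 1, 6)], .ofNat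
    16⟩, ⟨41984, [(.ofNat 2, 10), (.ofNat 6, 13), (.ofNat 1, 15)], [(.ofNat 1, 0), (.ofNat 3,
    14)], .ofNat 8⟩, ⟨139776, [(.ofNat 1, 9), (.ofNat 2, 13), (.ofNat 1, 17)], [(.ofNat 2,
    14)], .ofNat 2⟩, ⟨49154, [(.ofNat 6, 1), (.ofNat 3, 14), (.ofNat 1, 15)], [(.ofNat 1, 0),
    (.ofNat 4, 10)], .ofNat 8⟩, ⟨50176, [(.ofNat 4, 10), (.ofNat 3, 14), (.ofNat 4, 15)],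
    [(.ofNat 5, 3), (.ofNat 6, 9)], .ofNat 2⟩, ⟨197120, [(.ofNat 1, 9), (.ofNat 2, 16), (.ofNat
    1, 17)], [(.ofNat 2, 13), (.ofNat 4, 15)], .ofNat 2⟩, ⟨65600, [(.ofNat 3, 6), (.ofNat 1,
    16)], [(.ofNat 1, 0), (.ofNat 2, 13), (.ofNat 7, 17)], .ofNat 2⟩, ⟨67584, [(.ofNat 3, 11),
    (.ofNat 3, 16)], [(.ofNat 2, 6), (.ofNat 5, 15)], .ofNat 8⟩, ⟨131585, [(.ofNat 1, 0),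
    (.ofNat 1, 9), (.ofNat 1, 17)], [(.ofNat 1, 11)], .ofNat 2⟩, ⟨131588, [(.ofNat 2, 2),
    (.ofNat 1, 9), (.ofNat 1, 17)], [(.ofNat 2, 6)], .ofNat 2⟩, ⟨132672, [(.ofNat 2, 6),
    (.ofNat 1, 9), (.ofNat 2, 10), (.ofNat 1, 17)], [(.ofNat 4, 11)], .ofNat 2⟩, ⟨148480,
    [(.ofNat 2, 10), (.ofNat 4, 14), (.ofNat 1, 17)], [(.ofNat 2, 6), (.ofNat 3, 9)], .ofNat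
    2⟩, ⟨139265, [(.ofNat 1, 0), (.ofNat 1, 13), (.ofNat 1, 17)], [(.ofNat 1, 2)], .ofNat 2⟩,
    ⟨139266, [(.ofNat 1, 1), (.ofNat 2, 13), (.ofNat 2, 17)], [(.ofNat 1, 6)], .ofNat 4⟩,
    ⟨140288, [(.ofNat 1, 10), (.ofNat 1, 13), (.ofNat 1, 17)], [(.ofNat 1, 11)], .ofNat 2⟩,
    ⟨141312, [(.ofNat 1, 11), (.ofNat 3, 13), (.ofNat 1, 17)], [(.ofNat 1, 2), (.ofNat 2, 14)],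
    .ofNat 2⟩, ⟨147457, [(.ofNat 1, 0), (.ofNat 1, 14), (.ofNat 1, 17)], [(.ofNat 1, 6)],
    .ofNat 2⟩, ⟨147458, [(.ofNat 1, 1), (.ofNat 1, 14), (.ofNat 1, 17)], [(.ofNat 1, 11)],
    .ofNat 2⟩, ⟨149508, [(.ofNat 2, 2), (.ofNat 1, 11), (.ofNat 1, 14), (.ofNat 1, 17)],
    [(.ofNat 3, 6)], .ofNat 2⟩]
T := [t16_0, t16_1, t16_2, t16_3, t16_4, t16_5, t16_6, t16_7, t16_8, t16_9, t16_10, t16_11,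
    t16_12, t16_13, t16_14, t16_15, t16_16, t16_17, t16_18, t16_19, t16_20, t16_21, t16_22,
    t16_23, t16_24, t16_25, t16_26, t16_27, t16_28, t16_29, t16_30, t16_31, t16_32, t16_33,
    t16_34, t16_35, t16_36, t16_37]
UN := [⟨1, 2, 1, 1, 1⟩, ⟨1, 4, 1, 1, 1⟩, ⟨1, 3, 1, 1, 2⟩, ⟨1, 4, 1, 1, 2⟩, ⟨1, 3, 1, 2, 1⟩, ⟨1,
    3, 2, 1, 1⟩, ⟨1, 4, 1, 2, 3⟩, ⟨1, 6, 1, 2, 3⟩, ⟨1, 4, 1, 3, 2⟩, ⟨1, 4, 1, 3, 3⟩, ⟨1, 3, 2,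
    2, 2⟩, ⟨1, 6, 1, 3, 3⟩, ⟨1, 4, 2, 3, 1⟩, ⟨1, 4, 3, 1, 3⟩, ⟨1, 4, 2, 3, 3⟩, ⟨1, 4, 3, 2, 1⟩,
    ⟨1, 4, 3, 3, 1⟩, ⟨1, 6, 3, 5, 2⟩, ⟨1, 6, 3, 5, 3⟩, ⟨1, 8, 3, 5, 7⟩, ⟨1, 16, 3, 5, 7⟩, ⟨1,
    3, 1, 1, 1⟩, ⟨1, 3, 1, 2, 2⟩, ⟨1, 4, 1, 2, 2⟩, ⟨1, 5, 1, 2, 2⟩, ⟨1, 5, 1, 2, 3⟩, ⟨1, 3, 2,
    1, 2⟩, ⟨1, 4, 2, 1, 2⟩, ⟨1, 3, 2, 2, 1⟩, ⟨1, 5, 1, 3, 3⟩, ⟨1, 4, 2, 2, 1⟩, ⟨1, 4, 2, 2, 2⟩,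
    ⟨1, 4, 2, 2, 3⟩, ⟨1, 5, 2, 2, 2⟩, ⟨1, 5, 2, 2, 3⟩, ⟨1, 6, 2, 2, 2⟩, ⟨1, 6, 2, 2, 3⟩, ⟨1, 7,
    2, 2, 3⟩, ⟨1, 4, 2, 3, 2⟩, ⟨1, 5, 2, 3, 2⟩, ⟨1, 5, 2, 3, 3⟩, ⟨1, 6, 2, 3, 2⟩, ⟨1, 6, 2, 3,
    3⟩, ⟨1, 5, 2, 3, 4⟩, ⟨1, 4, 3, 2, 2⟩, ⟨1, 5, 3, 2, 2⟩, ⟨1, 6, 2, 3, 4⟩, ⟨1, 7, 2, 3, 3⟩,
    ⟨1, 8, 2, 3, 3⟩, ⟨1, 5, 3, 2, 3⟩, ⟨1, 7, 2, 3, 4⟩, ⟨1, 5, 2, 4, 2⟩, ⟨1, 8, 2, 3, 4⟩, ⟨1, 5,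
    3, 2, 4⟩, ⟨1, 5, 2, 4, 3⟩, ⟨1, 6, 3, 2, 3⟩, ⟨1, 6, 2, 4, 3⟩, ⟨1, 9, 2, 3, 4⟩, ⟨1, 6, 3, 2,
    4⟩, ⟨1, 7, 2, 4, 3⟩, ⟨1, 7, 3, 2, 4⟩, ⟨1, 5, 3, 3, 2⟩, ⟨1, 6, 2, 4, 4⟩, ⟨1, 10, 2, 3, 4⟩,
    ⟨1, 5, 3, 3, 3⟩, ⟨1, 7, 2, 4, 4⟩, ⟨1, 6, 3, 3, 2⟩, ⟨1, 6, 2, 4, 5⟩, ⟨1, 7, 2, 4, 5⟩, ⟨1, 6,
    3, 3, 3⟩, ⟨1, 8, 2, 4, 4⟩, ⟨1, 9, 2, 4, 4⟩, ⟨1, 6, 3, 3, 4⟩, ⟨1, 8, 2, 4, 5⟩, ⟨1, 7, 3, 3,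
    3⟩, ⟨1, 6, 3, 3, 5⟩, ⟨1, 8, 3, 3, 3⟩, ⟨1, 9, 2, 4, 5⟩, ⟨1, 7, 3, 3, 4⟩, ⟨1, 5, 3, 4, 2⟩,
    ⟨1, 7, 3, 3, 5⟩, ⟨1, 8, 3, 3, 4⟩, ⟨1, 10, 2, 4, 5⟩, ⟨1, 6, 3, 4, 2⟩, ⟨1, 6, 3, 4, 3⟩, ⟨1,
    9, 3, 3, 4⟩, ⟨1, 8, 3, 3, 5⟩, ⟨1, 11, 2, 4, 5⟩, ⟨1, 6, 3, 4, 4⟩, ⟨1, 9, 3, 3, 5⟩, ⟨1, 7, 3,
    4, 3⟩, ⟨1, 10, 3, 3, 5⟩, ⟨1, 8, 3, 4, 3⟩, ⟨1, 7, 3, 4, 4⟩, ⟨1, 8, 3, 4, 4⟩, ⟨1, 7, 3, 4,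
    5⟩, ⟨1, 8, 3, 4, 5⟩, ⟨1, 7, 3, 4, 6⟩, ⟨1, 9, 3, 4, 4⟩, ⟨1, 10, 3, 4, 4⟩, ⟨1, 8, 3, 4, 6⟩,
    ⟨1, 7, 3, 5, 3⟩, ⟨1, 9, 3, 4, 5⟩, ⟨1, 10, 3, 4, 5⟩, ⟨1, 7, 3, 5, 4⟩, ⟨1, 8, 3, 5, 3⟩, ⟨1,
    9, 3, 4, 6⟩, ⟨1, 11, 3, 4, 5⟩, ⟨1, 10, 3, 4, 6⟩, ⟨1, 8, 3, 5, 4⟩, ⟨1, 7, 3, 5, 5⟩, ⟨1, 11,
    3, 4, 6⟩, ⟨1, 9, 3, 5, 4⟩, ⟨1, 8, 3, 5, 5⟩, ⟨1, 12, 3, 4, 5⟩, ⟨1, 9, 3, 5, 5⟩, ⟨1, 12, 3,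
    4, 6⟩, ⟨1, 8, 3, 5, 6⟩, ⟨1, 10, 3, 5, 4⟩, ⟨1, 9, 3, 5, 6⟩, ⟨1, 13, 3, 4, 6⟩, ⟨1, 10, 3, 5,
    5⟩, ⟨1, 10, 3, 5, 6⟩, ⟨1, 9, 3, 5, 7⟩, ⟨1, 11, 3, 5, 5⟩, ⟨1, 10, 3, 5, 7⟩, ⟨1, 12, 3, 5,
    5⟩, ⟨1, 11, 3, 5, 6⟩, ⟨1, 11, 3, 5, 7⟩, ⟨1, 12, 3, 5, 6⟩, ⟨1, 12, 3, 5, 7⟩, ⟨1, 13, 3, 5,
    6⟩, ⟨1, 14, 3, 5, 6⟩, ⟨1, 13, 3, 5, 7⟩, ⟨1, 14, 3, 5, 7⟩, ⟨1, 15, 3, 5, 7⟩]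
hx := 3
hy := 5
hz := 7
hl := 16
bx := (.ofNat 2, [(.ofNat 1, ⟨.negSucc 0, .ofNat 0, .ofNat 0, .ofNat 0, .ofNat 1⟩), (.ofNat 1,
    ⟨.ofNat 1, .ofNat 0, .ofNat 2, .ofNat 0, .negSucc 0⟩)])
bx' := (.ofNat 1, [(.ofNat 1, ⟨.ofNat 3, .ofNat 0, .negSucc 0, .ofNat 0, .ofNat 0⟩)])
bY := (.ofNat 2, [(.ofNat 1, ⟨.ofNat 1, .negSucc 0, .ofNat 0, .ofNat 3, .ofNat 0⟩), (.ofNat 1,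
    ⟨.negSucc 0, .ofNat 1, .ofNat 0, .negSucc 0, .ofNat 0⟩)])
bY' := (.ofNat 1, [(.ofNat 1, ⟨.ofNat 3, .ofNat 0, .negSucc 0, .ofNat 0, .ofNat 0⟩), (.ofNat 1,
    ⟨.ofNat 2, .ofNat 0, .ofNat 1, .negSucc 0, .ofNat 0⟩)])
bz := (.ofNat 2, [(.ofNat 1, ⟨.ofNat 2, .negSucc 0, .ofNat 0, .ofNat 0, .ofNat 2⟩), (.ofNat 1,
    ⟨.negSucc 0, .ofNat 0, .ofNat 0, .ofNat 0, .ofNat 1⟩), (.ofNat 1, ⟨.negSucc 0, .ofNat 1,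
    .ofNat 0, .ofNat 0, .negSucc 0⟩)])
bz' := (.ofNat 1, [(.ofNat 2, ⟨.ofNat 3, .ofNat 0, .negSucc 0, .ofNat 0, .ofNat 0⟩), (.ofNat 1,
    ⟨.ofNat 1, .ofNat 0, .ofNat 2, .ofNat 0, .negSucc 0⟩)])
bl := (.ofNat 1, [(.ofNat 1, ⟨.ofNat 2, .negSucc 0, .ofNat 0, .ofNat 0, .ofNat 2⟩), (.ofNat 2,
    ⟨.negSucc 0, .ofNat 1, .ofNat 0, .ofNat 0, .negSucc 0⟩)])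
bl' := (.ofNat 1, [(.ofNat 1, ⟨.ofNat 2, .negSucc 0, .ofNat 0, .ofNat 0, .ofNat 2⟩), (.ofNat 4,
    ⟨.ofNat 3, .ofNat 0, .negSucc 0, .ofNat 0, .ofNat 0⟩), (.ofNat 2, ⟨.ofNat 1, .ofNat 0,
    .ofNat 2, .ofNat 0, .negSucc 0⟩)])
r := 5

/-- Partitions of `16` that realize the lattice points of level one. -/
def r16 : List (List ℕ) :=
[[8, 8], [1, 1, 7, 7], [1, 4, 11], [1, 1, 1, 13], [3, 6, 7], [4, 5, 7], [1, 2, 2, 11], [1, 1,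
    1, 1, 1, 11], [1, 3, 6, 6], [2, 2, 6, 6], [3, 4, 9], [1, 1, 1, 1, 6, 6], [3, 3, 3, 7], [4,
    4, 4, 4], [2, 2, 3, 9], [1, 5, 5, 5], [3, 3, 5, 5], [1, 3, 3, 3, 3, 3], [2, 2, 3, 3, 3, 3],
    [2, 2, 2, 2, 2, 2, 2, 2], [1, 1, 1, 1, 1, 1, 1, 1, 1, 1, 1, 1, 1, 1, 1, 1], [2, 7, 7], [4,
    6, 6], [1, 2, 6, 7], [1, 1, 1, 6, 7], [1, 1, 1, 2, 11], [4, 4, 8], [1, 4, 4, 7], [5, 5, 6],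
    [1, 1, 2, 6, 6], [1, 3, 5, 7], [1, 4, 5, 6], [2, 4, 4, 6], [1, 1, 3, 4, 7], [1, 1, 4, 4,
    6], [1, 1, 1, 1, 5, 7], [1, 1, 1, 2, 4, 7], [1, 1, 1, 1, 1, 4, 7], [3, 3, 4, 6], [1, 1, 3,
    5, 6], [1, 2, 3, 4, 6], [1, 1, 1, 3, 3, 7], [1, 1, 1, 3, 4, 6], [2, 2, 2, 4, 6], [3, 4, 4,
    5], [1, 1, 4, 5, 5], [1, 1, 2, 2, 4, 6], [1, 1, 1, 1, 1, 5, 6], [1, 1, 1, 1, 1, 1, 3, 7],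
    [1, 3, 4, 4, 4], [1, 1, 1, 1, 2, 4, 6], [1, 3, 3, 3, 6], [1, 1, 1, 1, 1, 1, 4, 6], [2, 2,
    4, 4, 4], [2, 2, 3, 3, 6], [1, 1, 1, 4, 4, 5], [1, 1, 2, 3, 3, 6], [1, 1, 1, 1, 1, 1, 1, 2,
    7], [1, 1, 2, 4, 4, 4], [1, 1, 1, 1, 3, 3, 6], [1, 1, 1, 1, 4, 4, 4], [1, 3, 3, 4, 5], [1,
    2, 2, 2, 3, 6], [1, 1, 1, 1, 1, 1, 1, 1, 1, 7], [2, 3, 3, 4, 4], [1, 1, 1, 2, 2, 3, 6], [1,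
    1, 1, 3, 5, 5], [2, 2, 2, 2, 2, 6], [1, 1, 2, 2, 2, 2, 6], [1, 1, 3, 3, 4, 4], [1, 1, 1, 1,
    1, 2, 3, 6], [1, 1, 1, 1, 1, 1, 1, 3, 6], [1, 2, 2, 3, 4, 4], [1, 1, 1, 1, 2, 2, 2, 6], [1,
    1, 1, 1, 3, 4, 5], [2, 2, 2, 2, 4, 4], [1, 1, 1, 1, 1, 1, 5, 5], [1, 1, 1, 1, 1, 1, 2, 2,
    6], [1, 1, 1, 2, 3, 4, 4], [3, 3, 3, 3, 4], [1, 1, 2, 2, 2, 4, 4], [1, 1, 1, 1, 1, 3, 4,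
    4], [1, 1, 1, 1, 1, 1, 1, 1, 2, 6], [1, 1, 3, 3, 3, 5], [1, 2, 3, 3, 3, 4], [1, 1, 1, 1, 1,
    1, 1, 4, 5], [1, 1, 1, 1, 2, 2, 4, 4], [1, 1, 1, 1, 1, 1, 1, 1, 1, 1, 6], [2, 2, 2, 3, 3,
    4], [1, 1, 1, 1, 1, 1, 2, 4, 4], [1, 1, 1, 3, 3, 3, 4], [1, 1, 1, 1, 1, 1, 1, 1, 4, 4], [1,
    1, 1, 1, 1, 3, 3, 5], [1, 1, 2, 2, 3, 3, 4], [1, 1, 1, 1, 2, 3, 3, 4], [1, 2, 2, 2, 2, 3,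
    4], [1, 1, 1, 2, 2, 2, 3, 4], [2, 2, 2, 2, 2, 2, 4], [1, 1, 1, 1, 1, 1, 3, 3, 4], [1, 1, 1,
    1, 1, 1, 1, 1, 3, 5], [1, 1, 2, 2, 2, 2, 2, 4], [1, 1, 2, 3, 3, 3, 3], [1, 1, 1, 1, 1, 2,
    2, 3, 4], [1, 1, 1, 1, 1, 1, 1, 2, 3, 4], [1, 2, 2, 2, 3, 3, 3], [1, 1, 1, 1, 3, 3, 3, 3],
    [1, 1, 1, 1, 2, 2, 2, 2, 4], [1, 1, 1, 1, 1, 1, 1, 1, 1, 3, 4], [1, 1, 1, 1, 1, 1, 2, 2, 2,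
    4], [1, 1, 1, 2, 2, 3, 3, 3], [2, 2, 2, 2, 2, 3, 3], [1, 1, 1, 1, 1, 1, 1, 1, 2, 2, 4], [1,
    1, 1, 1, 1, 2, 3, 3, 3], [1, 1, 2, 2, 2, 2, 3, 3], [1, 1, 1, 1, 1, 1, 1, 1, 1, 1, 1, 5],
    [1, 1, 1, 1, 2, 2, 2, 3, 3], [1, 1, 1, 1, 1, 1, 1, 1, 1, 1, 2, 4], [1, 2, 2, 2, 2, 2, 2,
    3], [1, 1, 1, 1, 1, 1, 1, 3, 3, 3], [1, 1, 1, 2, 2, 2, 2, 2, 3], [1, 1, 1, 1, 1, 1, 1, 1,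
    1, 1, 1, 1, 4], [1, 1, 1, 1, 1, 1, 2, 2, 3, 3], [1, 1, 1, 1, 1, 2, 2, 2, 2, 3], [1, 1, 2,
    2, 2, 2, 2, 2, 2], [1, 1, 1, 1, 1, 1, 1, 1, 2, 3, 3], [1, 1, 1, 1, 2, 2, 2, 2, 2, 2], [1,
    1, 1, 1, 1, 1, 1, 1, 1, 1, 3, 3], [1, 1, 1, 1, 1, 1, 1, 2, 2, 2, 3], [1, 1, 1, 1, 1, 1, 2,
    2, 2, 2, 2], [1, 1, 1, 1, 1, 1, 1, 1, 1, 2, 2, 3], [1, 1, 1, 1, 1, 1, 1, 1, 2, 2, 2, 2],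
    [1, 1, 1, 1, 1, 1, 1, 1, 1, 1, 1, 2, 3], [1, 1, 1, 1, 1, 1, 1, 1, 1, 1, 1, 1, 1, 3], [1, 1,
    1, 1, 1, 1, 1, 1, 1, 1, 2, 2, 2], [1, 1, 1, 1, 1, 1, 1, 1, 1, 1, 1, 1, 2, 2], [1, 1, 1, 1,
    1, 1, 1, 1, 1, 1, 1, 1, 1, 1, 2]]

theorem f16_A : f16.okA = true := by decide +kernel

theorem f16_B : f16.okB = true := by decide +kernel

theorem f16_good : good f16.F f16.UN 16 3 5 7 r16 = true := by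
  decide +kernel

end Pool.Agent.Helper75.Poly
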