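import Pool.Agent.Helper75.Zss.Deg

/-!
# Fermat hypersurfaces of degree 18: the finite check
-/

namespace Pool.Agent.Helper75.Poly

def t18_0 : Simp :=
⟨281, [⟨⟨.ofNat 2, .ofNat 4, .negSucc 1, .negSucc 3, .ofNat 0⟩, ⟨2, 4, 10, 8, 0⟩, ⟨1, 6, 5, 1,
    0⟩⟩, ⟨⟨.ofNat 6, .negSucc 11, .ofNat 12, .ofNat 6, .ofNat 0⟩, ⟨6, 0, 0, 6, 0⟩, ⟨1, 4, 3, 3,
    0⟩⟩, ⟨⟨.negSucc 19, .negSucc 3, .ofNat 8, .ofNat 4, .ofNat 0⟩, ⟨4, 8, 8, 4, 0⟩, ⟨1, 9, 5,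
    7, 0⟩⟩, ⟨⟨.ofNat 24, .ofNat 12, .negSucc 17, .negSucc 5, .ofNat 0⟩, ⟨0, 0, 6, 6, 0⟩, ⟨1, 6,
    3, 5, 0⟩⟩], 12, ⟨.ofNat 1, .ofNat 0, .ofNat 1, .ofNat 3, .ofNat 0⟩, ⟨.ofNat 0, .ofNat 1,
    .ofNat 0, .ofNat 4, .ofNat 0⟩, ⟨.ofNat 0, .ofNat 0, .ofNat 2, .ofNat 2, .ofNat 0⟩, ⟨.ofNat
    0, .ofNat 0, .ofNat 0, .ofNat 6, .ofNat 0⟩, ⟨.ofNat 0, .ofNat 0, .ofNat 0, .ofNat 0, .ofNat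
    1⟩, [0, 56322, 56, 29, 39, 75778, 17416, 19, 48, 57363, 31, 35]⟩

def t18_1 : Simp :=
⟨267, [⟨⟨.negSucc 3, .ofNat 4, .ofNat 0, .negSucc 3, .ofNat 0⟩, ⟨12, 4, 0, 12, 0⟩, ⟨1, 6, 5, 1,
    0⟩⟩, ⟨⟨.ofNat 20, .ofNat 4, .negSucc 7, .negSucc 3, .ofNat 0⟩, ⟨4, 4, 8, 12, 0⟩, ⟨1, 2, 1,
    1, 0⟩⟩, ⟨⟨.ofNat 8, .negSucc 15, .ofNat 16, .ofNat 8, .ofNat 0⟩, ⟨8, 0, 0, 8, 0⟩, ⟨1, 4, 3,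
    3, 0⟩⟩, ⟨⟨.negSucc 7, .ofNat 8, .negSucc 7, .ofNat 0, .ofNat 0⟩, ⟨8, 8, 8, 0, 0⟩, ⟨1, 6, 3,
    5, 0⟩⟩], 16, ⟨.ofNat 1, .ofNat 0, .ofNat 1, .ofNat 3, .ofNat 0⟩, ⟨.ofNat 0, .ofNat 2,
    .ofNat 0, .ofNat 2, .ofNat 0⟩, ⟨.ofNat 0, .ofNat 0, .ofNat 2, .ofNat 0, .ofNat 0⟩, ⟨.ofNat
    0, .ofNat 0, .ofNat 0, .ofNat 4, .ofNat 0⟩, ⟨.ofNat 0, .ofNat 0, .ofNat 0, .ofNat 0, .ofNat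
    1⟩, [0, 19466, 14, 15, 21, 27650, 31, 35841, 25, 29, 39937, 23554, 10, 12, 17, 19]⟩

def t18_2 : Simp :=
⟨323, [⟨⟨.negSucc 3, .ofNat 4, .ofNat 0, .negSucc 3, .ofNat 0⟩, ⟨12, 4, 0, 12, 0⟩, ⟨1, 6, 5, 1,
    0⟩⟩, ⟨⟨.ofNat 28, .negSucc 11, .ofNat 8, .ofNat 4, .ofNat 0⟩, ⟨12, 4, 8, 4, 0⟩, ⟨1, 2, 1,
    1, 0⟩⟩, ⟨⟨.negSucc 7, .ofNat 16, .negSucc 15, .negSucc 7, .ofNat 0⟩, ⟨8, 0, 0, 8, 0⟩, ⟨1,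
    4, 1, 3, 0⟩⟩, ⟨⟨.ofNat 0, .negSucc 7, .ofNat 8, .ofNat 8, .ofNat 0⟩, ⟨0, 8, 8, 8, 0⟩, ⟨1,
    6, 3, 5, 0⟩⟩], 16, ⟨.ofNat 1, .ofNat 0, .ofNat 1, .ofNat 3, .ofNat 0⟩, ⟨.ofNat 0, .ofNat 2,
    .ofNat 0, .ofNat 2, .ofNat 0⟩, ⟨.ofNat 0, .ofNat 0, .ofNat 2, .ofNat 0, .ofNat 0⟩, ⟨.ofNat
    0, .ofNat 0, .ofNat 0, .ofNat 4, .ofNat 0⟩, ⟨.ofNat 0, .ofNat 0, .ofNat 0, .ofNat 0, .ofNat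
    1⟩, [0, 56321, 14, 41985, 21, 27649, 31, 18, 25, 13, 39937, 23, 10, 30, 17, 46081]⟩

def t18_3 : Simp :=
⟨337, [⟨⟨.ofNat 4, .ofNat 0, .ofNat 2, .negSucc 1, .ofNat 0⟩, ⟨4, 0, 2, 10, 0⟩, ⟨1, 6, 5, 1,
    0⟩⟩, ⟨⟨.negSucc 27, .ofNat 12, .negSucc 7, .negSucc 3, .ofNat 0⟩, ⟨8, 0, 4, 8, 0⟩, ⟨1, 9,
    5, 7, 0⟩⟩, ⟨⟨.negSucc 5, .ofNat 12, .negSucc 11, .negSucc 5, .ofNat 0⟩, ⟨6, 0, 0, 6, 0⟩,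
    ⟨1, 4, 1, 3, 0⟩⟩, ⟨⟨.ofNat 42, .negSucc 23, .ofNat 18, .ofNat 12, .ofNat 0⟩, ⟨6, 0, 6, 0,
    0⟩, ⟨1, 6, 3, 5, 0⟩⟩], 12, ⟨.ofNat 1, .ofNat 0, .ofNat 1, .ofNat 3, .ofNat 0⟩, ⟨.ofNat 0,
    .ofNat 1, .ofNat 0, .ofNat 0, .ofNat 0⟩, ⟨.ofNat 0, .ofNat 0, .ofNat 2, .ofNat 2, .ofNat
    0⟩, ⟨.ofNat 0, .ofNat 0, .ofNat 0, .ofNat 6, .ofNat 0⟩, ⟨.ofNat 0, .ofNat 0, .ofNat 0,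
    .ofNat 0, .ofNat 1⟩, [0, 66562, 39, 23, 56, 41, 48, 30, 17416, 58370, 31, 77826]⟩

def t18_4 : Simp :=
⟨177, [⟨⟨.ofNat 72, .ofNat 0, .ofNat 36, .negSucc 35, .ofNat 0⟩, ⟨72, 0, 36, 180, 0⟩, ⟨1, 6, 5,
    1, 0⟩⟩, ⟨⟨.negSucc 23, .negSucc 23, .ofNat 24, .ofNat 48, .ofNat 0⟩, ⟨192, 192, 24, 48, 0⟩,
    ⟨1, 9, 5, 7, 0⟩⟩, ⟨⟨.negSucc 101, .ofNat 24, .negSucc 5, .negSucc 11, .ofNat 0⟩, ⟨114, 24,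
    210, 204, 0⟩, ⟨1, 18, 5, 7, 0⟩⟩, ⟨⟨.ofNat 270, .ofNat 0, .negSucc 53, .ofNat 0, .ofNat 0⟩,
    ⟨54, 0, 162, 0, 0⟩, ⟨1, 6, 1, 3, 0⟩⟩], 216, ⟨.ofNat 1, .ofNat 0, .ofNat 1, .ofNat 9, .ofNat
    0⟩, ⟨.ofNat 0, .ofNat 3, .ofNat 0, .ofNat 6, .ofNat 0⟩, ⟨.ofNat 0, .ofNat 0, .ofNat 4,
    .ofNat 16, .ofNat 0⟩, ⟨.ofNat 0, .ofNat 0, .ofNat 0, .ofNat 18, .ofNat 0⟩, ⟨.ofNat 0,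
    .ofNat 0, .ofNat 0, .ofNat 0, .ofNat 1⟩, [0, 119842, 119847, 118839, 118840, 112, 113,
    112674, 112679, 95, 97, 98, 101, 95266, 61, 65, 70, 74, 40969, 45065, 55583746, 59778050,
    10249, 12297, 119829, 116742, 122715138, 114698, 115722, 113666, 101382, 78, 99338, 90114,
    93186, 98306, 37897, 41993, 9222, 57680898, 119822, 119823, 119810, 114694, 100, 111630,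
    110594, 111618, 112642, 73, 77, 89090, 91138, 32, 31753, 35849, 119856, 114, 118801,
    118803, 115743, 115747, 99, 102, 109585, 109587, 63, 68, 72, 76, 88081, 27657, 86, 34, 39,
    119863, 119864, 115, 116, 115746, 115751, 112695, 103, 104, 107, 103458, 71, 75, 79, 82,
    51, 52, 66069506, 71312386, 75506690, 18441, 21513, 119838, 32515074, 117770, 118794,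
    116738, 107526, 108550, 105482, 106506, 101378, 104450, 46, 49, 55305, 68166658, 14345,
    15369, 9218, 117766, 118790, 114702, 115726, 114690, 115714, 81, 85, 97282, 99330, 100354,
    42, 46089, 49161, 119874, 119825, 119827, 118815, 118819, 105, 106, 112657, 112659, 109599,
    80, 83, 84, 95249, 38, 93, 47, 50, 55, 56, 119882, 117, 118818, 118823, 115767, 108, 109,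
    110, 109602, 109607, 87, 89, 90, 93190, 64, 91146, 81922, 87041026, 24585, 26633, 30729,
    44049410, 47195138, 119818, 119820, 118805, 113670, 110602, 111626, 107522, 108546, 58, 62,
    67, 76802, 82846722, 23561, 25609, 29705, 119814, 117774, 118798, 117762, 118786, 111622,
    94, 106510, 105474, 106498, 53, 57, 59, 67593, 17417, 19465, 119839, 119843, 118832, 111,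
    115729, 115731, 112671, 88, 91, 96, 103441, 103443]⟩

def t18_5 : Simp :=
⟨209, [⟨⟨.ofNat 16, .ofNat 0, .ofNat 8, .negSucc 7, .ofNat 0⟩, ⟨16, 0, 8, 40, 0⟩, ⟨1, 6, 5, 1,
    0⟩⟩, ⟨⟨.negSucc 27, .ofNat 0, .ofNat 4, .ofNat 8, .ofNat 0⟩, ⟨20, 0, 4, 8, 0⟩, ⟨1, 9, 5, 7,
    0⟩⟩, ⟨⟨.ofNat 102, .negSucc 23, .ofNat 6, .ofNat 12, .ofNat 0⟩, ⟨6, 24, 6, 12, 0⟩, ⟨1, 4,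
    1, 3, 0⟩⟩, ⟨⟨.negSucc 41, .ofNat 24, .negSucc 17, .negSucc 11, .ofNat 0⟩, ⟨6, 24, 30, 36,
    0⟩, ⟨1, 6, 1, 3, 0⟩⟩], 48, ⟨.ofNat 1, .ofNat 0, .ofNat 1, .ofNat 3, .ofNat 0⟩, ⟨.ofNat 0,
    .ofNat 1, .ofNat 0, .ofNat 6, .ofNat 0⟩, ⟨.ofNat 0, .ofNat 0, .ofNat 4, .ofNat 10, .ofNat
    0⟩, ⟨.ofNat 0, .ofNat 0, .ofNat 0, .ofNat 12, .ofNat 0⟩, ⟨.ofNat 0, .ofNat 0, .ofNat 0,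
    .ofNat 0, .ofNat 1⟩, [0, 76801, 80897, 83969, 56, 83972, 33, 66561, 39, 92161, 95233,
    75780, 40, 44, 54274, 106956801, 84994, 86018, 26, 53252, 64514, 69634, 73730, 100669441,
    37, 41, 68612, 76802, 80898, 23, 78849, 49, 54, 66562, 112199681, 32, 84993, 86017, 60420,
    66, 66068481, 69633, 73729, 45, 73732, 77828, 55582721, 27]⟩

def t18_6 : Simp :=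
⟨165, [⟨⟨.ofNat 8, .negSucc 7, .ofNat 16, .ofNat 8, .ofNat 0⟩, ⟨8, 40, 16, 8, 0⟩, ⟨1, 6, 5, 1,
    0⟩⟩, ⟨⟨.ofNat 24, .ofNat 24, .negSucc 23, .negSucc 47, .ofNat 0⟩, ⟨24, 24, 24, 0, 0⟩, ⟨1,
    4, 1, 1, 0⟩⟩, ⟨⟨.negSucc 19, .ofNat 8, .negSucc 3, .negSucc 7, .ofNat 0⟩, ⟨28, 8, 44, 40,
    0⟩, ⟨1, 18, 5, 7, 0⟩⟩, ⟨⟨.ofNat 36, .negSucc 23, .ofNat 12, .ofNat 48, .ofNat 0⟩, ⟨36, 24,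
    12, 0, 0⟩, ⟨1, 6, 1, 3, 0⟩⟩], 48, ⟨.ofNat 1, .ofNat 0, .ofNat 1, .ofNat 3, .ofNat 0⟩,
    ⟨.ofNat 0, .ofNat 2, .ofNat 0, .ofNat 2, .ofNat 0⟩, ⟨.ofNat 0, .ofNat 0, .ofNat 4, .ofNat
    4, .ofNat 0⟩, ⟨.ofNat 0, .ofNat 0, .ofNat 0, .ofNat 6, .ofNat 0⟩, ⟨.ofNat 0, .ofNat 0,
    .ofNat 0, .ofNat 0, .ofNat 1⟩, [0, 115, 108, 95, 71, 47, 16393, 117776, 110608, 97296, 60,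
    36, 14345, 117774, 100, 81, 58, 32, 116764, 113667, 101379, 81923, 54275, 28320771, 62467,
    28, 119811, 114691, 105475, 89091, 51, 24585, 10249, 117770, 110602, 78, 20, 117780,
    110612, 92, 69, 43, 17417, 114, 105, 88, 63, 38]⟩

def t18_7 : Simp :=
⟨195, [⟨⟨.negSucc 3, .ofNat 0, .ofNat 4, .ofNat 0, .ofNat 0⟩, ⟨12, 0, 4, 0, 0⟩, ⟨1, 6, 5, 1,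
    0⟩⟩, ⟨⟨.ofNat 28, .ofNat 0, .negSucc 3, .negSucc 7, .ofNat 0⟩, ⟨12, 0, 12, 8, 0⟩, ⟨1, 2, 1,
    1, 0⟩⟩, ⟨⟨.negSucc 7, .negSucc 7, .ofNat 8, .ofNat 16, .ofNat 0⟩, ⟨8, 8, 8, 0, 0⟩, ⟨1, 4,
    1, 3, 0⟩⟩, ⟨⟨.ofNat 0, .ofNat 8, .negSucc 7, .negSucc 7, .ofNat 0⟩, ⟨0, 8, 8, 8, 0⟩, ⟨1, 6,
    1, 3, 0⟩⟩], 16, ⟨.ofNat 1, .ofNat 0, .ofNat 1, .ofNat 1, .ofNat 0⟩, ⟨.ofNat 0, .ofNat 2,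
    .ofNat 0, .ofNat 0, .ofNat 0⟩, ⟨.ofNat 0, .ofNat 0, .ofNat 4, .ofNat 0, .ofNat 0⟩, ⟨.ofNat
    0, .ofNat 0, .ofNat 0, .ofNat 2, .ofNat 0⟩, ⟨.ofNat 0, .ofNat 0, .ofNat 0, .ofNat 0, .ofNat
    1⟩, [0, 22, 40961, 18, 14, 32, 54273, 27649, 33, 13, 10, 24, 47105, 23, 17, 38913]⟩

def t18_8 : Simp :=
⟨135, [⟨⟨.negSucc 3, .ofNat 0, .ofNat 4, .ofNat 0, .ofNat 0⟩, ⟨12, 0, 4, 0, 0⟩, ⟨1, 6, 5, 1,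
    0⟩⟩, ⟨⟨.ofNat 20, .negSucc 7, .ofNat 4, .ofNat 8, .ofNat 0⟩, ⟨4, 8, 4, 8, 0⟩, ⟨1, 2, 1, 1,
    0⟩⟩, ⟨⟨.ofNat 8, .ofNat 8, .negSucc 7, .negSucc 15, .ofNat 0⟩, ⟨8, 8, 8, 0, 0⟩, ⟨1, 4, 1,
    1, 0⟩⟩, ⟨⟨.negSucc 7, .ofNat 0, .ofNat 0, .ofNat 8, .ofNat 0⟩, ⟨8, 0, 0, 8, 0⟩, ⟨1, 6, 1,
    3, 0⟩⟩], 16, ⟨.ofNat 1, .ofNat 0, .ofNat 1, .ofNat 1, .ofNat 0⟩, ⟨.ofNat 0, .ofNat 2,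
    .ofNat 0, .ofNat 0, .ofNat 0⟩, ⟨.ofNat 0, .ofNat 0, .ofNat 4, .ofNat 0, .ofNat 0⟩, ⟨.ofNat
    0, .ofNat 0, .ofNat 0, .ofNat 2, .ofNat 0⟩, ⟨.ofNat 0, .ofNat 0, .ofNat 0, .ofNat 0, .ofNat
    1⟩, [0, 22, 16, 36865, 14, 32, 20490, 27651, 11, 28, 10, 24, 20, 44033, 17, 38913]⟩

/-- The cone, its triangulation and the certificates for `m = 18`. -/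
def f18 : Fan where
F := [⟨.ofNat 1, .ofNat 2, .negSucc 0, .negSucc 1, .ofNat 0⟩, ⟨.ofNat 4, .ofNat 2, .negSucc 2,
    .negSucc 0, .ofNat 0⟩, ⟨.ofNat 5, .ofNat 0, .negSucc 0, .ofNat 0, .ofNat 0⟩, ⟨.negSucc 0,
    .ofNat 1, .ofNat 0, .negSucc 0, .ofNat 0⟩, ⟨.negSucc 0, .ofNat 1, .negSucc 0, .ofNat 0,
    .ofNat 0⟩, ⟨.ofNat 3, .negSucc 1, .ofNat 1, .ofNat 4, .ofNat 0⟩, ⟨.negSucc 0, .ofNat 0,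
    .ofNat 0, .ofNat 1, .ofNat 0⟩, ⟨.ofNat 2, .ofNat 0, .ofNat 1, .negSucc 0, .ofNat 0⟩,
    ⟨.ofNat 1, .negSucc 0, .ofNat 2, .ofNat 1, .ofNat 0⟩, ⟨.negSucc 0, .ofNat 0, .ofNat 1,
    .ofNat 0, .ofNat 0⟩, ⟨.ofNat 0, .ofNat 0, .ofNat 0, .ofNat 0, .ofNat 1⟩, ⟨.ofNat 0, .ofNat
    0, .ofNat 0, .ofNat 0, .negSucc 0⟩]
V := [(⟨.ofNat 1, .ofNat 6, .ofNat 5, .ofNat 1, .ofNat 0⟩, 3190), (⟨.ofNat 1, .ofNat 2, .ofNat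
    1, .ofNat 1, .ofNat 0⟩, 3672), (⟨.ofNat 1, .ofNat 4, .ofNat 1, .ofNat 1, .ofNat 0⟩, 3936),
    (⟨.ofNat 1, .ofNat 4, .ofNat 3, .ofNat 3, .ofNat 0⟩, 3099), (⟨.ofNat 1, .ofNat 9, .ofNat 5,
    .ofNat 7, .ofNat 0⟩, 3207), (⟨.ofNat 1, .ofNat 18, .ofNat 5, .ofNat 7, .ofNat 0⟩, 3492),
    (⟨.ofNat 1, .ofNat 4, .ofNat 1, .ofNat 3, .ofNat 0⟩, 3720), (⟨.ofNat 1, .ofNat 6, .ofNat 1,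
    .ofNat 3, .ofNat 0⟩, 3968), (⟨.ofNat 1, .ofNat 6, .ofNat 3, .ofNat 5, .ofNat 0⟩, 3209)]
C := [⟨12, [(.ofNat 1, 2), (.ofNat 2, 3)], [(.ofNat 1, 0)], .ofNat 2⟩, ⟨21, [(.ofNat 1, 0),
    (.ofNat 3, 2), (.ofNat 2, 4)], [(.ofNat 2, 1)], .ofNat 6⟩, ⟨33, [(.ofNat 1, 0), (.ofNat 1,
    5)], [(.ofNat 2, 6)], .ofNat 6⟩, ⟨65, [(.ofNat 3, 0), (.ofNat 1, 6)], [(.ofNat 1, 1),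
    (.ofNat 4, 3)], .ofNat 2⟩, ⟨257, [(.ofNat 2, 0), (.ofNat 1, 8)], [(.ofNat 3, 3)], .ofNat
    6⟩, ⟨516, [(.ofNat 1, 2), (.ofNat 1, 9)], [], .ofNat 4⟩, ⟨138, [(.ofNat 1, 1), (.ofNat 2,
    3), (.ofNat 1, 7)], [(.ofNat 2, 0)], .ofNat 2⟩, ⟨144, [(.ofNat 1, 4), (.ofNat 1, 7)],
    [(.ofNat 1, 3)], .ofNat 2⟩, ⟨513, [(.ofNat 1, 0), (.ofNat 1, 9)], [(.ofNat 2, 3)], .ofNat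
    2⟩, ⟨40, [(.ofNat 5, 3), (.ofNat 2, 5)], [(.ofNat 4, 4), (.ofNat 3, 8)], .ofNat 2⟩, ⟨74,
    [(.ofNat 1, 1), (.ofNat 1, 3), (.ofNat 2, 6)], [(.ofNat 3, 4)], .ofNat 4⟩, ⟨264, [(.ofNat
    1, 3), (.ofNat 1, 8)], [(.ofNat 2, 9)], .ofNat 2⟩, ⟨514, [(.ofNat 2, 1), (.ofNat 3, 9)],
    [(.ofNat 1, 0), (.ofNat 2, 4)], .ofNat 6⟩, ⟨192, [(.ofNat 1, 6), (.ofNat 1, 7)], [(.ofNat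
    1, 9)], .ofNat 2⟩, ⟨162, [(.ofNat 2, 1), (.ofNat 1, 5), (.ofNat 4, 7)], [(.ofNat 1, 0)],
    .ofNat 18⟩, ⟨672, [(.ofNat 1, 5), (.ofNat 2, 7), (.ofNat 1, 9)], [(.ofNat 2, 8)], .ofNat
    4⟩, ⟨258, [(.ofNat 1, 1), (.ofNat 1, 8)], [(.ofNat 1, 4)], .ofNat 6⟩, ⟨272, [(.ofNat 2, 4),
    (.ofNat 1, 8)], [(.ofNat 1, 3), (.ofNat 2, 6)], .ofNat 2⟩, ⟨324, [(.ofNat 3, 2), (.ofNat 2,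
    6), (.ofNat 2, 8)], [(.ofNat 1, 5)], .ofNat 12⟩, ⟨560, [(.ofNat 2, 4), (.ofNat 1, 5),
    (.ofNat 1, 9)], [(.ofNat 4, 6)], .ofNat 4⟩]
T := [t18_0, t18_1, t18_2, t18_3, t18_4, t18_5, t18_6, t18_7, t18_8]
UN := [⟨1, 2, 1, 1, 0⟩, ⟨1, 4, 3, 3, 0⟩, ⟨1, 4, 1, 1, 0⟩, ⟨1, 4, 1, 3, 0⟩, ⟨1, 6, 5, 1, 0⟩, ⟨1,
    6, 3, 5, 0⟩, ⟨1, 6, 1, 3, 0⟩, ⟨1, 9, 5, 7, 0⟩, ⟨1, 18, 5, 7, 0⟩, ⟨1, 3, 2, 1, 0⟩, ⟨1, 3, 1,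
    1, 0⟩, ⟨1, 3, 2, 2, 0⟩, ⟨1, 3, 1, 2, 0⟩, ⟨1, 4, 3, 1, 0⟩, ⟨1, 4, 3, 2, 0⟩, ⟨1, 4, 2, 1, 0⟩,
    ⟨1, 5, 4, 1, 0⟩, ⟨1, 4, 2, 2, 0⟩, ⟨1, 5, 4, 2, 0⟩, ⟨1, 5, 3, 1, 0⟩, ⟨1, 4, 2, 3, 0⟩, ⟨1, 4,
    1, 2, 0⟩, ⟨1, 5, 3, 2, 0⟩, ⟨1, 5, 2, 2, 0⟩, ⟨1, 5, 3, 3, 0⟩, ⟨1, 5, 2, 3, 0⟩, ⟨1, 6, 4, 2,
    0⟩, ⟨1, 5, 1, 2, 0⟩, ⟨1, 5, 3, 4, 0⟩, ⟨1, 5, 2, 4, 0⟩, ⟨1, 6, 4, 3, 0⟩, ⟨1, 6, 3, 2, 0⟩,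
    ⟨1, 5, 1, 3, 0⟩, ⟨1, 7, 5, 2, 0⟩, ⟨1, 6, 4, 4, 0⟩, ⟨1, 6, 2, 2, 0⟩, ⟨1, 6, 3, 3, 0⟩, ⟨1, 7,
    4, 2, 0⟩, ⟨1, 7, 5, 3, 0⟩, ⟨1, 6, 2, 3, 0⟩, ⟨1, 6, 3, 4, 0⟩, ⟨1, 7, 4, 3, 0⟩, ⟨1, 7, 3, 2,
    0⟩, ⟨1, 6, 2, 4, 0⟩, ⟨1, 7, 4, 4, 0⟩, ⟨1, 7, 3, 3, 0⟩, ⟨1, 8, 5, 2, 0⟩, ⟨1, 7, 4, 5, 0⟩,
    ⟨1, 7, 3, 4, 0⟩, ⟨1, 8, 5, 3, 0⟩, ⟨1, 7, 2, 3, 0⟩, ⟨1, 7, 2, 4, 0⟩, ⟨1, 8, 4, 3, 0⟩, ⟨1, 7,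
    3, 5, 0⟩, ⟨1, 8, 5, 4, 0⟩, ⟨1, 8, 5, 5, 0⟩, ⟨1, 8, 4, 4, 0⟩, ⟨1, 8, 3, 3, 0⟩, ⟨1, 8, 4, 5,
    0⟩, ⟨1, 8, 2, 3, 0⟩, ⟨1, 9, 5, 3, 0⟩, ⟨1, 8, 3, 4, 0⟩, ⟨1, 9, 4, 3, 0⟩, ⟨1, 8, 2, 4, 0⟩,
    ⟨1, 9, 5, 4, 0⟩, ⟨1, 8, 4, 6, 0⟩, ⟨1, 8, 3, 5, 0⟩, ⟨1, 9, 4, 4, 0⟩, ⟨1, 9, 3, 3, 0⟩, ⟨1, 9,
    5, 5, 0⟩, ⟨1, 10, 5, 3, 0⟩, ⟨1, 9, 4, 5, 0⟩, ⟨1, 9, 3, 4, 0⟩, ⟨1, 9, 5, 6, 0⟩, ⟨1, 10, 5,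
    4, 0⟩, ⟨1, 9, 4, 6, 0⟩, ⟨1, 9, 3, 5, 0⟩, ⟨1, 9, 2, 4, 0⟩, ⟨1, 10, 5, 5, 0⟩, ⟨1, 10, 4, 4,
    0⟩, ⟨1, 10, 3, 4, 0⟩, ⟨1, 10, 5, 6, 0⟩, ⟨1, 10, 4, 5, 0⟩, ⟨1, 10, 4, 6, 0⟩, ⟨1, 10, 3, 5,
    0⟩, ⟨1, 10, 5, 7, 0⟩, ⟨1, 11, 5, 4, 0⟩, ⟨1, 11, 4, 4, 0⟩, ⟨1, 11, 5, 5, 0⟩, ⟨1, 11, 5, 6,
    0⟩, ⟨1, 11, 4, 5, 0⟩, ⟨1, 11, 3, 4, 0⟩, ⟨1, 11, 5, 7, 0⟩, ⟨1, 11, 3, 5, 0⟩, ⟨1, 12, 5, 4,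
    0⟩, ⟨1, 11, 4, 6, 0⟩, ⟨1, 12, 5, 5, 0⟩, ⟨1, 12, 5, 6, 0⟩, ⟨1, 12, 4, 5, 0⟩, ⟨1, 12, 3, 5,
    0⟩, ⟨1, 12, 5, 7, 0⟩, ⟨1, 12, 4, 6, 0⟩, ⟨1, 13, 5, 5, 0⟩, ⟨1, 13, 5, 6, 0⟩, ⟨1, 13, 4, 5,
    0⟩, ⟨1, 13, 4, 6, 0⟩, ⟨1, 13, 5, 7, 0⟩, ⟨1, 14, 5, 5, 0⟩, ⟨1, 14, 5, 6, 0⟩, ⟨1, 14, 5, 7,
    0⟩, ⟨1, 14, 4, 6, 0⟩, ⟨1, 15, 5, 6, 0⟩, ⟨1, 15, 5, 7, 0⟩, ⟨1, 15, 4, 6, 0⟩, ⟨1, 16, 5, 6,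
    0⟩, ⟨1, 16, 5, 7, 0⟩, ⟨1, 17, 5, 7, 0⟩]
hx := 5
hy := 7
hz := 0
hl := 18
bx := (.ofNat 4, [(.ofNat 1, ⟨.ofNat 5, .ofNat 0, .negSucc 0, .ofNat 0, .ofNat 0⟩), (.ofNat 5,
    ⟨.negSucc 0, .ofNat 0, .ofNat 1, .ofNat 0, .ofNat 0⟩)])
bx' := (.ofNat 1, [(.ofNat 1, ⟨.ofNat 5, .ofNat 0, .negSucc 0, .ofNat 0, .ofNat 0⟩)])
bY := (.ofNat 6, [(.ofNat 1, ⟨.ofNat 1, .ofNat 2, .negSucc 0, .negSucc 1, .ofNat 0⟩), (.ofNat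
    1, ⟨.ofNat 3, .negSucc 1, .ofNat 1, .ofNat 4, .ofNat 0⟩), (.ofNat 4, ⟨.negSucc 0, .ofNat 0,
    .ofNat 0, .ofNat 1, .ofNat 0⟩)])
bY' := (.ofNat 1, [(.ofNat 1, ⟨.ofNat 5, .ofNat 0, .negSucc 0, .ofNat 0, .ofNat 0⟩), (.ofNat 1,
    ⟨.ofNat 2, .ofNat 0, .ofNat 1, .negSucc 0, .ofNat 0⟩)])
bz := (.ofNat 1, [(.ofNat 1, ⟨.ofNat 0, .ofNat 0, .ofNat 0, .ofNat 0, .ofNat 1⟩)])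
bz' := (.ofNat 1, [(.ofNat 1, ⟨.ofNat 0, .ofNat 0, .ofNat 0, .ofNat 0, .negSucc 0⟩)])
bl := (.ofNat 3, [(.ofNat 1, ⟨.ofNat 1, .ofNat 2, .negSucc 0, .negSucc 1, .ofNat 0⟩), (.ofNat
    3, ⟨.negSucc 0, .ofNat 1, .negSucc 0, .ofNat 0, .ofNat 0⟩), (.ofNat 2, ⟨.ofNat 1, .negSucc
    0, .ofNat 2, .ofNat 1, .ofNat 0⟩)])
bl' := (.ofNat 2, [(.ofNat 5, ⟨.ofNat 5, .ofNat 0, .negSucc 0, .ofNat 0, .ofNat 0⟩), (.ofNat 1,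
    ⟨.ofNat 3, .negSucc 1, .ofNat 1, .ofNat 4, .ofNat 0⟩), (.ofNat 4, ⟨.ofNat 2, .ofNat 0,
    .ofNat 1, .negSucc 0, .ofNat 0⟩)])
r := 4

/-- Partitions of `18` that realize the lattice points of level one. -/
def r18 : List (List ℕ) :=
[[9, 9], [2, 2, 7, 7], [1, 1, 8, 8], [4, 4, 5, 5], [3, 3, 3, 3, 3, 3], [2, 2, 2, 2, 5, 5], [1,
    1, 4, 4, 4, 4], [2, 2, 2, 2, 2, 2, 2, 2, 2], [1, 1, 1, 1, 1, 1, 1, 1, 1, 1, 1, 1, 1, 1, 1,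
    1, 1, 1], [6, 6, 6], [4, 6, 8], [5, 6, 7], [5, 5, 8], [3, 3, 6, 6], [3, 3, 5, 7], [3, 3, 4,
    8], [3, 3, 3, 3, 6], [3, 4, 5, 6], [2, 3, 3, 3, 7], [1, 3, 3, 3, 8], [3, 5, 5, 5], [4, 4,
    4, 6], [3, 3, 3, 4, 5], [3, 3, 4, 4, 4], [2, 3, 3, 5, 5], [2, 3, 4, 4, 5], [2, 3, 3, 3, 3,
    4], [1, 1, 4, 4, 8], [2, 2, 2, 5, 7], [2, 2, 4, 5, 5], [2, 2, 3, 3, 3, 5], [1, 3, 3, 3, 4,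
    4], [2, 4, 4, 4, 4], [1, 2, 3, 3, 3, 3, 3], [2, 2, 2, 2, 3, 7], [1, 1, 1, 3, 4, 8], [2, 2,
    3, 3, 4, 4], [1, 1, 3, 3, 3, 3, 4], [2, 2, 2, 3, 3, 3, 3], [1, 2, 3, 4, 4, 4], [2, 2, 2, 3,
    4, 5], [1, 2, 2, 3, 3, 3, 4], [1, 1, 1, 1, 3, 3, 8], [2, 2, 2, 4, 4, 4], [2, 2, 2, 2, 3, 3,
    4], [1, 1, 2, 3, 3, 4, 4], [1, 1, 1, 3, 3, 3, 3, 3], [2, 2, 2, 2, 2, 3, 5], [1, 2, 2, 2, 3,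
    4, 4], [1, 1, 2, 2, 3, 3, 3, 3], [1, 1, 1, 3, 4, 4, 4], [1, 1, 2, 2, 4, 4, 4], [1, 1, 1, 2,
    3, 3, 3, 4], [2, 2, 2, 2, 2, 4, 4], [1, 2, 2, 2, 2, 3, 3, 3], [2, 2, 2, 2, 2, 2, 3, 3], [1,
    1, 2, 2, 2, 3, 3, 4], [1, 1, 1, 1, 3, 3, 4, 4], [1, 2, 2, 2, 2, 2, 3, 4], [1, 1, 1, 1, 1,
    1, 4, 8], [1, 1, 1, 1, 2, 3, 3, 3, 3], [1, 1, 1, 2, 2, 3, 4, 4], [1, 1, 1, 1, 1, 3, 3, 3,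
    4], [1, 1, 1, 1, 2, 4, 4, 4], [1, 1, 1, 2, 2, 2, 3, 3, 3], [2, 2, 2, 2, 2, 2, 2, 4], [1, 1,
    2, 2, 2, 2, 4, 4], [1, 1, 1, 1, 2, 2, 3, 3, 4], [1, 1, 1, 1, 1, 1, 1, 3, 8], [1, 1, 2, 2,
    2, 2, 2, 3, 3], [1, 1, 1, 1, 1, 1, 3, 3, 3, 3], [1, 1, 1, 2, 2, 2, 2, 3, 4], [1, 1, 1, 1,
    1, 2, 3, 4, 4], [1, 2, 2, 2, 2, 2, 2, 2, 3], [1, 1, 1, 1, 1, 2, 2, 3, 3, 3], [1, 1, 2, 2,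
    2, 2, 2, 2, 4], [1, 1, 1, 1, 2, 2, 2, 4, 4], [1, 1, 1, 1, 1, 1, 4, 4, 4], [1, 1, 1, 1, 2,
    2, 2, 2, 3, 3], [1, 1, 1, 1, 1, 1, 2, 3, 3, 4], [1, 1, 1, 1, 1, 1, 1, 3, 4, 4], [1, 1, 1,
    2, 2, 2, 2, 2, 2, 3], [1, 1, 1, 1, 1, 2, 2, 2, 3, 4], [1, 1, 1, 1, 2, 2, 2, 2, 2, 4], [1,
    1, 1, 1, 1, 1, 2, 2, 4, 4], [1, 1, 2, 2, 2, 2, 2, 2, 2, 2], [1, 1, 1, 1, 1, 1, 1, 2, 3, 3,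
    3], [1, 1, 1, 1, 1, 1, 1, 1, 3, 3, 4], [1, 1, 1, 1, 1, 1, 2, 2, 2, 3, 3], [1, 1, 1, 1, 1,
    2, 2, 2, 2, 2, 3], [1, 1, 1, 1, 1, 1, 1, 2, 2, 3, 4], [1, 1, 1, 1, 1, 1, 1, 1, 1, 1, 8],
    [1, 1, 1, 1, 2, 2, 2, 2, 2, 2, 2], [1, 1, 1, 1, 1, 1, 1, 1, 2, 4, 4], [1, 1, 1, 1, 1, 1, 1,
    1, 1, 3, 3, 3], [1, 1, 1, 1, 1, 1, 2, 2, 2, 2, 4], [1, 1, 1, 1, 1, 1, 1, 1, 2, 2, 3, 3],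
    [1, 1, 1, 1, 1, 1, 1, 2, 2, 2, 2, 3], [1, 1, 1, 1, 1, 1, 1, 1, 1, 2, 3, 4], [1, 1, 1, 1, 1,
    1, 1, 1, 1, 1, 4, 4], [1, 1, 1, 1, 1, 1, 2, 2, 2, 2, 2, 2], [1, 1, 1, 1, 1, 1, 1, 1, 2, 2,
    2, 4], [1, 1, 1, 1, 1, 1, 1, 1, 1, 1, 2, 3, 3], [1, 1, 1, 1, 1, 1, 1, 1, 1, 2, 2, 2, 3],
    [1, 1, 1, 1, 1, 1, 1, 1, 1, 1, 1, 3, 4], [1, 1, 1, 1, 1, 1, 1, 1, 1, 1, 2, 2, 4], [1, 1, 1,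
    1, 1, 1, 1, 1, 2, 2, 2, 2, 2], [1, 1, 1, 1, 1, 1, 1, 1, 1, 1, 1, 1, 3, 3], [1, 1, 1, 1, 1,
    1, 1, 1, 1, 1, 1, 2, 2, 3], [1, 1, 1, 1, 1, 1, 1, 1, 1, 1, 2, 2, 2, 2], [1, 1, 1, 1, 1, 1,
    1, 1, 1, 1, 1, 1, 2, 4], [1, 1, 1, 1, 1, 1, 1, 1, 1, 1, 1, 1, 1, 2, 3], [1, 1, 1, 1, 1, 1,
    1, 1, 1, 1, 1, 1, 2, 2, 2], [1, 1, 1, 1, 1, 1, 1, 1, 1, 1, 1, 1, 1, 1, 4], [1, 1, 1, 1, 1,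
    1, 1, 1, 1, 1, 1, 1, 1, 1, 1, 3], [1, 1, 1, 1, 1, 1, 1, 1, 1, 1, 1, 1, 1, 1, 2, 2], [1, 1,
    1, 1, 1, 1, 1, 1, 1, 1, 1, 1, 1, 1, 1, 1, 2]]

theorem f18_A : f18.okA = true := by decide +kernel

theorem f18_B : f18.okB = true := by decide +kernel

theorem f18_good : good f18.F f18.UN 18 5 7 0 r18 = true := by
  decide +kernel

end Pool.Agent.Helper75.Poly
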