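import Pool.Agent.Helper75.Zss.Deg

/-!
# Fermat hypersurfaces of degree 2: the finite check
-/

namespace Pool.Agent.Helper75.Poly

def t2_0 : Simp :=
⟨1, [⟨⟨.ofNat 1, .ofNat 0, .ofNat 0, .ofNat 0, .ofNat 0⟩, ⟨0, 0, 0, 0, 0⟩, ⟨1, 2, 0, 0, 0⟩⟩],
    1, ⟨.ofNat 1, .ofNat 0, .ofNat 0, .ofNat 0, .ofNat 0⟩, ⟨.ofNat 0, .ofNat 1, .ofNat 0,
    .ofNat 0, .ofNat 0⟩, ⟨.ofNat 0, .ofNat 0, .ofNat 1, .ofNat 0, .ofNat 0⟩, ⟨.ofNat 0, .ofNat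
    0, .ofNat 0, .ofNat 1, .ofNat 0⟩, ⟨.ofNat 0, .ofNat 0, .ofNat 0, .ofNat 0, .ofNat 1⟩, [0]⟩

/-- The cone, its triangulation and the certificates for `m = 2`. -/
def f2 : Fan where
F := [⟨.negSucc 1, .ofNat 1, .ofNat 0, .ofNat 0, .ofNat 0⟩, ⟨.ofNat 2, .negSucc 0, .ofNat 0,
    .ofNat 0, .ofNat 0⟩, ⟨.ofNat 1, .ofNat 0, .ofNat 0, .ofNat 0, .ofNat 0⟩, ⟨.ofNat 0, .ofNat
    0, .ofNat 1, .ofNat 0, .ofNat 0⟩, ⟨.ofNat 0, .ofNat 0, .negSucc 0, .ofNat 0, .ofNat 0⟩,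
    ⟨.ofNat 0, .ofNat 0, .ofNat 0, .ofNat 1, .ofNat 0⟩, ⟨.ofNat 0, .ofNat 0, .ofNat 0, .negSucc
    0, .ofNat 0⟩, ⟨.ofNat 0, .ofNat 0, .ofNat 0, .ofNat 0, .ofNat 1⟩, ⟨.ofNat 0, .ofNat 0,
    .ofNat 0, .ofNat 0, .negSucc 0⟩]
V := [(⟨.ofNat 1, .ofNat 2, .ofNat 0, .ofNat 0, .ofNat 0⟩, 507)]
C := [⟨4, [(.ofNat 1, 2)], [], .ofNat 1⟩]
T := [t2_0]
UN := [⟨1, 2, 0, 0, 0⟩]
hx := 0
hy := 0
hz := 0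
hl := 2
bx := (.ofNat 1, [(.ofNat 1, ⟨.ofNat 0, .ofNat 0, .ofNat 1, .ofNat 0, .ofNat 0⟩)])
bx' := (.ofNat 1, [(.ofNat 1, ⟨.ofNat 0, .ofNat 0, .negSucc 0, .ofNat 0, .ofNat 0⟩)])
bY := (.ofNat 1, [(.ofNat 1, ⟨.ofNat 0, .ofNat 0, .ofNat 0, .ofNat 1, .ofNat 0⟩)])
bY' := (.ofNat 1, [(.ofNat 1, ⟨.ofNat 0, .ofNat 0, .ofNat 0, .negSucc 0, .ofNat 0⟩)])
bz := (.ofNat 1, [(.ofNat 1, ⟨.ofNat 0, .ofNat 0, .ofNat 0, .ofNat 0, .ofNat 1⟩)])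
bz' := (.ofNat 1, [(.ofNat 1, ⟨.ofNat 0, .ofNat 0, .ofNat 0, .ofNat 0, .negSucc 0⟩)])
bl := (.ofNat 1, [(.ofNat 1, ⟨.negSucc 1, .ofNat 1, .ofNat 0, .ofNat 0, .ofNat 0⟩), (.ofNat 2,
    ⟨.ofNat 1, .ofNat 0, .ofNat 0, .ofNat 0, .ofNat 0⟩)])
bl' := (.ofNat 1, [(.ofNat 1, ⟨.ofNat 2, .negSucc 0, .ofNat 0, .ofNat 0, .ofNat 0⟩)])
r := 2

/-- Partitions of `2` that realize the lattice points of level one. -/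
def r2 : List (List ℕ) :=
[[1, 1]]

theorem f2_A : f2.okA = true := by decide +kernel

theorem f2_B : f2.okB = true := by decide +kernel

theorem f2_good : good f2.F f2.UN 2 0 0 0 r2 = true := by
  decide +kernel

end Pool.Agent.Helper75.Poly
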