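import Pool.Agent.Helper75.Zss.Deg

/-!
# Fermat hypersurfaces of degree 20: the finite check
-/

namespace Pool.Agent.Helper75.Poly

def t20_0 : Simp :=
⟨131087, [⟨⟨.negSucc 3, .ofNat 4, .ofNat 0, .ofNat 0, .negSucc 3⟩, ⟨4, 4, 0, 0, 4⟩, ⟨1, 4, 3,
    3, 1⟩⟩, ⟨⟨.negSucc 3, .ofNat 4, .ofNat 0, .negSucc 3, .ofNat 0⟩, ⟨4, 4, 0, 4, 0⟩, ⟨1, 10,
    3, 7, 9⟩⟩, ⟨⟨.ofNat 4, .ofNat 8, .ofNat 0, .negSucc 11, .ofNat 0⟩, ⟨4, 0, 0, 4, 0⟩, ⟨1, 2,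
    1, 1, 1⟩⟩, ⟨⟨.ofNat 4, .ofNat 0, .negSucc 7, .ofNat 8, .negSucc 3⟩, ⟨4, 0, 0, 0, 4⟩, ⟨1, 4,
    1, 3, 3⟩⟩, ⟨⟨.ofNat 8, .negSucc 15, .ofNat 8, .ofNat 8, .ofNat 8⟩, ⟨0, 0, 0, 0, 0⟩, ⟨1, 4,
    2, 3, 3⟩⟩], 8, ⟨.ofNat 1, .ofNat 0, .ofNat 0, .ofNat 1, .ofNat 1⟩, ⟨.ofNat 0, .ofNat 2,
    .ofNat 0, .ofNat 0, .ofNat 0⟩, ⟨.ofNat 0, .ofNat 0, .ofNat 1, .ofNat 0, .ofNat 0⟩, ⟨.ofNat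
    0, .ofNat 0, .ofNat 0, .ofNat 2, .ofNat 0⟩, ⟨.ofNat 0, .ofNat 0, .ofNat 0, .ofNat 0, .ofNat
    2⟩, [0, 28, 58, 64519, 77, 74, 24, 23]⟩

def t20_1 : Simp :=
⟨135175, [⟨⟨.negSucc 1, .ofNat 2, .ofNat 0, .ofNat 0, .negSucc 1⟩, ⟨2, 2, 0, 0, 2⟩, ⟨1, 4, 3,
    3, 1⟩⟩, ⟨⟨.negSucc 1, .ofNat 2, .ofNat 0, .negSucc 1, .ofNat 0⟩, ⟨2, 2, 0, 2, 0⟩, ⟨1, 10,
    3, 7, 9⟩⟩, ⟨⟨.ofNat 4, .ofNat 4, .negSucc 3, .negSucc 1, .negSucc 1⟩, ⟨0, 0, 0, 2, 2⟩, ⟨1,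
    2, 1, 1, 1⟩⟩, ⟨⟨.negSucc 3, .ofNat 0, .ofNat 8, .negSucc 7, .ofNat 4⟩, ⟨0, 0, 0, 0, 0⟩, ⟨1,
    3, 2, 2, 2⟩⟩, ⟨⟨.ofNat 8, .negSucc 7, .negSucc 3, .ofNat 12, .ofNat 0⟩, ⟨0, 0, 0, 0, 0⟩,
    ⟨1, 4, 2, 3, 3⟩⟩], 4, ⟨.ofNat 1, .ofNat 0, .ofNat 0, .ofNat 1, .ofNat 1⟩, ⟨.ofNat 0, .ofNat
    1, .ofNat 0, .ofNat 1, .ofNat 1⟩, ⟨.ofNat 0, .ofNat 0, .ofNat 1, .ofNat 0, .ofNat 0⟩,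
    ⟨.ofNat 0, .ofNat 0, .ofNat 0, .ofNat 2, .ofNat 0⟩, ⟨.ofNat 0, .ofNat 0, .ofNat 0, .ofNat
    0, .ofNat 2⟩, [0, 24, 58, 77]⟩

def t20_2 : Simp :=
⟨32783, [⟨⟨.negSucc 3, .ofNat 4, .ofNat 0, .ofNat 0, .negSucc 3⟩, ⟨4, 4, 0, 0, 4⟩, ⟨1, 4, 3, 3,
    1⟩⟩, ⟨⟨.ofNat 0, .negSucc 3, .ofNat 4, .ofNat 0, .ofNat 4⟩, ⟨0, 4, 4, 0, 4⟩, ⟨1, 10, 3, 7,
    9⟩⟩, ⟨⟨.ofNat 16, .negSucc 15, .ofNat 12, .ofNat 0, .ofNat 12⟩, ⟨0, 0, 4, 0, 4⟩, ⟨1, 2, 1,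
    1, 1⟩⟩, ⟨⟨.ofNat 4, .ofNat 0, .negSucc 7, .ofNat 8, .negSucc 3⟩, ⟨4, 0, 0, 0, 4⟩, ⟨1, 4, 1,
    3, 3⟩⟩, ⟨⟨.negSucc 7, .ofNat 16, .negSucc 7, .negSucc 7, .negSucc 7⟩, ⟨0, 0, 0, 0, 0⟩, ⟨1,
    4, 1, 2, 3⟩⟩], 8, ⟨.ofNat 1, .ofNat 0, .ofNat 1, .ofNat 0, .ofNat 1⟩, ⟨.ofNat 0, .ofNat 2,
    .ofNat 0, .ofNat 0, .ofNat 0⟩, ⟨.ofNat 0, .ofNat 0, .ofNat 2, .ofNat 0, .ofNat 0⟩, ⟨.ofNat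
    0, .ofNat 0, .ofNat 0, .ofNat 1, .ofNat 0⟩, ⟨.ofNat 0, .ofNat 0, .ofNat 0, .ofNat 0, .ofNat
    2⟩, [0, 64519, 58, 28, 77, 23, 24, 74]⟩

def t20_3 : Simp :=
⟨33287, [⟨⟨.negSucc 1, .ofNat 2, .ofNat 0, .ofNat 0, .negSucc 1⟩, ⟨2, 2, 0, 0, 2⟩, ⟨1, 4, 3, 3,
    1⟩⟩, ⟨⟨.ofNat 0, .negSucc 1, .ofNat 2, .ofNat 0, .ofNat 2⟩, ⟨0, 2, 2, 0, 2⟩, ⟨1, 10, 3, 7,
    9⟩⟩, ⟨⟨.ofNat 10, .negSucc 7, .ofNat 2, .ofNat 4, .ofNat 4⟩, ⟨2, 0, 2, 0, 0⟩, ⟨1, 2, 1, 1,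
    1⟩⟩, ⟨⟨.negSucc 3, .ofNat 0, .ofNat 8, .negSucc 7, .ofNat 4⟩, ⟨0, 0, 0, 0, 0⟩, ⟨1, 3, 1, 1,
    2⟩⟩, ⟨⟨.ofNat 0, .ofNat 8, .negSucc 11, .ofNat 4, .negSucc 7⟩, ⟨0, 0, 0, 0, 0⟩, ⟨1, 4, 1,
    2, 3⟩⟩], 4, ⟨.ofNat 1, .ofNat 0, .ofNat 1, .ofNat 0, .ofNat 1⟩, ⟨.ofNat 0, .ofNat 1, .ofNat
    0, .ofNat 0, .ofNat 1⟩, ⟨.ofNat 0, .ofNat 0, .ofNat 2, .ofNat 0, .ofNat 0⟩, ⟨.ofNat 0,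
    .ofNat 0, .ofNat 0, .ofNat 1, .ofNat 0⟩, ⟨.ofNat 0, .ofNat 0, .ofNat 0, .ofNat 0, .ofNat
    2⟩, [0, 77, 58, 24]⟩

def t20_4 : Simp :=
⟨4119, [⟨⟨.negSucc 11, .ofNat 12, .ofNat 0, .ofNat 0, .negSucc 11⟩, ⟨12, 12, 0, 0, 12⟩, ⟨1, 4,
    3, 3, 1⟩⟩, ⟨⟨.negSucc 3, .ofNat 4, .negSucc 3, .ofNat 0, .ofNat 0⟩, ⟨20, 4, 20, 0, 0⟩, ⟨1,
    10, 3, 7, 9⟩⟩, ⟨⟨.ofNat 24, .ofNat 24, .negSucc 23, .negSucc 11, .negSucc 11⟩, ⟨0, 0, 0,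
    12, 12⟩, ⟨1, 2, 1, 1, 1⟩⟩, ⟨⟨.negSucc 7, .ofNat 8, .ofNat 4, .negSucc 11, .ofNat 0⟩, ⟨16,
    8, 4, 12, 0⟩, ⟨1, 4, 3, 1, 3⟩⟩, ⟨⟨.ofNat 24, .negSucc 47, .ofNat 24, .ofNat 24, .ofNat 24⟩,
    ⟨0, 0, 0, 0, 0⟩, ⟨1, 3, 2, 2, 2⟩⟩], 24, ⟨.ofNat 1, .ofNat 0, .ofNat 5, .ofNat 1, .ofNat 1⟩,
    ⟨.ofNat 0, .ofNat 1, .ofNat 1, .ofNat 1, .ofNat 1⟩, ⟨.ofNat 0, .ofNat 0, .ofNat 6, .ofNat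
    0, .ofNat 0⟩, ⟨.ofNat 0, .ofNat 0, .ofNat 0, .ofNat 2, .ofNat 0⟩, ⟨.ofNat 0, .ofNat 0,
    .ofNat 0, .ofNat 0, .ofNat 2⟩, [0, 24, 25, 32, 117, 114692, 119833, 119840, 102, 102404,
    75791, 104480, 86, 83972, 58, 77, 69, 65540, 42, 63, 49, 46084, 31, 43]⟩

def t20_5 : Simp :=
⟨535, [⟨⟨.negSucc 11, .ofNat 12, .ofNat 0, .ofNat 0, .negSucc 11⟩, ⟨12, 12, 0, 0, 12⟩, ⟨1, 4,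
    3, 3, 1⟩⟩, ⟨⟨.ofNat 0, .negSucc 3, .ofNat 0, .ofNat 4, .ofNat 4⟩, ⟨0, 20, 0, 4, 4⟩, ⟨1, 10,
    3, 7, 9⟩⟩, ⟨⟨.ofNat 60, .negSucc 47, .ofNat 12, .ofNat 24, .ofNat 24⟩, ⟨12, 0, 12, 0, 0⟩,
    ⟨1, 2, 1, 1, 1⟩⟩, ⟨⟨.ofNat 0, .negSucc 7, .ofNat 12, .negSucc 3, .ofNat 8⟩, ⟨0, 16, 12, 20,
    8⟩, ⟨1, 4, 3, 1, 3⟩⟩, ⟨⟨.negSucc 23, .ofNat 48, .negSucc 23, .negSucc 23, .negSucc 23⟩, ⟨0,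
    0, 0, 0, 0⟩, ⟨1, 3, 1, 1, 2⟩⟩], 24, ⟨.ofNat 1, .ofNat 0, .ofNat 1, .ofNat 1, .ofNat 5⟩,
    ⟨.ofNat 0, .ofNat 1, .ofNat 0, .ofNat 0, .ofNat 1⟩, ⟨.ofNat 0, .ofNat 0, .ofNat 2, .ofNat
    0, .ofNat 0⟩, ⟨.ofNat 0, .ofNat 0, .ofNat 0, .ofNat 2, .ofNat 4⟩, ⟨.ofNat 0, .ofNat 0,
    .ofNat 0, .ofNat 0, .ofNat 6⟩, [0, 43, 69, 77, 102, 119840, 49, 63, 86, 104480, 117, 32,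
    25, 46084, 42, 83972, 75791, 114692, 31, 65540, 58, 102404, 119833, 24]⟩

def t20_6 : Simp :=
⟨524427, [⟨⟨.ofNat 0, .ofNat 0, .ofNat 24, .ofNat 0, .negSucc 7⟩, ⟨0, 0, 24, 0, 56⟩, ⟨1, 4, 3,
    3, 1⟩⟩, ⟨⟨.negSucc 31, .ofNat 0, .ofNat 8, .ofNat 0, .ofNat 8⟩, ⟨32, 0, 8, 0, 8⟩, ⟨1, 10,
    3, 7, 9⟩⟩, ⟨⟨.ofNat 80, .negSucc 15, .negSucc 35, .ofNat 32, .negSucc 3⟩, ⟨16, 48, 28, 32,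
    60⟩, ⟨1, 4, 1, 3, 3⟩⟩, ⟨⟨.negSucc 47, .ofNat 16, .negSucc 27, .ofNat 32, .negSucc 27⟩, ⟨16,
    16, 36, 32, 36⟩, ⟨1, 8, 1, 3, 3⟩⟩, ⟨⟨.ofNat 64, .ofNat 0, .ofNat 32, .negSucc 63, .ofNat
    32⟩, ⟨0, 0, 32, 0, 32⟩, ⟨1, 6, 1, 2, 3⟩⟩], 64, ⟨.ofNat 1, .ofNat 0, .ofNat 1, .ofNat 0,
    .ofNat 11⟩, ⟨.ofNat 0, .ofNat 2, .ofNat 0, .ofNat 0, .ofNat 8⟩, ⟨.ofNat 0, .ofNat 0, .ofNat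
    2, .ofNat 0, .ofNat 14⟩, ⟨.ofNat 0, .ofNat 0, .ofNat 0, .ofNat 1, .ofNat 8⟩, ⟨.ofNat 0,
    .ofNat 0, .ofNat 0, .ofNat 0, .ofNat 16⟩, [0, 133171202, 78850, 160434178, 114690,
    167779330, 145410, 177216519, 46, 79874, 111618, 115714, 141314, 146434, 165890, 156679,
    110594, 53, 125959, 93, 166734850, 132124, 182463490, 50, 76802, 109570, 92167, 124935,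
    144714754, 169897986, 169880578, 28, 34, 146802690, 98306, 167774210, 132098, 134146,
    159746, 146439, 66, 96258, 126978, 130050, 77, 160439298, 20482, 167779335, 125954, 70,
    138247, 107, 135277570, 52449282, 163589122, 90114, 92162, 124930, 110599, 74, 158346242,
    114716, 176172034, 35]⟩

def t20_7 : Simp :=
⟨557067, [⟨⟨.ofNat 0, .ofNat 0, .ofNat 12, .ofNat 0, .negSucc 3⟩, ⟨0, 0, 12, 0, 28⟩, ⟨1, 4, 3,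
    3, 1⟩⟩, ⟨⟨.negSucc 15, .ofNat 0, .ofNat 4, .ofNat 0, .ofNat 4⟩, ⟨16, 0, 4, 0, 4⟩, ⟨1, 10,
    3, 7, 9⟩⟩, ⟨⟨.ofNat 16, .ofNat 0, .negSucc 31, .ofNat 32, .negSucc 15⟩, ⟨16, 0, 0, 0, 16⟩,
    ⟨1, 4, 1, 3, 3⟩⟩, ⟨⟨.ofNat 48, .negSucc 15, .ofNat 28, .negSucc 31, .ofNat 28⟩, ⟨16, 16,
    28, 0, 28⟩, ⟨1, 4, 1, 2, 3⟩⟩, ⟨⟨.negSucc 15, .ofNat 16, .negSucc 11, .ofNat 0, .negSucc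
    11⟩, ⟨16, 16, 20, 0, 20⟩, ⟨1, 6, 1, 2, 3⟩⟩], 32, ⟨.ofNat 1, .ofNat 0, .ofNat 1, .ofNat 0,
    .ofNat 3⟩, ⟨.ofNat 0, .ofNat 2, .ofNat 0, .ofNat 0, .ofNat 0⟩, ⟨.ofNat 0, .ofNat 0, .ofNat
    2, .ofNat 0, .ofNat 6⟩, ⟨.ofNat 0, .ofNat 0, .ofNat 0, .ofNat 1, .ofNat 0⟩, ⟨.ofNat 0,
    .ofNat 0, .ofNat 0, .ofNat 0, .ofNat 8⟩, [0, 118491137, 98305, 149948417, 132097, 119810,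
    159745, 134151, 92161, 95233, 109571, 95241, 98315, 52449281, 132107, 28, 36, 64514,
    111617, 102402, 77, 149953537, 145409, 163585027, 37, 109569, 75, 74, 144714753, 36720641,
    169880577, 71681]⟩

def t20_8 : Simp :=
⟨524451, [⟨⟨.ofNat 0, .ofNat 0, .ofNat 60, .ofNat 0, .negSucc 19⟩, ⟨0, 0, 60, 0, 140⟩, ⟨1, 4,
    3, 3, 1⟩⟩, ⟨⟨.ofNat 0, .negSucc 15, .negSucc 15, .ofNat 32, .ofNat 16⟩, ⟨0, 144, 144, 32,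
    16⟩, ⟨1, 10, 3, 7, 9⟩⟩, ⟨⟨.negSucc 79, .ofNat 16, .ofNat 36, .negSucc 31, .ofNat 4⟩, ⟨80,
    16, 36, 128, 4⟩, ⟨1, 20, 3, 7, 9⟩⟩, ⟨⟨.ofNat 80, .ofNat 0, .negSucc 159, .ofNat 160,
    .negSucc 79⟩, ⟨80, 0, 0, 0, 80⟩, ⟨1, 8, 1, 3, 3⟩⟩, ⟨⟨.ofNat 160, .ofNat 0, .ofNat 80,
    .negSucc 159, .ofNat 80⟩, ⟨0, 0, 80, 0, 80⟩, ⟨1, 6, 1, 2, 3⟩⟩], 160, ⟨.ofNat 1, .ofNat 0,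
    .ofNat 1, .ofNat 0, .ofNat 11⟩, ⟨.ofNat 0, .ofNat 2, .ofNat 0, .ofNat 0, .ofNat 32⟩,
    ⟨.ofNat 0, .ofNat 0, .ofNat 2, .ofNat 0, .ofNat 22⟩, ⟨.ofNat 0, .ofNat 0, .ofNat 0, .ofNat
    1, .ofNat 8⟩, ⟨.ofNat 0, .ofNat 0, .ofNat 0, .ofNat 0, .ofNat 40⟩, [0, 112642, 57, 143362,
    96, 163842, 129, 173063, 156, 182516738, 89, 161794, 124, 176130, 151, 181255, 168,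
    188808194, 172089, 188846082, 148, 183298, 165, 186375, 178, 191953922, 182329, 191991810,
    184397, 122704898, 175, 181266, 181, 81810434, 185401, 118510594, 187469, 149967874,
    187504, 160453639, 172043, 120, 123, 146, 151563, 168988, 168971, 182300, 182283, 182325,
    150548, 164, 175128, 179228, 179211, 185372, 185355, 185397, 185402, 187466, 191968267,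
    179250, 187416, 28693, 21515, 54293, 59413, 95253, 100684811, 135294997, 135287819, 50, 54,
    88, 90, 122, 126987, 154652, 154635, 172060, 142, 128002, 72, 152578, 109, 173058, 138,
    176135, 162, 186711042, 165945, 169986, 137, 181250, 159, 183303, 174, 189856770, 178233,
    189894658, 182349, 186370, 171, 176146, 180, 66081794, 184377, 104879106, 185421,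
    137384962, 185456, 183314, 183, 98587650, 187449, 133190658, 77, 156674, 112, 163847,
    178187, 178229, 135, 157, 168984, 175132, 175115, 184348, 184331, 184373, 184378, 185418,
    179224, 179235, 185368, 187420, 187403, 187445, 187450, 75797, 80761867, 117469205, 24597,
    35861, 37909, 71701, 76821, 107, 111627, 141340, 141323, 165916, 71, 105, 108, 136, 140299,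
    162844, 162827, 178204]⟩

def t20_9 : Simp :=
⟨524429, [⟨⟨.negSucc 7, .ofNat 0, .ofNat 8, .ofNat 0, .ofNat 0⟩, ⟨8, 0, 8, 0, 0⟩, ⟨1, 4, 3, 3,
    1⟩⟩, ⟨⟨.ofNat 32, .ofNat 0, .negSucc 7, .ofNat 0, .negSucc 7⟩, ⟨0, 0, 8, 0, 8⟩, ⟨1, 2, 1,
    1, 1⟩⟩, ⟨⟨.ofNat 0, .negSucc 3, .negSucc 3, .ofNat 8, .ofNat 4⟩, ⟨0, 12, 12, 8, 4⟩, ⟨1, 4,
    1, 3, 3⟩⟩, ⟨⟨.ofNat 8, .ofNat 4, .negSucc 11, .ofNat 8, .negSucc 11⟩, ⟨8, 4, 4, 8, 4⟩, ⟨1,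
    8, 1, 3, 3⟩⟩, ⟨⟨.negSucc 15, .ofNat 0, .ofNat 16, .negSucc 15, .ofNat 16⟩, ⟨0, 0, 0, 0, 0⟩,
    ⟨1, 6, 1, 2, 3⟩⟩], 16, ⟨.ofNat 1, .ofNat 0, .ofNat 1, .ofNat 0, .ofNat 1⟩, ⟨.ofNat 0,
    .ofNat 2, .ofNat 0, .ofNat 0, .ofNat 2⟩, ⟨.ofNat 0, .ofNat 0, .ofNat 2, .ofNat 0, .ofNat
    2⟩, ⟨.ofNat 0, .ofNat 0, .ofNat 0, .ofNat 1, .ofNat 2⟩, ⟨.ofNat 0, .ofNat 0, .ofNat 0,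
    .ofNat 0, .ofNat 4⟩, [0, 26, 46, 48135, 37890, 50, 72706, 28, 34, 33, 66, 23, 55298, 90114,
    24, 35]⟩

def t20_10 : Simp :=
⟨557069, [⟨⟨.negSucc 3, .ofNat 0, .ofNat 4, .ofNat 0, .ofNat 0⟩, ⟨4, 0, 4, 0, 0⟩, ⟨1, 4, 3, 3,
    1⟩⟩, ⟨⟨.ofNat 16, .ofNat 0, .negSucc 3, .ofNat 0, .negSucc 3⟩, ⟨0, 0, 4, 0, 4⟩, ⟨1, 2, 1,
    1, 1⟩⟩, ⟨⟨.ofNat 4, .ofNat 0, .negSucc 7, .ofNat 8, .negSucc 3⟩, ⟨4, 0, 0, 0, 4⟩, ⟨1, 4, 1,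
    3, 3⟩⟩, ⟨⟨.negSucc 7, .negSucc 3, .ofNat 12, .negSucc 7, .ofNat 12⟩, ⟨0, 4, 4, 0, 4⟩, ⟨1,
    4, 1, 2, 3⟩⟩, ⟨⟨.ofNat 0, .ofNat 4, .negSucc 3, .ofNat 0, .negSucc 3⟩, ⟨0, 4, 4, 0, 4⟩, ⟨1,
    6, 1, 2, 3⟩⟩], 8, ⟨.ofNat 1, .ofNat 0, .ofNat 1, .ofNat 0, .ofNat 1⟩, ⟨.ofNat 0, .ofNat 2,
    .ofNat 0, .ofNat 0, .ofNat 0⟩, ⟨.ofNat 0, .ofNat 0, .ofNat 2, .ofNat 0, .ofNat 0⟩, ⟨.ofNat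
    0, .ofNat 0, .ofNat 0, .ofNat 1, .ofNat 0⟩, ⟨.ofNat 0, .ofNat 0, .ofNat 0, .ofNat 0, .ofNat
    2⟩, [0, 34819, 55297, 28, 36, 23, 24, 71681]⟩

def t20_11 : Simp :=
⟨16581, [⟨⟨.negSucc 3, .ofNat 0, .ofNat 4, .ofNat 0, .ofNat 0⟩, ⟨4, 0, 4, 0, 0⟩, ⟨1, 4, 3, 3,
    1⟩⟩, ⟨⟨.ofNat 8, .negSucc 3, .ofNat 0, .ofNat 0, .ofNat 8⟩, ⟨0, 4, 0, 0, 0⟩, ⟨1, 2, 1, 1,
    1⟩⟩, ⟨⟨.ofNat 0, .ofNat 4, .ofNat 4, .negSucc 7, .negSucc 3⟩, ⟨0, 4, 4, 0, 4⟩, ⟨1, 4, 1, 1,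
    1⟩⟩, ⟨⟨.negSucc 3, .ofNat 0, .ofNat 0, .ofNat 0, .ofNat 4⟩, ⟨4, 0, 0, 0, 4⟩, ⟨1, 8, 1, 3,
    3⟩⟩, ⟨⟨.ofNat 8, .ofNat 0, .negSucc 7, .ofNat 8, .negSucc 7⟩, ⟨0, 0, 0, 0, 0⟩, ⟨1, 4, 1, 2,
    1⟩⟩], 8, ⟨.ofNat 1, .ofNat 0, .ofNat 1, .ofNat 0, .ofNat 1⟩, ⟨.ofNat 0, .ofNat 2, .ofNat 0,
    .ofNat 0, .ofNat 0⟩, ⟨.ofNat 0, .ofNat 0, .ofNat 2, .ofNat 0, .ofNat 0⟩, ⟨.ofNat 0, .ofNat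
    0, .ofNat 0, .ofNat 1, .ofNat 0⟩, ⟨.ofNat 0, .ofNat 0, .ofNat 0, .ofNat 0, .ofNat 2⟩, [0,
    47, 27, 50, 22, 33, 24, 53250]⟩

def t20_12 : Simp :=
⟨16525, [⟨⟨.negSucc 7, .ofNat 0, .ofNat 8, .ofNat 0, .ofNat 0⟩, ⟨8, 0, 8, 0, 0⟩, ⟨1, 4, 3, 3,
    1⟩⟩, ⟨⟨.ofNat 16, .ofNat 0, .ofNat 8, .negSucc 15, .ofNat 8⟩, ⟨0, 0, 8, 0, 8⟩, ⟨1, 2, 1, 1,
    1⟩⟩, ⟨⟨.ofNat 0, .negSucc 3, .negSucc 3, .ofNat 8, .ofNat 4⟩, ⟨0, 12, 12, 8, 4⟩, ⟨1, 4, 1,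
    3, 3⟩⟩, ⟨⟨.negSucc 7, .ofNat 4, .ofNat 4, .negSucc 7, .ofNat 4⟩, ⟨8, 4, 4, 8, 4⟩, ⟨1, 8, 1,
    3, 3⟩⟩, ⟨⟨.ofNat 16, .ofNat 0, .negSucc 15, .ofNat 16, .negSucc 15⟩, ⟨0, 0, 0, 0, 0⟩, ⟨1,
    4, 1, 2, 1⟩⟩], 16, ⟨.ofNat 1, .ofNat 0, .ofNat 1, .ofNat 0, .ofNat 1⟩, ⟨.ofNat 0, .ofNat 2,
    .ofNat 0, .ofNat 0, .ofNat 2⟩, ⟨.ofNat 0, .ofNat 0, .ofNat 2, .ofNat 0, .ofNat 2⟩, ⟨.ofNat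
    0, .ofNat 0, .ofNat 0, .ofNat 1, .ofNat 2⟩, ⟨.ofNat 0, .ofNat 0, .ofNat 0, .ofNat 0, .ofNat
    4⟩, [0, 26, 46, 48135, 37890, 50, 72706, 28, 34, 33, 66, 23, 55298, 90114, 24, 35]⟩

def t20_13 : Simp :=
⟨17421, [⟨⟨.negSucc 1, .ofNat 0, .ofNat 2, .ofNat 0, .ofNat 0⟩, ⟨2, 0, 2, 0, 0⟩, ⟨1, 4, 3, 3,
    1⟩⟩, ⟨⟨.ofNat 4, .ofNat 0, .ofNat 2, .negSucc 3, .ofNat 2⟩, ⟨0, 0, 2, 0, 2⟩, ⟨1, 2, 1, 1,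
    1⟩⟩, ⟨⟨.negSucc 1, .ofNat 0, .ofNat 0, .ofNat 0, .ofNat 2⟩, ⟨2, 0, 0, 0, 2⟩, ⟨1, 4, 1, 3,
    3⟩⟩, ⟨⟨.ofNat 8, .negSucc 3, .negSucc 3, .ofNat 8, .negSucc 3⟩, ⟨0, 0, 0, 0, 0⟩, ⟨1, 3, 1,
    2, 1⟩⟩, ⟨⟨.negSucc 3, .ofNat 4, .ofNat 0, .negSucc 3, .ofNat 0⟩, ⟨0, 0, 0, 0, 0⟩, ⟨1, 4, 1,
    2, 1⟩⟩], 4, ⟨.ofNat 1, .ofNat 0, .ofNat 1, .ofNat 0, .ofNat 1⟩, ⟨.ofNat 0, .ofNat 1, .ofNat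
    0, .ofNat 0, .ofNat 0⟩, ⟨.ofNat 0, .ofNat 0, .ofNat 2, .ofNat 0, .ofNat 0⟩, ⟨.ofNat 0,
    .ofNat 0, .ofNat 0, .ofNat 1, .ofNat 0⟩, ⟨.ofNat 0, .ofNat 0, .ofNat 0, .ofNat 0, .ofNat
    2⟩, [0, 23, 24, 28]⟩

def t20_14 : Simp :=
⟨524485, [⟨⟨.negSucc 3, .ofNat 0, .ofNat 4, .ofNat 0, .ofNat 0⟩, ⟨4, 0, 4, 0, 0⟩, ⟨1, 4, 3, 3,
    1⟩⟩, ⟨⟨.ofNat 16, .negSucc 3, .negSucc 7, .ofNat 8, .ofNat 0⟩, ⟨0, 4, 0, 0, 0⟩, ⟨1, 2, 1,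
    1, 1⟩⟩, ⟨⟨.ofNat 0, .ofNat 4, .ofNat 4, .negSucc 7, .negSucc 3⟩, ⟨0, 4, 4, 0, 4⟩, ⟨1, 4, 1,
    1, 1⟩⟩, ⟨⟨.ofNat 4, .ofNat 0, .negSucc 7, .ofNat 8, .negSucc 3⟩, ⟨4, 0, 0, 0, 4⟩, ⟨1, 8, 1,
    3, 3⟩⟩, ⟨⟨.negSucc 7, .ofNat 0, .ofNat 8, .negSucc 7, .ofNat 8⟩, ⟨0, 0, 0, 0, 0⟩, ⟨1, 6, 1,
    2, 3⟩⟩], 8, ⟨.ofNat 1, .ofNat 0, .ofNat 1, .ofNat 0, .ofNat 1⟩, ⟨.ofNat 0, .ofNat 2, .ofNat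
    0, .ofNat 0, .ofNat 0⟩, ⟨.ofNat 0, .ofNat 0, .ofNat 2, .ofNat 0, .ofNat 0⟩, ⟨.ofNat 0,
    .ofNat 0, .ofNat 0, .ofNat 1, .ofNat 0⟩, ⟨.ofNat 0, .ofNat 0, .ofNat 0, .ofNat 0, .ofNat
    2⟩, [0, 47, 27, 50, 22, 33, 24, 53250]⟩

def t20_15 : Simp :=
⟨532549, [⟨⟨.negSucc 1, .ofNat 0, .ofNat 2, .ofNat 0, .ofNat 0⟩, ⟨2, 0, 2, 0, 0⟩, ⟨1, 4, 3, 3,
    1⟩⟩, ⟨⟨.ofNat 8, .negSucc 1, .negSucc 3, .ofNat 4, .ofNat 0⟩, ⟨0, 2, 0, 0, 0⟩, ⟨1, 2, 1, 1,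
    1⟩⟩, ⟨⟨.ofNat 2, .ofNat 2, .negSucc 1, .ofNat 0, .negSucc 3⟩, ⟨2, 2, 2, 0, 0⟩, ⟨1, 4, 1, 1,
    1⟩⟩, ⟨⟨.negSucc 3, .ofNat 0, .ofNat 8, .negSucc 7, .ofNat 4⟩, ⟨0, 0, 0, 0, 0⟩, ⟨1, 4, 1, 1,
    2⟩⟩, ⟨⟨.ofNat 0, .ofNat 0, .negSucc 3, .ofNat 4, .ofNat 0⟩, ⟨0, 0, 0, 0, 0⟩, ⟨1, 6, 1, 2,
    3⟩⟩], 4, ⟨.ofNat 1, .ofNat 0, .ofNat 1, .ofNat 0, .ofNat 0⟩, ⟨.ofNat 0, .ofNat 2, .ofNat 0,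
    .ofNat 0, .ofNat 0⟩, ⟨.ofNat 0, .ofNat 0, .ofNat 2, .ofNat 0, .ofNat 0⟩, ⟨.ofNat 0, .ofNat
    0, .ofNat 0, .ofNat 1, .ofNat 0⟩, ⟨.ofNat 0, .ofNat 0, .ofNat 0, .ofNat 0, .ofNat 1⟩, [0,
    27, 22, 24]⟩

def t20_16 : Simp :=
⟨557573, [⟨⟨.negSucc 1, .ofNat 0, .ofNat 2, .ofNat 0, .ofNat 0⟩, ⟨2, 0, 2, 0, 0⟩, ⟨1, 4, 3, 3,
    1⟩⟩, ⟨⟨.ofNat 10, .ofNat 0, .negSucc 5, .ofNat 4, .negSucc 3⟩, ⟨2, 0, 2, 0, 0⟩, ⟨1, 2, 1,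
    1, 1⟩⟩, ⟨⟨.negSucc 3, .ofNat 0, .ofNat 8, .negSucc 7, .ofNat 4⟩, ⟨0, 0, 0, 0, 0⟩, ⟨1, 3, 1,
    1, 2⟩⟩, ⟨⟨.ofNat 0, .negSucc 1, .negSucc 1, .ofNat 4, .ofNat 2⟩, ⟨0, 2, 2, 0, 2⟩, ⟨1, 4, 1,
    2, 3⟩⟩, ⟨⟨.ofNat 0, .ofNat 2, .negSucc 1, .ofNat 0, .negSucc 1⟩, ⟨0, 2, 2, 0, 2⟩, ⟨1, 6, 1,
    2, 3⟩⟩], 4, ⟨.ofNat 1, .ofNat 0, .ofNat 1, .ofNat 0, .ofNat 1⟩, ⟨.ofNat 0, .ofNat 1, .ofNat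
    0, .ofNat 0, .ofNat 1⟩, ⟨.ofNat 0, .ofNat 0, .ofNat 2, .ofNat 0, .ofNat 0⟩, ⟨.ofNat 0,
    .ofNat 0, .ofNat 0, .ofNat 1, .ofNat 0⟩, ⟨.ofNat 0, .ofNat 0, .ofNat 0, .ofNat 0, .ofNat
    2⟩, [0, 36, 55297, 24]⟩

def t20_17 : Simp :=
⟨532997, [⟨⟨.negSucc 0, .ofNat 0, .ofNat 1, .ofNat 0, .ofNat 0⟩, ⟨1, 0, 1, 0, 0⟩, ⟨1, 4, 3, 3,
    1⟩⟩, ⟨⟨.ofNat 5, .ofNat 0, .negSucc 2, .ofNat 2, .negSucc 1⟩, ⟨1, 0, 1, 0, 0⟩, ⟨1, 2, 1, 1,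
    1⟩⟩, ⟨⟨.negSucc 1, .negSucc 1, .ofNat 2, .ofNat 0, .ofNat 4⟩, ⟨0, 0, 0, 0, 0⟩, ⟨1, 3, 1, 1,
    2⟩⟩, ⟨⟨.ofNat 0, .ofNat 2, .ofNat 2, .negSucc 3, .negSucc 1⟩, ⟨0, 0, 0, 0, 0⟩, ⟨1, 4, 1, 1,
    2⟩⟩, ⟨⟨.ofNat 0, .ofNat 0, .negSucc 1, .ofNat 2, .ofNat 0⟩, ⟨0, 0, 0, 0, 0⟩, ⟨1, 6, 1, 2,
    3⟩⟩], 2, ⟨.ofNat 1, .ofNat 0, .ofNat 1, .ofNat 0, .ofNat 0⟩, ⟨.ofNat 0, .ofNat 1, .ofNat 0,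
    .ofNat 0, .ofNat 0⟩, ⟨.ofNat 0, .ofNat 0, .ofNat 2, .ofNat 0, .ofNat 0⟩, ⟨.ofNat 0, .ofNat
    0, .ofNat 0, .ofNat 1, .ofNat 0⟩, ⟨.ofNat 0, .ofNat 0, .ofNat 0, .ofNat 0, .ofNat 1⟩, [0,
    24]⟩

def t20_18 : Simp :=
⟨524513, [⟨⟨.ofNat 0, .negSucc 3, .ofNat 8, .ofNat 8, .ofNat 0⟩, ⟨0, 28, 8, 8, 0⟩, ⟨1, 4, 3, 3,
    1⟩⟩, ⟨⟨.negSucc 15, .ofNat 4, .ofNat 8, .negSucc 7, .ofNat 0⟩, ⟨16, 4, 8, 24, 0⟩, ⟨1, 20,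
    3, 7, 9⟩⟩, ⟨⟨.ofNat 0, .ofNat 16, .ofNat 16, .negSucc 31, .negSucc 15⟩, ⟨0, 16, 16, 0, 16⟩,
    ⟨1, 4, 1, 1, 1⟩⟩, ⟨⟨.ofNat 16, .ofNat 0, .negSucc 31, .ofNat 32, .negSucc 15⟩, ⟨16, 0, 0,
    0, 16⟩, ⟨1, 8, 1, 3, 3⟩⟩, ⟨⟨.ofNat 32, .negSucc 15, .ofNat 0, .ofNat 0, .ofNat 32⟩, ⟨0, 16,
    0, 0, 0⟩, ⟨1, 6, 1, 2, 3⟩⟩], 32, ⟨.ofNat 1, .ofNat 0, .ofNat 1, .ofNat 3, .ofNat 1⟩,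
    ⟨.ofNat 0, .ofNat 2, .ofNat 0, .ofNat 1, .ofNat 0⟩, ⟨.ofNat 0, .ofNat 0, .ofNat 2, .ofNat
    2, .ofNat 0⟩, ⟨.ofNat 0, .ofNat 0, .ofNat 0, .ofNat 4, .ofNat 0⟩, ⟨.ofNat 0, .ofNat 0,
    .ofNat 0, .ofNat 0, .ofNat 2⟩, [0, 47, 175, 186374, 148, 169990, 89, 128006, 87, 120, 27,
    50, 179227, 179250, 147, 164, 97282, 128002, 187400, 183314, 180226, 186370, 153602,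
    169986, 135, 160776, 71, 123906, 24597, 54547458, 179224, 190868482]⟩

def t20_19 : Simp :=
⟨532577, [⟨⟨.ofNat 0, .negSucc 1, .ofNat 4, .ofNat 4, .ofNat 0⟩, ⟨0, 14, 4, 4, 0⟩, ⟨1, 4, 3, 3,
    1⟩⟩, ⟨⟨.negSucc 7, .ofNat 2, .ofNat 4, .negSucc 3, .ofNat 0⟩, ⟨8, 2, 4, 12, 0⟩, ⟨1, 20, 3,
    7, 9⟩⟩, ⟨⟨.ofNat 8, .ofNat 8, .negSucc 7, .ofNat 0, .negSucc 15⟩, ⟨8, 8, 8, 0, 0⟩, ⟨1, 4,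
    1, 1, 1⟩⟩, ⟨⟨.negSucc 15, .ofNat 0, .ofNat 32, .negSucc 31, .ofNat 16⟩, ⟨0, 0, 0, 0, 0⟩,
    ⟨1, 4, 1, 1, 2⟩⟩, ⟨⟨.ofNat 32, .negSucc 7, .negSucc 31, .ofNat 32, .ofNat 0⟩, ⟨0, 8, 0, 0,
    0⟩, ⟨1, 6, 1, 2, 3⟩⟩], 16, ⟨.ofNat 1, .ofNat 0, .ofNat 1, .ofNat 3, .ofNat 0⟩, ⟨.ofNat 0,
    .ofNat 2, .ofNat 0, .ofNat 1, .ofNat 0⟩, ⟨.ofNat 0, .ofNat 0, .ofNat 2, .ofNat 2, .ofNat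
    0⟩, ⟨.ofNat 0, .ofNat 0, .ofNat 0, .ofNat 4, .ofNat 0⟩, ⟨.ofNat 0, .ofNat 0, .ofNat 0,
    .ofNat 0, .ofNat 1⟩, [0, 175, 148, 89, 87, 27, 179227, 147, 97282, 187400, 180226, 153602,
    135, 71, 24597, 179224]⟩

def t20_20 : Simp :=
⟨8545, [⟨⟨.ofNat 0, .negSucc 11, .ofNat 24, .ofNat 24, .ofNat 0⟩, ⟨0, 84, 24, 24, 0⟩, ⟨1, 4, 3,
    3, 1⟩⟩, ⟨⟨.negSucc 15, .ofNat 4, .negSucc 7, .ofNat 8, .ofNat 0⟩, ⟨80, 4, 88, 8, 0⟩, ⟨1,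
    20, 3, 7, 9⟩⟩, ⟨⟨.ofNat 48, .ofNat 48, .negSucc 47, .ofNat 0, .negSucc 95⟩, ⟨48, 48, 48, 0,
    0⟩, ⟨1, 4, 1, 1, 1⟩⟩, ⟨⟨.negSucc 31, .ofNat 8, .ofNat 32, .negSucc 31, .ofNat 0⟩, ⟨64, 8,
    32, 64, 0⟩, ⟨1, 8, 3, 1, 3⟩⟩, ⟨⟨.ofNat 96, .negSucc 47, .ofNat 0, .ofNat 0, .ofNat 96⟩, ⟨0,
    48, 0, 0, 0⟩, ⟨1, 4, 1, 1, 2⟩⟩], 96, ⟨.ofNat 1, .ofNat 0, .ofNat 1, .ofNat 3, .ofNat 0⟩,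
    ⟨.ofNat 0, .ofNat 4, .ofNat 0, .ofNat 10, .ofNat 0⟩, ⟨.ofNat 0, .ofNat 0, .ofNat 2, .ofNat
    2, .ofNat 0⟩, ⟨.ofNat 0, .ofNat 0, .ofNat 0, .ofNat 12, .ofNat 0⟩, ⟨.ofNat 0, .ofNat 0,
    .ofNat 0, .ofNat 0, .ofNat 1⟩, [0, 97, 95, 89, 154, 150, 148, 171068, 176, 175, 186430,
    186428, 21516, 27, 97292, 92, 87, 153612, 151564, 147, 180236, 179212, 179227, 186427,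
    63490, 121864, 136194, 131074, 157303810, 166920, 171010, 184566786, 183518210, 183304,
    190860290, 22037506, 42005, 38, 131077, 128005, 106, 171013, 169989, 170008, 160787,
    186373, 186392, 65033221, 60, 133, 128, 125, 151569, 167, 166, 179217, 180284, 182, 21521,
    62, 59, 52, 131084, 128012, 121, 171020, 169996, 170011, 167955, 186380, 186395, 65033228,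
    99330, 134235138, 147464, 157698, 175129602, 174081026, 177160, 184568834, 190858242,
    190904322, 191908872, 19458, 97285, 73, 157701, 153605, 151557, 138259, 180229, 179205,
    190904325, 186409, 21509, 101733381]⟩

def t20_21 : Simp :=
⟨557571, [⟨⟨.ofNat 2, .ofNat 0, .ofNat 2, .ofNat 4, .negSucc 3⟩, ⟨2, 0, 2, 4, 12⟩, ⟨1, 4, 3, 3,
    1⟩⟩, ⟨⟨.negSucc 9, .ofNat 0, .ofNat 6, .negSucc 3, .ofNat 4⟩, ⟨6, 0, 6, 12, 4⟩, ⟨1, 10, 3,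
    7, 9⟩⟩, ⟨⟨.negSucc 15, .ofNat 0, .ofNat 32, .negSucc 31, .ofNat 16⟩, ⟨0, 0, 0, 0, 0⟩, ⟨1,
    3, 1, 1, 2⟩⟩, ⟨⟨.ofNat 50, .negSucc 7, .negSucc 37, .ofNat 36, .negSucc 11⟩, ⟨2, 8, 10, 4,
    4⟩, ⟨1, 4, 1, 2, 3⟩⟩, ⟨⟨.negSucc 9, .ofNat 8, .negSucc 1, .negSucc 3, .negSucc 3⟩, ⟨6, 8,
    14, 12, 12⟩, ⟨1, 6, 1, 2, 3⟩⟩], 16, ⟨.ofNat 1, .ofNat 0, .ofNat 1, .ofNat 0, .ofNat 1⟩,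
    ⟨.ofNat 0, .ofNat 1, .ofNat 0, .ofNat 1, .ofNat 1⟩, ⟨.ofNat 0, .ofNat 0, .ofNat 2, .ofNat
    1, .ofNat 2⟩, ⟨.ofNat 0, .ofNat 0, .ofNat 0, .ofNat 2, .ofNat 2⟩, ⟨.ofNat 0, .ofNat 0,
    .ofNat 0, .ofNat 0, .ofNat 4⟩, [0, 111617, 132097, 145409, 159745, 36, 98305, 77, 109571,
    144714753, 132107, 37, 92161, 75, 98315, 169880577]⟩

def t20_22 : Simp :=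
⟨532995, [⟨⟨.ofNat 1, .ofNat 0, .ofNat 1, .ofNat 2, .negSucc 1⟩, ⟨1, 0, 1, 2, 6⟩, ⟨1, 4, 3, 3,
    1⟩⟩, ⟨⟨.negSucc 4, .ofNat 0, .ofNat 3, .negSucc 1, .ofNat 2⟩, ⟨3, 0, 3, 6, 2⟩, ⟨1, 10, 3,
    7, 9⟩⟩, ⟨⟨.ofNat 42, .negSucc 7, .negSucc 21, .ofNat 20, .negSucc 3⟩, ⟨2, 0, 2, 4, 4⟩, ⟨1,
    3, 1, 1, 2⟩⟩, ⟨⟨.negSucc 49, .ofNat 8, .ofNat 38, .negSucc 35, .ofNat 12⟩, ⟨6, 0, 6, 4, 4⟩,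
    ⟨1, 4, 1, 1, 2⟩⟩, ⟨⟨.ofNat 20, .ofNat 0, .negSucc 19, .ofNat 16, .negSucc 7⟩, ⟨4, 0, 4, 0,
    0⟩, ⟨1, 6, 1, 2, 3⟩⟩], 8, ⟨.ofNat 1, .ofNat 0, .ofNat 1, .ofNat 0, .ofNat 1⟩, ⟨.ofNat 0,
    .ofNat 1, .ofNat 0, .ofNat 0, .ofNat 0⟩, ⟨.ofNat 0, .ofNat 0, .ofNat 2, .ofNat 0, .ofNat
    1⟩, ⟨.ofNat 0, .ofNat 0, .ofNat 0, .ofNat 1, .ofNat 1⟩, ⟨.ofNat 0, .ofNat 0, .ofNat 0,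
    .ofNat 0, .ofNat 4⟩, [0, 79873, 77, 134145, 92163, 144707585, 169873409, 77825]⟩

def t20_23 : Simp :=
⟨532515, [⟨⟨.ofNat 10, .ofNat 0, .ofNat 10, .ofNat 20, .negSucc 19⟩, ⟨10, 0, 10, 20, 60⟩, ⟨1,
    4, 3, 3, 1⟩⟩, ⟨⟨.negSucc 7, .negSucc 7, .ofNat 8, .ofNat 0, .ofNat 16⟩, ⟨72, 72, 8, 0, 16⟩,
    ⟨1, 10, 3, 7, 9⟩⟩, ⟨⟨.negSucc 41, .ofNat 8, .ofNat 22, .negSucc 19, .ofNat 4⟩, ⟨38, 8, 22,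
    60, 4⟩, ⟨1, 20, 3, 7, 9⟩⟩, ⟨⟨.negSucc 79, .ofNat 0, .ofNat 160, .negSucc 159, .ofNat 80⟩,
    ⟨0, 0, 0, 0, 0⟩, ⟨1, 4, 1, 1, 2⟩⟩, ⟨⟨.ofNat 200, .ofNat 0, .negSucc 199, .ofNat 160,
    .negSucc 79⟩, ⟨40, 0, 40, 0, 0⟩, ⟨1, 6, 1, 2, 3⟩⟩], 80, ⟨.ofNat 1, .ofNat 0, .ofNat 1,
    .ofNat 0, .ofNat 5⟩, ⟨.ofNat 0, .ofNat 2, .ofNat 0, .ofNat 0, .ofNat 16⟩, ⟨.ofNat 0, .ofNat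
    0, .ofNat 2, .ofNat 0, .ofNat 9⟩, ⟨.ofNat 0, .ofNat 0, .ofNat 0, .ofNat 1, .ofNat 5⟩,
    ⟨.ofNat 0, .ofNat 0, .ofNat 0, .ofNat 0, .ofNat 20⟩, [0, 57, 96, 129, 156, 89, 124, 151,
    168, 172089, 148, 165, 178, 182329, 184397, 175, 181, 185401, 187469, 187504, 123, 151563,
    168971, 182283, 150548, 175128, 179211, 185355, 185402, 191968267, 187416, 21515, 59413,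
    100684811, 135287819, 54, 90, 126987, 154635, 172043, 142, 72, 109, 138, 162, 165945, 137,
    159, 174, 178233, 182349, 171, 180, 184377, 185421, 185456, 183, 187449, 77, 112, 135,
    168984, 175115, 184331, 184378, 179224, 185368, 187403, 187450, 80761867, 24597, 37909,
    76821, 111627, 141323, 71, 108, 140299, 162827, 178187]⟩

def t20_24 : Simp :=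
⟨8483, [⟨⟨.ofNat 60, .ofNat 0, .ofNat 60, .ofNat 120, .negSucc 119⟩, ⟨60, 0, 60, 120, 360⟩, ⟨1,
    4, 3, 3, 1⟩⟩, ⟨⟨.negSucc 47, .negSucc 47, .ofNat 48, .ofNat 0, .ofNat 96⟩, ⟨432, 432, 48,
    0, 96⟩, ⟨1, 10, 3, 7, 9⟩⟩, ⟨⟨.negSucc 51, .ofNat 48, .negSucc 67, .ofNat 40, .negSucc 55⟩,
    ⟨428, 48, 412, 40, 424⟩, ⟨1, 20, 3, 7, 9⟩⟩, ⟨⟨.negSucc 199, .ofNat 0, .ofNat 200, .negSucc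
    159, .ofNat 80⟩, ⟨280, 0, 200, 320, 80⟩, ⟨1, 8, 3, 1, 3⟩⟩, ⟨⟨.ofNat 720, .ofNat 0, .negSucc
    239, .ofNat 0, .ofNat 0⟩, ⟨240, 0, 240, 0, 0⟩, ⟨1, 4, 1, 1, 2⟩⟩], 480, ⟨.ofNat 1, .ofNat 0,
    .ofNat 1, .ofNat 1, .ofNat 50⟩, ⟨.ofNat 0, .ofNat 2, .ofNat 0, .ofNat 0, .ofNat 36⟩,
    ⟨.ofNat 0, .ofNat 0, .ofNat 2, .ofNat 0, .ofNat 49⟩, ⟨.ofNat 0, .ofNat 0, .ofNat 0, .ofNat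
    2, .ofNat 10⟩, ⟨.ofNat 0, .ofNat 0, .ofNat 0, .ofNat 0, .ofNat 60⟩, [0, 187431, 187435,
    185408, 185413, 151569, 124, 127, 134, 135299093, 186430, 21518, 178, 178215, 178219, 128,
    130, 126990, 187469, 185444, 176, 179232, 181280, 182286, 156, 60, 62485, 65557, 70677,
    191968270, 148, 149, 155, 154656, 156704, 21521, 181, 184359, 184363, 182336, 154, 151566,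
    96, 102421, 104469, 180284, 186400, 185358, 168, 165927, 95, 98, 106517, 100684814, 184397,
    166, 170, 168992, 173088, 172046, 97, 103445, 185401, 185407, 184402, 167, 170016, 168974,
    129, 131, 186428, 32789, 187437, 187441, 172089, 125, 126, 132, 133201941, 135287822, 175,
    177, 176167, 182304, 178221, 133, 57, 64533, 187474, 187478, 171068, 179214, 151, 153,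
    146471, 62, 66581, 68629, 182329, 182335, 150, 152, 152608, 154638, 187504, 182, 183335,
    185376, 184365, 184369, 89, 94, 99, 105493, 104890389, 179217, 165, 169, 163879, 172064,
    30741, 46158852, 47207428, 51401732, 123924, 140293, 142340, 144388, 127947791,
    148198406148, 183320, 183300, 184345, 188776452, 186692612, 147461, 56341, 81810436,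
    86004740, 90199044, 149523, 179323908, 162820, 163844, 60436, 82859013, 83907588, 88101892,
    184362, 188808196, 161797, 166916, 149519, 166737924, 117462020, 187397, 187417, 191922180,
    189838340, 189842436, 91, 112644, 119559172, 120607748, 97539087, 190885893, 175108,
    176132, 178201, 182484996, 113669, 124802052, 187434, 191953924, 189876228, 177157, 167951,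
    179320836, 141316, 149967876, 29717, 31765, 45110276, 191954948, 191960068, 125971, 140292,
    143364, 148484, 190901268, 46158853, 191906820, 184324, 182303, 186690564, 142341, 147460,
    128996367, 80761860, 191991812, 183301, 183321, 187727876, 188758020, 165892, 56, 82859012,
    84956164, 87053316, 60838927, 161816, 161796, 164868, 163865, 171832267780, 83907589,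
    187396, 185375, 189836292, 188809220, 166917, 150543, 111620, 118510596, 123753476, 186398,
    190885892, 191903748, 178180, 94228, 112645, 116413444, 121656324, 94393359, 189871108,
    175109, 177156, 176153, 180387844, 182466564, 142, 39957, 44053, 187456, 187461, 189871118,
    137, 140, 145, 141344, 149979157, 187409, 180, 182311, 182315, 178240, 144, 140302, 77,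
    187492, 187494, 180263, 183328, 184334, 162, 159783, 79, 82965, 85013, 80761870, 182349,
    158, 161, 162848, 163872, 165902, 183, 185383, 185387, 184384, 184389, 140305, 109, 113,
    120853, 117473301, 186412, 187406, 174, 172071, 172075, 111, 116, 114316302, 185421,
    184420, 173, 175136, 176160, 178190, 172077, 119, 187449, 187455, 185426, 185430, 171047,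
    175118, 138, 143, 134183, 45077, 46101, 50197, 178233, 178239, 139, 141, 143392, 144725006,
    185456, 179, 181287, 184352, 182317, 182321, 72, 78, 83989, 88085, 191991840, 175121, 159,
    160, 156711, 165920, 81941, 86037, 184377, 184383, 182354, 163, 161824, 162830, 112,
    119829, 186407, 187424, 185389, 185393, 165945, 110, 114, 115, 118521877, 117462030, 171,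
    172, 173095, 178208, 42005, 65033220, 68178948, 70276100, 182314, 151557, 153604, 155652,
    139279, 162157049860, 186392, 186372, 185369, 189825028, 188789764, 157701, 76, 98587652,
    103830532, 108024836, 160787, 183518212, 168964, 173060, 172057, 97285, 101733380,
    105927684, 185386, 189856772, 169989, 171012, 160783, 173029380, 135287812, 21509, 25621,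
    33575940, 191935492, 191939588, 106, 128004, 129028, 138433540, 112219151, 190904325,
    179204, 181252, 182297, 186679300, 131077, 136196, 43029, 66081796, 191973380, 180229,
    139283, 183515140, 154628, 156676, 38, 40981, 63984644, 67130372, 72373252, 138259, 151556,
    152580, 158724, 160457749, 65033221, 22037508, 185348, 184351, 188787716, 153605, 157700,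
    138255, 100684804, 104879108, 186373, 186393, 190873604, 189806596, 172036, 73, 97284,
    102781956, 109073412, 78664719, 170008, 169988, 174084, 173081, 177242116, 101733381,
    21508, 187423, 191933444, 189857796, 171013, 110611, 126980, 130052, 140530692, 186409,
    190904324, 22034436, 182276, 178207, 128005, 131076, 136336388, 113267727, 191968260,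
    179205, 180228, 181273, 185630724, 186660868]⟩

def t20_25 : Simp :=
⟨8723, [⟨⟨.ofNat 6, .ofNat 0, .ofNat 6, .ofNat 12, .negSucc 11⟩, ⟨6, 0, 6, 12, 36⟩, ⟨1, 4, 3,
    3, 1⟩⟩, ⟨⟨.negSucc 9, .ofNat 0, .negSucc 1, .ofNat 4, .ofNat 4⟩, ⟨38, 0, 46, 4, 4⟩, ⟨1, 10,
    3, 7, 9⟩⟩, ⟨⟨.negSucc 19, .ofNat 0, .ofNat 20, .negSucc 15, .ofNat 8⟩, ⟨28, 0, 20, 32, 8⟩,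
    ⟨1, 4, 3, 1, 3⟩⟩, ⟨⟨.ofNat 132, .negSucc 47, .negSucc 11, .ofNat 24, .ofNat 24⟩, ⟨36, 0,
    36, 24, 24⟩, ⟨1, 3, 1, 1, 2⟩⟩, ⟨⟨.negSucc 59, .ofNat 48, .negSucc 11, .negSucc 23, .negSucc
    23⟩, ⟨36, 0, 36, 24, 24⟩, ⟨1, 4, 1, 1, 2⟩⟩], 48, ⟨.ofNat 1, .ofNat 0, .ofNat 1, .ofNat 1,
    .ofNat 2⟩, ⟨.ofNat 0, .ofNat 1, .ofNat 0, .ofNat 0, .ofNat 0⟩, ⟨.ofNat 0, .ofNat 0, .ofNat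
    2, .ofNat 0, .ofNat 1⟩, ⟨.ofNat 0, .ofNat 0, .ofNat 0, .ofNat 2, .ofNat 10⟩, ⟨.ofNat 0,
    .ofNat 0, .ofNat 0, .ofNat 0, .ofNat 12⟩, [0, 62465, 43, 84993, 69, 104871937, 77, 120833,
    102, 137396225, 119840, 148913153, 68609, 49, 79873, 63, 105473, 86, 117454849, 104480,
    134145, 117, 46157825, 32, 31477763, 45060, 88084481, 68612, 56323, 79876, 120590337,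
    105476, 97532931, 117454852, 149950465, 134148, 29, 40963, 62468, 109056001, 84996,
    78658563, 98308, 140513281, 120836, 137389059, 137396228, 167519457281]⟩

def t20_26 : Simp :=
⟨8467, [⟨⟨.ofNat 24, .ofNat 0, .ofNat 24, .ofNat 48, .negSucc 47⟩, ⟨24, 0, 24, 48, 144⟩, ⟨1, 4,
    3, 3, 1⟩⟩, ⟨⟨.negSucc 39, .ofNat 0, .negSucc 7, .ofNat 16, .ofNat 16⟩, ⟨152, 0, 184, 16,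
    16⟩, ⟨1, 10, 3, 7, 9⟩⟩, ⟨⟨.ofNat 52, .negSucc 47, .ofNat 68, .negSucc 39, .ofNat 56⟩, ⟨52,
    144, 68, 152, 56⟩, ⟨1, 4, 3, 1, 3⟩⟩, ⟨⟨.negSucc 131, .ofNat 48, .ofNat 12, .negSucc 23,
    .negSucc 23⟩, ⟨60, 48, 12, 168, 168⟩, ⟨1, 8, 3, 1, 3⟩⟩, ⟨⟨.ofNat 288, .ofNat 0, .negSucc
    95, .ofNat 0, .ofNat 0⟩, ⟨96, 0, 96, 0, 0⟩, ⟨1, 4, 1, 1, 2⟩⟩], 192, ⟨.ofNat 1, .ofNat 0,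
    .ofNat 1, .ofNat 1, .ofNat 2⟩, ⟨.ofNat 0, .ofNat 2, .ofNat 0, .ofNat 0, .ofNat 12⟩, ⟨.ofNat
    0, .ofNat 0, .ofNat 2, .ofNat 0, .ofNat 1⟩, ⟨.ofNat 0, .ofNat 0, .ofNat 0, .ofNat 2, .ofNat
    22⟩, ⟨.ofNat 0, .ofNat 0, .ofNat 0, .ofNat 0, .ofNat 24⟩, [0, 97294, 100366, 106510, 104,
    98318, 102414, 100, 102, 160464910, 163592206, 159758, 68, 62478, 61, 64, 69, 133183502,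
    130062, 137230, 137231, 132128, 134176, 20494, 103438, 101, 96270, 101390, 105486, 103,
    102432, 104480, 156686, 156687, 65032206, 62, 65, 67, 64526, 63, 135182, 135183, 130080,
    132110, 134158, 134159, 119847, 32, 30740, 83903492, 124794884, 121860, 93199, 119552004,
    116740, 117764, 95247, 171813386244, 167786500, 167787524, 61886479, 80901, 81924, 86020,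
    55, 145766404, 147863556, 147864580, 124943, 144717828, 149960708, 146436, 121861, 94223,
    116406276, 113668, 118788, 92175, 118503428, 115716, 168836100, 167797775, 167804932,
    169883652, 87044, 57359, 80900, 82948, 151010308, 125967, 146814980, 152057860, 152058884,
    146457, 149979140, 148912132, 51, 39, 43, 118798, 118799, 111630, 115726, 120846, 118,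
    114720, 119840, 169884686, 85, 80910, 82958, 81, 83, 78862, 77, 148494, 148495, 149979150,
    146464, 145422, 45, 49, 112654, 116750, 117774, 115, 115744, 114702, 119822, 117,
    169902094, 81934, 80, 84, 79886, 83982, 82, 86, 144717838, 141326, 146446, 146447,
    46157838, 44, 42004, 63492, 66564, 139475972, 108559, 132134916, 138426372, 135172, 109583,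
    135280644, 132100, 177224708, 176186383, 101726212, 99332, 103428, 77839, 96260, 101380,
    159398916, 142621711, 158349316, 160446468, 160447492, 69636, 40, 134232068, 136329220,
    133124, 110607, 133183492, 140523524, 137220, 134169, 180403320836, 176175108, 19460,
    74767, 102774788, 100356, 106500, 76815, 156252164, 162543620, 162544644, 156697,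
    160464900, 163592196]⟩

def t20_27 : Simp :=
⟨1048901, [⟨⟨.negSucc 3, .ofNat 0, .ofNat 0, .ofNat 4, .ofNat 0⟩, ⟨4, 0, 0, 4, 0⟩, ⟨1, 4, 3, 3,
    1⟩⟩, ⟨⟨.ofNat 8, .negSucc 3, .ofNat 0, .ofNat 0, .ofNat 8⟩, ⟨0, 4, 0, 0, 0⟩, ⟨1, 2, 1, 1,
    1⟩⟩, ⟨⟨.ofNat 4, .ofNat 4, .negSucc 3, .ofNat 0, .negSucc 7⟩, ⟨4, 4, 4, 0, 0⟩, ⟨1, 4, 1, 1,
    1⟩⟩, ⟨⟨.negSucc 7, .ofNat 0, .negSucc 3, .ofNat 4, .ofNat 8⟩, ⟨0, 0, 4, 4, 0⟩, ⟨1, 8, 3, 1,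
    3⟩⟩, ⟨⟨.ofNat 8, .ofNat 0, .ofNat 8, .negSucc 7, .negSucc 7⟩, ⟨0, 0, 0, 0, 0⟩, ⟨1, 6, 3, 1,
    2⟩⟩], 8, ⟨.ofNat 1, .ofNat 0, .ofNat 1, .ofNat 1, .ofNat 0⟩, ⟨.ofNat 0, .ofNat 2, .ofNat 0,
    .ofNat 0, .ofNat 0⟩, ⟨.ofNat 0, .ofNat 0, .ofNat 2, .ofNat 0, .ofNat 0⟩, ⟨.ofNat 0, .ofNat
    0, .ofNat 0, .ofNat 2, .ofNat 0⟩, ⟨.ofNat 0, .ofNat 0, .ofNat 0, .ofNat 0, .ofNat 1⟩, [0,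
    62, 59, 27, 22, 17410, 41, 24]⟩

def t20_28 : Simp :=
⟨1114181, [⟨⟨.negSucc 1, .ofNat 0, .ofNat 0, .ofNat 2, .ofNat 0⟩, ⟨2, 0, 0, 2, 0⟩, ⟨1, 4, 3, 3,
    1⟩⟩, ⟨⟨.ofNat 4, .negSucc 1, .ofNat 0, .ofNat 0, .ofNat 4⟩, ⟨0, 2, 0, 0, 0⟩, ⟨1, 2, 1, 1,
    1⟩⟩, ⟨⟨.negSucc 1, .ofNat 2, .negSucc 3, .ofNat 2, .ofNat 0⟩, ⟨2, 2, 0, 2, 0⟩, ⟨1, 4, 1, 1,
    1⟩⟩, ⟨⟨.ofNat 8, .ofNat 0, .ofNat 4, .negSucc 3, .negSucc 7⟩, ⟨0, 0, 0, 0, 0⟩, ⟨1, 4, 2, 1,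
    1⟩⟩, ⟨⟨.negSucc 3, .ofNat 0, .ofNat 0, .ofNat 0, .ofNat 4⟩, ⟨0, 0, 0, 0, 0⟩, ⟨1, 6, 3, 1,
    2⟩⟩], 4, ⟨.ofNat 1, .ofNat 0, .ofNat 0, .ofNat 1, .ofNat 0⟩, ⟨.ofNat 0, .ofNat 2, .ofNat 0,
    .ofNat 0, .ofNat 0⟩, ⟨.ofNat 0, .ofNat 0, .ofNat 1, .ofNat 0, .ofNat 0⟩, ⟨.ofNat 0, .ofNat
    0, .ofNat 0, .ofNat 2, .ofNat 0⟩, ⟨.ofNat 0, .ofNat 0, .ofNat 0, .ofNat 0, .ofNat 1⟩, [0,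
    27, 22, 24]⟩

def t20_29 : Simp :=
⟨1048853, [⟨⟨.negSucc 7, .ofNat 0, .ofNat 0, .ofNat 8, .ofNat 0⟩, ⟨8, 0, 0, 8, 0⟩, ⟨1, 4, 3, 3,
    1⟩⟩, ⟨⟨.ofNat 24, .ofNat 0, .negSucc 7, .ofNat 0, .ofNat 0⟩, ⟨8, 0, 8, 0, 0⟩, ⟨1, 2, 1, 1,
    1⟩⟩, ⟨⟨.negSucc 3, .negSucc 3, .ofNat 4, .ofNat 0, .ofNat 8⟩, ⟨12, 12, 4, 0, 8⟩, ⟨1, 4, 3,
    1, 3⟩⟩, ⟨⟨.negSucc 11, .ofNat 4, .negSucc 11, .ofNat 8, .ofNat 8⟩, ⟨4, 4, 4, 8, 8⟩, ⟨1, 8,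
    3, 1, 3⟩⟩, ⟨⟨.ofNat 16, .ofNat 0, .ofNat 16, .negSucc 15, .negSucc 15⟩, ⟨0, 0, 0, 0, 0⟩,
    ⟨1, 6, 3, 1, 2⟩⟩], 16, ⟨.ofNat 1, .ofNat 0, .ofNat 1, .ofNat 1, .ofNat 0⟩, ⟨.ofNat 0,
    .ofNat 2, .ofNat 0, .ofNat 0, .ofNat 1⟩, ⟨.ofNat 0, .ofNat 0, .ofNat 2, .ofNat 0, .ofNat
    1⟩, ⟨.ofNat 0, .ofNat 0, .ofNat 0, .ofNat 2, .ofNat 0⟩, ⟨.ofNat 0, .ofNat 0, .ofNat 0,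
    .ofNat 0, .ofNat 2⟩, [0, 68, 62, 32, 30, 60431, 81925, 49156, 51, 85, 81934, 44, 41, 25,
    24, 17412]⟩

def t20_30 : Simp :=
⟨1310741, [⟨⟨.negSucc 3, .ofNat 0, .ofNat 0, .ofNat 4, .ofNat 0⟩, ⟨4, 0, 0, 4, 0⟩, ⟨1, 4, 3, 3,
    1⟩⟩, ⟨⟨.ofNat 12, .ofNat 0, .negSucc 3, .ofNat 0, .ofNat 0⟩, ⟨4, 0, 4, 0, 0⟩, ⟨1, 2, 1, 1,
    1⟩⟩, ⟨⟨.negSucc 7, .ofNat 0, .negSucc 3, .ofNat 4, .ofNat 8⟩, ⟨0, 0, 4, 4, 0⟩, ⟨1, 4, 3, 1,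
    3⟩⟩, ⟨⟨.ofNat 12, .negSucc 3, .ofNat 12, .negSucc 7, .negSucc 7⟩, ⟨4, 4, 4, 0, 0⟩, ⟨1, 4,
    3, 1, 2⟩⟩, ⟨⟨.negSucc 3, .ofNat 4, .negSucc 3, .ofNat 0, .ofNat 0⟩, ⟨4, 4, 4, 0, 0⟩, ⟨1, 6,
    3, 1, 2⟩⟩], 8, ⟨.ofNat 1, .ofNat 0, .ofNat 1, .ofNat 1, .ofNat 0⟩, ⟨.ofNat 0, .ofNat 2,
    .ofNat 0, .ofNat 0, .ofNat 0⟩, ⟨.ofNat 0, .ofNat 0, .ofNat 2, .ofNat 0, .ofNat 0⟩, ⟨.ofNat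
    0, .ofNat 0, .ofNat 0, .ofNat 2, .ofNat 0⟩, ⟨.ofNat 0, .ofNat 0, .ofNat 0, .ofNat 0, .ofNat
    1⟩, [0, 32, 52229, 45061, 48, 45070, 25, 24]⟩

def t20_31 : Simp :=
⟨8517, [⟨⟨.negSucc 3, .ofNat 0, .ofNat 0, .ofNat 4, .ofNat 0⟩, ⟨4, 0, 0, 4, 0⟩, ⟨1, 4, 3, 3,
    1⟩⟩, ⟨⟨.ofNat 16, .negSucc 3, .ofNat 8, .negSucc 7, .ofNat 0⟩, ⟨0, 4, 0, 0, 0⟩, ⟨1, 2, 1,
    1, 1⟩⟩, ⟨⟨.ofNat 4, .ofNat 4, .negSucc 3, .ofNat 0, .negSucc 7⟩, ⟨4, 4, 4, 0, 0⟩, ⟨1, 4, 1,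
    1, 1⟩⟩, ⟨⟨.ofNat 0, .ofNat 0, .ofNat 4, .negSucc 3, .ofNat 0⟩, ⟨0, 0, 4, 4, 0⟩, ⟨1, 8, 3,
    1, 3⟩⟩, ⟨⟨.negSucc 7, .ofNat 0, .negSucc 7, .ofNat 8, .ofNat 8⟩, ⟨0, 0, 0, 0, 0⟩, ⟨1, 4, 1,
    1, 2⟩⟩], 8, ⟨.ofNat 1, .ofNat 0, .ofNat 1, .ofNat 1, .ofNat 0⟩, ⟨.ofNat 0, .ofNat 2, .ofNat
    0, .ofNat 0, .ofNat 0⟩, ⟨.ofNat 0, .ofNat 0, .ofNat 2, .ofNat 0, .ofNat 0⟩, ⟨.ofNat 0,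
    .ofNat 0, .ofNat 0, .ofNat 2, .ofNat 0⟩, ⟨.ofNat 0, .ofNat 0, .ofNat 0, .ofNat 0, .ofNat
    1⟩, [0, 62, 59, 27, 22, 17410, 41, 24]⟩

def t20_32 : Simp :=
⟨8725, [⟨⟨.negSucc 1, .ofNat 0, .ofNat 0, .ofNat 2, .ofNat 0⟩, ⟨2, 0, 0, 2, 0⟩, ⟨1, 4, 3, 3,
    1⟩⟩, ⟨⟨.ofNat 10, .ofNat 0, .ofNat 2, .negSucc 3, .negSucc 3⟩, ⟨2, 0, 2, 0, 0⟩, ⟨1, 2, 1,
    1, 1⟩⟩, ⟨⟨.ofNat 0, .ofNat 0, .ofNat 2, .negSucc 1, .ofNat 0⟩, ⟨0, 0, 2, 2, 0⟩, ⟨1, 4, 3,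
    1, 3⟩⟩, ⟨⟨.negSucc 3, .negSucc 3, .negSucc 3, .ofNat 8, .ofNat 8⟩, ⟨0, 0, 0, 0, 0⟩, ⟨1, 3,
    1, 1, 2⟩⟩, ⟨⟨.ofNat 0, .ofNat 4, .ofNat 0, .negSucc 3, .negSucc 3⟩, ⟨0, 0, 0, 0, 0⟩, ⟨1, 4,
    1, 1, 2⟩⟩], 4, ⟨.ofNat 1, .ofNat 0, .ofNat 1, .ofNat 1, .ofNat 0⟩, ⟨.ofNat 0, .ofNat 1,
    .ofNat 0, .ofNat 0, .ofNat 0⟩, ⟨.ofNat 0, .ofNat 0, .ofNat 2, .ofNat 0, .ofNat 0⟩, ⟨.ofNat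
    0, .ofNat 0, .ofNat 0, .ofNat 2, .ofNat 0⟩, ⟨.ofNat 0, .ofNat 0, .ofNat 0, .ofNat 0, .ofNat
    1⟩, [0, 32, 25, 24]⟩

def t20_33 : Simp :=
⟨8469, [⟨⟨.negSucc 7, .ofNat 0, .ofNat 0, .ofNat 8, .ofNat 0⟩, ⟨8, 0, 0, 8, 0⟩, ⟨1, 4, 3, 3,
    1⟩⟩, ⟨⟨.ofNat 40, .ofNat 0, .ofNat 8, .negSucc 15, .negSucc 15⟩, ⟨8, 0, 8, 0, 0⟩, ⟨1, 2, 1,
    1, 1⟩⟩, ⟨⟨.negSucc 3, .negSucc 3, .ofNat 4, .ofNat 0, .ofNat 8⟩, ⟨12, 12, 4, 0, 8⟩, ⟨1, 4,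
    3, 1, 3⟩⟩, ⟨⟨.ofNat 4, .ofNat 4, .ofNat 4, .negSucc 7, .negSucc 7⟩, ⟨4, 4, 4, 8, 8⟩, ⟨1, 8,
    3, 1, 3⟩⟩, ⟨⟨.negSucc 15, .ofNat 0, .negSucc 15, .ofNat 16, .ofNat 16⟩, ⟨0, 0, 0, 0, 0⟩,
    ⟨1, 4, 1, 1, 2⟩⟩], 16, ⟨.ofNat 1, .ofNat 0, .ofNat 1, .ofNat 1, .ofNat 0⟩, ⟨.ofNat 0,
    .ofNat 2, .ofNat 0, .ofNat 0, .ofNat 1⟩, ⟨.ofNat 0, .ofNat 0, .ofNat 2, .ofNat 0, .ofNat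
    1⟩, ⟨.ofNat 0, .ofNat 0, .ofNat 0, .ofNat 2, .ofNat 0⟩, ⟨.ofNat 0, .ofNat 0, .ofNat 0,
    .ofNat 0, .ofNat 2⟩, [0, 68, 62, 32, 30, 60431, 81925, 49156, 51, 85, 81934, 44, 41, 25,
    24, 17412]⟩

def t20_34 : Simp :=
⟨1116165, [⟨⟨.negSucc 0, .ofNat 0, .ofNat 0, .ofNat 1, .ofNat 0⟩, ⟨1, 0, 0, 1, 0⟩, ⟨1, 4, 3, 3,
    1⟩⟩, ⟨⟨.ofNat 1, .ofNat 0, .negSucc 1, .ofNat 1, .ofNat 2⟩, ⟨1, 0, 0, 1, 0⟩, ⟨1, 2, 1, 1,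
    1⟩⟩, ⟨⟨.ofNat 2, .negSucc 1, .ofNat 4, .negSucc 1, .ofNat 0⟩, ⟨0, 0, 0, 0, 0⟩, ⟨1, 3, 2, 1,
    1⟩⟩, ⟨⟨.ofNat 2, .ofNat 2, .negSucc 1, .ofNat 0, .negSucc 3⟩, ⟨0, 0, 0, 0, 0⟩, ⟨1, 4, 2, 1,
    1⟩⟩, ⟨⟨.negSucc 1, .ofNat 0, .ofNat 0, .ofNat 0, .ofNat 2⟩, ⟨0, 0, 0, 0, 0⟩, ⟨1, 6, 3, 1,
    2⟩⟩], 2, ⟨.ofNat 1, .ofNat 0, .ofNat 0, .ofNat 1, .ofNat 0⟩, ⟨.ofNat 0, .ofNat 1, .ofNat 0,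
    .ofNat 0, .ofNat 0⟩, ⟨.ofNat 0, .ofNat 0, .ofNat 1, .ofNat 0, .ofNat 0⟩, ⟨.ofNat 0, .ofNat
    0, .ofNat 0, .ofNat 2, .ofNat 0⟩, ⟨.ofNat 0, .ofNat 0, .ofNat 0, .ofNat 0, .ofNat 1⟩, [0,
    24]⟩

def t20_35 : Simp :=
⟨1312773, [⟨⟨.negSucc 1, .ofNat 0, .ofNat 0, .ofNat 2, .ofNat 0⟩, ⟨2, 0, 0, 2, 0⟩, ⟨1, 4, 3, 3,
    1⟩⟩, ⟨⟨.ofNat 2, .ofNat 0, .negSucc 3, .ofNat 2, .ofNat 4⟩, ⟨2, 0, 0, 2, 0⟩, ⟨1, 2, 1, 1,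
    1⟩⟩, ⟨⟨.ofNat 8, .ofNat 0, .ofNat 4, .negSucc 3, .negSucc 7⟩, ⟨0, 0, 0, 0, 0⟩, ⟨1, 3, 2, 1,
    1⟩⟩, ⟨⟨.negSucc 1, .negSucc 1, .ofNat 2, .ofNat 0, .ofNat 4⟩, ⟨2, 2, 2, 0, 0⟩, ⟨1, 4, 3, 1,
    2⟩⟩, ⟨⟨.negSucc 1, .ofNat 2, .negSucc 1, .ofNat 0, .ofNat 0⟩, ⟨2, 2, 2, 0, 0⟩, ⟨1, 6, 3, 1,
    2⟩⟩], 4, ⟨.ofNat 1, .ofNat 0, .ofNat 1, .ofNat 1, .ofNat 0⟩, ⟨.ofNat 0, .ofNat 1, .ofNat 1,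
    .ofNat 0, .ofNat 0⟩, ⟨.ofNat 0, .ofNat 0, .ofNat 2, .ofNat 0, .ofNat 0⟩, ⟨.ofNat 0, .ofNat
    0, .ofNat 0, .ofNat 2, .ofNat 0⟩, ⟨.ofNat 0, .ofNat 0, .ofNat 0, .ofNat 0, .ofNat 1⟩, [0,
    24, 48, 45061]⟩

/-- The cone, its triangulation and the certificates for `m = 20`. -/
def f20 : Fan where
F := [⟨.ofNat 1, .ofNat 2, .ofNat 0, .negSucc 2, .ofNat 0⟩, ⟨.negSucc 0, .ofNat 1, .ofNat 0,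
    .ofNat 0, .negSucc 0⟩, ⟨.ofNat 2, .ofNat 2, .negSucc 1, .negSucc 0, .negSucc 0⟩, ⟨.negSucc
    0, .ofNat 1, .ofNat 0, .negSucc 0, .ofNat 0⟩, ⟨.ofNat 0, .ofNat 0, .ofNat 3, .ofNat 0,
    .negSucc 0⟩, ⟨.ofNat 2, .negSucc 0, .ofNat 0, .ofNat 0, .ofNat 2⟩, ⟨.ofNat 3, .ofNat 0,
    .negSucc 0, .ofNat 0, .ofNat 0⟩, ⟨.ofNat 2, .ofNat 0, .ofNat 1, .negSucc 1, .ofNat 1⟩,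
    ⟨.negSucc 0, .ofNat 0, .ofNat 1, .ofNat 0, .ofNat 0⟩, ⟨.ofNat 0, .negSucc 0, .ofNat 2,
    .ofNat 2, .ofNat 0⟩, ⟨.ofNat 1, .ofNat 0, .ofNat 1, .ofNat 2, .negSucc 1⟩, ⟨.negSucc 0,
    .ofNat 0, .ofNat 0, .ofNat 0, .ofNat 1⟩, ⟨.ofNat 1, .ofNat 0, .negSucc 1, .ofNat 1, .ofNat
    2⟩, ⟨.negSucc 0, .ofNat 1, .negSucc 0, .ofNat 0, .ofNat 0⟩, ⟨.negSucc 0, .ofNat 0, .ofNat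
    0, .ofNat 1, .ofNat 0⟩]
V := [(⟨.ofNat 1, .ofNat 4, .ofNat 3, .ofNat 3, .ofNat 1⟩, 14573), (⟨.ofNat 1, .ofNat 10,
    .ofNat 3, .ofNat 7, .ofNat 9⟩, 1239), (⟨.ofNat 1, .ofNat 2, .ofNat 1, .ofNat 1, .ofNat 1⟩,
    26890), (⟨.ofNat 1, .ofNat 4, .ofNat 1, .ofNat 3, .ofNat 3⟩, 411), (⟨.ofNat 1, .ofNat 4,
    .ofNat 3, .ofNat 1, .ofNat 3⟩, 25670), (⟨.ofNat 1, .ofNat 20, .ofNat 3, .ofNat 7, .ofNat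
    9⟩, 1776), (⟨.ofNat 1, .ofNat 4, .ofNat 1, .ofNat 1, .ofNat 1⟩, 19232), (⟨.ofNat 1, .ofNat
    8, .ofNat 1, .ofNat 3, .ofNat 3⟩, 944), (⟨.ofNat 1, .ofNat 8, .ofNat 3, .ofNat 1, .ofNat
    3⟩, 18016), (⟨.ofNat 1, .ofNat 3, .ofNat 1, .ofNat 1, .ofNat 2⟩, 17666), (⟨.ofNat 1, .ofNat
    3, .ofNat 1, .ofNat 2, .ofNat 1⟩, 2440), (⟨.ofNat 1, .ofNat 3, .ofNat 2, .ofNat 1, .ofNat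
    1⟩, 30720), (⟨.ofNat 1, .ofNat 3, .ofNat 2, .ofNat 2, .ofNat 2⟩, 8206), (⟨.ofNat 1, .ofNat
    4, .ofNat 1, .ofNat 1, .ofNat 2⟩, 18176), (⟨.ofNat 1, .ofNat 4, .ofNat 1, .ofNat 2, .ofNat
    1⟩, 2464), (⟨.ofNat 1, .ofNat 4, .ofNat 1, .ofNat 2, .ofNat 3⟩, 1298), (⟨.ofNat 1, .ofNat
    4, .ofNat 2, .ofNat 1, .ofNat 1⟩, 22560), (⟨.ofNat 1, .ofNat 4, .ofNat 2, .ofNat 3, .ofNat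
    3⟩, 15), (⟨.ofNat 1, .ofNat 4, .ofNat 3, .ofNat 1, .ofNat 2⟩, 28736), (⟨.ofNat 1, .ofNat 6,
    .ofNat 1, .ofNat 2, .ofNat 3⟩, 1808), (⟨.ofNat 1, .ofNat 6, .ofNat 3, .ofNat 1, .ofNat 2⟩,
    20576)]
C := [⟨28, [(.ofNat 3, 2), (.ofNat 3, 3), (.ofNat 2, 4)], [(.ofNat 2, 0), (.ofNat 5, 1)],
    .ofNat 6⟩, ⟨34, [(.ofNat 1, 1), (.ofNat 1, 5)], [(.ofNat 1, 11)], .ofNat 2⟩, ⟨74, [(.ofNat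
    1, 1), (.ofNat 1, 3), (.ofNat 2, 6)], [(.ofNat 1, 2)], .ofNat 2⟩, ⟨142, [(.ofNat 1, 1),
    (.ofNat 1, 2), (.ofNat 1, 3), (.ofNat 2, 7)], [(.ofNat 2, 0)], .ofNat 2⟩, ⟨260, [(.ofNat 1,
    2), (.ofNat 2, 8)], [(.ofNat 1, 1), (.ofNat 1, 3)], .ofNat 2⟩, ⟨520, [(.ofNat 2, 3),
    (.ofNat 1, 9)], [(.ofNat 3, 8), (.ofNat 1, 13)], .ofNat 2⟩, ⟨1032, [(.ofNat 2, 3), (.ofNat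
    1, 10)], [(.ofNat 2, 1), (.ofNat 1, 8)], .ofNat 2⟩, ⟨2054, [(.ofNat 2, 1), (.ofNat 3, 2),
    (.ofNat 5, 11)], [(.ofNat 1, 0), (.ofNat 6, 13)], .ofNat 4⟩, ⟨4098, [(.ofNat 2, 1), (.ofNat
    1, 12)], [(.ofNat 2, 13), (.ofNat 1, 14)], .ofNat 2⟩, ⟨8195, [(.ofNat 2, 0), (.ofNat 1, 1),
    (.ofNat 2, 13)], [(.ofNat 1, 2), (.ofNat 5, 3)], .ofNat 2⟩, ⟨16396, [(.ofNat 1, 2), (.ofNat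
    1, 3), (.ofNat 2, 14)], [(.ofNat 1, 1), (.ofNat 2, 13)], .ofNat 2⟩, ⟨2051, [(.ofNat 1, 0),
    (.ofNat 1, 1), (.ofNat 1, 11)], [(.ofNat 3, 3)], .ofNat 2⟩, ⟨16385, [(.ofNat 1, 0), (.ofNat
    1, 14)], [(.ofNat 2, 3)], .ofNat 2⟩, ⟨2064, [(.ofNat 1, 4), (.ofNat 1, 11)], [(.ofNat 3,
    8)], .ofNat 2⟩, ⟨8208, [(.ofNat 1, 4), (.ofNat 1, 13)], [(.ofNat 1, 1), (.ofNat 2, 8)],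
    .ofNat 2⟩, ⟨16400, [(.ofNat 2, 4), (.ofNat 2, 14)], [(.ofNat 5, 8), (.ofNat 1, 10)], .ofNat
    2⟩, ⟨2178, [(.ofNat 4, 1), (.ofNat 3, 7), (.ofNat 1, 11)], [(.ofNat 2, 0), (.ofNat 3, 8)],
    .ofNat 2⟩, ⟨8322, [(.ofNat 1, 1), (.ofNat 1, 7), (.ofNat 1, 13)], [(.ofNat 2, 3)], .ofNat
    2⟩, ⟨16512, [(.ofNat 3, 7), (.ofNat 6, 14)], [(.ofNat 1, 4), (.ofNat 4, 11)], .ofNat 4⟩,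
    ⟨320, [(.ofNat 1, 6), (.ofNat 1, 8)], [], .ofNat 2⟩, ⟨514, [(.ofNat 5, 1), (.ofNat 5, 9)],
    [(.ofNat 3, 4), (.ofNat 1, 10), (.ofNat 8, 14)], .ofNat 2⟩, ⟨1281, [(.ofNat 2, 0), (.ofNat
    3, 8), (.ofNat 3, 10)], [(.ofNat 4, 1), (.ofNat 2, 4)], .ofNat 6⟩, ⟨1408, [(.ofNat 1, 7),
    (.ofNat 1, 8), (.ofNat 1, 10)], [(.ofNat 1, 4)], .ofNat 2⟩, ⟨3072, [(.ofNat 3, 10), (.ofNat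
    5, 11)], [(.ofNat 1, 4), (.ofNat 6, 14)], .ofNat 4⟩, ⟨9472, [(.ofNat 1, 8), (.ofNat 1, 10),
    (.ofNat 2, 13)], [(.ofNat 2, 1), (.ofNat 2, 14)], .ofNat 2⟩, ⟨2114, [(.ofNat 1, 1), (.ofNat
    1, 6), (.ofNat 1, 11)], [(.ofNat 1, 13)], .ofNat 2⟩, ⟨56, [(.ofNat 3, 3), (.ofNat 2, 4),
    (.ofNat 1, 5)], [(.ofNat 1, 0), (.ofNat 6, 8)], .ofNat 4⟩, ⟨88, [(.ofNat 3, 3), (.ofNat 1,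
    4), (.ofNat 3, 6)], [(.ofNat 1, 0), (.ofNat 1, 1)], .ofNat 6⟩, ⟨4112, [(.ofNat 1, 4),
    (.ofNat 1, 12)], [(.ofNat 1, 7), (.ofNat 3, 14)], .ofNat 2⟩, ⟨49, [(.ofNat 4, 0), (.ofNat
    1, 4), (.ofNat 2, 5)], [(.ofNat 6, 3), (.ofNat 3, 7)], .ofNat 8⟩, ⟨52, [(.ofNat 3, 2),
    (.ofNat 2, 4), (.ofNat 1, 5)], [(.ofNat 1, 0), (.ofNat 3, 1)], .ofNat 10⟩, ⟨1312, [(.ofNat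
    1, 5), (.ofNat 1, 8), (.ofNat 1, 10)], [(.ofNat 1, 9)], .ofNat 2⟩, ⟨513, [(.ofNat 1, 0),
    (.ofNat 1, 9)], [(.ofNat 1, 3), (.ofNat 2, 8)], .ofNat 4⟩, ⟨516, [(.ofNat 1, 2), (.ofNat 1,
    9)], [(.ofNat 1, 1), (.ofNat 1, 14)], .ofNat 4⟩, ⟨289, [(.ofNat 3, 0), (.ofNat 1, 5),
    (.ofNat 2, 8)], [(.ofNat 5, 3), (.ofNat 2, 7)], .ofNat 4⟩, ⟨2305, [(.ofNat 2, 0), (.ofNat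
    1, 8), (.ofNat 1, 11)], [(.ofNat 4, 3), (.ofNat 1, 7)], .ofNat 2⟩, ⟨4352, [(.ofNat 5, 8),
    (.ofNat 2, 12)], [(.ofNat 1, 10), (.ofNat 6, 11)], .ofNat 2⟩, ⟨8449, [(.ofNat 1, 0),
    (.ofNat 1, 8), (.ofNat 1, 13)], [(.ofNat 3, 3)], .ofNat 2⟩, ⟨296, [(.ofNat 2, 3), (.ofNat
    2, 5), (.ofNat 1, 8)], [(.ofNat 1, 7), (.ofNat 3, 11)], .ofNat 2⟩, ⟨2688, [(.ofNat 1, 7),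
    (.ofNat 1, 9), (.ofNat 1, 11)], [(.ofNat 1, 5), (.ofNat 3, 8)], .ofNat 2⟩, ⟨8576, [(.ofNat
    3, 7), (.ofNat 1, 8), (.ofNat 4, 13)], [(.ofNat 2, 0), (.ofNat 3, 11)], .ofNat 2⟩, ⟨8480,
    [(.ofNat 1, 5), (.ofNat 1, 8), (.ofNat 1, 13)], [(.ofNat 2, 11)], .ofNat 2⟩, ⟨8704,
    [(.ofNat 2, 9), (.ofNat 4, 13)], [(.ofNat 1, 0), (.ofNat 7, 14)], .ofNat 2⟩, ⟨2624,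
    [(.ofNat 6, 6), (.ofNat 1, 9), (.ofNat 6, 11)], [(.ofNat 1, 5), (.ofNat 2, 12)], .ofNat 8⟩,
    ⟨4608, [(.ofNat 1, 9), (.ofNat 1, 12)], [(.ofNat 1, 5), (.ofNat 3, 14)], .ofNat 2⟩, ⟨1057,
    [(.ofNat 2, 0), (.ofNat 1, 5), (.ofNat 3, 10)], [(.ofNat 3, 1), (.ofNat 1, 4)], .ofNat 10⟩,
    ⟨1060, [(.ofNat 14, 2), (.ofNat 26, 5), (.ofNat 10, 10)], [(.ofNat 1, 0), (.ofNat 9, 12)],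
    .ofNat 80⟩, ⟨5120, [(.ofNat 1, 10), (.ofNat 1, 12)], [(.ofNat 1, 6), (.ofNat 3, 14)],
    .ofNat 2⟩, ⟨9248, [(.ofNat 1, 5), (.ofNat 1, 10), (.ofNat 1, 13)], [(.ofNat 2, 14)], .ofNat
    4⟩, ⟨9217, [(.ofNat 1, 0), (.ofNat 1, 10), (.ofNat 1, 13)], [(.ofNat 2, 1), (.ofNat 1, 3)],
    .ofNat 4⟩, ⟨9344, [(.ofNat 11, 7), (.ofNat 8, 10), (.ofNat 4, 13)], [(.ofNat 2, 0), (.ofNat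
    5, 4)], .ofNat 24⟩, ⟨16420, [(.ofNat 4, 2), (.ofNat 6, 5), (.ofNat 5, 14)], [(.ofNat 1, 0),
    (.ofNat 4, 12)], .ofNat 10⟩, ⟨18436, [(.ofNat 1, 2), (.ofNat 1, 11), (.ofNat 1, 14)],
    [(.ofNat 2, 13)], .ofNat 2⟩, ⟨20484, [(.ofNat 2, 2), (.ofNat 1, 12), (.ofNat 1, 14)],
    [(.ofNat 2, 6), (.ofNat 4, 13)], .ofNat 2⟩, ⟨16424, [(.ofNat 1, 3), (.ofNat 1, 5), (.ofNat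
    1, 14)], [(.ofNat 2, 11)], .ofNat 2⟩, ⟨18496, [(.ofNat 2, 6), (.ofNat 2, 11), (.ofNat 1,
    14)], [(.ofNat 1, 12)], .ofNat 2⟩, ⟨24608, [(.ofNat 2, 5), (.ofNat 2, 13), (.ofNat 1, 14)],
    [(.ofNat 2, 11), (.ofNat 1, 12)], .ofNat 2⟩, ⟨16456, [(.ofNat 1, 3), (.ofNat 1, 6), (.ofNat
    1, 14)], [(.ofNat 1, 13)], .ofNat 2⟩, ⟨20488, [(.ofNat 2, 3), (.ofNat 1, 12), (.ofNat 1,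
    14)], [(.ofNat 2, 11), (.ofNat 2, 13)], .ofNat 2⟩]
T := [t20_0, t20_1, t20_2, t20_3, t20_4, t20_5, t20_6, t20_7, t20_8, t20_9, t20_10, t20_11,
    t20_12, t20_13, t20_14, t20_15, t20_16, t20_17, t20_18, t20_19, t20_20, t20_21, t20_22,
    t20_23, t20_24, t20_25, t20_26, t20_27, t20_28, t20_29, t20_30, t20_31, t20_32, t20_33,
    t20_34, t20_35]
UN := [⟨1, 2, 1, 1, 1⟩, ⟨1, 3, 1, 2, 1⟩, ⟨1, 3, 1, 1, 2⟩, ⟨1, 3, 2, 2, 2⟩, ⟨1, 3, 2, 1, 1⟩, ⟨1,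
    4, 1, 2, 1⟩, ⟨1, 4, 1, 3, 3⟩, ⟨1, 4, 1, 1, 1⟩, ⟨1, 4, 1, 2, 3⟩, ⟨1, 4, 1, 1, 2⟩, ⟨1, 4, 2,
    3, 3⟩, ⟨1, 4, 2, 1, 1⟩, ⟨1, 4, 3, 3, 1⟩, ⟨1, 4, 3, 1, 2⟩, ⟨1, 4, 3, 1, 3⟩, ⟨1, 6, 1, 2, 3⟩,
    ⟨1, 6, 3, 1, 2⟩, ⟨1, 8, 1, 3, 3⟩, ⟨1, 8, 3, 1, 3⟩, ⟨1, 10, 3, 7, 9⟩, ⟨1, 20, 3, 7, 9⟩, ⟨1,
    3, 1, 1, 1⟩, ⟨1, 3, 1, 2, 2⟩, ⟨1, 3, 2, 2, 1⟩, ⟨1, 3, 2, 1, 2⟩, ⟨1, 4, 1, 2, 2⟩, ⟨1, 4, 2,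
    2, 1⟩, ⟨1, 4, 2, 3, 2⟩, ⟨1, 4, 2, 2, 2⟩, ⟨1, 4, 2, 1, 2⟩, ⟨1, 4, 2, 2, 3⟩, ⟨1, 4, 3, 2, 2⟩,
    ⟨1, 5, 1, 2, 2⟩, ⟨1, 5, 1, 3, 3⟩, ⟨1, 5, 2, 3, 2⟩, ⟨1, 5, 1, 2, 3⟩, ⟨1, 5, 2, 3, 3⟩, ⟨1, 5,
    2, 2, 2⟩, ⟨1, 5, 3, 3, 2⟩, ⟨1, 5, 2, 2, 3⟩, ⟨1, 5, 2, 1, 2⟩, ⟨1, 5, 2, 3, 4⟩, ⟨1, 5, 3, 3,
    3⟩, ⟨1, 5, 3, 2, 2⟩, ⟨1, 5, 3, 2, 3⟩, ⟨1, 6, 1, 3, 3⟩, ⟨1, 6, 1, 2, 2⟩, ⟨1, 5, 3, 1, 2⟩,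
    ⟨1, 5, 3, 2, 4⟩, ⟨1, 6, 2, 3, 2⟩, ⟨1, 5, 3, 1, 3⟩, ⟨1, 6, 2, 2, 2⟩, ⟨1, 6, 2, 4, 4⟩, ⟨1, 6,
    2, 3, 3⟩, ⟨1, 6, 2, 3, 4⟩, ⟨1, 6, 2, 2, 3⟩, ⟨1, 6, 3, 4, 3⟩, ⟨1, 6, 2, 4, 5⟩, ⟨1, 6, 2, 1,
    2⟩, ⟨1, 6, 3, 3, 2⟩, ⟨1, 6, 3, 3, 3⟩, ⟨1, 6, 3, 2, 2⟩, ⟨1, 6, 3, 4, 4⟩, ⟨1, 6, 3, 3, 4⟩,
    ⟨1, 6, 3, 2, 3⟩, ⟨1, 7, 1, 3, 3⟩, ⟨1, 6, 3, 2, 4⟩, ⟨1, 6, 3, 1, 3⟩, ⟨1, 6, 3, 3, 5⟩, ⟨1, 7,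
    2, 4, 4⟩, ⟨1, 7, 2, 3, 3⟩, ⟨1, 7, 3, 4, 3⟩, ⟨1, 7, 2, 2, 3⟩, ⟨1, 7, 2, 5, 6⟩, ⟨1, 7, 2, 4,
    5⟩, ⟨1, 7, 2, 3, 4⟩, ⟨1, 7, 3, 5, 5⟩, ⟨1, 7, 3, 4, 4⟩, ⟨1, 7, 3, 3, 3⟩, ⟨1, 7, 3, 2, 3⟩,
    ⟨1, 7, 3, 3, 4⟩, ⟨1, 7, 3, 4, 5⟩, ⟨1, 7, 3, 3, 5⟩, ⟨1, 7, 3, 2, 4⟩, ⟨1, 7, 3, 1, 3⟩, ⟨1, 7,
    3, 4, 6⟩, ⟨1, 8, 2, 3, 3⟩, ⟨1, 8, 2, 4, 4⟩, ⟨1, 8, 3, 4, 3⟩, ⟨1, 8, 2, 4, 5⟩, ⟨1, 8, 2, 3,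
    4⟩, ⟨1, 8, 2, 2, 3⟩, ⟨1, 8, 2, 5, 6⟩, ⟨1, 8, 3, 4, 4⟩, ⟨1, 8, 3, 3, 3⟩, ⟨1, 8, 3, 5, 5⟩,
    ⟨1, 8, 3, 2, 3⟩, ⟨1, 8, 3, 3, 4⟩, ⟨1, 8, 3, 4, 5⟩, ⟨1, 8, 3, 5, 6⟩, ⟨1, 8, 3, 2, 4⟩, ⟨1, 8,
    3, 5, 7⟩, ⟨1, 8, 3, 4, 6⟩, ⟨1, 8, 3, 3, 5⟩, ⟨1, 9, 2, 4, 4⟩, ⟨1, 9, 2, 3, 4⟩, ⟨1, 9, 2, 5,
    6⟩, ⟨1, 9, 2, 4, 5⟩, ⟨1, 9, 3, 5, 5⟩, ⟨1, 9, 3, 4, 4⟩, ⟨1, 9, 3, 3, 4⟩, ⟨1, 9, 3, 6, 7⟩,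
    ⟨1, 9, 3, 5, 6⟩, ⟨1, 9, 3, 4, 5⟩, ⟨1, 9, 3, 4, 6⟩, ⟨1, 9, 3, 3, 5⟩, ⟨1, 9, 3, 6, 8⟩, ⟨1, 9,
    3, 5, 7⟩, ⟨1, 9, 3, 2, 4⟩, ⟨1, 10, 2, 4, 4⟩, ⟨1, 10, 2, 3, 4⟩, ⟨1, 10, 2, 5, 6⟩, ⟨1, 10, 2,
    4, 5⟩, ⟨1, 10, 3, 5, 5⟩, ⟨1, 10, 3, 4, 4⟩, ⟨1, 10, 3, 4, 5⟩, ⟨1, 10, 3, 5, 6⟩, ⟨1, 10, 3,
    3, 4⟩, ⟨1, 10, 3, 6, 7⟩, ⟨1, 10, 3, 3, 5⟩, ⟨1, 10, 3, 6, 8⟩, ⟨1, 10, 3, 4, 6⟩, ⟨1, 10, 3,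
    2, 4⟩, ⟨1, 10, 3, 5, 7⟩, ⟨1, 11, 2, 4, 5⟩, ⟨1, 11, 2, 5, 6⟩, ⟨1, 11, 3, 5, 5⟩, ⟨1, 11, 3,
    6, 7⟩, ⟨1, 11, 3, 4, 5⟩, ⟨1, 11, 3, 5, 6⟩, ⟨1, 11, 3, 4, 6⟩, ⟨1, 11, 3, 7, 9⟩, ⟨1, 11, 3,
    6, 8⟩, ⟨1, 11, 3, 3, 5⟩, ⟨1, 11, 3, 5, 7⟩, ⟨1, 12, 2, 5, 6⟩, ⟨1, 12, 2, 4, 5⟩, ⟨1, 12, 3,
    5, 5⟩, ⟨1, 12, 3, 5, 6⟩, ⟨1, 12, 3, 4, 5⟩, ⟨1, 12, 3, 6, 7⟩, ⟨1, 12, 3, 4, 6⟩, ⟨1, 12, 3,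
    6, 8⟩, ⟨1, 12, 3, 3, 5⟩, ⟨1, 12, 3, 5, 7⟩, ⟨1, 12, 3, 7, 9⟩, ⟨1, 13, 2, 5, 6⟩, ⟨1, 13, 3,
    5, 6⟩, ⟨1, 13, 3, 6, 7⟩, ⟨1, 13, 3, 6, 8⟩, ⟨1, 13, 3, 5, 7⟩, ⟨1, 13, 3, 7, 9⟩, ⟨1, 13, 3,
    4, 6⟩, ⟨1, 14, 2, 5, 6⟩, ⟨1, 14, 3, 6, 7⟩, ⟨1, 14, 3, 5, 6⟩, ⟨1, 14, 3, 4, 6⟩, ⟨1, 14, 3,
    7, 9⟩, ⟨1, 14, 3, 6, 8⟩, ⟨1, 14, 3, 5, 7⟩, ⟨1, 15, 3, 6, 7⟩, ⟨1, 15, 3, 6, 8⟩, ⟨1, 15, 3,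
    5, 7⟩, ⟨1, 15, 3, 7, 9⟩, ⟨1, 16, 3, 6, 7⟩, ⟨1, 16, 3, 5, 7⟩, ⟨1, 16, 3, 6, 8⟩, ⟨1, 16, 3,
    7, 9⟩, ⟨1, 17, 3, 6, 8⟩, ⟨1, 17, 3, 7, 9⟩, ⟨1, 18, 3, 7, 9⟩, ⟨1, 18, 3, 6, 8⟩, ⟨1, 19, 3,
    7, 9⟩]
hx := 3
hy := 7
hz := 9
hl := 20
bx := (.ofNat 2, [(.ofNat 1, ⟨.ofNat 3, .ofNat 0, .negSucc 0, .ofNat 0, .ofNat 0⟩), (.ofNat 3,
    ⟨.negSucc 0, .ofNat 0, .ofNat 1, .ofNat 0, .ofNat 0⟩)])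
bx' := (.ofNat 1, [(.ofNat 1, ⟨.ofNat 3, .ofNat 0, .negSucc 0, .ofNat 0, .ofNat 0⟩)])
bY := (.ofNat 2, [(.ofNat 1, ⟨.ofNat 3, .ofNat 0, .negSucc 0, .ofNat 0, .ofNat 0⟩), (.ofNat 1,
    ⟨.negSucc 0, .ofNat 0, .ofNat 1, .ofNat 0, .ofNat 0⟩), (.ofNat 2, ⟨.negSucc 0, .ofNat 0,
    .ofNat 0, .ofNat 1, .ofNat 0⟩)])
bY' := (.ofNat 2, [(.ofNat 1, ⟨.ofNat 0, .ofNat 0, .ofNat 3, .ofNat 0, .negSucc 0⟩), (.ofNat 4,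
    ⟨.ofNat 3, .ofNat 0, .negSucc 0, .ofNat 0, .ofNat 0⟩), (.ofNat 1, ⟨.ofNat 2, .ofNat 0,
    .ofNat 1, .negSucc 1, .ofNat 1⟩)])
bz := (.ofNat 2, [(.ofNat 1, ⟨.negSucc 0, .ofNat 1, .ofNat 0, .ofNat 0, .negSucc 0⟩), (.ofNat
    1, ⟨.ofNat 2, .negSucc 0, .ofNat 0, .ofNat 0, .ofNat 2⟩), (.ofNat 1, ⟨.negSucc 0, .ofNat 0,
    .ofNat 0, .ofNat 0, .ofNat 1⟩)])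
bz' := (.ofNat 1, [(.ofNat 1, ⟨.ofNat 0, .ofNat 0, .ofNat 3, .ofNat 0, .negSucc 0⟩), (.ofNat 3,
    ⟨.ofNat 3, .ofNat 0, .negSucc 0, .ofNat 0, .ofNat 0⟩)])
bl := (.ofNat 1, [(.ofNat 2, ⟨.negSucc 0, .ofNat 1, .ofNat 0, .ofNat 0, .negSucc 0⟩), (.ofNat
    1, ⟨.ofNat 2, .negSucc 0, .ofNat 0, .ofNat 0, .ofNat 2⟩)])
bl' := (.ofNat 1, [(.ofNat 2, ⟨.ofNat 0, .ofNat 0, .ofNat 3, .ofNat 0, .negSucc 0⟩), (.ofNat 1,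
    ⟨.ofNat 2, .negSucc 0, .ofNat 0, .ofNat 0, .ofNat 2⟩), (.ofNat 6, ⟨.ofNat 3, .ofNat 0,
    .negSucc 0, .ofNat 0, .ofNat 0⟩)])
r := 5

/-- Partitions of `20` that realize the lattice points of level one. -/
def r20 : List (List ℕ) :=
[[10, 10], [5, 7, 8], [2, 3, 15], [4, 5, 11], [5, 6, 9], [1, 5, 7, 7], [2, 2, 8, 8], [3, 3, 7,
    7], [1, 2, 2, 15], [1, 1, 3, 15], [2, 2, 5, 11], [3, 3, 5, 9], [5, 5, 5, 5], [3, 5, 6, 6],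
    [4, 4, 6, 6], [1, 1, 1, 1, 1, 15], [3, 3, 3, 3, 3, 5], [1, 1, 1, 1, 1, 1, 7, 7], [1, 1, 3,
    3, 3, 3, 3, 3], [2, 2, 2, 2, 2, 2, 2, 2, 2, 2], [1, 1, 1, 1, 1, 1, 1, 1, 1, 1, 1, 1, 1, 1,
    1, 1, 1, 1, 1, 1], [6, 7, 7], [4, 8, 8], [5, 5, 10], [6, 6, 8], [2, 4, 7, 7], [3, 5, 5, 7],
    [2, 5, 5, 8], [4, 4, 5, 7], [3, 4, 6, 7], [4, 4, 4, 8], [4, 5, 5, 6], [1, 2, 3, 7, 7], [2,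
    2, 2, 7, 7], [1, 2, 5, 5, 7], [1, 1, 1, 2, 15], [2, 2, 4, 5, 7], [2, 3, 3, 5, 7], [2, 3, 5,
    5, 5], [2, 3, 4, 4, 7], [3, 3, 3, 4, 7], [2, 2, 4, 4, 8], [2, 4, 4, 5, 5], [3, 3, 4, 5, 5],
    [3, 4, 4, 4, 5], [1, 1, 2, 2, 7, 7], [1, 1, 1, 3, 7, 7], [3, 3, 3, 5, 6], [4, 4, 4, 4, 4],
    [1, 1, 1, 5, 5, 7], [3, 3, 4, 4, 6], [1, 1, 3, 3, 5, 7], [2, 2, 2, 2, 5, 7], [1, 2, 2, 3,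
    5, 7], [2, 2, 2, 3, 4, 7], [2, 2, 3, 3, 3, 7], [1, 2, 2, 5, 5, 5], [2, 2, 2, 2, 4, 8], [1,
    3, 3, 3, 3, 7], [1, 1, 3, 5, 5, 5], [2, 2, 3, 3, 5, 5], [1, 3, 3, 3, 5, 5], [2, 2, 2, 4, 5,
    5], [2, 2, 3, 4, 4, 5], [2, 3, 3, 3, 4, 5], [1, 1, 1, 1, 2, 7, 7], [2, 3, 3, 4, 4, 4], [3,
    3, 3, 3, 4, 4], [2, 2, 4, 4, 4, 4], [1, 1, 2, 2, 2, 5, 7], [1, 1, 1, 2, 3, 5, 7], [1, 1, 1,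
    2, 5, 5, 5], [1, 1, 2, 3, 3, 3, 7], [2, 2, 2, 2, 2, 2, 8], [2, 2, 2, 2, 2, 3, 7], [1, 2, 2,
    2, 3, 3, 7], [2, 2, 2, 2, 2, 5, 5], [1, 2, 2, 2, 3, 5, 5], [1, 1, 2, 3, 3, 5, 5], [1, 2, 3,
    3, 3, 3, 5], [2, 2, 2, 3, 3, 3, 5], [2, 2, 2, 2, 3, 4, 5], [2, 2, 2, 3, 3, 4, 4], [2, 2, 3,
    3, 3, 3, 4], [2, 3, 3, 3, 3, 3, 3], [2, 2, 2, 2, 4, 4, 4], [1, 1, 1, 1, 1, 3, 5, 7], [1, 1,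
    1, 1, 2, 2, 5, 7], [1, 1, 1, 1, 1, 5, 5, 5], [1, 1, 2, 2, 2, 2, 3, 7], [1, 1, 1, 2, 2, 3,
    3, 7], [1, 1, 1, 1, 3, 3, 3, 7], [1, 2, 2, 2, 2, 2, 2, 7], [1, 1, 1, 2, 2, 3, 5, 5], [1, 1,
    1, 1, 3, 3, 5, 5], [1, 1, 2, 2, 2, 2, 5, 5], [1, 1, 1, 3, 3, 3, 3, 5], [1, 1, 2, 2, 3, 3,
    3, 5], [1, 2, 2, 2, 2, 3, 3, 5], [2, 2, 2, 2, 2, 2, 3, 5], [1, 2, 2, 3, 3, 3, 3, 3], [2, 2,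
    2, 2, 2, 2, 4, 4], [2, 2, 2, 2, 2, 3, 3, 4], [2, 2, 2, 2, 3, 3, 3, 3], [1, 1, 1, 1, 1, 1,
    2, 5, 7], [1, 1, 1, 1, 1, 2, 3, 3, 7], [1, 1, 1, 2, 2, 2, 2, 2, 7], [1, 1, 1, 1, 2, 2, 2,
    3, 7], [1, 1, 1, 1, 2, 2, 2, 5, 5], [1, 1, 1, 1, 1, 2, 3, 5, 5], [1, 1, 1, 1, 2, 3, 3, 3,
    5], [1, 2, 2, 2, 2, 2, 2, 2, 5], [1, 1, 2, 2, 2, 2, 2, 3, 5], [1, 1, 1, 2, 2, 2, 3, 3, 5],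
    [1, 2, 2, 2, 2, 2, 3, 3, 3], [1, 1, 2, 2, 2, 3, 3, 3, 3], [2, 2, 2, 2, 2, 2, 2, 2, 4], [2,
    2, 2, 2, 2, 2, 2, 3, 3], [1, 1, 1, 2, 3, 3, 3, 3, 3], [1, 1, 1, 1, 1, 1, 1, 1, 5, 7], [1,
    1, 1, 1, 1, 1, 1, 3, 3, 7], [1, 1, 1, 1, 1, 2, 2, 2, 2, 7], [1, 1, 1, 1, 1, 1, 2, 2, 3, 7],
    [1, 1, 1, 1, 1, 1, 2, 2, 5, 5], [1, 1, 1, 1, 1, 1, 1, 3, 5, 5], [1, 1, 1, 1, 1, 2, 2, 3, 3,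
    5], [1, 1, 1, 1, 2, 2, 2, 2, 3, 5], [1, 1, 1, 1, 1, 1, 3, 3, 3, 5], [1, 1, 1, 2, 2, 2, 2,
    2, 2, 5], [1, 1, 1, 1, 2, 2, 3, 3, 3, 3], [1, 2, 2, 2, 2, 2, 2, 2, 2, 3], [1, 1, 1, 2, 2,
    2, 2, 3, 3, 3], [1, 1, 1, 1, 1, 3, 3, 3, 3, 3], [1, 1, 2, 2, 2, 2, 2, 2, 3, 3], [1, 1, 1,
    1, 1, 1, 1, 1, 2, 3, 7], [1, 1, 1, 1, 1, 1, 1, 2, 2, 2, 7], [1, 1, 1, 1, 1, 1, 1, 1, 2, 5,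
    5], [1, 1, 1, 1, 1, 2, 2, 2, 2, 2, 5], [1, 1, 1, 1, 1, 1, 1, 2, 3, 3, 5], [1, 1, 1, 1, 1,
    1, 2, 2, 2, 3, 5], [1, 1, 1, 1, 1, 2, 2, 2, 3, 3, 3], [1, 1, 2, 2, 2, 2, 2, 2, 2, 2, 2],
    [1, 1, 1, 2, 2, 2, 2, 2, 2, 2, 3], [1, 1, 1, 1, 1, 1, 2, 3, 3, 3, 3], [1, 1, 1, 1, 2, 2, 2,
    2, 2, 3, 3], [1, 1, 1, 1, 1, 1, 1, 1, 1, 2, 2, 7], [1, 1, 1, 1, 1, 1, 1, 1, 1, 1, 3, 7],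
    [1, 1, 1, 1, 1, 1, 1, 1, 1, 1, 5, 5], [1, 1, 1, 1, 1, 1, 1, 1, 2, 2, 3, 5], [1, 1, 1, 1, 1,
    1, 1, 1, 1, 3, 3, 5], [1, 1, 1, 1, 1, 1, 1, 2, 2, 2, 2, 5], [1, 1, 1, 1, 1, 1, 1, 2, 2, 3,
    3, 3], [1, 1, 1, 1, 1, 2, 2, 2, 2, 2, 2, 3], [1, 1, 1, 1, 1, 1, 1, 1, 3, 3, 3, 3], [1, 1,
    1, 1, 1, 1, 2, 2, 2, 2, 3, 3], [1, 1, 1, 1, 2, 2, 2, 2, 2, 2, 2, 2], [1, 1, 1, 1, 1, 1, 1,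
    1, 1, 1, 1, 2, 7], [1, 1, 1, 1, 1, 1, 1, 1, 1, 1, 2, 3, 5], [1, 1, 1, 1, 1, 1, 1, 1, 1, 2,
    2, 2, 5], [1, 1, 1, 1, 1, 1, 1, 2, 2, 2, 2, 2, 3], [1, 1, 1, 1, 1, 1, 1, 1, 2, 2, 2, 3, 3],
    [1, 1, 1, 1, 1, 1, 2, 2, 2, 2, 2, 2, 2], [1, 1, 1, 1, 1, 1, 1, 1, 1, 2, 3, 3, 3], [1, 1, 1,
    1, 1, 1, 1, 1, 1, 1, 1, 1, 1, 7], [1, 1, 1, 1, 1, 1, 1, 1, 1, 1, 1, 2, 2, 5], [1, 1, 1, 1,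
    1, 1, 1, 1, 1, 1, 1, 1, 3, 5], [1, 1, 1, 1, 1, 1, 1, 1, 1, 1, 1, 3, 3, 3], [1, 1, 1, 1, 1,
    1, 1, 1, 2, 2, 2, 2, 2, 2], [1, 1, 1, 1, 1, 1, 1, 1, 1, 2, 2, 2, 2, 3], [1, 1, 1, 1, 1, 1,
    1, 1, 1, 1, 2, 2, 3, 3], [1, 1, 1, 1, 1, 1, 1, 1, 1, 1, 1, 1, 1, 2, 5], [1, 1, 1, 1, 1, 1,
    1, 1, 1, 1, 1, 2, 2, 2, 3], [1, 1, 1, 1, 1, 1, 1, 1, 1, 1, 1, 1, 2, 3, 3], [1, 1, 1, 1, 1,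
    1, 1, 1, 1, 1, 2, 2, 2, 2, 2], [1, 1, 1, 1, 1, 1, 1, 1, 1, 1, 1, 1, 1, 1, 1, 5], [1, 1, 1,
    1, 1, 1, 1, 1, 1, 1, 1, 1, 1, 1, 3, 3], [1, 1, 1, 1, 1, 1, 1, 1, 1, 1, 1, 1, 1, 2, 2, 3],
    [1, 1, 1, 1, 1, 1, 1, 1, 1, 1, 1, 1, 2, 2, 2, 2], [1, 1, 1, 1, 1, 1, 1, 1, 1, 1, 1, 1, 1,
    1, 1, 2, 3], [1, 1, 1, 1, 1, 1, 1, 1, 1, 1, 1, 1, 1, 1, 2, 2, 2], [1, 1, 1, 1, 1, 1, 1, 1,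
    1, 1, 1, 1, 1, 1, 1, 1, 2, 2], [1, 1, 1, 1, 1, 1, 1, 1, 1, 1, 1, 1, 1, 1, 1, 1, 1, 3], [1,
    1, 1, 1, 1, 1, 1, 1, 1, 1, 1, 1, 1, 1, 1, 1, 1, 1, 2]]

theorem f20_A : f20.okA = true := by decide +kernel

theorem f20_B : f20.okB = true := by decide +kernel

theorem f20_good : good f20.F f20.UN 20 3 7 9 r20 = true := by
  decide +kernel

end Pool.Agent.Helper75.Poly
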