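import Pool.Agent.Helper75.Zss.Deg

/-!
# Fermat hypersurfaces of degree 3: the finite check
-/

namespace Pool.Agent.Helper75.Poly

def t3_0 : Simp :=
⟨3, [⟨⟨.ofNat 3, .negSucc 0, .ofNat 0, .ofNat 0, .ofNat 0⟩, ⟨0, 0, 0, 0, 0⟩, ⟨1, 2, 0, 0, 0⟩⟩,
    ⟨⟨.negSucc 1, .ofNat 1, .ofNat 0, .ofNat 0, .ofNat 0⟩, ⟨0, 0, 0, 0, 0⟩, ⟨1, 3, 0, 0, 0⟩⟩],
    1, ⟨.ofNat 1, .ofNat 0, .ofNat 0, .ofNat 0, .ofNat 0⟩, ⟨.ofNat 0, .ofNat 1, .ofNat 0,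
    .ofNat 0, .ofNat 0⟩, ⟨.ofNat 0, .ofNat 0, .ofNat 1, .ofNat 0, .ofNat 0⟩, ⟨.ofNat 0, .ofNat
    0, .ofNat 0, .ofNat 1, .ofNat 0⟩, ⟨.ofNat 0, .ofNat 0, .ofNat 0, .ofNat 0, .ofNat 1⟩, [0]⟩

/-- The cone, its triangulation and the certificates for `m = 3`. -/
def f3 : Fan where
F := [⟨.ofNat 3, .negSucc 0, .ofNat 0, .ofNat 0, .ofNat 0⟩, ⟨.negSucc 1, .ofNat 1, .ofNat 0,
    .ofNat 0, .ofNat 0⟩, ⟨.ofNat 0, .ofNat 0, .ofNat 1, .ofNat 0, .ofNat 0⟩, ⟨.ofNat 0, .ofNat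
    0, .negSucc 0, .ofNat 0, .ofNat 0⟩, ⟨.ofNat 0, .ofNat 0, .ofNat 0, .ofNat 1, .ofNat 0⟩,
    ⟨.ofNat 0, .ofNat 0, .ofNat 0, .negSucc 0, .ofNat 0⟩, ⟨.ofNat 0, .ofNat 0, .ofNat 0, .ofNat
    0, .ofNat 1⟩, ⟨.ofNat 0, .ofNat 0, .ofNat 0, .ofNat 0, .negSucc 0⟩]
V := [(⟨.ofNat 1, .ofNat 2, .ofNat 0, .ofNat 0, .ofNat 0⟩, 254), (⟨.ofNat 1, .ofNat 3, .ofNat
    0, .ofNat 0, .ofNat 0⟩, 253)]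
C := [⟨3, [(.ofNat 1, 0), (.ofNat 1, 1)], [], .ofNat 1⟩]
T := [t3_0]
UN := [⟨1, 2, 0, 0, 0⟩, ⟨1, 3, 0, 0, 0⟩]
hx := 0
hy := 0
hz := 0
hl := 3
bx := (.ofNat 1, [(.ofNat 1, ⟨.ofNat 0, .ofNat 0, .ofNat 1, .ofNat 0, .ofNat 0⟩)])
bx' := (.ofNat 1, [(.ofNat 1, ⟨.ofNat 0, .ofNat 0, .negSucc 0, .ofNat 0, .ofNat 0⟩)])
bY := (.ofNat 1, [(.ofNat 1, ⟨.ofNat 0, .ofNat 0, .ofNat 0, .ofNat 1, .ofNat 0⟩)])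
bY' := (.ofNat 1, [(.ofNat 1, ⟨.ofNat 0, .ofNat 0, .ofNat 0, .negSucc 0, .ofNat 0⟩)])
bz := (.ofNat 1, [(.ofNat 1, ⟨.ofNat 0, .ofNat 0, .ofNat 0, .ofNat 0, .ofNat 1⟩)])
bz' := (.ofNat 1, [(.ofNat 1, ⟨.ofNat 0, .ofNat 0, .ofNat 0, .ofNat 0, .negSucc 0⟩)])
bl := (.ofNat 1, [(.ofNat 2, ⟨.ofNat 3, .negSucc 0, .ofNat 0, .ofNat 0, .ofNat 0⟩), (.ofNat 3,
    ⟨.negSucc 1, .ofNat 1, .ofNat 0, .ofNat 0, .ofNat 0⟩)])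
bl' := (.ofNat 1, [(.ofNat 1, ⟨.ofNat 3, .negSucc 0, .ofNat 0, .ofNat 0, .ofNat 0⟩)])
r := 2

/-- Partitions of `3` that realize the lattice points of level one. -/
def r3 : List (List ℕ) :=
[[1, 2], [1, 1, 1]]

theorem f3_A : f3.okA = true := by decide +kernel

theorem f3_B : f3.okB = true := by decide +kernel

theorem f3_good : good f3.F f3.UN 3 0 0 0 r3 = true := by
  decide +kernel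

end Pool.Agent.Helper75.Poly
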