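import Pool.Agent.Helper75.Zss.Deg

/-!
# Fermat hypersurfaces of degree 4: the finite check
-/

namespace Pool.Agent.Helper75.Poly

def t4_0 : Simp :=
⟨3, [⟨⟨.ofNat 4, .negSucc 0, .ofNat 0, .ofNat 0, .ofNat 0⟩, ⟨0, 1, 0, 0, 0⟩, ⟨1, 2, 0, 0, 0⟩⟩,
    ⟨⟨.negSucc 1, .ofNat 1, .ofNat 0, .ofNat 0, .ofNat 0⟩, ⟨0, 1, 0, 0, 0⟩, ⟨1, 4, 0, 0, 0⟩⟩],
    2, ⟨.ofNat 1, .ofNat 0, .ofNat 0, .ofNat 0, .ofNat 0⟩, ⟨.ofNat 0, .ofNat 2, .ofNat 0,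
    .ofNat 0, .ofNat 0⟩, ⟨.ofNat 0, .ofNat 0, .ofNat 1, .ofNat 0, .ofNat 0⟩, ⟨.ofNat 0, .ofNat
    0, .ofNat 0, .ofNat 1, .ofNat 0⟩, ⟨.ofNat 0, .ofNat 0, .ofNat 0, .ofNat 0, .ofNat 1⟩, [0,
    3]⟩

/-- The cone, its triangulation and the certificates for `m = 4`. -/
def f4 : Fan where
F := [⟨.negSucc 1, .ofNat 1, .ofNat 0, .ofNat 0, .ofNat 0⟩, ⟨.ofNat 4, .negSucc 0, .ofNat 0,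
    .ofNat 0, .ofNat 0⟩, ⟨.ofNat 0, .ofNat 0, .ofNat 1, .ofNat 0, .ofNat 0⟩, ⟨.ofNat 0, .ofNat
    0, .negSucc 0, .ofNat 0, .ofNat 0⟩, ⟨.ofNat 0, .ofNat 0, .ofNat 0, .ofNat 1, .ofNat 0⟩,
    ⟨.ofNat 0, .ofNat 0, .ofNat 0, .negSucc 0, .ofNat 0⟩, ⟨.ofNat 0, .ofNat 0, .ofNat 0, .ofNat
    0, .ofNat 1⟩, ⟨.ofNat 0, .ofNat 0, .ofNat 0, .ofNat 0, .negSucc 0⟩]
V := [(⟨.ofNat 1, .ofNat 2, .ofNat 0, .ofNat 0, .ofNat 0⟩, 253), (⟨.ofNat 1, .ofNat 4, .ofNat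
    0, .ofNat 0, .ofNat 0⟩, 254)]
C := [⟨3, [(.ofNat 1, 0), (.ofNat 1, 1)], [], .ofNat 2⟩]
T := [t4_0]
UN := [⟨1, 2, 0, 0, 0⟩, ⟨1, 4, 0, 0, 0⟩, ⟨1, 3, 0, 0, 0⟩]
hx := 0
hy := 0
hz := 0
hl := 4
bx := (.ofNat 1, [(.ofNat 1, ⟨.ofNat 0, .ofNat 0, .ofNat 1, .ofNat 0, .ofNat 0⟩)])
bx' := (.ofNat 1, [(.ofNat 1, ⟨.ofNat 0, .ofNat 0, .negSucc 0, .ofNat 0, .ofNat 0⟩)])
bY := (.ofNat 1, [(.ofNat 1, ⟨.ofNat 0, .ofNat 0, .ofNat 0, .ofNat 1, .ofNat 0⟩)])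
bY' := (.ofNat 1, [(.ofNat 1, ⟨.ofNat 0, .ofNat 0, .ofNat 0, .negSucc 0, .ofNat 0⟩)])
bz := (.ofNat 1, [(.ofNat 1, ⟨.ofNat 0, .ofNat 0, .ofNat 0, .ofNat 0, .ofNat 1⟩)])
bz' := (.ofNat 1, [(.ofNat 1, ⟨.ofNat 0, .ofNat 0, .ofNat 0, .ofNat 0, .negSucc 0⟩)])
bl := (.ofNat 1, [(.ofNat 2, ⟨.negSucc 1, .ofNat 1, .ofNat 0, .ofNat 0, .ofNat 0⟩), (.ofNat 1,
    ⟨.ofNat 4, .negSucc 0, .ofNat 0, .ofNat 0, .ofNat 0⟩)])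
bl' := (.ofNat 1, [(.ofNat 1, ⟨.ofNat 4, .negSucc 0, .ofNat 0, .ofNat 0, .ofNat 0⟩)])
r := 2

/-- Partitions of `4` that realize the lattice points of level one. -/
def r4 : List (List ℕ) :=
[[2, 2], [1, 1, 1, 1], [1, 1, 2]]

theorem f4_A : f4.okA = true := by decide +kernel

theorem f4_B : f4.okB = true := by decide +kernel

theorem f4_good : good f4.F f4.UN 4 0 0 0 r4 = true := by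
  decide +kernel

end Pool.Agent.Helper75.Poly
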