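import Pool.Agent.Helper75.Zss.Deg

/-!
# Fermat hypersurfaces of degree 5: the finite check
-/

namespace Pool.Agent.Helper75.Poly

def t5_0 : Simp :=
⟨13, [⟨⟨.ofNat 4, .ofNat 0, .negSucc 1, .ofNat 0, .ofNat 0⟩, ⟨0, 0, 0, 0, 0⟩, ⟨1, 2, 1, 0, 0⟩⟩,
    ⟨⟨.negSucc 0, .negSucc 0, .ofNat 3, .ofNat 0, .ofNat 0⟩, ⟨1, 1, 1, 0, 0⟩, ⟨1, 3, 2, 0, 0⟩⟩,
    ⟨⟨.negSucc 0, .ofNat 1, .negSucc 0, .ofNat 0, .ofNat 0⟩, ⟨1, 1, 1, 0, 0⟩, ⟨1, 5, 2, 0,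
    0⟩⟩], 2, ⟨.ofNat 1, .ofNat 0, .ofNat 1, .ofNat 0, .ofNat 0⟩, ⟨.ofNat 0, .ofNat 1, .ofNat 1,
    .ofNat 0, .ofNat 0⟩, ⟨.ofNat 0, .ofNat 0, .ofNat 2, .ofNat 0, .ofNat 0⟩, ⟨.ofNat 0, .ofNat
    0, .ofNat 0, .ofNat 1, .ofNat 0⟩, ⟨.ofNat 0, .ofNat 0, .ofNat 0, .ofNat 0, .ofNat 1⟩, [0,
    5]⟩

def t5_1 : Simp :=
⟨11, [⟨⟨.ofNat 1, .negSucc 0, .ofNat 2, .ofNat 0, .ofNat 0⟩, ⟨0, 0, 0, 0, 0⟩, ⟨1, 2, 1, 0, 0⟩⟩,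
    ⟨⟨.ofNat 1, .ofNat 1, .negSucc 2, .ofNat 0, .ofNat 0⟩, ⟨0, 0, 0, 0, 0⟩, ⟨1, 3, 1, 0, 0⟩⟩,
    ⟨⟨.negSucc 0, .ofNat 0, .ofNat 1, .ofNat 0, .ofNat 0⟩, ⟨0, 0, 0, 0, 0⟩, ⟨1, 5, 2, 0, 0⟩⟩],
    1, ⟨.ofNat 1, .ofNat 0, .ofNat 0, .ofNat 0, .ofNat 0⟩, ⟨.ofNat 0, .ofNat 1, .ofNat 0,
    .ofNat 0, .ofNat 0⟩, ⟨.ofNat 0, .ofNat 0, .ofNat 1, .ofNat 0, .ofNat 0⟩, ⟨.ofNat 0, .ofNat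
    0, .ofNat 0, .ofNat 1, .ofNat 0⟩, ⟨.ofNat 0, .ofNat 0, .ofNat 0, .ofNat 0, .ofNat 1⟩, [0]⟩

/-- The cone, its triangulation and the certificates for `m = 5`. -/
def f5 : Fan where
F := [⟨.negSucc 0, .ofNat 1, .negSucc 0, .ofNat 0, .ofNat 0⟩, ⟨.ofNat 2, .ofNat 0, .negSucc 0,
    .ofNat 0, .ofNat 0⟩, ⟨.negSucc 0, .ofNat 0, .ofNat 1, .ofNat 0, .ofNat 0⟩, ⟨.ofNat 1,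
    .negSucc 0, .ofNat 2, .ofNat 0, .ofNat 0⟩, ⟨.ofNat 0, .ofNat 0, .ofNat 0, .ofNat 1, .ofNat
    0⟩, ⟨.ofNat 0, .ofNat 0, .ofNat 0, .negSucc 0, .ofNat 0⟩, ⟨.ofNat 0, .ofNat 0, .ofNat 0,
    .ofNat 0, .ofNat 1⟩, ⟨.ofNat 0, .ofNat 0, .ofNat 0, .ofNat 0, .negSucc 0⟩]
V := [(⟨.ofNat 1, .ofNat 2, .ofNat 1, .ofNat 0, .ofNat 0⟩, 245), (⟨.ofNat 1, .ofNat 3, .ofNat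
    1, .ofNat 0, .ofNat 0⟩, 252), (⟨.ofNat 1, .ofNat 3, .ofNat 2, .ofNat 0, .ofNat 0⟩, 243),
    (⟨.ofNat 1, .ofNat 5, .ofNat 2, .ofNat 0, .ofNat 0⟩, 250)]
C := [⟨6, [(.ofNat 1, 1), (.ofNat 1, 2)], [], .ofNat 1⟩, ⟨9, [(.ofNat 1, 0), (.ofNat 1, 3)],
    [(.ofNat 1, 2)], .ofNat 1⟩]
T := [t5_0, t5_1]
UN := [⟨1, 2, 1, 0, 0⟩, ⟨1, 3, 1, 0, 0⟩, ⟨1, 3, 2, 0, 0⟩, ⟨1, 5, 2, 0, 0⟩, ⟨1, 4, 2, 0, 0⟩]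
hx := 2
hy := 0
hz := 0
hl := 5
bx := (.ofNat 1, [(.ofNat 1, ⟨.negSucc 0, .ofNat 1, .negSucc 0, .ofNat 0, .ofNat 0⟩), (.ofNat
    1, ⟨.ofNat 1, .negSucc 0, .ofNat 2, .ofNat 0, .ofNat 0⟩)])
bx' := (.ofNat 1, [(.ofNat 1, ⟨.ofNat 2, .ofNat 0, .negSucc 0, .ofNat 0, .ofNat 0⟩)])
bY := (.ofNat 1, [(.ofNat 1, ⟨.ofNat 0, .ofNat 0, .ofNat 0, .ofNat 1, .ofNat 0⟩)])
bY' := (.ofNat 1, [(.ofNat 1, ⟨.ofNat 0, .ofNat 0, .ofNat 0, .negSucc 0, .ofNat 0⟩)])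
bz := (.ofNat 1, [(.ofNat 1, ⟨.ofNat 0, .ofNat 0, .ofNat 0, .ofNat 0, .ofNat 1⟩)])
bz' := (.ofNat 1, [(.ofNat 1, ⟨.ofNat 0, .ofNat 0, .ofNat 0, .ofNat 0, .negSucc 0⟩)])
bl := (.ofNat 1, [(.ofNat 1, ⟨.negSucc 0, .ofNat 1, .negSucc 0, .ofNat 0, .ofNat 0⟩), (.ofNat
    2, ⟨.ofNat 2, .ofNat 0, .negSucc 0, .ofNat 0, .ofNat 0⟩), (.ofNat 3, ⟨.negSucc 0, .ofNat 0,
    .ofNat 1, .ofNat 0, .ofNat 0⟩)])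
bl' := (.ofNat 1, [(.ofNat 2, ⟨.ofNat 2, .ofNat 0, .negSucc 0, .ofNat 0, .ofNat 0⟩), (.ofNat 1,
    ⟨.ofNat 1, .negSucc 0, .ofNat 2, .ofNat 0, .ofNat 0⟩)])
r := 3

/-- Partitions of `5` that realize the lattice points of level one. -/
def r5 : List (List ℕ) :=
[[2, 3], [1, 1, 3], [1, 2, 2], [1, 1, 1, 1, 1], [1, 1, 1, 2]]

theorem f5_A : f5.okA = true := by decide +kernel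

theorem f5_B : f5.okB = true := by decide +kernel

theorem f5_good : good f5.F f5.UN 5 2 0 0 r5 = true := by
  decide +kernel

end Pool.Agent.Helper75.Poly
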