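import Pool.Agent.Helper75.Zss.Deg

/-!
# Fermat hypersurfaces of degree 6: the finite check
-/

namespace Pool.Agent.Helper75.Poly

def t6_0 : Simp :=
⟨3, [⟨⟨.ofNat 6, .negSucc 0, .ofNat 0, .ofNat 0, .ofNat 0⟩, ⟨2, 3, 0, 0, 0⟩, ⟨1, 2, 0, 0, 0⟩⟩,
    ⟨⟨.negSucc 1, .ofNat 1, .ofNat 0, .ofNat 0, .ofNat 0⟩, ⟨2, 1, 0, 0, 0⟩, ⟨1, 6, 0, 0, 0⟩⟩],
    4, ⟨.ofNat 1, .ofNat 2, .ofNat 0, .ofNat 0, .ofNat 0⟩, ⟨.ofNat 0, .ofNat 4, .ofNat 0,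
    .ofNat 0, .ofNat 0⟩, ⟨.ofNat 0, .ofNat 0, .ofNat 1, .ofNat 0, .ofNat 0⟩, ⟨.ofNat 0, .ofNat
    0, .ofNat 0, .ofNat 1, .ofNat 0⟩, ⟨.ofNat 0, .ofNat 0, .ofNat 0, .ofNat 0, .ofNat 1⟩, [0,
    5, 4, 3]⟩

/-- The cone, its triangulation and the certificates for `m = 6`. -/
def f6 : Fan where
F := [⟨.negSucc 1, .ofNat 1, .ofNat 0, .ofNat 0, .ofNat 0⟩, ⟨.ofNat 6, .negSucc 0, .ofNat 0,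
    .ofNat 0, .ofNat 0⟩, ⟨.ofNat 0, .ofNat 0, .ofNat 1, .ofNat 0, .ofNat 0⟩, ⟨.ofNat 0, .ofNat
    0, .negSucc 0, .ofNat 0, .ofNat 0⟩, ⟨.ofNat 0, .ofNat 0, .ofNat 0, .ofNat 1, .ofNat 0⟩,
    ⟨.ofNat 0, .ofNat 0, .ofNat 0, .negSucc 0, .ofNat 0⟩, ⟨.ofNat 0, .ofNat 0, .ofNat 0, .ofNat
    0, .ofNat 1⟩, ⟨.ofNat 0, .ofNat 0, .ofNat 0, .ofNat 0, .negSucc 0⟩]
V := [(⟨.ofNat 1, .ofNat 2, .ofNat 0, .ofNat 0, .ofNat 0⟩, 253), (⟨.ofNat 1, .ofNat 6, .ofNat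
    0, .ofNat 0, .ofNat 0⟩, 254)]
C := [⟨3, [(.ofNat 1, 0), (.ofNat 1, 1)], [], .ofNat 4⟩]
T := [t6_0]
UN := [⟨1, 6, 0, 0, 0⟩, ⟨1, 2, 0, 0, 0⟩, ⟨1, 5, 0, 0, 0⟩, ⟨1, 4, 0, 0, 0⟩, ⟨1, 3, 0, 0, 0⟩]
hx := 0
hy := 0
hz := 0
hl := 6
bx := (.ofNat 1, [(.ofNat 1, ⟨.ofNat 0, .ofNat 0, .ofNat 1, .ofNat 0, .ofNat 0⟩)])
bx' := (.ofNat 1, [(.ofNat 1, ⟨.ofNat 0, .ofNat 0, .negSucc 0, .ofNat 0, .ofNat 0⟩)])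
bY := (.ofNat 1, [(.ofNat 1, ⟨.ofNat 0, .ofNat 0, .ofNat 0, .ofNat 1, .ofNat 0⟩)])
bY' := (.ofNat 1, [(.ofNat 1, ⟨.ofNat 0, .ofNat 0, .ofNat 0, .negSucc 0, .ofNat 0⟩)])
bz := (.ofNat 1, [(.ofNat 1, ⟨.ofNat 0, .ofNat 0, .ofNat 0, .ofNat 0, .ofNat 1⟩)])
bz' := (.ofNat 1, [(.ofNat 1, ⟨.ofNat 0, .ofNat 0, .ofNat 0, .ofNat 0, .negSucc 0⟩)])
bl := (.ofNat 2, [(.ofNat 3, ⟨.negSucc 1, .ofNat 1, .ofNat 0, .ofNat 0, .ofNat 0⟩), (.ofNat 1,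
    ⟨.ofNat 6, .negSucc 0, .ofNat 0, .ofNat 0, .ofNat 0⟩)])
bl' := (.ofNat 1, [(.ofNat 1, ⟨.ofNat 6, .negSucc 0, .ofNat 0, .ofNat 0, .ofNat 0⟩)])
r := 2

/-- Partitions of `6` that realize the lattice points of level one. -/
def r6 : List (List ℕ) :=
[[1, 1, 1, 1, 1, 1], [3, 3], [1, 1, 1, 1, 2], [1, 1, 2, 2], [2, 2, 2]]

theorem f6_A : f6.okA = true := by decide +kernel

theorem f6_B : f6.okB = true := by decide +kernel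

theorem f6_good : good f6.F f6.UN 6 0 0 0 r6 = true := by
  decide +kernel

end Pool.Agent.Helper75.Poly
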