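import Pool.Agent.Helper75.Zss.Deg

/-!
# Fermat hypersurfaces of degree 7: the finite check
-/

namespace Pool.Agent.Helper75.Poly

def t7_0 : Simp :=
⟨89, [⟨⟨.ofNat 1, .ofNat 0, .ofNat 1, .negSucc 0, .ofNat 0⟩, ⟨0, 0, 0, 0, 0⟩, ⟨1, 2, 1, 1, 0⟩⟩,
    ⟨⟨.negSucc 0, .ofNat 0, .ofNat 1, .ofNat 0, .ofNat 0⟩, ⟨0, 0, 0, 0, 0⟩, ⟨1, 7, 2, 3, 0⟩⟩,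
    ⟨⟨.negSucc 0, .negSucc 0, .ofNat 1, .ofNat 2, .ofNat 0⟩, ⟨0, 0, 0, 0, 0⟩, ⟨1, 3, 1, 2, 0⟩⟩,
    ⟨⟨.ofNat 2, .ofNat 1, .negSucc 2, .negSucc 0, .ofNat 0⟩, ⟨0, 0, 0, 0, 0⟩, ⟨1, 4, 1, 2,
    0⟩⟩], 1, ⟨.ofNat 1, .ofNat 0, .ofNat 0, .ofNat 0, .ofNat 0⟩, ⟨.ofNat 0, .ofNat 1, .ofNat 0,
    .ofNat 0, .ofNat 0⟩, ⟨.ofNat 0, .ofNat 0, .ofNat 1, .ofNat 0, .ofNat 0⟩, ⟨.ofNat 0, .ofNat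
    0, .ofNat 0, .ofNat 1, .ofNat 0⟩, ⟨.ofNat 0, .ofNat 0, .ofNat 0, .ofNat 0, .ofNat 1⟩, [0]⟩

def t7_1 : Simp :=
⟨153, [⟨⟨.ofNat 3, .ofNat 0, .ofNat 3, .negSucc 2, .ofNat 0⟩, ⟨0, 0, 0, 0, 0⟩, ⟨1, 2, 1, 1,
    0⟩⟩, ⟨⟨.negSucc 0, .ofNat 1, .ofNat 0, .negSucc 0, .ofNat 0⟩, ⟨2, 1, 0, 2, 0⟩, ⟨1, 7, 2, 3,
    0⟩⟩, ⟨⟨.ofNat 3, .ofNat 0, .negSucc 5, .ofNat 3, .ofNat 0⟩, ⟨0, 0, 0, 0, 0⟩, ⟨1, 3, 1, 2,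
    0⟩⟩, ⟨⟨.negSucc 1, .negSucc 0, .ofNat 3, .ofNat 1, .ofNat 0⟩, ⟨1, 2, 0, 1, 0⟩, ⟨1, 4, 2, 3,
    0⟩⟩], 3, ⟨.ofNat 1, .ofNat 0, .ofNat 0, .ofNat 2, .ofNat 0⟩, ⟨.ofNat 0, .ofNat 1, .ofNat 0,
    .ofNat 1, .ofNat 0⟩, ⟨.ofNat 0, .ofNat 0, .ofNat 1, .ofNat 0, .ofNat 0⟩, ⟨.ofNat 0, .ofNat
    0, .ofNat 0, .ofNat 3, .ofNat 0⟩, ⟨.ofNat 0, .ofNat 0, .ofNat 0, .ofNat 0, .ofNat 1⟩, [0,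
    12, 11]⟩

def t7_2 : Simp :=
⟨75, [⟨⟨.ofNat 0, .negSucc 0, .ofNat 2, .ofNat 1, .ofNat 0⟩, ⟨0, 0, 0, 0, 0⟩, ⟨1, 2, 1, 1, 0⟩⟩,
    ⟨⟨.ofNat 1, .ofNat 1, .negSucc 0, .negSucc 1, .ofNat 0⟩, ⟨0, 0, 0, 0, 0⟩, ⟨1, 3, 1, 1, 0⟩⟩,
    ⟨⟨.negSucc 0, .ofNat 0, .ofNat 1, .ofNat 0, .ofNat 0⟩, ⟨0, 0, 0, 0, 0⟩, ⟨1, 7, 2, 3, 0⟩⟩,
    ⟨⟨.ofNat 1, .ofNat 0, .negSucc 1, .ofNat 1, .ofNat 0⟩, ⟨0, 0, 0, 0, 0⟩, ⟨1, 4, 1, 2, 0⟩⟩],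
    1, ⟨.ofNat 1, .ofNat 0, .ofNat 0, .ofNat 0, .ofNat 0⟩, ⟨.ofNat 0, .ofNat 1, .ofNat 0,
    .ofNat 0, .ofNat 0⟩, ⟨.ofNat 0, .ofNat 0, .ofNat 1, .ofNat 0, .ofNat 0⟩, ⟨.ofNat 0, .ofNat
    0, .ofNat 0, .ofNat 1, .ofNat 0⟩, ⟨.ofNat 0, .ofNat 0, .ofNat 0, .ofNat 0, .ofNat 1⟩, [0]⟩

def t7_3 : Simp :=
⟨15, [⟨⟨.ofNat 2, .negSucc 1, .ofNat 0, .ofNat 4, .ofNat 0⟩, ⟨0, 0, 0, 0, 0⟩, ⟨1, 2, 1, 1, 0⟩⟩,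
    ⟨⟨.ofNat 2, .ofNat 2, .negSucc 1, .negSucc 3, .ofNat 0⟩, ⟨0, 0, 0, 0, 0⟩, ⟨1, 3, 1, 1, 0⟩⟩,
    ⟨⟨.negSucc 0, .ofNat 0, .ofNat 2, .negSucc 0, .ofNat 0⟩, ⟨1, 0, 0, 1, 0⟩, ⟨1, 3, 2, 1, 0⟩⟩,
    ⟨⟨.negSucc 0, .ofNat 0, .ofNat 0, .ofNat 1, .ofNat 0⟩, ⟨1, 0, 0, 1, 0⟩, ⟨1, 7, 2, 3, 0⟩⟩],
    2, ⟨.ofNat 1, .ofNat 0, .ofNat 0, .ofNat 1, .ofNat 0⟩, ⟨.ofNat 0, .ofNat 1, .ofNat 0,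
    .ofNat 0, .ofNat 0⟩, ⟨.ofNat 0, .ofNat 0, .ofNat 1, .ofNat 0, .ofNat 0⟩, ⟨.ofNat 0, .ofNat
    0, .ofNat 0, .ofNat 2, .ofNat 0⟩, ⟨.ofNat 0, .ofNat 0, .ofNat 0, .ofNat 0, .ofNat 1⟩, [0,
    9]⟩

def t7_4 : Simp :=
⟨141, [⟨⟨.ofNat 12, .ofNat 0, .negSucc 5, .ofNat 0, .ofNat 0⟩, ⟨0, 0, 0, 0, 0⟩, ⟨1, 2, 1, 1,
    0⟩⟩, ⟨⟨.negSucc 2, .ofNat 0, .ofNat 6, .negSucc 2, .ofNat 0⟩, ⟨3, 0, 0, 3, 0⟩, ⟨1, 3, 2, 1,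
    0⟩⟩, ⟨⟨.negSucc 0, .ofNat 2, .negSucc 1, .negSucc 0, .ofNat 0⟩, ⟨5, 2, 4, 5, 0⟩, ⟨1, 7, 2,
    3, 0⟩⟩, ⟨⟨.negSucc 1, .negSucc 1, .ofNat 2, .ofNat 4, .ofNat 0⟩, ⟨4, 4, 2, 4, 0⟩, ⟨1, 4, 2,
    3, 0⟩⟩], 6, ⟨.ofNat 1, .ofNat 0, .ofNat 0, .ofNat 5, .ofNat 0⟩, ⟨.ofNat 0, .ofNat 1, .ofNat
    0, .ofNat 2, .ofNat 0⟩, ⟨.ofNat 0, .ofNat 0, .ofNat 1, .ofNat 4, .ofNat 0⟩, ⟨.ofNat 0,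
    .ofNat 0, .ofNat 0, .ofNat 6, .ofNat 0⟩, ⟨.ofNat 0, .ofNat 0, .ofNat 0, .ofNat 0, .ofNat
    1⟩, [0, 8198, 12, 9, 11, 10]⟩

def t7_5 : Simp :=
⟨165, [⟨⟨.ofNat 2, .ofNat 0, .negSucc 0, .ofNat 0, .ofNat 0⟩, ⟨0, 0, 0, 0, 0⟩, ⟨1, 2, 1, 1,
    0⟩⟩, ⟨⟨.negSucc 0, .ofNat 1, .ofNat 0, .negSucc 0, .ofNat 0⟩, ⟨0, 0, 0, 0, 0⟩, ⟨1, 3, 2, 1,
    0⟩⟩, ⟨⟨.ofNat 1, .negSucc 1, .ofNat 2, .ofNat 1, .ofNat 0⟩, ⟨0, 0, 0, 0, 0⟩, ⟨1, 3, 2, 2,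
    0⟩⟩, ⟨⟨.negSucc 0, .ofNat 1, .negSucc 0, .ofNat 0, .ofNat 0⟩, ⟨0, 0, 0, 0, 0⟩, ⟨1, 4, 2, 3,
    0⟩⟩], 1, ⟨.ofNat 1, .ofNat 0, .ofNat 0, .ofNat 0, .ofNat 0⟩, ⟨.ofNat 0, .ofNat 1, .ofNat 0,
    .ofNat 0, .ofNat 0⟩, ⟨.ofNat 0, .ofNat 0, .ofNat 1, .ofNat 0, .ofNat 0⟩, ⟨.ofNat 0, .ofNat
    0, .ofNat 0, .ofNat 1, .ofNat 0⟩, ⟨.ofNat 0, .ofNat 0, .ofNat 0, .ofNat 0, .ofNat 1⟩, [0]⟩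

/-- The cone, its triangulation and the certificates for `m = 7`. -/
def f7 : Fan where
F := [⟨.negSucc 0, .ofNat 0, .ofNat 1, .ofNat 0, .ofNat 0⟩, ⟨.ofNat 1, .ofNat 0, .ofNat 1,
    .negSucc 0, .ofNat 0⟩, ⟨.ofNat 0, .negSucc 0, .ofNat 2, .ofNat 1, .ofNat 0⟩, ⟨.negSucc 0,
    .ofNat 1, .ofNat 0, .negSucc 0, .ofNat 0⟩, ⟨.ofNat 1, .negSucc 0, .ofNat 0, .ofNat 2,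
    .ofNat 0⟩, ⟨.ofNat 2, .ofNat 0, .negSucc 0, .ofNat 0, .ofNat 0⟩, ⟨.negSucc 0, .ofNat 0,
    .ofNat 0, .ofNat 1, .ofNat 0⟩, ⟨.negSucc 0, .ofNat 1, .negSucc 0, .ofNat 0, .ofNat 0⟩,
    ⟨.ofNat 0, .ofNat 0, .ofNat 0, .ofNat 0, .ofNat 1⟩, ⟨.ofNat 0, .ofNat 0, .ofNat 0, .ofNat
    0, .negSucc 0⟩]
V := [(⟨.ofNat 1, .ofNat 2, .ofNat 1, .ofNat 1, .ofNat 0⟩, 969), (⟨.ofNat 1, .ofNat 3, .ofNat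
    1, .ofNat 1, .ofNat 0⟩, 853), (⟨.ofNat 1, .ofNat 3, .ofNat 2, .ofNat 1, .ofNat 0⟩, 1008),
    (⟨.ofNat 1, .ofNat 7, .ofNat 2, .ofNat 3, .ofNat 0⟩, 822), (⟨.ofNat 1, .ofNat 3, .ofNat 1,
    .ofNat 2, .ofNat 0⟩, 779), (⟨.ofNat 1, .ofNat 3, .ofNat 2, .ofNat 2, .ofNat 0⟩, 936),
    (⟨.ofNat 1, .ofNat 4, .ofNat 1, .ofNat 2, .ofNat 0⟩, 775), (⟨.ofNat 1, .ofNat 4, .ofNat 2,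
    .ofNat 3, .ofNat 0⟩, 810)]
C := [⟨12, [(.ofNat 1, 2), (.ofNat 1, 3)], [(.ofNat 2, 0)], .ofNat 1⟩, ⟨19, [(.ofNat 1, 0),
    (.ofNat 1, 1), (.ofNat 1, 4)], [(.ofNat 1, 2)], .ofNat 1⟩, ⟨33, [(.ofNat 1, 0), (.ofNat 1,
    5)], [], .ofNat 1⟩, ⟨66, [(.ofNat 1, 1), (.ofNat 1, 6)], [(.ofNat 1, 0)], .ofNat 1⟩, ⟨132,
    [(.ofNat 2, 2), (.ofNat 1, 7)], [(.ofNat 3, 0), (.ofNat 1, 4)], .ofNat 1⟩, ⟨130, [(.ofNat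
    1, 1), (.ofNat 1, 7)], [(.ofNat 1, 3)], .ofNat 1⟩, ⟨24, [(.ofNat 1, 3), (.ofNat 1, 4)],
    [(.ofNat 1, 6)], .ofNat 1⟩, ⟨100, [(.ofNat 1, 2), (.ofNat 2, 5), (.ofNat 1, 6)], [(.ofNat
    1, 4)], .ofNat 2⟩, ⟨145, [(.ofNat 1, 0), (.ofNat 1, 4), (.ofNat 1, 7)], [(.ofNat 2, 6)],
    .ofNat 1⟩, ⟨104, [(.ofNat 1, 3), (.ofNat 1, 5), (.ofNat 1, 6)], [(.ofNat 1, 7)], .ofNat 1⟩]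
T := [t7_0, t7_1, t7_2, t7_3, t7_4, t7_5]
UN := [⟨1, 3, 1, 1, 0⟩, ⟨1, 2, 1, 1, 0⟩, ⟨1, 3, 1, 2, 0⟩, ⟨1, 4, 1, 2, 0⟩, ⟨1, 3, 2, 1, 0⟩, ⟨1,
    3, 2, 2, 0⟩, ⟨1, 4, 2, 3, 0⟩, ⟨1, 7, 2, 3, 0⟩, ⟨1, 5, 2, 2, 0⟩, ⟨1, 4, 2, 2, 0⟩, ⟨1, 5, 2,
    3, 0⟩, ⟨1, 6, 2, 3, 0⟩]
hx := 2
hy := 3
hz := 0
hl := 7
bx := (.ofNat 1, [(.ofNat 2, ⟨.negSucc 0, .ofNat 0, .ofNat 1, .ofNat 0, .ofNat 0⟩), (.ofNat 1,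
    ⟨.ofNat 2, .ofNat 0, .negSucc 0, .ofNat 0, .ofNat 0⟩)])
bx' := (.ofNat 1, [(.ofNat 1, ⟨.ofNat 2, .ofNat 0, .negSucc 0, .ofNat 0, .ofNat 0⟩)])
bY := (.ofNat 1, [(.ofNat 1, ⟨.negSucc 0, .ofNat 1, .ofNat 0, .negSucc 0, .ofNat 0⟩), (.ofNat
    1, ⟨.ofNat 1, .negSucc 0, .ofNat 0, .ofNat 2, .ofNat 0⟩)])
bY' := (.ofNat 1, [(.ofNat 1, ⟨.ofNat 1, .ofNat 0, .ofNat 1, .negSucc 0, .ofNat 0⟩), (.ofNat 1,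
    ⟨.ofNat 2, .ofNat 0, .negSucc 0, .ofNat 0, .ofNat 0⟩)])
bz := (.ofNat 1, [(.ofNat 1, ⟨.ofNat 0, .ofNat 0, .ofNat 0, .ofNat 0, .ofNat 1⟩)])
bz' := (.ofNat 1, [(.ofNat 1, ⟨.ofNat 0, .ofNat 0, .ofNat 0, .ofNat 0, .negSucc 0⟩)])
bl := (.ofNat 1, [(.ofNat 3, ⟨.negSucc 0, .ofNat 0, .ofNat 1, .ofNat 0, .ofNat 0⟩), (.ofNat 2,
    ⟨.ofNat 2, .ofNat 0, .negSucc 0, .ofNat 0, .ofNat 0⟩), (.ofNat 1, ⟨.negSucc 0, .ofNat 1,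
    .negSucc 0, .ofNat 0, .ofNat 0⟩)])
bl' := (.ofNat 1, [(.ofNat 1, ⟨.ofNat 1, .ofNat 0, .ofNat 1, .negSucc 0, .ofNat 0⟩), (.ofNat 1,
    ⟨.ofNat 0, .negSucc 0, .ofNat 2, .ofNat 1, .ofNat 0⟩), (.ofNat 3, ⟨.ofNat 2, .ofNat 0,
    .negSucc 0, .ofNat 0, .ofNat 0⟩)])
r := 4

/-- Partitions of `7` that realize the lattice points of level one. -/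
def r7 : List (List ℕ) :=
[[1, 1, 5], [3, 4], [1, 2, 4], [1, 1, 1, 4], [1, 3, 3], [2, 2, 3], [1, 2, 2, 2], [1, 1, 1, 1,
    1, 1, 1], [1, 1, 1, 1, 3], [1, 1, 2, 3], [1, 1, 1, 2, 2], [1, 1, 1, 1, 1, 2]]

theorem f7_A : f7.okA = true := by decide +kernel

theorem f7_B : f7.okB = true := by decide +kernel

theorem f7_good : good f7.F f7.UN 7 2 3 0 r7 = true := by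
  decide +kernel

end Pool.Agent.Helper75.Poly
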