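import Pool.Agent.Helper75.Zss.Deg

/-!
# Fermat hypersurfaces of degree 8: the finite check
-/

namespace Pool.Agent.Helper75.Poly

def t8_0 : Simp :=
⟨13, [⟨⟨.ofNat 12, .ofNat 0, .negSucc 3, .ofNat 0, .ofNat 0⟩, ⟨4, 0, 4, 0, 0⟩, ⟨1, 2, 1, 0,
    0⟩⟩, ⟨⟨.negSucc 1, .negSucc 1, .ofNat 6, .ofNat 0, .ofNat 0⟩, ⟨6, 6, 6, 0, 0⟩, ⟨1, 4, 3, 0,
    0⟩⟩, ⟨⟨.negSucc 1, .ofNat 2, .negSucc 1, .ofNat 0, .ofNat 0⟩, ⟨6, 2, 6, 0, 0⟩, ⟨1, 8, 3, 0,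
    0⟩⟩], 8, ⟨.ofNat 1, .ofNat 0, .ofNat 3, .ofNat 0, .ofNat 0⟩, ⟨.ofNat 0, .ofNat 2, .ofNat 2,
    .ofNat 0, .ofNat 0⟩, ⟨.ofNat 0, .ofNat 0, .ofNat 4, .ofNat 0, .ofNat 0⟩, ⟨.ofNat 0, .ofNat
    0, .ofNat 0, .ofNat 1, .ofNat 0⟩, ⟨.ofNat 0, .ofNat 0, .ofNat 0, .ofNat 0, .ofNat 1⟩, [0,
    9220, 11, 6, 10, 7, 12, 8]⟩

def t8_1 : Simp :=
⟨11, [⟨⟨.ofNat 4, .negSucc 1, .ofNat 4, .ofNat 0, .ofNat 0⟩, ⟨0, 2, 0, 0, 0⟩, ⟨1, 2, 1, 0, 0⟩⟩,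
    ⟨⟨.ofNat 2, .ofNat 2, .negSucc 5, .ofNat 0, .ofNat 0⟩, ⟨2, 2, 2, 0, 0⟩, ⟨1, 4, 1, 0, 0⟩⟩,
    ⟨⟨.negSucc 1, .ofNat 0, .ofNat 2, .ofNat 0, .ofNat 0⟩, ⟨2, 0, 2, 0, 0⟩, ⟨1, 8, 3, 0, 0⟩⟩],
    4, ⟨.ofNat 1, .ofNat 0, .ofNat 1, .ofNat 0, .ofNat 0⟩, ⟨.ofNat 0, .ofNat 2, .ofNat 0,
    .ofNat 0, .ofNat 0⟩, ⟨.ofNat 0, .ofNat 0, .ofNat 2, .ofNat 0, .ofNat 0⟩, ⟨.ofNat 0, .ofNat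
    0, .ofNat 0, .ofNat 1, .ofNat 0⟩, ⟨.ofNat 0, .ofNat 0, .ofNat 0, .ofNat 0, .ofNat 1⟩, [0,
    9, 5, 8]⟩

/-- The cone, its triangulation and the certificates for `m = 8`. -/
def f8 : Fan where
F := [⟨.ofNat 3, .ofNat 0, .negSucc 0, .ofNat 0, .ofNat 0⟩, ⟨.ofNat 2, .negSucc 0, .ofNat 2,
    .ofNat 0, .ofNat 0⟩, ⟨.negSucc 0, .ofNat 1, .negSucc 0, .ofNat 0, .ofNat 0⟩, ⟨.negSucc 0,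
    .ofNat 0, .ofNat 1, .ofNat 0, .ofNat 0⟩, ⟨.ofNat 0, .ofNat 0, .ofNat 0, .ofNat 1, .ofNat
    0⟩, ⟨.ofNat 0, .ofNat 0, .ofNat 0, .negSucc 0, .ofNat 0⟩, ⟨.ofNat 0, .ofNat 0, .ofNat 0,
    .ofNat 0, .ofNat 1⟩, ⟨.ofNat 0, .ofNat 0, .ofNat 0, .ofNat 0, .negSucc 0⟩]
V := [(⟨.ofNat 1, .ofNat 2, .ofNat 1, .ofNat 0, .ofNat 0⟩, 252), (⟨.ofNat 1, .ofNat 4, .ofNat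
    1, .ofNat 0, .ofNat 0⟩, 250), (⟨.ofNat 1, .ofNat 4, .ofNat 3, .ofNat 0, .ofNat 0⟩, 245),
    (⟨.ofNat 1, .ofNat 8, .ofNat 3, .ofNat 0, .ofNat 0⟩, 243)]
C := [⟨6, [(.ofNat 1, 1), (.ofNat 1, 2)], [(.ofNat 1, 3)], .ofNat 2⟩, ⟨9, [(.ofNat 1, 0),
    (.ofNat 1, 3)], [], .ofNat 2⟩]
T := [t8_0, t8_1]
UN := [⟨1, 4, 1, 0, 0⟩, ⟨1, 2, 1, 0, 0⟩, ⟨1, 8, 3, 0, 0⟩, ⟨1, 4, 3, 0, 0⟩, ⟨1, 3, 1, 0, 0⟩, ⟨1,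
    4, 2, 0, 0⟩, ⟨1, 3, 2, 0, 0⟩, ⟨1, 5, 2, 0, 0⟩, ⟨1, 6, 2, 0, 0⟩, ⟨1, 5, 3, 0, 0⟩, ⟨1, 6, 3,
    0, 0⟩, ⟨1, 7, 3, 0, 0⟩]
hx := 3
hy := 0
hz := 0
hl := 8
bx := (.ofNat 2, [(.ofNat 1, ⟨.ofNat 3, .ofNat 0, .negSucc 0, .ofNat 0, .ofNat 0⟩), (.ofNat 3,
    ⟨.negSucc 0, .ofNat 0, .ofNat 1, .ofNat 0, .ofNat 0⟩)])
bx' := (.ofNat 1, [(.ofNat 1, ⟨.ofNat 3, .ofNat 0, .negSucc 0, .ofNat 0, .ofNat 0⟩)])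
bY := (.ofNat 1, [(.ofNat 1, ⟨.ofNat 0, .ofNat 0, .ofNat 0, .ofNat 1, .ofNat 0⟩)])
bY' := (.ofNat 1, [(.ofNat 1, ⟨.ofNat 0, .ofNat 0, .ofNat 0, .negSucc 0, .ofNat 0⟩)])
bz := (.ofNat 1, [(.ofNat 1, ⟨.ofNat 0, .ofNat 0, .ofNat 0, .ofNat 0, .ofNat 1⟩)])
bz' := (.ofNat 1, [(.ofNat 1, ⟨.ofNat 0, .ofNat 0, .ofNat 0, .ofNat 0, .negSucc 0⟩)])
bl := (.ofNat 1, [(.ofNat 1, ⟨.ofNat 2, .negSucc 0, .ofNat 2, .ofNat 0, .ofNat 0⟩), (.ofNat 2,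
    ⟨.negSucc 0, .ofNat 1, .negSucc 0, .ofNat 0, .ofNat 0⟩)])
bl' := (.ofNat 1, [(.ofNat 2, ⟨.ofNat 3, .ofNat 0, .negSucc 0, .ofNat 0, .ofNat 0⟩), (.ofNat 1,
    ⟨.ofNat 2, .negSucc 0, .ofNat 2, .ofNat 0, .ofNat 0⟩)])
r := 3

/-- Partitions of `8` that realize the lattice points of level one. -/
def r8 : List (List ℕ) :=
[[1, 1, 3, 3], [4, 4], [1, 1, 1, 1, 1, 1, 1, 1], [2, 2, 2, 2], [2, 3, 3], [1, 2, 2, 3], [2, 2,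
    4], [1, 1, 1, 2, 3], [1, 1, 1, 1, 1, 3], [1, 1, 2, 2, 2], [1, 1, 1, 1, 2, 2], [1, 1, 1, 1,
    1, 1, 2]]

theorem f8_A : f8.okA = true := by decide +kernel

theorem f8_B : f8.okB = true := by decide +kernel

theorem f8_good : good f8.F f8.UN 8 3 0 0 r8 = true := by
  decide +kernel

end Pool.Agent.Helper75.Poly
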