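import Pool.Agent.Helper75.Zss.Deg

/-!
# Fermat hypersurfaces of degree 9: the finite check
-/

namespace Pool.Agent.Helper75.Poly

def t9_0 : Simp :=
⟨163, [⟨⟨.ofNat 3, .negSucc 2, .ofNat 0, .ofNat 6, .ofNat 0⟩, ⟨0, 0, 0, 0, 0⟩, ⟨1, 2, 1, 1,
    0⟩⟩, ⟨⟨.negSucc 0, .ofNat 1, .ofNat 2, .negSucc 2, .ofNat 0⟩, ⟨2, 1, 2, 0, 0⟩, ⟨1, 3, 2, 1,
    0⟩⟩, ⟨⟨.ofNat 3, .ofNat 3, .negSucc 2, .negSucc 5, .ofNat 0⟩, ⟨0, 0, 0, 0, 0⟩, ⟨1, 5, 1, 2,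
    0⟩⟩, ⟨⟨.negSucc 1, .negSucc 0, .ofNat 1, .ofNat 3, .ofNat 0⟩, ⟨1, 2, 1, 0, 0⟩, ⟨1, 9, 2, 4,
    0⟩⟩], 3, ⟨.ofNat 1, .ofNat 0, .ofNat 2, .ofNat 0, .ofNat 0⟩, ⟨.ofNat 0, .ofNat 1, .ofNat 1,
    .ofNat 0, .ofNat 0⟩, ⟨.ofNat 0, .ofNat 0, .ofNat 3, .ofNat 0, .ofNat 0⟩, ⟨.ofNat 0, .ofNat
    0, .ofNat 0, .ofNat 1, .ofNat 0⟩, ⟨.ofNat 0, .ofNat 0, .ofNat 0, .ofNat 0, .ofNat 1⟩, [0,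
    12, 15]⟩

def t9_1 : Simp :=
⟨39, [⟨⟨.ofNat 1, .negSucc 0, .ofNat 0, .ofNat 2, .ofNat 0⟩, ⟨0, 0, 0, 0, 0⟩, ⟨1, 2, 1, 1, 0⟩⟩,
    ⟨⟨.negSucc 0, .ofNat 0, .ofNat 1, .ofNat 0, .ofNat 0⟩, ⟨0, 0, 0, 0, 0⟩, ⟨1, 3, 2, 1, 0⟩⟩,
    ⟨⟨.ofNat 2, .ofNat 1, .negSucc 0, .negSucc 2, .ofNat 0⟩, ⟨0, 0, 0, 0, 0⟩, ⟨1, 3, 1, 1, 0⟩⟩,
    ⟨⟨.negSucc 0, .ofNat 0, .ofNat 0, .ofNat 1, .ofNat 0⟩, ⟨0, 0, 0, 0, 0⟩, ⟨1, 5, 1, 2, 0⟩⟩],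
    1, ⟨.ofNat 1, .ofNat 0, .ofNat 0, .ofNat 0, .ofNat 0⟩, ⟨.ofNat 0, .ofNat 1, .ofNat 0,
    .ofNat 0, .ofNat 0⟩, ⟨.ofNat 0, .ofNat 0, .ofNat 1, .ofNat 0, .ofNat 0⟩, ⟨.ofNat 0, .ofNat
    0, .ofNat 0, .ofNat 1, .ofNat 0⟩, ⟨.ofNat 0, .ofNat 0, .ofNat 0, .ofNat 0, .ofNat 1⟩, [0]⟩

def t9_2 : Simp :=
⟨195, [⟨⟨.ofNat 24, .ofNat 0, .negSucc 11, .ofNat 0, .ofNat 0⟩, ⟨0, 0, 0, 0, 0⟩, ⟨1, 2, 1, 1,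
    0⟩⟩, ⟨⟨.negSucc 7, .ofNat 0, .ofNat 12, .negSucc 3, .ofNat 0⟩, ⟨4, 0, 0, 8, 0⟩, ⟨1, 3, 2,
    1, 0⟩⟩, ⟨⟨.negSucc 2, .negSucc 2, .ofNat 3, .ofNat 6, .ofNat 0⟩, ⟨9, 9, 3, 6, 0⟩, ⟨1, 5, 2,
    4, 0⟩⟩, ⟨⟨.negSucc 0, .ofNat 3, .negSucc 2, .negSucc 1, .ofNat 0⟩, ⟨11, 3, 9, 10, 0⟩, ⟨1,
    9, 2, 4, 0⟩⟩], 12, ⟨.ofNat 1, .ofNat 0, .ofNat 1, .ofNat 4, .ofNat 0⟩, ⟨.ofNat 0, .ofNat 1,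
    .ofNat 1, .ofNat 0, .ofNat 0⟩, ⟨.ofNat 0, .ofNat 0, .ofNat 2, .ofNat 3, .ofNat 0⟩, ⟨.ofNat
    0, .ofNat 0, .ofNat 0, .ofNat 6, .ofNat 0⟩, ⟨.ofNat 0, .ofNat 0, .ofNat 0, .ofNat 0, .ofNat
    1⟩, [0, 8197, 15, 17, 12, 13, 18, 18437, 14, 16, 10, 11272]⟩

def t9_3 : Simp :=
⟨83, [⟨⟨.ofNat 4, .ofNat 0, .negSucc 1, .ofNat 0, .ofNat 0⟩, ⟨0, 0, 0, 0, 0⟩, ⟨1, 2, 1, 1, 0⟩⟩,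
    ⟨⟨.negSucc 1, .ofNat 2, .ofNat 0, .negSucc 1, .ofNat 0⟩, ⟨0, 0, 0, 0, 0⟩, ⟨1, 3, 2, 1, 0⟩⟩,
    ⟨⟨.ofNat 1, .negSucc 2, .ofNat 3, .ofNat 2, .ofNat 0⟩, ⟨1, 1, 1, 0, 0⟩, ⟨1, 3, 2, 2, 0⟩⟩,
    ⟨⟨.negSucc 0, .ofNat 1, .negSucc 0, .ofNat 0, .ofNat 0⟩, ⟨1, 1, 1, 0, 0⟩, ⟨1, 5, 2, 4,
    0⟩⟩], 2, ⟨.ofNat 1, .ofNat 0, .ofNat 1, .ofNat 0, .ofNat 0⟩, ⟨.ofNat 0, .ofNat 1, .ofNat 1,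
    .ofNat 0, .ofNat 0⟩, ⟨.ofNat 0, .ofNat 0, .ofNat 2, .ofNat 0, .ofNat 0⟩, ⟨.ofNat 0, .ofNat
    0, .ofNat 0, .ofNat 1, .ofNat 0⟩, ⟨.ofNat 0, .ofNat 0, .ofNat 0, .ofNat 0, .ofNat 1⟩, [0,
    11]⟩

def t9_4 : Simp :=
⟨169, [⟨⟨.ofNat 0, .ofNat 0, .ofNat 4, .negSucc 1, .ofNat 0⟩, ⟨0, 0, 0, 0, 0⟩, ⟨1, 2, 1, 1,
    0⟩⟩, ⟨⟨.ofNat 1, .negSucc 0, .negSucc 1, .ofNat 3, .ofNat 0⟩, ⟨1, 1, 0, 1, 0⟩, ⟨1, 3, 1, 2,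
    0⟩⟩, ⟨⟨.ofNat 3, .ofNat 1, .negSucc 3, .negSucc 0, .ofNat 0⟩, ⟨1, 1, 0, 1, 0⟩, ⟨1, 5, 1, 2,
    0⟩⟩, ⟨⟨.negSucc 1, .ofNat 0, .ofNat 2, .ofNat 0, .ofNat 0⟩, ⟨0, 0, 0, 0, 0⟩, ⟨1, 9, 2, 4,
    0⟩⟩], 2, ⟨.ofNat 1, .ofNat 0, .ofNat 0, .ofNat 1, .ofNat 0⟩, ⟨.ofNat 0, .ofNat 1, .ofNat 0,
    .ofNat 1, .ofNat 0⟩, ⟨.ofNat 0, .ofNat 0, .ofNat 1, .ofNat 0, .ofNat 0⟩, ⟨.ofNat 0, .ofNat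
    0, .ofNat 0, .ofNat 2, .ofNat 0⟩, ⟨.ofNat 0, .ofNat 0, .ofNat 0, .ofNat 0, .ofNat 1⟩, [0,
    9]⟩

def t9_5 : Simp :=
⟨201, [⟨⟨.ofNat 0, .ofNat 0, .ofNat 8, .negSucc 3, .ofNat 0⟩, ⟨0, 0, 0, 0, 0⟩, ⟨1, 2, 1, 1,
    0⟩⟩, ⟨⟨.ofNat 8, .ofNat 0, .negSucc 11, .ofNat 4, .ofNat 0⟩, ⟨0, 0, 0, 0, 0⟩, ⟨1, 3, 1, 2,
    0⟩⟩, ⟨⟨.negSucc 2, .negSucc 0, .ofNat 4, .ofNat 1, .ofNat 0⟩, ⟨1, 3, 0, 1, 0⟩, ⟨1, 5, 2, 4,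
    0⟩⟩, ⟨⟨.negSucc 0, .ofNat 1, .ofNat 0, .negSucc 0, .ofNat 0⟩, ⟨3, 1, 0, 3, 0⟩, ⟨1, 9, 2, 4,
    0⟩⟩], 4, ⟨.ofNat 1, .ofNat 0, .ofNat 0, .ofNat 3, .ofNat 0⟩, ⟨.ofNat 0, .ofNat 1, .ofNat 0,
    .ofNat 1, .ofNat 0⟩, ⟨.ofNat 0, .ofNat 0, .ofNat 1, .ofNat 0, .ofNat 0⟩, ⟨.ofNat 0, .ofNat
    0, .ofNat 0, .ofNat 4, .ofNat 0⟩, ⟨.ofNat 0, .ofNat 0, .ofNat 0, .ofNat 0, .ofNat 1⟩, [0,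
    18, 17, 16]⟩

/-- The cone, its triangulation and the certificates for `m = 9`. -/
def f9 : Fan where
F := [⟨.ofNat 1, .negSucc 0, .ofNat 0, .ofNat 2, .ofNat 0⟩, ⟨.ofNat 2, .ofNat 0, .negSucc 0,
    .ofNat 0, .ofNat 0⟩, ⟨.ofNat 0, .ofNat 0, .ofNat 2, .negSucc 0, .ofNat 0⟩, ⟨.negSucc 0,
    .ofNat 0, .ofNat 1, .ofNat 0, .ofNat 0⟩, ⟨.negSucc 0, .ofNat 1, .ofNat 0, .negSucc 0,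
    .ofNat 0⟩, ⟨.negSucc 0, .ofNat 0, .ofNat 0, .ofNat 1, .ofNat 0⟩, ⟨.negSucc 0, .ofNat 1,
    .negSucc 0, .ofNat 0, .ofNat 0⟩, ⟨.ofNat 0, .ofNat 0, .ofNat 0, .ofNat 0, .ofNat 1⟩,
    ⟨.ofNat 0, .ofNat 0, .ofNat 0, .ofNat 0, .negSucc 0⟩]
V := [(⟨.ofNat 1, .ofNat 2, .ofNat 1, .ofNat 1, .ofNat 0⟩, 504), (⟨.ofNat 1, .ofNat 3, .ofNat
    2, .ofNat 1, .ofNat 0⟩, 483), (⟨.ofNat 1, .ofNat 3, .ofNat 1, .ofNat 1, .ofNat 0⟩, 425),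
    (⟨.ofNat 1, .ofNat 3, .ofNat 1, .ofNat 2, .ofNat 0⟩, 412), (⟨.ofNat 1, .ofNat 3, .ofNat 2,
    .ofNat 2, .ofNat 0⟩, 466), (⟨.ofNat 1, .ofNat 5, .ofNat 1, .ofNat 2, .ofNat 0⟩, 397),
    (⟨.ofNat 1, .ofNat 5, .ofNat 2, .ofNat 4, .ofNat 0⟩, 406), (⟨.ofNat 1, .ofNat 9, .ofNat 2,
    .ofNat 4, .ofNat 0⟩, 391)]
C := [⟨10, [(.ofNat 1, 1), (.ofNat 1, 3)], [], .ofNat 1⟩, ⟨17, [(.ofNat 1, 0), (.ofNat 1, 4)],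
    [(.ofNat 1, 5)], .ofNat 1⟩, ⟨36, [(.ofNat 1, 2), (.ofNat 1, 5)], [(.ofNat 2, 3)], .ofNat
    1⟩, ⟨68, [(.ofNat 1, 2), (.ofNat 1, 6)], [(.ofNat 1, 3), (.ofNat 1, 4)], .ofNat 1⟩, ⟨73,
    [(.ofNat 1, 0), (.ofNat 1, 3), (.ofNat 1, 6)], [(.ofNat 2, 5)], .ofNat 1⟩, ⟨50, [(.ofNat 1,
    1), (.ofNat 1, 4), (.ofNat 1, 5)], [(.ofNat 1, 6)], .ofNat 1⟩]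
T := [t9_0, t9_1, t9_2, t9_3, t9_4, t9_5]
UN := [⟨1, 2, 1, 1, 0⟩, ⟨1, 3, 1, 1, 0⟩, ⟨1, 3, 2, 1, 0⟩, ⟨1, 3, 1, 2, 0⟩, ⟨1, 3, 2, 2, 0⟩, ⟨1,
    5, 1, 2, 0⟩, ⟨1, 5, 2, 4, 0⟩, ⟨1, 9, 2, 4, 0⟩, ⟨1, 4, 1, 2, 0⟩, ⟨1, 4, 2, 2, 0⟩, ⟨1, 4, 2,
    3, 0⟩, ⟨1, 5, 2, 2, 0⟩, ⟨1, 5, 2, 3, 0⟩, ⟨1, 6, 2, 3, 0⟩, ⟨1, 7, 2, 3, 0⟩, ⟨1, 6, 2, 4, 0⟩,
    ⟨1, 7, 2, 4, 0⟩, ⟨1, 8, 2, 4, 0⟩]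
hx := 2
hy := 4
hz := 0
hl := 9
bx := (.ofNat 1, [(.ofNat 1, ⟨.ofNat 2, .ofNat 0, .negSucc 0, .ofNat 0, .ofNat 0⟩), (.ofNat 2,
    ⟨.negSucc 0, .ofNat 0, .ofNat 1, .ofNat 0, .ofNat 0⟩)])
bx' := (.ofNat 1, [(.ofNat 1, ⟨.ofNat 2, .ofNat 0, .negSucc 0, .ofNat 0, .ofNat 0⟩)])
bY := (.ofNat 1, [(.ofNat 1, ⟨.ofNat 1, .negSucc 0, .ofNat 0, .ofNat 2, .ofNat 0⟩), (.ofNat 1,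
    ⟨.negSucc 0, .ofNat 1, .ofNat 0, .negSucc 0, .ofNat 0⟩)])
bY' := (.ofNat 1, [(.ofNat 2, ⟨.ofNat 2, .ofNat 0, .negSucc 0, .ofNat 0, .ofNat 0⟩), (.ofNat 1,
    ⟨.ofNat 0, .ofNat 0, .ofNat 2, .negSucc 0, .ofNat 0⟩)])
bz := (.ofNat 1, [(.ofNat 1, ⟨.ofNat 0, .ofNat 0, .ofNat 0, .ofNat 0, .ofNat 1⟩)])
bz' := (.ofNat 1, [(.ofNat 1, ⟨.ofNat 0, .ofNat 0, .ofNat 0, .ofNat 0, .negSucc 0⟩)])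
bl := (.ofNat 1, [(.ofNat 2, ⟨.ofNat 2, .ofNat 0, .negSucc 0, .ofNat 0, .ofNat 0⟩), (.ofNat 3,
    ⟨.negSucc 0, .ofNat 0, .ofNat 1, .ofNat 0, .ofNat 0⟩), (.ofNat 1, ⟨.negSucc 0, .ofNat 1,
    .negSucc 0, .ofNat 0, .ofNat 0⟩)])
bl' := (.ofNat 1, [(.ofNat 1, ⟨.ofNat 1, .negSucc 0, .ofNat 0, .ofNat 2, .ofNat 0⟩), (.ofNat 4,
    ⟨.ofNat 2, .ofNat 0, .negSucc 0, .ofNat 0, .ofNat 0⟩), (.ofNat 2, ⟨.ofNat 0, .ofNat 0,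
    .ofNat 2, .negSucc 0, .ofNat 0⟩)])
r := 4

/-- Partitions of `9` that realize the lattice points of level one. -/
def r9 : List (List ℕ) :=
[[4, 5], [1, 3, 5], [3, 3, 3], [2, 2, 5], [2, 3, 4], [1, 1, 1, 1, 5], [1, 2, 2, 2, 2], [1, 1,
    1, 1, 1, 1, 1, 1, 1], [1, 1, 2, 5], [1, 2, 3, 3], [2, 2, 2, 3], [1, 1, 1, 3, 3], [1, 1, 2,
    2, 3], [1, 1, 1, 1, 2, 3], [1, 1, 1, 1, 1, 1, 3], [1, 1, 1, 2, 2, 2], [1, 1, 1, 1, 1, 2,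
    2], [1, 1, 1, 1, 1, 1, 1, 2]]

theorem f9_A : f9.okA = true := by decide +kernel

theorem f9_B : f9.okB = true := by decide +kernel

theorem f9_good : good f9.F f9.UN 9 2 4 0 r9 = true := by
  decide +kernel

end Pool.Agent.Helper75.Poly
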