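import Pool.Agent.Helper75.Zss.Deg

/-!
# Fermat hypersurfaces of degree 14: the finite check
-/

namespace Pool.Agent.Helper75.Poly

def t14_0 : Simp :=
⟨1043, [⟨⟨.ofNat 8, .negSucc 7, .ofNat 8, .ofNat 16, .ofNat 0⟩, ⟨8, 8, 8, 0, 0⟩, ⟨1, 2, 1, 1,
    0⟩⟩, ⟨⟨.ofNat 16, .ofNat 8, .negSucc 15, .negSucc 15, .ofNat 0⟩, ⟨0, 8, 0, 0, 0⟩, ⟨1, 4, 1,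
    1, 0⟩⟩, ⟨⟨.negSucc 3, .ofNat 0, .ofNat 0, .ofNat 4, .ofNat 0⟩, ⟨12, 0, 0, 4, 0⟩, ⟨1, 14, 3,
    5, 0⟩⟩, ⟨⟨.negSucc 3, .ofNat 0, .ofNat 8, .negSucc 3, .ofNat 0⟩, ⟨12, 0, 8, 12, 0⟩, ⟨1, 6,
    3, 1, 0⟩⟩], 16, ⟨.ofNat 1, .ofNat 0, .ofNat 1, .ofNat 1, .ofNat 0⟩, ⟨.ofNat 0, .ofNat 2,
    .ofNat 0, .ofNat 0, .ofNat 0⟩, ⟨.ofNat 0, .ofNat 0, .ofNat 2, .ofNat 0, .ofNat 0⟩, ⟨.ofNat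
    0, .ofNat 0, .ofNat 0, .ofNat 4, .ofNat 0⟩, ⟨.ofNat 0, .ofNat 0, .ofNat 0, .ofNat 0, .ofNat
    1⟩, [0, 48, 53, 56, 20, 29, 39, 48138, 13, 44037, 51205, 55301, 25, 35, 44, 57369]⟩

def t14_1 : Simp :=
⟨1161, [⟨⟨.ofNat 24, .ofNat 0, .negSucc 7, .ofNat 0, .ofNat 0⟩, ⟨8, 0, 8, 0, 0⟩, ⟨1, 2, 1, 1,
    0⟩⟩, ⟨⟨.negSucc 3, .ofNat 0, .ofNat 0, .ofNat 4, .ofNat 0⟩, ⟨12, 0, 0, 4, 0⟩, ⟨1, 7, 3, 5,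
    0⟩⟩, ⟨⟨.negSucc 1, .negSucc 7, .ofNat 16, .ofNat 2, .ofNat 0⟩, ⟨14, 8, 0, 2, 0⟩, ⟨1, 4, 3,
    1, 0⟩⟩, ⟨⟨.negSucc 1, .ofNat 8, .negSucc 7, .negSucc 5, .ofNat 0⟩, ⟨14, 8, 8, 10, 0⟩, ⟨1,
    6, 3, 1, 0⟩⟩], 16, ⟨.ofNat 1, .ofNat 0, .ofNat 1, .ofNat 1, .ofNat 0⟩, ⟨.ofNat 0, .ofNat 1,
    .ofNat 0, .ofNat 4, .ofNat 0⟩, ⟨.ofNat 0, .ofNat 0, .ofNat 2, .ofNat 0, .ofNat 0⟩, ⟨.ofNat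
    0, .ofNat 0, .ofNat 0, .ofNat 8, .ofNat 0⟩, ⟨.ofNat 0, .ofNat 0, .ofNat 0, .ofNat 0, .ofNat
    1⟩, [0, 37, 30, 46087, 34, 28, 44039, 38919, 20, 17, 44035, 38915, 16, 10243, 37891,
    50338819]⟩

def t14_2 : Simp :=
⟨393, [⟨⟨.ofNat 9, .ofNat 0, .negSucc 2, .ofNat 0, .ofNat 0⟩, ⟨3, 0, 3, 0, 0⟩, ⟨1, 2, 1, 1,
    0⟩⟩, ⟨⟨.negSucc 1, .ofNat 2, .negSucc 1, .ofNat 0, .ofNat 0⟩, ⟨4, 2, 4, 0, 0⟩, ⟨1, 7, 3, 5,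
    0⟩⟩, ⟨⟨.negSucc 2, .ofNat 6, .negSucc 2, .negSucc 5, .ofNat 0⟩, ⟨3, 0, 3, 0, 0⟩, ⟨1, 4, 3,
    1, 0⟩⟩, ⟨⟨.ofNat 2, .negSucc 7, .ofNat 8, .ofNat 6, .ofNat 0⟩, ⟨2, 4, 2, 0, 0⟩, ⟨1, 4, 3,
    2, 0⟩⟩], 6, ⟨.ofNat 1, .ofNat 0, .ofNat 5, .ofNat 0, .ofNat 0⟩, ⟨.ofNat 0, .ofNat 1, .ofNat
    4, .ofNat 0, .ofNat 0⟩, ⟨.ofNat 0, .ofNat 0, .ofNat 6, .ofNat 0, .ofNat 0⟩, ⟨.ofNat 0,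
    .ofNat 0, .ofNat 0, .ofNat 1, .ofNat 0⟩, ⟨.ofNat 0, .ofNat 0, .ofNat 0, .ofNat 0, .ofNat
    1⟩, [0, 30723, 24, 16, 26, 28675]⟩

def t14_3 : Simp :=
⟨1049, [⟨⟨.ofNat 84, .ofNat 0, .negSucc 27, .ofNat 0, .ofNat 0⟩, ⟨28, 0, 28, 0, 0⟩, ⟨1, 2, 1,
    1, 0⟩⟩, ⟨⟨.negSucc 15, .negSucc 7, .ofNat 16, .ofNat 16, .ofNat 0⟩, ⟨40, 48, 16, 16, 0⟩,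
    ⟨1, 7, 3, 5, 0⟩⟩, ⟨⟨.ofNat 2, .ofNat 8, .negSucc 15, .negSucc 1, .ofNat 0⟩, ⟨2, 8, 40, 54,
    0⟩, ⟨1, 14, 3, 5, 0⟩⟩, ⟨⟨.negSucc 13, .ofNat 0, .ofNat 28, .negSucc 13, .ofNat 0⟩, ⟨42, 0,
    28, 42, 0⟩, ⟨1, 6, 3, 1, 0⟩⟩], 56, ⟨.ofNat 1, .ofNat 0, .ofNat 1, .ofNat 21, .ofNat 0⟩,
    ⟨.ofNat 0, .ofNat 1, .ofNat 0, .ofNat 4, .ofNat 0⟩, ⟨.ofNat 0, .ofNat 0, .ofNat 2, .ofNat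
    12, .ofNat 0⟩, ⟨.ofNat 0, .ofNat 0, .ofNat 0, .ofNat 28, .ofNat 0⟩, ⟨.ofNat 0, .ofNat 0,
    .ofNat 0, .ofNat 0, .ofNat 1⟩, [0, 37899, 30731, 26635, 57, 28683, 24587, 56, 55, 11271,
    58392, 54, 52, 58375, 53, 51, 49, 56327, 50, 46, 42, 48, 45, 40, 36, 43, 38, 32, 58384,
    58371, 56324, 41994, 57347, 56323, 39, 48136, 55299, 53251, 31, 54275, 52227, 29, 23,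
    51203, 47107, 22, 19, 46083, 20, 17419, 11268, 39857155, 16395, 11267, 58372, 48138]⟩

def t14_4 : Simp :=
⟨297, [⟨⟨.ofNat 3, .ofNat 3, .negSucc 2, .negSucc 2, .ofNat 0⟩, ⟨0, 0, 0, 0, 0⟩, ⟨1, 2, 1, 1,
    0⟩⟩, ⟨⟨.negSucc 0, .ofNat 1, .negSucc 0, .ofNat 0, .ofNat 0⟩, ⟨2, 1, 2, 0, 0⟩, ⟨1, 7, 3, 5,
    0⟩⟩, ⟨⟨.ofNat 3, .negSucc 5, .ofNat 3, .ofNat 6, .ofNat 0⟩, ⟨0, 0, 0, 0, 0⟩, ⟨1, 3, 2, 2,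
    0⟩⟩, ⟨⟨.negSucc 1, .ofNat 2, .ofNat 1, .negSucc 2, .ofNat 0⟩, ⟨1, 2, 1, 0, 0⟩, ⟨1, 4, 3, 2,
    0⟩⟩], 3, ⟨.ofNat 1, .ofNat 0, .ofNat 2, .ofNat 0, .ofNat 0⟩, ⟨.ofNat 0, .ofNat 1, .ofNat 1,
    .ofNat 0, .ofNat 0⟩, ⟨.ofNat 0, .ofNat 0, .ofNat 3, .ofNat 0, .ofNat 0⟩, ⟨.ofNat 0, .ofNat
    0, .ofNat 0, .ofNat 1, .ofNat 0⟩, ⟨.ofNat 0, .ofNat 0, .ofNat 0, .ofNat 0, .ofNat 1⟩, [0,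
    26, 24]⟩

def t14_5 : Simp :=
⟨105, [⟨⟨.ofNat 1, .ofNat 1, .negSucc 0, .negSucc 0, .ofNat 0⟩, ⟨0, 0, 0, 0, 0⟩, ⟨1, 2, 1, 1,
    0⟩⟩, ⟨⟨.negSucc 0, .ofNat 1, .ofNat 0, .negSucc 0, .ofNat 0⟩, ⟨0, 0, 0, 0, 0⟩, ⟨1, 7, 3, 5,
    0⟩⟩, ⟨⟨.negSucc 0, .ofNat 0, .ofNat 2, .negSucc 0, .ofNat 0⟩, ⟨0, 0, 0, 0, 0⟩, ⟨1, 3, 2, 2,
    0⟩⟩, ⟨⟨.ofNat 2, .negSucc 1, .negSucc 0, .ofNat 3, .ofNat 0⟩, ⟨0, 0, 0, 0, 0⟩, ⟨1, 4, 2, 3,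
    0⟩⟩], 1, ⟨.ofNat 1, .ofNat 0, .ofNat 0, .ofNat 0, .ofNat 0⟩, ⟨.ofNat 0, .ofNat 1, .ofNat 0,
    .ofNat 0, .ofNat 0⟩, ⟨.ofNat 0, .ofNat 0, .ofNat 1, .ofNat 0, .ofNat 0⟩, ⟨.ofNat 0, .ofNat
    0, .ofNat 0, .ofNat 1, .ofNat 0⟩, ⟨.ofNat 0, .ofNat 0, .ofNat 0, .ofNat 0, .ofNat 1⟩, [0]⟩

def t14_6 : Simp :=
⟨77, [⟨⟨.ofNat 1, .ofNat 2, .ofNat 0, .negSucc 2, .ofNat 0⟩, ⟨1, 0, 0, 1, 0⟩, ⟨1, 2, 1, 1, 0⟩⟩,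
    ⟨⟨.ofNat 1, .ofNat 0, .negSucc 1, .ofNat 1, .ofNat 0⟩, ⟨1, 0, 0, 1, 0⟩, ⟨1, 4, 1, 3, 0⟩⟩,
    ⟨⟨.negSucc 1, .ofNat 2, .ofNat 0, .negSucc 1, .ofNat 0⟩, ⟨0, 0, 0, 0, 0⟩, ⟨1, 7, 3, 5, 0⟩⟩,
    ⟨⟨.ofNat 2, .negSucc 3, .ofNat 2, .ofNat 4, .ofNat 0⟩, ⟨0, 0, 0, 0, 0⟩, ⟨1, 4, 2, 3, 0⟩⟩],
    2, ⟨.ofNat 1, .ofNat 0, .ofNat 0, .ofNat 1, .ofNat 0⟩, ⟨.ofNat 0, .ofNat 1, .ofNat 0,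
    .ofNat 0, .ofNat 0⟩, ⟨.ofNat 0, .ofNat 0, .ofNat 1, .ofNat 0, .ofNat 0⟩, ⟨.ofNat 0, .ofNat
    0, .ofNat 0, .ofNat 2, .ofNat 0⟩, ⟨.ofNat 0, .ofNat 0, .ofNat 0, .ofNat 0, .ofNat 1⟩, [0,
    12]⟩

def t14_7 : Simp :=
⟨29, [⟨⟨.ofNat 28, .ofNat 0, .ofNat 14, .negSucc 13, .ofNat 0⟩, ⟨0, 0, 14, 14, 0⟩, ⟨1, 2, 1, 1,
    0⟩⟩, ⟨⟨.ofNat 14, .ofNat 0, .negSucc 27, .ofNat 14, .ofNat 0⟩, ⟨14, 0, 0, 14, 0⟩, ⟨1, 4, 1,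
    3, 0⟩⟩, ⟨⟨.negSucc 11, .negSucc 3, .ofNat 16, .ofNat 4, .ofNat 0⟩, ⟨16, 24, 16, 4, 0⟩, ⟨1,
    7, 3, 5, 0⟩⟩, ⟨⟨.negSucc 1, .ofNat 4, .negSucc 1, .negSucc 3, .ofNat 0⟩, ⟨26, 4, 26, 24,
    0⟩, ⟨1, 14, 3, 5, 0⟩⟩], 28, ⟨.ofNat 1, .ofNat 0, .ofNat 1, .ofNat 13, .ofNat 0⟩, ⟨.ofNat 0,
    .ofNat 1, .ofNat 0, .ofNat 8, .ofNat 0⟩, ⟨.ofNat 0, .ofNat 0, .ofNat 2, .ofNat 6, .ofNat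
    0⟩, ⟨.ofNat 0, .ofNat 0, .ofNat 0, .ofNat 14, .ofNat 0⟩, ⟨.ofNat 0, .ofNat 0, .ofNat 0,
    .ofNat 0, .ofNat 1⟩, [0, 57346, 55, 52226, 49, 40962, 36, 12, 57, 55298, 52, 47106, 42,
    32770, 11268, 56341, 56324, 41, 31, 27, 19, 58389, 58372, 48137, 39, 33, 23, 21]⟩

def t14_8 : Simp :=
⟨533, [⟨⟨.ofNat 8, .ofNat 0, .ofNat 4, .negSucc 3, .ofNat 0⟩, ⟨0, 0, 4, 4, 0⟩, ⟨1, 2, 1, 1,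
    0⟩⟩, ⟨⟨.negSucc 7, .negSucc 3, .ofNat 8, .ofNat 8, .ofNat 0⟩, ⟨0, 4, 0, 0, 0⟩, ⟨1, 4, 1, 3,
    0⟩⟩, ⟨⟨.negSucc 3, .ofNat 0, .ofNat 4, .ofNat 0, .ofNat 0⟩, ⟨4, 0, 4, 0, 0⟩, ⟨1, 14, 3, 5,
    0⟩⟩, ⟨⟨.ofNat 12, .ofNat 4, .negSucc 15, .negSucc 3, .ofNat 0⟩, ⟨4, 4, 0, 4, 0⟩, ⟨1, 6, 1,
    3, 0⟩⟩], 8, ⟨.ofNat 1, .ofNat 0, .ofNat 1, .ofNat 1, .ofNat 0⟩, ⟨.ofNat 0, .ofNat 2, .ofNat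
    0, .ofNat 0, .ofNat 0⟩, ⟨.ofNat 0, .ofNat 0, .ofNat 2, .ofNat 0, .ofNat 0⟩, ⟨.ofNat 0,
    .ofNat 0, .ofNat 0, .ofNat 2, .ofNat 0⟩, ⟨.ofNat 0, .ofNat 0, .ofNat 0, .ofNat 0, .ofNat
    1⟩, [0, 14, 39, 47, 15, 12, 45058, 41]⟩

def t14_9 : Simp :=
⟨531, [⟨⟨.ofNat 0, .negSucc 3, .ofNat 12, .ofNat 4, .ofNat 0⟩, ⟨0, 4, 4, 4, 0⟩, ⟨1, 2, 1, 1,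
    0⟩⟩, ⟨⟨.ofNat 8, .ofNat 4, .negSucc 7, .negSucc 7, .ofNat 0⟩, ⟨0, 4, 0, 0, 0⟩, ⟨1, 4, 1, 1,
    0⟩⟩, ⟨⟨.negSucc 3, .ofNat 0, .ofNat 4, .ofNat 0, .ofNat 0⟩, ⟨4, 0, 4, 0, 0⟩, ⟨1, 14, 3, 5,
    0⟩⟩, ⟨⟨.ofNat 4, .ofNat 0, .negSucc 7, .ofNat 4, .ofNat 0⟩, ⟨4, 0, 0, 4, 0⟩, ⟨1, 6, 1, 3,
    0⟩⟩], 8, ⟨.ofNat 1, .ofNat 0, .ofNat 1, .ofNat 1, .ofNat 0⟩, ⟨.ofNat 0, .ofNat 2, .ofNat 0,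
    .ofNat 0, .ofNat 0⟩, ⟨.ofNat 0, .ofNat 0, .ofNat 2, .ofNat 0, .ofNat 0⟩, ⟨.ofNat 0, .ofNat
    0, .ofNat 0, .ofNat 2, .ofNat 0⟩, ⟨.ofNat 0, .ofNat 0, .ofNat 0, .ofNat 0, .ofNat 1⟩, [0,
    14, 39, 47, 13, 18, 44, 41989]⟩

/-- The cone, its triangulation and the certificates for `m = 14`. -/
def f14 : Fan where
F := [⟨.negSucc 0, .ofNat 0, .ofNat 0, .ofNat 1, .ofNat 0⟩, ⟨.negSucc 0, .ofNat 1, .negSucc 0,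
    .ofNat 0, .ofNat 0⟩, ⟨.ofNat 1, .negSucc 0, .ofNat 1, .ofNat 2, .ofNat 0⟩, ⟨.ofNat 3,
    .ofNat 0, .negSucc 0, .ofNat 0, .ofNat 0⟩, ⟨.ofNat 1, .ofNat 1, .negSucc 0, .negSucc 0,
    .ofNat 0⟩, ⟨.negSucc 0, .ofNat 1, .ofNat 0, .negSucc 0, .ofNat 0⟩, ⟨.ofNat 1, .ofNat 2,
    .ofNat 0, .negSucc 2, .ofNat 0⟩, ⟨.negSucc 0, .ofNat 0, .ofNat 1, .ofNat 0, .ofNat 0⟩,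
    ⟨.ofNat 2, .ofNat 0, .ofNat 1, .negSucc 0, .ofNat 0⟩, ⟨.ofNat 0, .negSucc 0, .ofNat 3,
    .ofNat 1, .ofNat 0⟩, ⟨.ofNat 0, .ofNat 0, .ofNat 0, .ofNat 0, .ofNat 1⟩, ⟨.ofNat 0, .ofNat
    0, .ofNat 0, .ofNat 0, .negSucc 0⟩]
V := [(⟨.ofNat 1, .ofNat 2, .ofNat 1, .ofNat 1, .ofNat 0⟩, 3235), (⟨.ofNat 1, .ofNat 4, .ofNat
    1, .ofNat 1, .ofNat 0⟩, 3717), (⟨.ofNat 1, .ofNat 4, .ofNat 1, .ofNat 3, .ofNat 0⟩, 3552),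
    (⟨.ofNat 1, .ofNat 7, .ofNat 3, .ofNat 5, .ofNat 0⟩, 3416), (⟨.ofNat 1, .ofNat 14, .ofNat
    3, .ofNat 5, .ofNat 0⟩, 3852), (⟨.ofNat 1, .ofNat 3, .ofNat 2, .ofNat 2, .ofNat 0⟩, 3122),
    (⟨.ofNat 1, .ofNat 4, .ofNat 2, .ofNat 3, .ofNat 0⟩, 3184), (⟨.ofNat 1, .ofNat 4, .ofNat 3,
    .ofNat 1, .ofNat 0⟩, 3083), (⟨.ofNat 1, .ofNat 4, .ofNat 3, .ofNat 2, .ofNat 0⟩, 3098),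
    (⟨.ofNat 1, .ofNat 6, .ofNat 1, .ofNat 3, .ofNat 0⟩, 3968), (⟨.ofNat 1, .ofNat 6, .ofNat 3,
    .ofNat 1, .ofNat 0⟩, 3085)]
C := [⟨6, [(.ofNat 1, 1), (.ofNat 1, 2)], [(.ofNat 2, 0)], .ofNat 2⟩, ⟨20, [(.ofNat 1, 2),
    (.ofNat 1, 4)], [(.ofNat 1, 0)], .ofNat 3⟩, ⟨40, [(.ofNat 1, 3), (.ofNat 1, 5)], [(.ofNat
    1, 4)], .ofNat 1⟩, ⟨68, [(.ofNat 2, 2), (.ofNat 1, 6)], [(.ofNat 1, 0), (.ofNat 2, 7)],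
    .ofNat 6⟩, ⟨136, [(.ofNat 1, 3), (.ofNat 1, 7)], [], .ofNat 2⟩, ⟨257, [(.ofNat 1, 0),
    (.ofNat 1, 8)], [(.ofNat 1, 7)], .ofNat 2⟩, ⟨521, [(.ofNat 1, 0), (.ofNat 2, 3), (.ofNat 1,
    9)], [(.ofNat 1, 2)], .ofNat 4⟩, ⟨36, [(.ofNat 1, 2), (.ofNat 1, 5)], [(.ofNat 1, 0),
    (.ofNat 1, 7)], .ofNat 2⟩, ⟨388, [(.ofNat 1, 2), (.ofNat 1, 7), (.ofNat 1, 8)], [(.ofNat 1,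
    9)], .ofNat 2⟩, ⟨17, [(.ofNat 1, 0), (.ofNat 1, 4)], [(.ofNat 1, 1)], .ofNat 1⟩, ⟨65,
    [(.ofNat 1, 0), (.ofNat 1, 6)], [(.ofNat 2, 5)], .ofNat 2⟩, ⟨66, [(.ofNat 1, 1), (.ofNat 1,
    6)], [(.ofNat 1, 4), (.ofNat 2, 5)], .ofNat 1⟩, ⟨258, [(.ofNat 1, 1), (.ofNat 1, 8)],
    [(.ofNat 1, 5)], .ofNat 2⟩, ⟨528, [(.ofNat 3, 4), (.ofNat 1, 9)], [(.ofNat 2, 5)], .ofNat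
    5⟩, ⟨514, [(.ofNat 3, 1), (.ofNat 1, 9)], [(.ofNat 3, 0), (.ofNat 2, 5)], .ofNat 2⟩, ⟨576,
    [(.ofNat 3, 6), (.ofNat 1, 9)], [(.ofNat 5, 5), (.ofNat 3, 8)], .ofNat 2⟩, ⟨144, [(.ofNat
    1, 4), (.ofNat 1, 7)], [(.ofNat 1, 5)], .ofNat 1⟩, ⟨304, [(.ofNat 1, 4), (.ofNat 1, 5),
    (.ofNat 1, 8)], [(.ofNat 1, 6)], .ofNat 1⟩, ⟨544, [(.ofNat 1, 5), (.ofNat 1, 9)], [(.ofNat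
    3, 7)], .ofNat 2⟩]
T := [t14_0, t14_1, t14_2, t14_3, t14_4, t14_5, t14_6, t14_7, t14_8, t14_9]
UN := [⟨1, 2, 1, 1, 0⟩, ⟨1, 4, 1, 3, 0⟩, ⟨1, 3, 2, 2, 0⟩, ⟨1, 4, 2, 3, 0⟩, ⟨1, 4, 1, 1, 0⟩, ⟨1,
    6, 1, 3, 0⟩, ⟨1, 4, 3, 2, 0⟩, ⟨1, 4, 3, 1, 0⟩, ⟨1, 7, 3, 5, 0⟩, ⟨1, 6, 3, 1, 0⟩, ⟨1, 14, 3,
    5, 0⟩, ⟨1, 3, 1, 2, 0⟩, ⟨1, 3, 1, 1, 0⟩, ⟨1, 4, 1, 2, 0⟩, ⟨1, 5, 1, 3, 0⟩, ⟨1, 3, 2, 1, 0⟩,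
    ⟨1, 4, 2, 2, 0⟩, ⟨1, 5, 1, 2, 0⟩, ⟨1, 5, 2, 3, 0⟩, ⟨1, 4, 2, 1, 0⟩, ⟨1, 6, 2, 4, 0⟩, ⟨1, 5,
    2, 2, 0⟩, ⟨1, 6, 2, 3, 0⟩, ⟨1, 5, 3, 3, 0⟩, ⟨1, 5, 2, 1, 0⟩, ⟨1, 6, 3, 4, 0⟩, ⟨1, 7, 2, 4,
    0⟩, ⟨1, 5, 3, 2, 0⟩, ⟨1, 6, 2, 2, 0⟩, ⟨1, 6, 3, 3, 0⟩, ⟨1, 7, 2, 3, 0⟩, ⟨1, 7, 3, 4, 0⟩,
    ⟨1, 8, 2, 4, 0⟩, ⟨1, 5, 3, 1, 0⟩, ⟨1, 7, 2, 2, 0⟩, ⟨1, 8, 3, 5, 0⟩, ⟨1, 6, 3, 2, 0⟩, ⟨1, 7,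
    3, 3, 0⟩, ⟨1, 8, 2, 3, 0⟩, ⟨1, 8, 3, 4, 0⟩, ⟨1, 9, 2, 4, 0⟩, ⟨1, 9, 3, 5, 0⟩, ⟨1, 7, 3, 2,
    0⟩, ⟨1, 9, 2, 3, 0⟩, ⟨1, 8, 3, 3, 0⟩, ⟨1, 9, 3, 4, 0⟩, ⟨1, 10, 2, 4, 0⟩, ⟨1, 8, 3, 2, 0⟩,
    ⟨1, 10, 3, 5, 0⟩, ⟨1, 9, 3, 3, 0⟩, ⟨1, 10, 3, 4, 0⟩, ⟨1, 11, 3, 5, 0⟩, ⟨1, 10, 3, 3, 0⟩,
    ⟨1, 11, 3, 4, 0⟩, ⟨1, 12, 3, 5, 0⟩, ⟨1, 12, 3, 4, 0⟩, ⟨1, 13, 3, 5, 0⟩]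
hx := 3
hy := 5
hz := 0
hl := 14
bx := (.ofNat 2, [(.ofNat 1, ⟨.ofNat 3, .ofNat 0, .negSucc 0, .ofNat 0, .ofNat 0⟩), (.ofNat 3,
    ⟨.negSucc 0, .ofNat 0, .ofNat 1, .ofNat 0, .ofNat 0⟩)])
bx' := (.ofNat 1, [(.ofNat 1, ⟨.ofNat 3, .ofNat 0, .negSucc 0, .ofNat 0, .ofNat 0⟩)])
bY := (.ofNat 2, [(.ofNat 1, ⟨.negSucc 0, .ofNat 1, .negSucc 0, .ofNat 0, .ofNat 0⟩), (.ofNat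
    1, ⟨.ofNat 1, .negSucc 0, .ofNat 1, .ofNat 2, .ofNat 0⟩)])
bY' := (.ofNat 1, [(.ofNat 1, ⟨.ofNat 3, .ofNat 0, .negSucc 0, .ofNat 0, .ofNat 0⟩), (.ofNat 1,
    ⟨.ofNat 2, .ofNat 0, .ofNat 1, .negSucc 0, .ofNat 0⟩)])
bz := (.ofNat 1, [(.ofNat 1, ⟨.ofNat 0, .ofNat 0, .ofNat 0, .ofNat 0, .ofNat 1⟩)])
bz' := (.ofNat 1, [(.ofNat 1, ⟨.ofNat 0, .ofNat 0, .ofNat 0, .ofNat 0, .negSucc 0⟩)])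
bl := (.ofNat 1, [(.ofNat 1, ⟨.negSucc 0, .ofNat 0, .ofNat 0, .ofNat 1, .ofNat 0⟩), (.ofNat 1,
    ⟨.negSucc 0, .ofNat 1, .negSucc 0, .ofNat 0, .ofNat 0⟩), (.ofNat 1, ⟨.ofNat 2, .ofNat 0,
    .ofNat 1, .negSucc 0, .ofNat 0⟩)])
bl' := (.ofNat 1, [(.ofNat 1, ⟨.ofNat 1, .negSucc 0, .ofNat 1, .ofNat 2, .ofNat 0⟩), (.ofNat 3,
    ⟨.ofNat 3, .ofNat 0, .negSucc 0, .ofNat 0, .ofNat 0⟩), (.ofNat 2, ⟨.ofNat 2, .ofNat 0,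
    .ofNat 1, .negSucc 0, .ofNat 0⟩)])
r := 4

/-- Partitions of `14` that realize the lattice points of level one. -/
def r14 : List (List ℕ) :=
[[7, 7], [2, 2, 5, 5], [2, 4, 8], [2, 2, 2, 8], [1, 1, 6, 6], [1, 1, 1, 1, 5, 5], [2, 4, 4, 4],
    [3, 3, 4, 4], [2, 2, 2, 2, 2, 2, 2], [1, 1, 3, 3, 3, 3], [1, 1, 1, 1, 1, 1, 1, 1, 1, 1, 1,
    1, 1, 1], [4, 5, 5], [3, 5, 6], [1, 3, 5, 5], [1, 1, 2, 5, 5], [4, 4, 6], [2, 3, 4, 5], [1,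
    1, 1, 5, 6], [2, 2, 2, 3, 5], [3, 3, 3, 5], [1, 2, 2, 2, 2, 5], [1, 2, 3, 3, 5], [1, 1, 2,
    2, 3, 5], [2, 2, 2, 4, 4], [1, 1, 3, 3, 6], [2, 2, 2, 2, 2, 4], [1, 1, 1, 2, 2, 2, 5], [2,
    2, 3, 3, 4], [1, 1, 1, 3, 3, 5], [2, 2, 2, 2, 3, 3], [1, 1, 1, 1, 2, 3, 5], [1, 2, 2, 2, 2,
    2, 3], [1, 1, 1, 1, 1, 2, 2, 5], [2, 3, 3, 3, 3], [1, 1, 1, 1, 1, 3, 6], [1, 1, 2, 2, 2, 2,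
    2, 2], [1, 2, 2, 3, 3, 3], [1, 1, 2, 2, 2, 3, 3], [1, 1, 1, 1, 1, 1, 3, 5], [1, 1, 1, 2, 2,
    2, 2, 3], [1, 1, 1, 1, 1, 1, 1, 2, 5], [1, 1, 1, 1, 2, 2, 2, 2, 2], [1, 1, 1, 2, 3, 3, 3],
    [1, 1, 1, 1, 1, 1, 1, 1, 6], [1, 1, 1, 1, 2, 2, 3, 3], [1, 1, 1, 1, 1, 2, 2, 2, 3], [1, 1,
    1, 1, 1, 1, 1, 1, 1, 5], [1, 1, 1, 1, 1, 3, 3, 3], [1, 1, 1, 1, 1, 1, 2, 2, 2, 2], [1, 1,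
    1, 1, 1, 1, 2, 3, 3], [1, 1, 1, 1, 1, 1, 1, 2, 2, 3], [1, 1, 1, 1, 1, 1, 1, 1, 2, 2, 2],
    [1, 1, 1, 1, 1, 1, 1, 1, 3, 3], [1, 1, 1, 1, 1, 1, 1, 1, 1, 2, 3], [1, 1, 1, 1, 1, 1, 1, 1,
    1, 1, 2, 2], [1, 1, 1, 1, 1, 1, 1, 1, 1, 1, 1, 3], [1, 1, 1, 1, 1, 1, 1, 1, 1, 1, 1, 1, 2]]

theorem f14_A : f14.okA = true := by decide +kernel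

theorem f14_B : f14.okB = true := by decide +kernel

theorem f14_good : good f14.F f14.UN 14 3 5 0 r14 = true := by
  decide +kernel

end Pool.Agent.Helper75.Poly
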